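import Mathlib

open Finset

namespace V11176

variable {n : ℕ}

/-- `w` is increasing on the classes of `f`. -/
def IncOn {X : Type*} (f : Fin n → X) (w : Equiv.Perm (Fin n)) : Prop :=
  ∀ i j, i < j → f i = f j → w i < w j

/-- `g` is weakly increasing on the classes of `f`. -/
def WInc {X Y : Type*} [LE Y] (f : Fin n → X) (g : Fin n → Y) : Prop :=
  ∀ i j, i < j → f i = f j → g i ≤ g j

/-- The permutation `w` with `g ∘ w = f` that is increasing on the classes of `f`. -/
noncomputable def stdE {X : Type*} [LinearOrder X] (f g : Fin n → X) : Equiv.Perm (Fin n) :=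
  (Tuple.sort f).symm.trans (Tuple.sort g)

theorem sort_inc {X : Type*} [LinearOrder X] (f : Fin n → X) (i j : Fin n) (hij : i < j)
    (h : f (Tuple.sort f i) = f (Tuple.sort f j)) : Tuple.sort f i < Tuple.sort f j :=
  (Tuple.eq_sort_iff.1 rfl).2 i j hij h

theorem sort_symm_inc {X : Type*} [LinearOrder X] (f : Fin n → X) (i j : Fin n) (hij : i < j)
    (h : f i = f j) : (Tuple.sort f).symm i < (Tuple.sort f).symm j := by
  by_contra hc
  have hne : (Tuple.sort f).symm i ≠ (Tuple.sort f).symm j := fun h => by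
    have := (Tuple.sort f).symm.injective h
    omega
  have hlt : (Tuple.sort f).symm j < (Tuple.sort f).symm i := by omega
  have := sort_inc f _ _ hlt (by simp [h])
  simp only [Equiv.apply_symm_apply] at this
  omega

theorem stdE_unique {X : Type*} [LinearOrder X] (f g : Fin n → X) (w : Equiv.Perm (Fin n))
    (h1 : ∀ i, g (w i) = f i) (h2 : IncOn f w) : w = stdE f g := by
  have h3 : (Tuple.sort f).trans w = Tuple.sort g := by
    rw [Tuple.eq_sort_iff]
    constructor
    · intro i j hij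
      simp only [Function.comp, Equiv.coe_trans, h1]
      exact Tuple.monotone_sort f hij
    · intro i j hij h
      simp only [Equiv.coe_trans, Function.comp, h1] at h ⊢
      exact h2 _ _ (sort_inc f i j hij h) h
  rw [stdE, ← h3]
  ext i
  simp

theorem stdE_spec {X : Type*} [LinearOrder X] (f g : Fin n → X) (σ : Equiv.Perm (Fin n))
    (hσ : ∀ i, g (σ i) = f i) : (∀ i, g (stdE f g i) = f i) ∧ IncOn f (stdE f g) := by
  have hf : f = g ∘ σ := by ext i; simp [hσ]
  have key : f ∘ Tuple.sort f = g ∘ Tuple.sort g := by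
    rw [hf]; exact Tuple.comp_perm_comp_sort_eq_comp_sort
  have h1 : ∀ i, g (stdE f g i) = f i := by
    intro i
    have := congr_fun key ((Tuple.sort f).symm i)
    simp only [Function.comp, Equiv.apply_symm_apply] at this
    rw [this]
    rfl
  refine ⟨h1, fun i j hij h => ?_⟩
  have h2 := sort_symm_inc f i j hij h
  refine sort_inc g _ _ h2 ?_
  have e1 := h1 i
  have e2 := h1 j
  simp only [stdE, Equiv.coe_trans, Function.comp] at e1 e2
  rw [e1, e2, h]

/-- Normalisation of `x` with respect to a monotone `r`. -/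
noncomputable def nrm (r : Fin n → ℕ) (x : Equiv.Perm (Fin n)) : Equiv.Perm (Fin n) :=
  (Tuple.sort (r ∘ x)).symm

theorem nrm_val {r : Fin n → ℕ} (hr : Monotone r) (x : Equiv.Perm (Fin n)) (i : Fin n) :
    r (nrm r x i) = r (x i) := by
  have h1 : (r ∘ x) ∘ Tuple.sort (r ∘ x) = r ∘ Tuple.sort r := Tuple.comp_perm_comp_sort_eq_comp_sort
  rw [Tuple.sort_eq_refl_iff_monotone.2 hr] at h1
  have := congr_fun h1 (nrm r x i)
  simp only [nrm, Function.comp, Equiv.apply_symm_apply, Equiv.refl_apply] at this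
  rw [this]
  rfl

theorem nrm_inc' {r : Fin n → ℕ} (hr : Monotone r) (x : Equiv.Perm (Fin n)) :
    IncOn r (nrm r x).symm := by
  intro i j hij h
  have h2 : (nrm r x).symm = Tuple.sort (r ∘ x) := by simp [nrm]
  rw [h2]
  refine sort_inc _ _ _ hij ?_
  have e : ∀ k, (r ∘ x) (Tuple.sort (r ∘ x) k) = r k := by
    intro k
    have := nrm_val hr x (Tuple.sort (r ∘ x) k)
    simp only [nrm, Equiv.symm_apply_apply] at this
    simp only [Function.comp]
    rw [← this]
  rw [e, e, h]

theorem nrm_eq {r : Fin n → ℕ} (hr : Monotone r) (x : Equiv.Perm (Fin n)) (h : IncOn r x.symm) :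
    nrm r x = x := by
  have : x.symm = Tuple.sort (r ∘ x) := by
    rw [Tuple.eq_sort_iff]
    constructor
    · intro i j hij
      simp only [Function.comp, Equiv.apply_symm_apply]
      exact hr hij
    · intro i j hij h2
      simp only [Function.comp, Equiv.apply_symm_apply] at h2
      exact h i j hij h2
  rw [nrm, ← this]
  simp

theorem nrm_inc {X : Type*} {r : Fin n → ℕ} (hr : Monotone r) (f : Fin n → X)
    (x : Equiv.Perm (Fin n)) (h : WInc f (r ∘ x)) : IncOn f (nrm r x) := by
  intro i j hij hf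
  have h1 := h i j hij hf
  simp only [Function.comp] at h1
  rw [← nrm_val hr x i, ← nrm_val hr x j] at h1
  by_contra hc
  have hne : nrm r x i ≠ nrm r x j := fun h => by
    have := (nrm r x).injective h
    omega
  have hlt : nrm r x j < nrm r x i := by omega
  have h2 := hr hlt.le
  have h3 := nrm_inc' hr x _ _ hlt (le_antisymm h2 h1)
  simp only [Equiv.symm_apply_apply] at h3
  omega

/-- Compatible permutations. -/
def InD {a : ℕ} (r : Fin n → ℕ) (c : Fin n → Fin a) (w : Equiv.Perm (Fin n)) : Prop :=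
  IncOn c w ∧ IncOn r w.symm

open Classical in
theorem card_D {a : ℕ} {r : Fin n → ℕ} (hr : Monotone r) (c : Fin n → Fin a) :
    #{w | InD r c w} = #{w | InD r (c ∘ Tuple.sort c) w} := by
  refine Finset.card_nbij' (fun w => nrm r ((Tuple.sort c).trans w))
    (fun w => nrm r ((Tuple.sort c).symm.trans w)) ?_ ?_ ?_ ?_
  · intro w hw
    simp only [coe_filter, mem_univ, true_and, Set.mem_ofPred_eq] at hw ⊢
    refine ⟨?_, nrm_inc' hr _⟩
    refine nrm_inc hr _ _ ?_
    intro i j hij h
    simp only [Function.comp] at h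
    have h1 := sort_inc c i j hij h
    have h2 := hw.1 _ _ h1 h
    simp only [Function.comp, Equiv.coe_trans]
    exact hr h2.le
  · intro w hw
    simp only [coe_filter, mem_univ, true_and, Set.mem_ofPred_eq] at hw ⊢
    refine ⟨?_, nrm_inc' hr _⟩
    refine nrm_inc hr _ _ ?_
    intro i j hij h
    have h1 := sort_symm_inc c i j hij h
    have h2 := hw.1 _ _ h1 (by simp [h])
    simp only [Function.comp, Equiv.coe_trans]
    exact hr h2.le
  · intro w hw
    simp only [coe_filter, mem_univ, true_and, Set.mem_ofPred_eq] at hw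
    have h1 : r ∘ ((Tuple.sort c).symm.trans (nrm r ((Tuple.sort c).trans w))) = r ∘ w := by
      ext i
      simp only [Function.comp, Equiv.coe_trans, nrm_val hr, Equiv.apply_symm_apply]
    simp only
    have h2 : nrm r ((Tuple.sort c).symm.trans (nrm r ((Tuple.sort c).trans w))) = nrm r w := by
      unfold nrm at h1 ⊢
      rw [h1]
    rw [h2]
    exact nrm_eq hr w hw.2
  · intro w hw
    simp only [coe_filter, mem_univ, true_and, Set.mem_ofPred_eq] at hw
    have h1 : r ∘ ((Tuple.sort c).trans (nrm r ((Tuple.sort c).symm.trans w))) = r ∘ w := by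
      ext i
      simp only [Function.comp, Equiv.coe_trans, nrm_val hr, Equiv.symm_apply_apply]
    simp only
    have h2 : nrm r ((Tuple.sort c).trans (nrm r ((Tuple.sort c).symm.trans w))) = nrm r w := by
      unfold nrm at h1 ⊢
      rw [h1]
    rw [h2]
    exact nrm_eq hr w hw.2

open Classical in
theorem card_D2 {a : ℕ} {r : Fin n → ℕ} (hr : Monotone r) (c : Fin n → Fin a) (hc : Monotone c) :
    #{w | InD r c w} = #{κ : Fin n → Fin a | (∃ σ : Equiv.Perm (Fin n), ∀ i, κ (σ i) = c i) ∧
      WInc r κ} := by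
  refine Finset.card_nbij' (fun w => fun u => c (w.symm u)) (fun κ => Tuple.sort κ) ?_ ?_ ?_ ?_
  · intro w hw
    simp only [coe_filter, mem_univ, true_and, Set.mem_ofPred_eq] at hw ⊢
    refine ⟨⟨w, fun i => by simp⟩, fun i j hij h => hc (hw.2 i j hij h).le⟩
  · intro κ hκ
    simp only [coe_filter, mem_univ, true_and, Set.mem_ofPred_eq] at hκ ⊢
    obtain ⟨⟨σ, hσ⟩, hw⟩ := hκ
    have hcs : κ ∘ Tuple.sort κ = c := by
      have h1 : κ ∘ σ = c := by ext i; simp [hσ]
      have h2 : Monotone (κ ∘ σ) := by rw [h1]; exact hc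
      rw [← Tuple.comp_sort_eq_comp_iff_monotone.2 h2, h1]
    constructor
    · intro i j hij h
      refine sort_inc κ i j hij ?_
      have e1 := congr_fun hcs i
      have e2 := congr_fun hcs j
      simp only [Function.comp] at e1 e2
      rw [e1, e2, h]
    · intro u v huv h
      have h1 := hw u v huv h
      by_contra hcon
      have hne : (Tuple.sort κ).symm u ≠ (Tuple.sort κ).symm v := fun h => by
        have := (Tuple.sort κ).symm.injective h
        omega
      have hlt : (Tuple.sort κ).symm v < (Tuple.sort κ).symm u := by omega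
      have h2 := Tuple.monotone_sort κ hlt.le
      simp only [Function.comp, Equiv.apply_symm_apply] at h2
      have h3 := sort_inc κ _ _ hlt (by simpa using le_antisymm h2 h1)
      simp only [Equiv.apply_symm_apply] at h3
      omega
  · intro w hw
    simp only [coe_filter, mem_univ, true_and, Set.mem_ofPred_eq] at hw
    symm
    simp only
    rw [Tuple.eq_sort_iff]
    constructor
    · intro i j hij
      simp only [Function.comp, Equiv.symm_apply_apply]
      exact hc hij
    · intro i j hij h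
      simp only [Equiv.symm_apply_apply] at h
      exact hw.1 i j hij h
  · intro κ hκ
    simp only [coe_filter, mem_univ, true_and, Set.mem_ofPred_eq] at hκ
    obtain ⟨⟨σ, hσ⟩, hw⟩ := hκ
    have hcs : κ ∘ Tuple.sort κ = c := by
      have h1 : κ ∘ σ = c := by ext i; simp [hσ]
      have h2 : Monotone (κ ∘ σ) := by rw [h1]; exact hc
      rw [← Tuple.comp_sort_eq_comp_iff_monotone.2 h2, h1]
    simp only
    ext u
    rw [← hcs]
    simp

open Classical in
theorem card_D3 {a : ℕ} {r : Fin n → ℕ} (hr : Monotone r) (c : Fin n → Fin a) :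
    #{w | InD r c w} = #{κ : Fin n → Fin a | (∃ σ : Equiv.Perm (Fin n), ∀ i, κ (σ i) = c i) ∧
      WInc r κ} := by
  rw [card_D hr c, card_D2 hr _ (Tuple.monotone_sort c)]
  congr 1
  ext κ
  simp only [mem_filter, mem_univ, true_and, and_congr_left_iff]
  intro _
  constructor
  · rintro ⟨σ, hσ⟩
    refine ⟨(Tuple.sort c).symm.trans σ, fun i => ?_⟩
    have := hσ ((Tuple.sort c).symm i)
    simpa using this
  · rintro ⟨σ, hσ⟩
    refine ⟨(Tuple.sort c).trans σ, fun i => ?_⟩
    simp [hσ]

theorem card_sigma_prod {A B C : Type*} [Fintype A] [Fintype B] [Fintype C]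
    (P : A → B → Prop) (Q : A → C → Prop) [∀ x, DecidablePred (P x)] [∀ x, DecidablePred (Q x)] :
    #{q : A × (B × C) | P q.1 q.2.1 ∧ Q q.1 q.2.2} = ∑ x : A, #{y | P x y} * #{z | Q x z} := by
  have h1 : ∀ x : A, #{y | P x y} * #{z | Q x z} = #{q : B × C | P x q.1 ∧ Q x q.2} := by
    intro x
    rw [← Finset.card_product, ← Finset.filter_product]
    simp
  simp_rw [h1]
  rw [← Finset.card_sigma]
  refine Finset.card_nbij' (fun q => ⟨q.1, q.2⟩) (fun q => (q.1, q.2)) ?_ ?_ ?_ ?_
  · intro q hq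
    simpa using hq
  · intro q hq
    simpa using hq
  · intro q _; rfl
  · intro q _; rfl

open Classical in
theorem count_T {a : ℕ} {r : Fin n → ℕ} :
    #{p : Equiv.Perm (Fin n) × (Fin n → Fin a) | IncOn r (stdE (p.2 ∘ p.1) p.2).symm} =
    ∑ c : Fin n → Fin a, #{w | InD r c w} * #{τ : Equiv.Perm (Fin n) | ∀ i, c (τ i) = c i} := by
  refine Eq.trans ?_ (card_sigma_prod (fun c w => InD r c w)
    (fun (c : Fin n → Fin a) (τ : Equiv.Perm (Fin n)) => ∀ i, c (τ i) = c i))
  refine Finset.card_nbij' (fun p => (p.2 ∘ p.1, (stdE (p.2 ∘ p.1) p.2,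
      p.1.trans (stdE (p.2 ∘ p.1) p.2).symm)))
    (fun q => (q.2.2.trans q.2.1, fun u => q.1 (q.2.1.symm u))) ?_ ?_ ?_ ?_
  · rintro ⟨π, κ⟩ hp
    simp only [coe_filter, mem_univ, true_and, Set.mem_ofPred_eq] at hp ⊢
    obtain ⟨h1, h2⟩ := stdE_spec (κ ∘ π) κ π (fun i => rfl)
    refine ⟨⟨h2, hp⟩, fun i => ?_⟩
    have h3 := h1 ((stdE (κ ∘ π) κ).symm (π i))
    simp only [Equiv.apply_symm_apply] at h3
    simp only [Equiv.coe_trans, Function.comp] at h3 ⊢
    rw [← h3]
  · rintro ⟨c, w, τ⟩ hq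
    simp only [coe_filter, mem_univ, true_and, Set.mem_ofPred_eq] at hq ⊢
    obtain ⟨⟨h1, h2⟩, h3⟩ := hq
    have h4 : w = stdE ((fun u => c (w.symm u)) ∘ (τ.trans w)) (fun u => c (w.symm u)) := by
      refine stdE_unique _ _ w (fun i => ?_) (fun i j hij h => ?_)
      · simp [h3]
      · simp only [Function.comp, Equiv.coe_trans, Equiv.symm_apply_apply, h3] at h
        exact h1 i j hij h
    rw [← h4]
    exact h2
  · rintro ⟨π, κ⟩ hp
    obtain ⟨h1, h2⟩ := stdE_spec (κ ∘ π) κ π (fun i => rfl)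
    simp only [Prod.mk.injEq]
    constructor
    · ext i; simp
    · ext u
      have h3 := h1 ((stdE (κ ∘ π) κ).symm u)
      simp only [Equiv.apply_symm_apply] at h3
      rw [← h3]
  · rintro ⟨c, w, τ⟩ hq
    simp only [coe_filter, mem_univ, true_and, Set.mem_ofPred_eq] at hq
    obtain ⟨⟨h1, h2⟩, h3⟩ := hq
    have h4 : w = stdE ((fun u => c (w.symm u)) ∘ (τ.trans w)) (fun u => c (w.symm u)) := by
      refine stdE_unique _ _ w (fun i => ?_) (fun i j hij h => ?_)
      · simp [h3]
      · simp only [Function.comp, Equiv.coe_trans, Equiv.symm_apply_apply, h3] at h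
        exact h1 i j hij h
    simp only [Prod.mk.injEq]
    refine ⟨?_, ?_, ?_⟩
    · ext i; simp [h3]
    · exact h4.symm
    · rw [← h4]
      ext i; simp

open Classical in
theorem count_T' {a : ℕ} {r : Fin n → ℕ} :
    #{p : Equiv.Perm (Fin n) × (Fin n → Fin a) | WInc r p.2} =
    ∑ c : Fin n → Fin a, #{κ : Fin n → Fin a |
      (∃ σ : Equiv.Perm (Fin n), ∀ i, κ (σ i) = c i) ∧ WInc r κ} *
        #{τ : Equiv.Perm (Fin n) | ∀ i, c (τ i) = c i} := by
  refine Eq.trans ?_ (card_sigma_prod
    (fun (c : Fin n → Fin a) (κ : Fin n → Fin a) =>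
      (∃ σ : Equiv.Perm (Fin n), ∀ i, κ (σ i) = c i) ∧ WInc r κ)
    (fun (c : Fin n → Fin a) (τ : Equiv.Perm (Fin n)) => ∀ i, c (τ i) = c i))
  refine Finset.card_nbij' (fun p => (p.2 ∘ p.1, (p.2,
      p.1.trans (stdE (p.2 ∘ p.1) p.2).symm)))
    (fun q => (q.2.2.trans (stdE q.1 q.2.1), q.2.1)) ?_ ?_ ?_ ?_
  · rintro ⟨π, κ⟩ hp
    simp only [coe_filter, mem_univ, true_and, Set.mem_ofPred_eq] at hp ⊢
    obtain ⟨h1, h2⟩ := stdE_spec (κ ∘ π) κ π (fun i => rfl)
    refine ⟨⟨⟨π, fun i => rfl⟩, hp⟩, fun i => ?_⟩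
    have h3 := h1 ((stdE (κ ∘ π) κ).symm (π i))
    simp only [Equiv.apply_symm_apply] at h3
    simp only [Equiv.coe_trans, Function.comp] at h3 ⊢
    rw [← h3]
  · rintro ⟨c, κ, τ⟩ hq
    simp only [coe_filter, mem_univ, true_and, Set.mem_ofPred_eq] at hq ⊢
    exact hq.1.2
  · rintro ⟨π, κ⟩ hp
    simp only [Prod.mk.injEq, and_true]
    ext i; simp
  · rintro ⟨c, κ, τ⟩ hq
    simp only [coe_filter, mem_univ, true_and, Set.mem_ofPred_eq] at hq
    obtain ⟨⟨⟨σ, hσ⟩, h2⟩, h3⟩ := hq
    obtain ⟨h4, h5⟩ := stdE_spec c κ σ hσ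
    have h6 : κ ∘ (τ.trans (stdE c κ)) = c := by
      ext i
      simp only [Function.comp, Equiv.coe_trans, h4, h3]
    simp only [Prod.mk.injEq, true_and]
    refine ⟨h6, ?_⟩
    rw [h6]
    ext i; simp

open Classical in
/-- Main count: pairs `(π, κ)` versus weakly increasing colourings. -/
theorem count_main {a : ℕ} {r : Fin n → ℕ} (hr : Monotone r) :
    #{p : Equiv.Perm (Fin n) × (Fin n → Fin a) | IncOn r (stdE (p.2 ∘ p.1) p.2).symm} =
    n.factorial * #{κ : Fin n → Fin a | WInc r κ} := by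
  rw [count_T]
  simp_rw [card_D3 hr]
  rw [← count_T']
  have : (univ.filter (fun p : Equiv.Perm (Fin n) × (Fin n → Fin a) => WInc r p.2)) =
      (univ : Finset (Equiv.Perm (Fin n))) ×ˢ (univ.filter (fun κ : Fin n → Fin a => WInc r κ)) := by
    ext p
    simp
  rw [this, Finset.card_product, Finset.card_univ, Fintype.card_perm, Fintype.card_fin]

end V11176
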