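import Mathlib

open Finset

namespace V11176.MinSym

/-- The partial sums (including the total) of a list, shifted by `o`. -/
def ps : ℕ → List ℕ → Finset ℕ
  | _, [] => ∅
  | o, a :: l => insert (o + a) (ps (o + a) l)

theorem ps_append (o : ℕ) (l1 l2 : List ℕ) : ps o (l1 ++ l2) = ps o l1 ∪ ps (o + l1.sum) l2 := by
  induction l1 generalizing o with
  | nil => simp [ps]
  | cons a l ih =>
    simp only [List.cons_append, ps, ih, List.sum_cons, Finset.insert_union, Nat.add_assoc]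

theorem ps_ones (o k : ℕ) : ps o (List.replicate k 1) = Ioc o (o + k) := by
  induction k generalizing o with
  | zero => simp [ps]
  | succ k ih =>
    rw [List.replicate_succ, ps, ih]
    ext x
    simp only [mem_insert, mem_Ioc]
    omega

theorem ps_le (o : ℕ) (l : List ℕ) (x : ℕ) (hx : x ∈ ps o l) : x ≤ o + l.sum := by
  induction l generalizing o with
  | nil => simp [ps] at hx
  | cons a l ih =>
    simp only [ps, mem_insert] at hx
    rw [List.sum_cons]
    rcases hx with h | h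
    · omega
    · have := ih _ h; omega

theorem ps_gt (o : ℕ) (l : List ℕ) (hl : ∀ x ∈ l, 0 < x) (x : ℕ) (hx : x ∈ ps o l) : o < x := by
  induction l generalizing o with
  | nil => simp [ps] at hx
  | cons a l ih =>
    simp only [ps, mem_insert] at hx
    have ha := hl a (by simp)
    rcases hx with h | h
    · omega
    · have := ih (o + a) (fun x hx => hl x (List.mem_cons_of_mem _ hx)) h; omega

theorem ps_total (o : ℕ) (l : List ℕ) (hl : l ≠ []) : o + l.sum ∈ ps o l := by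
  induction l generalizing o with
  | nil => exact absurd rfl hl
  | cons a l ih =>
    simp only [ps, mem_insert, List.sum_cons]
    rcases l with _ | ⟨b, l⟩
    · left; simp
    · right
      have := ih (o + a) (by simp)
      rwa [Nat.add_assoc] at this

theorem ps_card (o : ℕ) (l : List ℕ) : #(ps o l) ≤ l.length := by
  induction l generalizing o with
  | nil => simp [ps]
  | cons a l ih =>
    simp only [ps, List.length_cons]
    exact (card_insert_le _ _).trans (by have := ih (o + a); omega)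

theorem sum_ge_length (l : List ℕ) (hl : ∀ x ∈ l, 0 < x) : l.length ≤ l.sum := by
  induction l with
  | nil => simp
  | cons a l ih =>
    have ha := hl a (by simp)
    have := ih (fun x hx => hl x (List.mem_cons_of_mem _ hx))
    simp only [List.length_cons, List.sum_cons]
    omega

theorem all_one (l : List ℕ) (hl : ∀ x ∈ l, 0 < x) (h : l.sum ≤ l.length) : ∀ x ∈ l, x = 1 := by
  induction l with
  | nil => simp
  | cons a l ih =>
    have ha := hl a (by simp)
    have h1 := sum_ge_length l (fun x hx => hl x (List.mem_cons_of_mem _ hx))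
    simp only [List.length_cons, List.sum_cons] at h
    intro x hx
    rcases List.mem_cons.1 hx with h2 | h2
    · omega
    · exact ih (fun x hx => hl x (List.mem_cons_of_mem _ hx)) (by omega) x h2

theorem full_iff (m : ℕ) (hm : 1 ≤ m) (l : List ℕ) (hl : ∀ x ∈ l, 0 < x) (hs : l.sum = m) :
    Icc 1 (m - 1) ⊆ ps 0 l ↔ ∀ x ∈ l, x = 1 := by
  have hne : l ≠ [] := by rintro rfl; simp at hs; omega
  constructor
  · intro h
    apply all_one l hl
    have h1 : Icc 1 m ⊆ ps 0 l := by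
      intro x hx
      rw [mem_Icc] at hx
      by_cases hxm : x = m
      · have := ps_total 0 l hne
        rw [hs, Nat.zero_add] at this
        rw [hxm]; exact this
      · exact h (by rw [mem_Icc]; omega)
    have h2 := card_le_card h1
    rw [Nat.card_Icc] at h2
    have h3 := ps_card 0 l
    omega
  · intro h
    have h1 : l = List.replicate l.length 1 := List.eq_replicate_iff.2 ⟨rfl, h⟩
    have h2 : l.length = m := by
      rw [h1] at hs
      simpa using hs
    rw [h1, ps_ones, h2]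
    intro x hx
    rw [mem_Icc] at hx
    rw [mem_Ioc]
    omega

variable {ι : Type*}

/-- Symmetry of the family `(D s)_{s ∈ S}` in degree `n`. -/
def SymF (n : ℕ) (S : Finset ι) (D : ι → Finset ℕ) : Prop :=
  ∀ l l' : List ℕ, (∀ x ∈ l, 0 < x) → l.sum = n → l.Perm l' →
    #{s ∈ S | D s ⊆ ps 0 l} = #{s ∈ S | D s ⊆ ps 0 l'}

theorem symF_congr {n : ℕ} {S : Finset ι} {D D' : ι → Finset ℕ} (h : SymF n S D)
    (hD : ∀ s ∈ S, D s = D' s) : SymF n S D' := by
  intro l l' hl hs hp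
  have := h l l' hl hs hp
  have e : ∀ m : List ℕ, ({s ∈ S | D' s ⊆ ps 0 m} : Finset ι) = {s ∈ S | D s ⊆ ps 0 m} := by
    intro m
    apply Finset.filter_congr
    intro s hs
    rw [hD s hs]
  rw [e, e, this]

theorem sub_out {n : ℕ} (hn : 1 ≤ n) (A : Finset ℕ) (hA : A ⊆ Icc 1 (n + 1)) (l : List ℕ)
    (_hl : ∀ x ∈ l, 0 < x) (hs : l.sum = n) :
    A ⊆ ps 0 (l ++ [2]) ↔ n + 1 ∉ A ∧ A ∩ Icc 1 (n - 1) ⊆ ps 0 l := by
  have hne : l ≠ [] := by rintro rfl; simp at hs; omega
  have hT : n ∈ ps 0 l := by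
    have := ps_total 0 l hne
    rwa [hs, Nat.zero_add] at this
  rw [ps_append]
  simp only [hs, Nat.zero_add, ps]
  constructor
  · intro h
    constructor
    · intro h1
      have h2 := h h1
      simp only [mem_union, mem_insert, notMem_empty, or_false] at h2
      rcases h2 with h2 | h2
      · have := ps_le 0 l _ h2; omega
      · omega
    · intro x hx
      rw [mem_inter, mem_Icc] at hx
      have h2 := h hx.1
      simp only [mem_union, mem_insert, notMem_empty, or_false] at h2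
      rcases h2 with h2 | h2
      · exact h2
      · omega
  · rintro ⟨h1, h2⟩ x hx
    simp only [mem_union, mem_insert, notMem_empty, or_false]
    left
    have h3 := hA hx
    rw [mem_Icc] at h3
    by_cases h4 : x ≤ n - 1
    · exact h2 (by rw [mem_inter, mem_Icc]; exact ⟨hx, h3.1, h4⟩)
    · have h5 : x ≠ n + 1 := fun h => h1 (h ▸ hx)
      have h6 : x = n := by omega
      rw [h6]; exact hT

theorem sub_in {n : ℕ} (hn : 1 ≤ n) (A : Finset ℕ) (hA : A ⊆ Icc 1 (n + 1)) (l : List ℕ)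
    (_hl : ∀ x ∈ l, 0 < x) (hs : l.sum = n) :
    A ⊆ ps 0 (l ++ [1, 1]) ↔ A ∩ Icc 1 (n - 1) ⊆ ps 0 l := by
  have hne : l ≠ [] := by rintro rfl; simp at hs; omega
  have hT : n ∈ ps 0 l := by
    have := ps_total 0 l hne
    rwa [hs, Nat.zero_add] at this
  rw [ps_append]
  simp only [hs, Nat.zero_add, ps]
  constructor
  · intro h x hx
    rw [mem_inter, mem_Icc] at hx
    have h2 := h hx.1
    simp only [mem_union, mem_insert, notMem_empty, or_false] at h2
    rcases h2 with h2 | h2 | h2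
    · exact h2
    · omega
    · omega
  · intro h2 x hx
    simp only [mem_union, mem_insert, notMem_empty, or_false]
    have h3 := hA hx
    rw [mem_Icc] at h3
    by_cases h4 : x ≤ n - 1
    · left; exact h2 (by rw [mem_inter, mem_Icc]; exact ⟨hx, h3.1, h4⟩)
    · by_cases h5 : x = n
      · left; rw [h5]; exact hT
      · right; left; omega

theorem sym_out {n : ℕ} (hn : 1 ≤ n) {S : Finset ι} {D : ι → Finset ℕ} (h : SymF (n + 2) S D)
    (hD : ∀ s ∈ S, D s ⊆ Icc 1 (n + 1)) :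
    SymF n {s ∈ S | n + 1 ∉ D s} (fun s => D s ∩ Icc 1 (n - 1)) := by
  intro l l' hl hs hp
  have hl' : ∀ x ∈ l', 0 < x := fun x hx => hl x (hp.mem_iff.2 hx)
  have hs' : l'.sum = n := by rw [← hp.sum_eq, hs]
  have key := h (l ++ [2]) (l' ++ [2]) (by
    intro x hx
    rw [List.mem_append] at hx
    rcases hx with hx | hx
    · exact hl x hx
    · simp at hx; omega) (by simp [hs]) (hp.append_right _)
  rw [filter_filter, filter_filter]
  rw [filter_congr (fun s hs1 => sub_out hn (D s) (hD s hs1) l hl hs),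
    filter_congr (fun s hs1 => sub_out hn (D s) (hD s hs1) l' hl' hs')] at key
  exact key

theorem sym_in {n : ℕ} (hn : 1 ≤ n) {S : Finset ι} {D : ι → Finset ℕ} (h : SymF (n + 2) S D)
    (hD : ∀ s ∈ S, D s ⊆ Icc 1 (n + 1)) :
    SymF n {s ∈ S | n + 1 ∈ D s} (fun s => D s ∩ Icc 1 (n - 1)) := by
  intro l l' hl hs hp
  have hl' : ∀ x ∈ l', 0 < x := fun x hx => hl x (hp.mem_iff.2 hx)
  have hs' : l'.sum = n := by rw [← hp.sum_eq, hs]
  have key := h (l ++ [1, 1]) (l' ++ [1, 1]) (by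
    intro x hx
    rw [List.mem_append] at hx
    rcases hx with hx | hx
    · exact hl x hx
    · simp at hx; omega) (by simp [hs]) (hp.append_right _)
  rw [filter_congr (fun s hs1 => sub_in hn (D s) (hD s hs1) l hl hs),
    filter_congr (fun s hs1 => sub_in hn (D s) (hD s hs1) l' hl' hs')] at key
  have key2 := sym_out hn h hD l l' hl hs hp
  have split : ∀ m : List ℕ, #{s ∈ S | D s ∩ Icc 1 (n - 1) ⊆ ps 0 m} =
      #{s ∈ {s ∈ S | n + 1 ∈ D s} | D s ∩ Icc 1 (n - 1) ⊆ ps 0 m} +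
      #{s ∈ {s ∈ S | n + 1 ∉ D s} | D s ∩ Icc 1 (n - 1) ⊆ ps 0 m} := by
    intro m
    rw [← card_filter_add_card_filter_not (s := {s ∈ S | D s ∩ Icc 1 (n - 1) ⊆ ps 0 m})
      (fun s => n + 1 ∈ D s)]
    congr 2
    · ext s; simp only [mem_filter]; tauto
    · ext s; simp only [mem_filter]; tauto
  rw [split l, split l'] at key
  beta_reduce at key2 ⊢
  omega

theorem sym_rm {m : ℕ} (hm : 1 ≤ m) {S : Finset ι} {D : ι → Finset ℕ} (h : SymF m S D) :
    SymF m {s ∈ S | D s ≠ ∅ ∧ D s ≠ Icc 1 (m - 1)} D := by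
  intro l l' hl hs hp
  have hl' : ∀ x ∈ l', 0 < x := fun x hx => hl x (hp.mem_iff.2 hx)
  have hs' : l'.sum = m := by rw [← hp.sum_eq, hs]
  have key := h l l' hl hs hp
  have split : ∀ k : List ℕ, #{s ∈ S | D s ⊆ ps 0 k} =
      #{s ∈ {s ∈ S | D s ≠ ∅ ∧ D s ≠ Icc 1 (m - 1)} | D s ⊆ ps 0 k} +
      #{s ∈ S | D s ⊆ ps 0 k ∧ ¬ (D s ≠ ∅ ∧ D s ≠ Icc 1 (m - 1))} := by
    intro k
    rw [← card_filter_add_card_filter_not (s := {s ∈ S | D s ⊆ ps 0 k})
      (fun s => D s ≠ ∅ ∧ D s ≠ Icc 1 (m - 1))]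
    congr 2
    · ext s; simp only [mem_filter]; tauto
    · ext s; simp only [mem_filter]; tauto
  have hmono : ({s ∈ S | D s ⊆ ps 0 l ∧ ¬ (D s ≠ ∅ ∧ D s ≠ Icc 1 (m - 1))} : Finset ι) =
      {s ∈ S | D s ⊆ ps 0 l' ∧ ¬ (D s ≠ ∅ ∧ D s ≠ Icc 1 (m - 1))} := by
    apply filter_congr
    intro s _
    have h1 := full_iff m hm l hl hs
    have h2 := full_iff m hm l' hl' hs'
    have h3 : (∀ x ∈ l, x = 1) ↔ ∀ x ∈ l', x = 1 :=
      ⟨fun h x hx => h x (hp.mem_iff.2 hx), fun h x hx => h x (hp.mem_iff.1 hx)⟩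
    have h4 : Icc 1 (m - 1) ⊆ ps 0 l ↔ Icc 1 (m - 1) ⊆ ps 0 l' := by rw [h1, h2, h3]
    by_cases e1 : D s = ∅
    · simp [e1]
    · by_cases e2 : D s = Icc 1 (m - 1)
      · rw [e2, h4]
      · simp [e1, e2]
  rw [split l, split l', hmono] at key
  omega

/-- Local statistics of the family. -/
structure CS (N : ℕ) (S : Finset ι) (D : ι → Finset ℕ) (p y u v : ℕ) : Prop where
  sub : ∀ s ∈ S, D s ⊆ Icc 1 N
  ne : ∀ s ∈ S, D s ≠ ∅
  nf : ∀ s ∈ S, D s ≠ Icc 1 N
  h1 : ∀ i, 1 ≤ i → i ≤ N → #{s ∈ S | i ∈ D s} = p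
  h2 : ∀ i, 1 ≤ i → i + 1 ≤ N → #{s ∈ S | i ∈ D s ∧ i + 1 ∈ D s} = y
  h3 : ∀ i j, 1 ≤ i → i + 2 ≤ j → j ≤ N → #{s ∈ S | i ∈ D s ∧ j ∈ D s} = u
  h4 : ∀ i j, 1 ≤ i → i + 3 ≤ j → j ≤ N → #{s ∈ S | i ∈ D s ∧ i + 1 ∈ D s ∧ j ∈ D s} = v
  h5 : ∀ i j, 1 ≤ j → j + 2 ≤ i → i + 1 ≤ N → #{s ∈ S | i ∈ D s ∧ i + 1 ∈ D s ∧ j ∈ D s} = v

/-- The family takes each value of `F` exactly once and no other value. -/
def Unif (S : Finset ι) (D : ι → Finset ℕ) (F : Finset (Finset ℕ)) : Prop :=
  (∀ s ∈ S, D s ∈ F) ∧ ∀ X ∈ F, #{s ∈ S | D s = X} = 1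

theorem unif_card {S : Finset ι} {D : ι → Finset ℕ} {F : Finset (Finset ℕ)} (h : Unif S D F)
    (P : Finset ℕ → Prop) [DecidablePred P] : #{s ∈ S | P (D s)} = #{X ∈ F | P X} := by
  refine card_bij (fun s _ => D s) ?_ ?_ ?_
  · intro s hs
    rw [mem_filter] at hs ⊢
    exact ⟨h.1 s hs.1, hs.2⟩
  · intro s hs s' hs' he
    rw [mem_filter] at hs hs'
    have h1 := h.2 (D s) (h.1 s hs.1)
    rw [card_eq_one] at h1
    obtain ⟨x, hx⟩ := h1
    have e1 : s ∈ ({x} : Finset ι) := by rw [← hx, mem_filter]; exact ⟨hs.1, rfl⟩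
    have e2 : s' ∈ ({x} : Finset ι) := by rw [← hx, mem_filter]; exact ⟨hs'.1, he.symm⟩
    rw [mem_singleton] at e1 e2
    rw [e1, e2]
  · intro X hX
    rw [mem_filter] at hX
    have h1 := h.2 X hX.1
    rw [card_eq_one] at h1
    obtain ⟨x, hx⟩ := h1
    have e1 : x ∈ ({s ∈ S | D s = X} : Finset ι) := by rw [hx]; simp
    rw [mem_filter] at e1
    exact ⟨x, by rw [mem_filter, e1.2]; exact ⟨e1.1, hX.2⟩, e1.2⟩

/-- singletons -/
def F1 (N : ℕ) : Finset (Finset ℕ) := (Icc 1 N).image (fun i => {i})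

theorem sum_card {N : ℕ} {S : Finset ι} {D : ι → Finset ℕ} {p y u v : ℕ}
    (h : CS N S D p y u v) : ∑ s ∈ S, #(D s) = N * p := by
  have h1 : ∀ s ∈ S, #(D s) = ∑ i ∈ Icc 1 N, if i ∈ D s then 1 else 0 := by
    intro s hs
    rw [← card_filter]
    congr 1
    ext i
    rw [mem_filter]
    exact ⟨fun hi => ⟨h.sub s hs hi, hi⟩, fun hi => hi.2⟩
  rw [sum_congr rfl h1, sum_comm]
  have h2 : ∀ i ∈ Icc 1 N, (∑ s ∈ S, if i ∈ D s then 1 else 0) = p := by
    intro i hi
    rw [mem_Icc] at hi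
    rw [← card_filter]
    exact h.h1 i hi.1 hi.2
  rw [sum_congr rfl h2, sum_const, Nat.card_Icc, smul_eq_mul, Nat.add_sub_cancel]

/-- If `p = 1` and no set has two elements then the family is the family of singletons. -/
theorem singles {N : ℕ} {S : Finset ι} {D : ι → Finset ℕ} {p y u v : ℕ}
    (h : CS N S D p y u v) (hp : p = 1) (hc : ∀ s ∈ S, #(D s) = 1) :
    #S = N ∧ Unif S D (F1 N) := by
  have h1 := sum_card h
  rw [sum_congr rfl hc, sum_const, smul_eq_mul, hp] at h1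
  refine ⟨by omega, ?_, ?_⟩
  · intro s hs
    obtain ⟨i, hi⟩ := card_eq_one.1 (hc s hs)
    rw [F1, mem_image]
    refine ⟨i, h.sub s hs (by rw [hi]; simp), hi.symm⟩
  · intro X hX
    rw [F1, mem_image] at hX
    obtain ⟨i, hi, rfl⟩ := hX
    rw [mem_Icc] at hi
    rw [← hp, ← h.h1 i hi.1 hi.2]
    congr 1
    apply filter_congr
    intro s hs
    constructor
    · intro e; rw [e]; simp
    · intro e
      obtain ⟨j, hj⟩ := card_eq_one.1 (hc s hs)
      rw [hj] at e ⊢
      rw [mem_singleton] at e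
      rw [e]

theorem card_zero_of {S : Finset ι} {P : ι → Prop} [DecidablePred P] (h : #{s ∈ S | P s} = 0) :
    ∀ s ∈ S, ¬ P s := by
  intro s hs hP
  have := card_eq_zero.1 h
  have h2 : s ∈ ({s ∈ S | P s} : Finset ι) := by rw [mem_filter]; exact ⟨hs, hP⟩
  rw [this] at h2
  simp at h2

/-- The main case. -/
theorem caseB {N : ℕ} (hN : 6 ≤ N) {S : Finset ι} {D : ι → Finset ℕ} {p y u v : ℕ}
    (h : CS N S D p y u v) (hne : S.Nonempty) (hS : #S ≤ N)
    (hB : ∀ s ∈ S, N ∈ D s → D s ∩ Icc 1 (N - 2) = ∅ ∨ D s ∩ Icc 1 (N - 2) = Icc 1 (N - 2)) :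
    #S = N ∧ Unif S D (F1 N) := by
  classical
  -- v = 0
  have hv : v = 0 := by
    rw [← h.h5 (N - 1) 1 le_rfl (by omega) (by omega), card_eq_zero, filter_eq_empty_iff]
    intro s hs hc
    have e : N - 1 + 1 = N := by omega
    rw [e] at hc
    rcases hB s hs hc.2.1 with h1 | h1
    · have : 1 ∈ D s ∩ Icc 1 (N - 2) := by rw [mem_inter, mem_Icc]; exact ⟨hc.2.2, le_rfl, by omega⟩
      rw [h1] at this
      simp at this
    · apply h.nf s hs
      apply subset_antisymm (h.sub s hs)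
      intro x hx
      rw [mem_Icc] at hx
      by_cases hx1 : x ≤ N - 2
      · have : x ∈ D s ∩ Icc 1 (N - 2) := by rw [h1, mem_Icc]; omega
        rw [mem_inter] at this
        exact this.1
      · by_cases hx2 : x = N
        · rw [hx2]; exact hc.2.1
        · have : x = N - 1 := by omega
          rw [this]; exact hc.1
  have hu : u = 0 := by
    rw [← h.h3 1 N le_rfl (by omega) le_rfl, card_eq_zero, filter_eq_empty_iff]
    intro s hs hc
    rcases hB s hs hc.2 with h1 | h1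
    · have : 1 ∈ D s ∩ Icc 1 (N - 2) := by rw [mem_inter, mem_Icc]; exact ⟨hc.1, le_rfl, by omega⟩
      rw [h1] at this
      simp at this
    · have h2 := h.h4 1 4 le_rfl (by omega) (by omega)
      rw [hv] at h2
      have h3 := card_zero_of h2 s hs
      apply h3
      have h4 : ∀ x, 1 ≤ x → x ≤ 4 → x ∈ D s := by
        intro x hx1 hx2
        have : x ∈ D s ∩ Icc 1 (N - 2) := by rw [h1, mem_Icc]; omega
        rw [mem_inter] at this
        exact this.1
      exact ⟨h4 1 le_rfl (by omega), h4 2 (by omega) (by omega), h4 4 (by omega) le_rfl⟩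
  have hfar : ∀ s ∈ S, ∀ i ∈ D s, ∀ j ∈ D s, j ≤ i + 1 := by
    intro s hs i hi j hj
    by_contra hc
    have hi' := mem_Icc.1 (h.sub s hs hi)
    have hj' := mem_Icc.1 (h.sub s hs hj)
    have h2 := h.h3 i j hi'.1 (by omega) hj'.2
    rw [hu] at h2
    exact card_zero_of h2 s hs ⟨hi, hj⟩
  have hcard2 : ∀ s ∈ S, #(D s) ≤ 2 := by
    intro s hs
    obtain ⟨i, hi⟩ := nonempty_iff_ne_empty.2 (h.ne s hs)
    set a := (D s).min' ⟨i, hi⟩ with ha
    have hsub : D s ⊆ {a, a + 1} := by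
      intro j hj
      have h1 : a ≤ j := min'_le _ _ hj
      have h2 := hfar s hs a (min'_mem _ _) j hj
      rw [mem_insert, mem_singleton]
      omega
    exact (card_le_card hsub).trans (card_insert_le _ _)
  have hsum := sum_card h
  have hcpos : ∀ s ∈ S, 1 ≤ #(D s) := fun s hs =>
    card_pos.2 (nonempty_iff_ne_empty.2 (h.ne s hs))
  have hle : ∑ s ∈ S, #(D s) ≤ 2 * #S := by
    calc ∑ s ∈ S, #(D s) ≤ ∑ s ∈ S, 2 := sum_le_sum hcard2
      _ = 2 * #S := by rw [sum_const, smul_eq_mul, mul_comm]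
  have hp2 : p ≤ 2 := by
    by_contra hc
    have : N * 3 ≤ N * p := Nat.mul_le_mul_left _ (by omega)
    omega
  have hp0 : p ≠ 0 := by
    intro hp
    obtain ⟨s, hs⟩ := hne
    have h1 : 1 ≤ ∑ s ∈ S, #(D s) := (hcpos s hs).trans
      (single_le_sum (f := fun s => #(D s)) (fun _ _ => Nat.zero_le _) hs)
    rw [hsum, hp] at h1
    omega
  have h2y : 2 * y ≤ p := by
    rw [← h.h1 2 (by omega) (by omega)]
    have e1 := h.h2 1 le_rfl (by omega)
    have e2 := h.h2 2 (by omega) (by omega)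
    have hdis : Disjoint ({s ∈ S | 1 ∈ D s ∧ 1 + 1 ∈ D s} : Finset ι)
        {s ∈ S | 2 ∈ D s ∧ 2 + 1 ∈ D s} := by
      rw [disjoint_filter]
      intro s hs h1 h2
      have := hfar s hs 1 h1.1 3 h2.2
      omega
    have hsub : ({s ∈ S | 1 ∈ D s ∧ 1 + 1 ∈ D s} : Finset ι) ∪
        {s ∈ S | 2 ∈ D s ∧ 2 + 1 ∈ D s} ⊆ {s ∈ S | 2 ∈ D s} := by
      intro s hs
      rw [mem_union, mem_filter, mem_filter] at hs
      rw [mem_filter]
      rcases hs with hs | hs
      · exact ⟨hs.1, hs.2.2⟩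
      · exact ⟨hs.1, hs.2.1⟩
    have := card_le_card hsub
    rw [card_union_of_disjoint hdis, e1, e2] at this
    omega
  by_cases hp : p = 1
  · refine singles h hp ?_
    have hy : y = 0 := by omega
    intro s hs
    refine le_antisymm ?_ (hcpos s hs)
    rw [card_le_one]
    intro i hi j hj
    have hi' := mem_Icc.1 (h.sub s hs hi)
    have hj' := mem_Icc.1 (h.sub s hs hj)
    by_contra hij
    have a1 := hfar s hs i hi j hj
    have a2 := hfar s hs j hj i hi
    rcases Nat.lt_or_gt_of_ne hij with h1 | h1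
    · have e : j = i + 1 := by omega
      have h2 := h.h2 i hi'.1 (by omega)
      rw [hy] at h2
      exact card_zero_of h2 s hs ⟨hi, e ▸ hj⟩
    · have e : i = j + 1 := by omega
      have h2 := h.h2 j hj'.1 (by omega)
      rw [hy] at h2
      exact card_zero_of h2 s hs ⟨hj, e ▸ hi⟩
  · exfalso
    have hp' : p = 2 := by omega
    have hSN : #S = N := by
      rw [hp'] at hsum
      omega
    have hall : ∀ s ∈ S, #(D s) = 2 := by
      by_contra hc
      push Not at hc
      obtain ⟨s, hs, hs2⟩ := hc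
      have hlt : ∑ s ∈ S, #(D s) < ∑ s ∈ S, 2 :=
        sum_lt_sum hcard2 ⟨s, hs, lt_of_le_of_ne (hcard2 s hs) hs2⟩
      rw [sum_const, smul_eq_mul, hsum, hp', hSN] at hlt
      omega
    have h12 : #{s ∈ S | 1 ∈ D s ∧ 1 + 1 ∈ D s} = #{s ∈ S | 1 ∈ D s} := by
      congr 1
      apply filter_congr
      intro s hs
      refine ⟨fun h => h.1, fun h1 => ⟨h1, ?_⟩⟩
      by_contra hc
      have hsub : D s ⊆ {1} := by
        intro j hj
        have hj' := mem_Icc.1 (h.sub s hs hj)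
        have := hfar s hs 1 h1 j hj
        rw [mem_singleton]
        by_contra hj1
        have : j = 1 + 1 := by omega
        exact hc (this ▸ hj)
      have := card_le_card hsub
      rw [hall s hs, card_singleton] at this
      omega
    rw [h.h2 1 le_rfl (by omega), h.h1 1 le_rfl (by omega)] at h12
    omega

end V11176.MinSym
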