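import Mathlib
import Pool.Agent.V11176.MinSymA

open Finset

namespace V11176.MinSym

variable {ι : Type*}

theorem mem_ps_one (i a b x : ℕ) :
    x ∈ ps 0 (List.replicate a 1 ++ i :: List.replicate b 1) ↔
      (0 < x ∧ x ≤ a) ∨ x = a + i ∨ (a + i < x ∧ x ≤ a + i + b) := by
  rw [ps_append, ps, ps_ones, ps_ones]
  simp only [mem_union, mem_insert, mem_Ioc, List.sum_replicate, smul_eq_mul, mul_one, Nat.zero_add]

theorem mem_ps_two (i j a b c x : ℕ) :
    x ∈ ps 0 (List.replicate a 1 ++ i :: (List.replicate b 1 ++ j :: List.replicate c 1)) ↔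
      (0 < x ∧ x ≤ a) ∨ x = a + i ∨ (a + i < x ∧ x ≤ a + i + b) ∨ x = a + i + b + j ∨
        (a + i + b + j < x ∧ x ≤ a + i + b + j + c) := by
  rw [ps_append, ps, ps_append, ps, ps_ones, ps_ones, ps_ones]
  simp only [mem_union, mem_insert, mem_Ioc, List.sum_replicate, smul_eq_mul, mul_one, Nat.zero_add]

theorem perm_one (i a b : ℕ) :
    (List.replicate a 1 ++ i :: List.replicate b 1).Perm (i :: List.replicate (a + b) 1) := by
  refine List.perm_middle.trans (List.Perm.cons _ ?_)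
  rw [List.replicate_add]

theorem perm_two (i j a b c : ℕ) :
    (List.replicate a 1 ++ i :: (List.replicate b 1 ++ j :: List.replicate c 1)).Perm
      (i :: j :: List.replicate (a + b + c) 1) := by
  refine List.perm_middle.trans (List.Perm.cons _ ?_)
  rw [← List.append_assoc]
  refine List.perm_middle.trans (List.Perm.cons _ ?_)
  rw [List.replicate_add, List.replicate_add]

section stats

variable {N : ℕ} {S : Finset ι} {D : ι → Finset ℕ}

theorem avoid_one (h : SymF (N + 1) S D) (hD : ∀ s ∈ S, D s ⊆ Icc 1 N) (i : ℕ) (h1 : 1 ≤ i)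
    (h2 : i ≤ N) : #{s ∈ S | i ∉ D s} = #{s ∈ S | D s ⊆ ps 0 (2 :: List.replicate (N - 1) 1)} := by
  have hp := perm_one 2 (i - 1) (N - i)
  have e : i - 1 + (N - i) = N - 1 := by omega
  rw [e] at hp
  rw [← h _ _ (by
    intro x hx
    simp only [List.mem_append, List.mem_replicate, List.mem_cons] at hx
    omega) (by simp; omega) hp]
  congr 1
  apply filter_congr
  intro s hs
  constructor
  · intro hi x hx
    have hx' := mem_Icc.1 (hD s hs hx)
    rw [mem_ps_one]
    have : x ≠ i := fun h => hi (h ▸ hx)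
    omega
  · intro hsub hi
    have := hsub hi
    rw [mem_ps_one] at this
    omega

theorem avoid_adj (h : SymF (N + 1) S D) (hD : ∀ s ∈ S, D s ⊆ Icc 1 N) (i : ℕ) (h1 : 1 ≤ i)
    (h2 : i + 1 ≤ N) : #{s ∈ S | i ∉ D s ∧ i + 1 ∉ D s} =
      #{s ∈ S | D s ⊆ ps 0 (3 :: List.replicate (N - 2) 1)} := by
  have hp := perm_one 3 (i - 1) (N - 1 - i)
  have e : i - 1 + (N - 1 - i) = N - 2 := by omega
  rw [e] at hp
  rw [← h _ _ (by
    intro x hx
    simp only [List.mem_append, List.mem_replicate, List.mem_cons] at hx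
    omega) (by simp; omega) hp]
  congr 1
  apply filter_congr
  intro s hs
  constructor
  · rintro ⟨hi, hi2⟩ x hx
    have hx' := mem_Icc.1 (hD s hs hx)
    rw [mem_ps_one]
    have : x ≠ i := fun h => hi (h ▸ hx)
    have : x ≠ i + 1 := fun h => hi2 (h ▸ hx)
    omega
  · intro hsub
    refine ⟨fun hi => ?_, fun hi => ?_⟩
    · have := hsub hi
      rw [mem_ps_one] at this
      omega
    · have := hsub hi
      rw [mem_ps_one] at this
      omega

theorem avoid_far (h : SymF (N + 1) S D) (hD : ∀ s ∈ S, D s ⊆ Icc 1 N) (i j : ℕ) (h1 : 1 ≤ i)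
    (h2 : i + 2 ≤ j) (h3 : j ≤ N) : #{s ∈ S | i ∉ D s ∧ j ∉ D s} =
      #{s ∈ S | D s ⊆ ps 0 (2 :: 2 :: List.replicate (N - 3) 1)} := by
  have hp := perm_two 2 2 (i - 1) (j - i - 2) (N - j)
  have e : i - 1 + (j - i - 2) + (N - j) = N - 3 := by omega
  rw [e] at hp
  rw [← h _ _ (by
    intro x hx
    simp only [List.mem_append, List.mem_replicate, List.mem_cons] at hx
    omega) (by simp; omega) hp]
  congr 1
  apply filter_congr
  intro s hs
  constructor
  · rintro ⟨hi, hi2⟩ x hx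
    have hx' := mem_Icc.1 (hD s hs hx)
    rw [mem_ps_two]
    have : x ≠ i := fun h => hi (h ▸ hx)
    have : x ≠ j := fun h => hi2 (h ▸ hx)
    omega
  · intro hsub
    refine ⟨fun hi => ?_, fun hi => ?_⟩
    · have := hsub hi
      rw [mem_ps_two] at this
      omega
    · have := hsub hi
      rw [mem_ps_two] at this
      omega

theorem avoid_three (h : SymF (N + 1) S D) (hD : ∀ s ∈ S, D s ⊆ Icc 1 N) (i j : ℕ) (h1 : 1 ≤ i)
    (h2 : i + 3 ≤ j) (h3 : j ≤ N) : #{s ∈ S | i ∉ D s ∧ i + 1 ∉ D s ∧ j ∉ D s} =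
      #{s ∈ S | D s ⊆ ps 0 (3 :: 2 :: List.replicate (N - 4) 1)} := by
  have hp := perm_two 3 2 (i - 1) (j - i - 3) (N - j)
  have e : i - 1 + (j - i - 3) + (N - j) = N - 4 := by omega
  rw [e] at hp
  rw [← h _ _ (by
    intro x hx
    simp only [List.mem_append, List.mem_replicate, List.mem_cons] at hx
    omega) (by simp; omega) hp]
  congr 1
  apply filter_congr
  intro s hs
  constructor
  · rintro ⟨hi, hi2, hi3⟩ x hx
    have hx' := mem_Icc.1 (hD s hs hx)
    rw [mem_ps_two]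
    have : x ≠ i := fun h => hi (h ▸ hx)
    have : x ≠ i + 1 := fun h => hi2 (h ▸ hx)
    have : x ≠ j := fun h => hi3 (h ▸ hx)
    omega
  · intro hsub
    refine ⟨fun hi => ?_, fun hi => ?_, fun hi => ?_⟩
    all_goals
      have := hsub hi
      rw [mem_ps_two] at this
      omega

theorem avoid_three' (h : SymF (N + 1) S D) (hD : ∀ s ∈ S, D s ⊆ Icc 1 N) (i j : ℕ) (h1 : 1 ≤ j)
    (h2 : j + 2 ≤ i) (h3 : i + 1 ≤ N) : #{s ∈ S | i ∉ D s ∧ i + 1 ∉ D s ∧ j ∉ D s} =
      #{s ∈ S | D s ⊆ ps 0 (3 :: 2 :: List.replicate (N - 4) 1)} := by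
  have hp := (perm_two 2 3 (j - 1) (i - j - 2) (N - 1 - i)).trans (List.Perm.swap 3 2 _)
  have e : j - 1 + (i - j - 2) + (N - 1 - i) = N - 4 := by omega
  rw [e] at hp
  rw [← h _ _ (by
    intro x hx
    simp only [List.mem_append, List.mem_replicate, List.mem_cons] at hx
    omega) (by simp; omega) hp]
  congr 1
  apply filter_congr
  intro s hs
  constructor
  · rintro ⟨hi, hi2, hi3⟩ x hx
    have hx' := mem_Icc.1 (hD s hs hx)
    rw [mem_ps_two]
    have : x ≠ i := fun h => hi (h ▸ hx)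
    have : x ≠ i + 1 := fun h => hi2 (h ▸ hx)
    have : x ≠ j := fun h => hi3 (h ▸ hx)
    omega
  · intro hsub
    refine ⟨fun hi => ?_, fun hi => ?_, fun hi => ?_⟩
    all_goals
      have := hsub hi
      rw [mem_ps_two] at this
      omega

end stats

theorem ie2 (S : Finset ι) (P Q : ι → Prop) [DecidablePred P] [DecidablePred Q] :
    #{s ∈ S | P s ∧ Q s} + #{s ∈ S | ¬ P s} + #{s ∈ S | ¬ Q s} =
      #S + #{s ∈ S | ¬ P s ∧ ¬ Q s} := by
  rw [card_eq_sum_ones S]
  simp only [card_filter, ← sum_add_distrib]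
  apply sum_congr rfl
  intro s _
  by_cases h1 : P s <;> by_cases h2 : Q s <;> simp [h1, h2]

theorem ie3 (S : Finset ι) (P Q R : ι → Prop) [DecidablePred P] [DecidablePred Q]
    [DecidablePred R] :
    #{s ∈ S | P s ∧ Q s ∧ R s} + #{s ∈ S | ¬ P s} + #{s ∈ S | ¬ Q s} + #{s ∈ S | ¬ R s} +
      #{s ∈ S | ¬ P s ∧ ¬ Q s ∧ ¬ R s} =
      #S + #{s ∈ S | ¬ P s ∧ ¬ Q s} + #{s ∈ S | ¬ P s ∧ ¬ R s} + #{s ∈ S | ¬ Q s ∧ ¬ R s} := by
  rw [card_eq_sum_ones S]
  simp only [card_filter, ← sum_add_distrib]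
  apply sum_congr rfl
  intro s _
  by_cases h1 : P s <;> by_cases h2 : Q s <;> by_cases h3 : R s <;> simp [h1, h2, h3]

/-- complement family -/
def Dc (N : ℕ) (D : ι → Finset ℕ) : ι → Finset ℕ := fun s => Icc 1 N \ D s

theorem cs_both {N : ℕ} {S : Finset ι} {D : ι → Finset ℕ}
    (h : SymF (N + 1) S D) (hD : ∀ s ∈ S, D s ⊆ Icc 1 N) (hne : ∀ s ∈ S, D s ≠ ∅)
    (hnf : ∀ s ∈ S, D s ≠ Icc 1 N) (hN : 1 ≤ N) :
    ∃ p y u v p' y' u' v', p + p' = #S ∧ CS N S D p y u v ∧ CS N S (Dc N D) p' y' u' v' := by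
  set T1 := #{s ∈ S | D s ⊆ ps 0 (2 :: List.replicate (N - 1) 1)} with hT1
  set T3 := #{s ∈ S | D s ⊆ ps 0 (3 :: List.replicate (N - 2) 1)} with hT3
  set T2 := #{s ∈ S | D s ⊆ ps 0 (2 :: 2 :: List.replicate (N - 3) 1)} with hT2
  set T4 := #{s ∈ S | D s ⊆ ps 0 (3 :: 2 :: List.replicate (N - 4) 1)} with hT4
  have hle : T1 ≤ #S := card_filter_le _ _
  refine ⟨#S - T1, #S + T3 - 2 * T1, #S + T2 - 2 * T1, #S + T3 + 2 * T2 - 3 * T1 - T4,
    T1, T3, T2, T4, by omega, ?_, ?_⟩
  · refine ⟨hD, hne, hnf, ?_, ?_, ?_, ?_, ?_⟩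
    · intro i h1 h2
      have := avoid_one h hD i h1 h2
      have h3 := card_filter_add_card_filter_not (s := S) (fun s => i ∈ D s)
      omega
    · intro i h1 h2
      have a1 := avoid_one h hD i h1 (by omega)
      have a2 := avoid_one h hD (i + 1) (by omega) (by omega)
      have a3 := avoid_adj h hD i h1 h2
      have a4 := ie2 S (fun s => i ∈ D s) (fun s => i + 1 ∈ D s)
      omega
    · intro i j h1 h2 h3
      have a1 := avoid_one h hD i h1 (by omega)
      have a2 := avoid_one h hD j (by omega) (by omega)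
      have a3 := avoid_far h hD i j h1 h2 h3
      have a4 := ie2 S (fun s => i ∈ D s) (fun s => j ∈ D s)
      omega
    · intro i j h1 h2 h3
      have a1 := avoid_one h hD i h1 (by omega)
      have a2 := avoid_one h hD j (by omega) (by omega)
      have a3 := avoid_one h hD (i + 1) (by omega) (by omega)
      have a4 := avoid_adj h hD i h1 (by omega)
      have a5 := avoid_far h hD i j h1 (by omega) h3
      have a6 := avoid_far h hD (i + 1) j (by omega) (by omega) h3
      have a7 := avoid_three h hD i j h1 h2 h3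
      have a8 := ie3 S (fun s => i ∈ D s) (fun s => i + 1 ∈ D s) (fun s => j ∈ D s)
      omega
    · intro i j h1 h2 h3
      have a1 := avoid_one h hD i (by omega) (by omega)
      have a2 := avoid_one h hD j (by omega) (by omega)
      have a3 := avoid_one h hD (i + 1) (by omega) (by omega)
      have a4 := avoid_adj h hD i (by omega) (by omega)
      have a5 := avoid_far h hD j i h1 (by omega) (by omega)
      have a6 := avoid_far h hD j (i + 1) (by omega) (by omega) h3
      have a7 := avoid_three' h hD i j h1 h2 h3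
      have a8 := ie3 S (fun s => i ∈ D s) (fun s => i + 1 ∈ D s) (fun s => j ∈ D s)
      have e1 : #{s ∈ S | i ∉ D s ∧ j ∉ D s} = #{s ∈ S | j ∉ D s ∧ i ∉ D s} := by
        congr 1; apply filter_congr; intro s _; tauto
      have e2 : #{s ∈ S | i + 1 ∉ D s ∧ j ∉ D s} = #{s ∈ S | j ∉ D s ∧ i + 1 ∉ D s} := by
        congr 1; apply filter_congr; intro s _; tauto
      omega
  · have hmem : ∀ i, 1 ≤ i → i ≤ N → ∀ s, (i ∈ Dc N D s ↔ i ∉ D s) := by
      intro i h1 h2 s
      simp only [Dc, mem_sdiff, mem_Icc]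
      tauto
    refine ⟨fun s _ => sdiff_subset, ?_, ?_, ?_, ?_, ?_, ?_, ?_⟩
    · intro s hs h0
      apply hnf s hs
      exact subset_antisymm (hD s hs) (sdiff_eq_empty_iff_subset.1 h0)
    · intro s hs h0
      obtain ⟨i, hi⟩ := nonempty_iff_ne_empty.2 (hne s hs)
      have h1 := hD s hs hi
      rw [← h0, Dc, mem_sdiff] at h1
      exact h1.2 hi
    · intro i h1 h2
      rw [hT1, ← avoid_one h hD i h1 h2]
      congr 1
      exact filter_congr (fun s _ => hmem i h1 h2 s)
    · intro i h1 h2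
      rw [hT3, ← avoid_adj h hD i h1 h2]
      congr 1
      exact filter_congr (fun s _ => by rw [hmem i h1 (by omega) s, hmem (i+1) (by omega) h2 s])
    · intro i j h1 h2 h3
      rw [hT2, ← avoid_far h hD i j h1 h2 h3]
      congr 1
      exact filter_congr (fun s _ => by rw [hmem i h1 (by omega) s, hmem j (by omega) h3 s])
    · intro i j h1 h2 h3
      rw [hT4, ← avoid_three h hD i j h1 h2 h3]
      congr 1
      exact filter_congr (fun s _ => by
        rw [hmem i h1 (by omega) s, hmem (i+1) (by omega) (by omega) s, hmem j (by omega) h3 s])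
    · intro i j h1 h2 h3
      rw [hT4, ← avoid_three' h hD i j h1 h2 h3]
      congr 1
      exact filter_congr (fun s _ => by
        rw [hmem i (by omega) (by omega) s, hmem (i+1) (by omega) h3 s,
          hmem j (by omega) (by omega) s])

/-- If all neighbours always occur together then some set is full. -/
theorem y_lt {N : ℕ} {S : Finset ι} {D : ι → Finset ℕ} {p y u v : ℕ}
    (h : CS N S D p y u v) (hN : 1 ≤ N) (hp : 1 ≤ p) : y ≠ p := by
  intro hy
  have h1 := h.h1 1 le_rfl hN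
  have hpos : 0 < #{s ∈ S | 1 ∈ D s} := by omega
  obtain ⟨s, hs⟩ := card_pos.1 hpos
  rw [mem_filter] at hs
  have key : ∀ k, k + 1 ≤ N → k + 1 ∈ D s := by
    intro k
    induction k with
    | zero => intro _; exact hs.2
    | succ k ih =>
      intro hk
      have hk1 := ih (by omega)
      have e1 := h.h2 (k + 1) (by omega) hk
      have e2 := h.h1 (k + 1) (by omega) (by omega)
      have hsub : ({s ∈ S | k + 1 ∈ D s ∧ k + 1 + 1 ∈ D s} : Finset ι) ⊆ {s ∈ S | k + 1 ∈ D s} := by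
        intro s hs
        rw [mem_filter] at hs ⊢
        exact ⟨hs.1, hs.2.1⟩
      have heq := eq_of_subset_of_card_le hsub (by rw [e1, e2, hy])
      have : s ∈ ({s ∈ S | k + 1 ∈ D s} : Finset ι) := by rw [mem_filter]; exact ⟨hs.1, hk1⟩
      rw [← heq, mem_filter] at this
      exact this.2.2
  apply h.nf s hs.1
  apply subset_antisymm (h.sub s hs.1)
  intro x hx
  rw [mem_Icc] at hx
  have := key (x - 1) (by omega)
  rwa [Nat.sub_add_cancel hx.1] at this

theorem p_pos {N : ℕ} {S : Finset ι} {D : ι → Finset ℕ} {p y u v : ℕ}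
    (h : CS N S D p y u v) (hne : S.Nonempty) : 1 ≤ p := by
  obtain ⟨s, hs⟩ := hne
  obtain ⟨i, hi⟩ := nonempty_iff_ne_empty.2 (h.ne s hs)
  have hi' := mem_Icc.1 (h.sub s hs hi)
  rw [← h.h1 i hi'.1 hi'.2]
  exact card_pos.2 ⟨s, by rw [mem_filter]; exact ⟨hs, hi⟩⟩

theorem base1 {N : ℕ} {S : Finset ι} {D : ι → Finset ℕ} {y u v : ℕ}
    (h : CS N S D 1 y u v) (hN : 1 ≤ N) (hc : 4 ≤ N ∨ #S = N) : #S = N ∧ Unif S D (F1 N) := by
  have hcpos : ∀ s ∈ S, 1 ≤ #(D s) := fun s hs =>
    card_pos.2 (nonempty_iff_ne_empty.2 (h.ne s hs))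
  refine singles h rfl ?_
  rcases hc with hN4 | hSN
  · have hy := y_lt h hN le_rfl
    have hy1 : y ≤ 1 := by
      have e1 := h.h2 1 le_rfl (by omega)
      have e2 := h.h1 1 le_rfl hN
      have e3 : #{s ∈ S | 1 ∈ D s ∧ 1 + 1 ∈ D s} ≤ #{s ∈ S | 1 ∈ D s} := by
        apply card_le_card
        intro s hs
        rw [mem_filter] at hs ⊢
        exact ⟨hs.1, hs.2.1⟩
      omega
    have hy0 : y = 0 := by omega
    have hu1 : u ≤ 1 := by
      have e1 := h.h3 1 3 le_rfl (by omega) (by omega)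
      have e2 := h.h1 1 le_rfl hN
      have e3 : #{s ∈ S | 1 ∈ D s ∧ 3 ∈ D s} ≤ #{s ∈ S | 1 ∈ D s} := by
        apply card_le_card
        intro s hs
        rw [mem_filter] at hs ⊢
        exact ⟨hs.1, hs.2.1⟩
      omega
    have hu0 : u = 0 := by
      by_contra hu
      have hu' : u = 1 := by omega
      have hpos : 0 < #{s ∈ S | 1 ∈ D s} := by rw [h.h1 1 le_rfl hN]; omega
      obtain ⟨s, hs⟩ := card_pos.1 hpos
      have hgo : ∀ j, 3 ≤ j → j ≤ N → j ∈ D s := by
        intro j hj1 hj2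
        have e1 := h.h3 1 j le_rfl hj1 hj2
        have hsub : ({s ∈ S | 1 ∈ D s ∧ j ∈ D s} : Finset ι) ⊆ {s ∈ S | 1 ∈ D s} := by
          intro s hs
          rw [mem_filter] at hs ⊢
          exact ⟨hs.1, hs.2.1⟩
        have heq := eq_of_subset_of_card_le hsub (by rw [e1, h.h1 1 le_rfl hN, hu'])
        rw [← heq, mem_filter] at hs
        exact hs.2.2
      have h34 := h.h2 3 (by omega) (by omega)
      rw [hy0] at h34
      rw [mem_filter] at hs
      exact card_zero_of h34 s hs.1 ⟨hgo 3 le_rfl (by omega), hgo 4 (by omega) (by omega)⟩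
    intro s hs
    refine le_antisymm ?_ (hcpos s hs)
    rw [card_le_one]
    intro i hi j hj
    have hi' := mem_Icc.1 (h.sub s hs hi)
    have hj' := mem_Icc.1 (h.sub s hs hj)
    by_contra hij
    have go : ∀ a b, a ∈ D s → b ∈ D s → 1 ≤ a → b ≤ N → a < b → False := by
      intro a b ha hb ha1 hb1 hab
      by_cases e : b = a + 1
      · have h2 := h.h2 a ha1 (by omega)
        rw [hy0] at h2
        exact card_zero_of h2 s hs ⟨ha, e ▸ hb⟩
      · have h2 := h.h3 a b ha1 (by omega) hb1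
        rw [hu0] at h2
        exact card_zero_of h2 s hs ⟨ha, hb⟩
    rcases Nat.lt_or_gt_of_ne hij with h1 | h1
    · exact go i j hi hj hi'.1 hj'.2 h1
    · exact go j i hj hi hj'.1 hi'.2 h1
  · by_contra hc
    push Not at hc
    obtain ⟨s, hs, hs2⟩ := hc
    have hlt : ∑ s ∈ S, 1 < ∑ s ∈ S, #(D s) :=
      sum_lt_sum hcpos ⟨s, hs, lt_of_le_of_ne (hcpos s hs) (Ne.symm hs2)⟩
    rw [sum_const, smul_eq_mul, sum_card h, hSN] at hlt
    omega

end V11176.MinSym
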