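import Mathlib
import Pool.Agent.V11176.MinSymB

open Finset

namespace V11176.MinSym

variable {ι : Type*}

theorem dec44 : ∀ y u : Fin 2, ∀ a0 a1 a2 a3 : Bool,
    a0.toNat + a1.toNat + a2.toNat + a3.toNat = 2 →
    ∀ b0 b1 b2 b3 : Bool, b0.toNat + b1.toNat + b2.toNat + b3.toNat = 2 →
    (a0 && b0).toNat + (a1 && b1).toNat + (a2 && b2).toNat + (a3 && b3).toNat = y.val →
    ∀ c0 c1 c2 c3 : Bool, c0.toNat + c1.toNat + c2.toNat + c3.toNat = 2 →
    (b0 && c0).toNat + (b1 && c1).toNat + (b2 && c2).toNat + (b3 && c3).toNat = y.val →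
    (a0 && c0).toNat + (a1 && c1).toNat + (a2 && c2).toNat + (a3 && c3).toNat = u.val →
    ∀ d0 d1 d2 d3 : Bool, d0.toNat + d1.toNat + d2.toNat + d3.toNat = 2 →
    (c0 && d0).toNat + (c1 && d1).toNat + (c2 && d2).toNat + (c3 && d3).toNat = y.val →
    (a0 && d0).toNat + (a1 && d1).toNat + (a2 && d2).toNat + (a3 && d3).toNat = u.val →
    (b0 && d0).toNat + (b1 && d1).toNat + (b2 && d2).toNat + (b3 && d3).toNat = u.val →
    (a0 && b0 && c0 && d0) = true ∨ (a1 && b1 && c1 && d1) = true ∨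
      (a2 && b2 && c2 && d2) = true ∨ (a3 && b3 && c3 && d3) = true := by
  decide +kernel

/-- binary code of a column -/
def code (a b c d e : Bool) : ℕ :=
  a.toNat + 2 * b.toNat + 4 * c.toNat + 8 * d.toNat + 16 * e.toNat

/-- the codes of the exceptional family -/
def codes : List ℕ := [4, 9, 10, 18, 21]

set_option synthInstance.maxSize 100000 in
set_option synthInstance.maxHeartbeats 4000000 in
theorem dec54 : ∀ y u : Fin 2,
    ∀ a0 a1 a2 a3 : Bool, a0.toNat + a1.toNat + a2.toNat + a3.toNat = 2 →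
    ∀ b0 b1 b2 b3 : Bool, b0.toNat + b1.toNat + b2.toNat + b3.toNat = 2 →
    (a0 && b0).toNat + (a1 && b1).toNat + (a2 && b2).toNat + (a3 && b3).toNat = y.val →
    ∀ c0 c1 c2 c3 : Bool, c0.toNat + c1.toNat + c2.toNat + c3.toNat = 2 →
    (b0 && c0).toNat + (b1 && c1).toNat + (b2 && c2).toNat + (b3 && c3).toNat = y.val →
    (a0 && c0).toNat + (a1 && c1).toNat + (a2 && c2).toNat + (a3 && c3).toNat = u.val →
    ∀ d0 d1 d2 d3 : Bool, d0.toNat + d1.toNat + d2.toNat + d3.toNat = 2 →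
    (c0 && d0).toNat + (c1 && d1).toNat + (c2 && d2).toNat + (c3 && d3).toNat = y.val →
    (a0 && d0).toNat + (a1 && d1).toNat + (a2 && d2).toNat + (a3 && d3).toNat = u.val →
    (b0 && d0).toNat + (b1 && d1).toNat + (b2 && d2).toNat + (b3 && d3).toNat = u.val →
    ∀ e0 e1 e2 e3 : Bool, e0.toNat + e1.toNat + e2.toNat + e3.toNat = 2 →
    (d0 && e0).toNat + (d1 && e1).toNat + (d2 && e2).toNat + (d3 && e3).toNat = y.val →
    (a0 && e0).toNat + (a1 && e1).toNat + (a2 && e2).toNat + (a3 && e3).toNat = u.val →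
    (b0 && e0).toNat + (b1 && e1).toNat + (b2 && e2).toNat + (b3 && e3).toNat = u.val →
    (c0 && e0).toNat + (c1 && e1).toNat + (c2 && e2).toNat + (c3 && e3).toNat = u.val →
    False := by
  decide +kernel

set_option synthInstance.maxSize 100000 in
set_option synthInstance.maxHeartbeats 4000000 in
theorem dec55 : ∀ y u : Fin 2,
    ∀ a0 a1 a2 a3 a4 : Bool, a0.toNat + a1.toNat + a2.toNat + a3.toNat + a4.toNat = 2 →
    ∀ b0 b1 b2 b3 b4 : Bool, b0.toNat + b1.toNat + b2.toNat + b3.toNat + b4.toNat = 2 →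
    (a0 && b0).toNat + (a1 && b1).toNat + (a2 && b2).toNat + (a3 && b3).toNat + (a4 && b4).toNat = y.val →
    ∀ c0 c1 c2 c3 c4 : Bool, c0.toNat + c1.toNat + c2.toNat + c3.toNat + c4.toNat = 2 →
    (b0 && c0).toNat + (b1 && c1).toNat + (b2 && c2).toNat + (b3 && c3).toNat + (b4 && c4).toNat = y.val →
    (a0 && c0).toNat + (a1 && c1).toNat + (a2 && c2).toNat + (a3 && c3).toNat + (a4 && c4).toNat = u.val →
    ∀ d0 d1 d2 d3 d4 : Bool, d0.toNat + d1.toNat + d2.toNat + d3.toNat + d4.toNat = 2 →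
    (c0 && d0).toNat + (c1 && d1).toNat + (c2 && d2).toNat + (c3 && d3).toNat + (c4 && d4).toNat = y.val →
    (a0 && d0).toNat + (a1 && d1).toNat + (a2 && d2).toNat + (a3 && d3).toNat + (a4 && d4).toNat = u.val →
    (b0 && d0).toNat + (b1 && d1).toNat + (b2 && d2).toNat + (b3 && d3).toNat + (b4 && d4).toNat = u.val →
    ∀ e0 e1 e2 e3 e4 : Bool, e0.toNat + e1.toNat + e2.toNat + e3.toNat + e4.toNat = 2 →
    (d0 && e0).toNat + (d1 && e1).toNat + (d2 && e2).toNat + (d3 && e3).toNat + (d4 && e4).toNat = y.val →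
    (a0 && e0).toNat + (a1 && e1).toNat + (a2 && e2).toNat + (a3 && e3).toNat + (a4 && e4).toNat = u.val →
    (b0 && e0).toNat + (b1 && e1).toNat + (b2 && e2).toNat + (b3 && e3).toNat + (b4 && e4).toNat = u.val →
    (c0 && e0).toNat + (c1 && e1).toNat + (c2 && e2).toNat + (c3 && e3).toNat + (c4 && e4).toNat = u.val →
    (a0 && b0 && c0 && d0 && e0) = true ∨ (a1 && b1 && c1 && d1 && e1) = true ∨ (a2 && b2 && c2 && d2 && e2) = true ∨ (a3 && b3 && c3 && d3 && e3) = true ∨ (a4 && b4 && c4 && d4 && e4) = true ∨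
      (code a0 b0 c0 d0 e0 ∈ codes ∧ code a1 b1 c1 d1 e1 ∈ codes ∧ code a2 b2 c2 d2 e2 ∈ codes ∧ code a3 b3 c3 d3 e3 ∈ codes ∧ code a4 b4 c4 d4 e4 ∈ codes ∧
      [code a0 b0 c0 d0 e0, code a1 b1 c1 d1 e1, code a2 b2 c2 d2 e2, code a3 b3 c3 d3 e3, code a4 b4 c4 d4 e4].Nodup) := by
  decide +kernel

end V11176.MinSym
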