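import Mathlib
import Pool.Agent.V11176.MinSymC

open Finset

namespace V11176.MinSym

variable {ι : Type*}

/-- the exceptional family, descent sets of the standard tableaux of shape `(3,3)` -/
def F33 : Finset (Finset ℕ) := {{3}, {1, 4}, {2, 4}, {2, 5}, {1, 3, 5}}

/-- complements (in `[1,N]`) of the members of a family -/
def compl (N : ℕ) (F : Finset (Finset ℕ)) : Finset (Finset ℕ) := F.image (fun X => Icc 1 N \ X)

def cd (A : Finset ℕ) : ℕ :=
  code (decide (1 ∈ A)) (decide (2 ∈ A)) (decide (3 ∈ A)) (decide (4 ∈ A)) (decide (5 ∈ A))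

theorem cd_inj (A B : Finset ℕ) (hA : A ⊆ Icc 1 5) (hB : B ⊆ Icc 1 5) (h : cd A = cd B) :
    A = B := by
  unfold cd code at h
  have l1 := Bool.toNat_le (decide (1 ∈ A))
  have l2 := Bool.toNat_le (decide (2 ∈ A))
  have l3 := Bool.toNat_le (decide (3 ∈ A))
  have l4 := Bool.toNat_le (decide (4 ∈ A))
  have l5 := Bool.toNat_le (decide (5 ∈ A))
  have m1 := Bool.toNat_le (decide (1 ∈ B))
  have m2 := Bool.toNat_le (decide (2 ∈ B))
  have m3 := Bool.toNat_le (decide (3 ∈ B))
  have m4 := Bool.toNat_le (decide (4 ∈ B))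
  have m5 := Bool.toNat_le (decide (5 ∈ B))
  have e1 : (decide (1 ∈ A)).toNat = (decide (1 ∈ B)).toNat := by omega
  have e2 : (decide (2 ∈ A)).toNat = (decide (2 ∈ B)).toNat := by omega
  have e3 : (decide (3 ∈ A)).toNat = (decide (3 ∈ B)).toNat := by omega
  have e4 : (decide (4 ∈ A)).toNat = (decide (4 ∈ B)).toNat := by omega
  have e5 : (decide (5 ∈ A)).toNat = (decide (5 ∈ B)).toNat := by omega
  have tr : ∀ P Q : Prop, ∀ [Decidable P] [Decidable Q],
      (decide P).toNat = (decide Q).toNat → (P ↔ Q) := by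
    intro P Q _ _ h
    by_cases hP : P <;> by_cases hQ : Q <;> simp_all
  have f1 := tr _ _ e1
  have f2 := tr _ _ e2
  have f3 := tr _ _ e3
  have f4 := tr _ _ e4
  have f5 := tr _ _ e5
  have key : ∀ x, 1 ≤ x → x ≤ 5 → (x ∈ A ↔ x ∈ B) := by
    intro x hx1 hx2
    interval_cases x <;> assumption
  ext x
  constructor
  · intro hx
    have := mem_Icc.1 (hA hx)
    exact (key x this.1 this.2).1 hx
  · intro hx
    have := mem_Icc.1 (hB hx)
    exact (key x this.1 this.2).2 hx

theorem F33_sub : ∀ X ∈ F33, X ⊆ Icc 1 5 := by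
  unfold F33
  decide

theorem F33_codes : ∀ X ∈ F33, cd X ∈ codes := by
  unfold F33
  decide

theorem mem_F33 (A : Finset ℕ) (hA : A ⊆ Icc 1 5) (h : cd A ∈ codes) : A ∈ F33 := by
  unfold codes at h
  simp only [List.mem_cons, List.not_mem_nil, or_false] at h
  unfold F33
  simp only [mem_insert, mem_singleton]
  rcases h with h | h | h | h | h
  · left; exact cd_inj _ _ hA (by decide) (by rw [h]; decide)
  · right; left; exact cd_inj _ _ hA (by decide) (by rw [h]; decide)
  · right; right; left; exact cd_inj _ _ hA (by decide) (by rw [h]; decide)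
  · right; right; right; left; exact cd_inj _ _ hA (by decide) (by rw [h]; decide)
  · right; right; right; right; exact cd_inj _ _ hA (by decide) (by rw [h]; decide)

theorem card_bool {t : ℕ} {S : Finset ι} (e : Fin t ≃ S) (P : ι → Prop) [DecidablePred P] :
    #{s ∈ S | P s} = ∑ k : Fin t, (decide (P (e k))).toNat := by
  rw [card_filter, ← Finset.sum_coe_sort S (fun s => if P s then 1 else 0), ← Equiv.sum_comp e]
  apply sum_congr rfl
  intro k _
  by_cases h : P (e k) <;> simp [h]

theorem u_lt {N : ℕ} {S : Finset ι} {D : ι → Finset ℕ} {p y u v : ℕ}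
    (h : CS N S D p y u v) (hN : 4 ≤ N) (hp : 1 ≤ p) : u < p ∧ y < p := by
  have hy := y_lt h (by omega) hp
  have e1 := h.h1 1 le_rfl (by omega)
  have e2 := h.h2 1 le_rfl (by omega)
  have hyle : y ≤ p := by
    have : #{s ∈ S | 1 ∈ D s ∧ 1 + 1 ∈ D s} ≤ #{s ∈ S | 1 ∈ D s} := by
      apply card_le_card
      intro s hs
      rw [mem_filter] at hs ⊢
      exact ⟨hs.1, hs.2.1⟩
    omega
  refine ⟨?_, by omega⟩
  have hgo : ∀ j, 3 ≤ j → j ≤ N → #{s ∈ S | 1 ∈ D s ∧ j ∈ D s} = u := fun j h1 h2 =>
    h.h3 1 j le_rfl h1 h2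
  have hsub : ∀ j, ({s ∈ S | 1 ∈ D s ∧ j ∈ D s} : Finset ι) ⊆ {s ∈ S | 1 ∈ D s} := by
    intro j s hs
    rw [mem_filter] at hs ⊢
    exact ⟨hs.1, hs.2.1⟩
  have hule : u ≤ p := by
    have := card_le_card (hsub 3)
    rw [hgo 3 le_rfl (by omega), e1] at this
    exact this
  by_contra hc
  have hup : u = p := by omega
  have q3 := eq_of_subset_of_card_le (hsub 3) (by rw [hgo 3 le_rfl (by omega), e1, hup])
  have q4 := eq_of_subset_of_card_le (hsub 4) (by rw [hgo 4 (by omega) hN, e1, hup])
  have hsub2 : ({s ∈ S | 1 ∈ D s} : Finset ι) ⊆ {s ∈ S | 3 ∈ D s ∧ 3 + 1 ∈ D s} := by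
    intro s hs
    have a3 := hs
    rw [← q3, mem_filter] at a3
    have a4 := hs
    rw [← q4, mem_filter] at a4
    rw [mem_filter]
    exact ⟨a3.1, a3.2.2, a4.2.2⟩
  have := card_le_card hsub2
  rw [e1, h.h2 3 (by omega) (by omega)] at this
  omega

theorem base2 {N : ℕ} {S : Finset ι} {D : ι → Finset ℕ} {y u v : ℕ}
    (h : CS N S D 2 y u v) (hS : #S ≤ N) (h4 : 4 ≤ #S) (hN : N ≤ 5) :
    N = 5 ∧ #S = 5 ∧ Unif S D F33 := by
  have hN4 : 4 ≤ N := by omega
  obtain ⟨hu, hy⟩ := u_lt h hN4 (by omega)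
  by_cases hS4 : #S = 4
  · exfalso
    let e : Fin 4 ≃ S := (S.equivFinOfCardEq hS4).symm
    have p1 : ∀ i, 1 ≤ i → i ≤ N → (decide (i ∈ D (e 0))).toNat + (decide (i ∈ D (e 1))).toNat +
        (decide (i ∈ D (e 2))).toNat + (decide (i ∈ D (e 3))).toNat = 2 := by
      intro i h1 h2
      have := h.h1 i h1 h2
      rw [card_bool e, Fin.sum_univ_four] at this
      exact this
    have p2 : ∀ i, 1 ≤ i → i + 1 ≤ N →
        (decide (i ∈ D (e 0)) && decide (i + 1 ∈ D (e 0))).toNat +
        (decide (i ∈ D (e 1)) && decide (i + 1 ∈ D (e 1))).toNat +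
        (decide (i ∈ D (e 2)) && decide (i + 1 ∈ D (e 2))).toNat +
        (decide (i ∈ D (e 3)) && decide (i + 1 ∈ D (e 3))).toNat = y := by
      intro i h1 h2
      have := h.h2 i h1 h2
      rw [card_bool e, Fin.sum_univ_four] at this
      simpa only [Bool.decide_and] using this
    have p3 : ∀ i j, 1 ≤ i → i + 2 ≤ j → j ≤ N →
        (decide (i ∈ D (e 0)) && decide (j ∈ D (e 0))).toNat +
        (decide (i ∈ D (e 1)) && decide (j ∈ D (e 1))).toNat +
        (decide (i ∈ D (e 2)) && decide (j ∈ D (e 2))).toNat +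
        (decide (i ∈ D (e 3)) && decide (j ∈ D (e 3))).toNat = u := by
      intro i j h1 h2 h3
      have := h.h3 i j h1 h2 h3
      rw [card_bool e, Fin.sum_univ_four] at this
      simpa only [Bool.decide_and] using this
    by_cases hN5 : N = 5
    · exact dec54 ⟨y, hy⟩ ⟨u, hu⟩ _ _ _ _ (p1 1 le_rfl (by omega))
        _ _ _ _ (p1 2 (by omega) (by omega)) (p2 1 le_rfl (by omega))
        _ _ _ _ (p1 3 (by omega) (by omega)) (p2 2 (by omega) (by omega))
          (p3 1 3 le_rfl (by omega) (by omega))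
        _ _ _ _ (p1 4 (by omega) (by omega)) (p2 3 (by omega) (by omega))
          (p3 1 4 le_rfl (by omega) (by omega)) (p3 2 4 (by omega) (by omega) (by omega))
        _ _ _ _ (p1 5 (by omega) (by omega)) (p2 4 (by omega) (by omega))
          (p3 1 5 le_rfl (by omega) (by omega)) (p3 2 5 (by omega) (by omega) (by omega))
          (p3 3 5 (by omega) (by omega) (by omega))
    · have hN' : N = 4 := by omega
      have key := dec44 ⟨y, hy⟩ ⟨u, hu⟩ _ _ _ _ (p1 1 le_rfl (by omega))
        _ _ _ _ (p1 2 (by omega) (by omega)) (p2 1 le_rfl (by omega))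
        _ _ _ _ (p1 3 (by omega) (by omega)) (p2 2 (by omega) (by omega))
          (p3 1 3 le_rfl (by omega) (by omega))
        _ _ _ _ (p1 4 (by omega) (by omega)) (p2 3 (by omega) (by omega))
          (p3 1 4 le_rfl (by omega) (by omega)) (p3 2 4 (by omega) (by omega) (by omega))
      have fin : ∀ k : Fin 4, ¬ ((decide (1 ∈ D (e k)) && decide (2 ∈ D (e k)) &&
          decide (3 ∈ D (e k)) && decide (4 ∈ D (e k))) = true) := by
        intro k hk
        simp only [Bool.and_eq_true, decide_eq_true_eq] at hk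
        apply h.nf (e k) (e k).2
        apply subset_antisymm (h.sub _ (e k).2)
        intro x hx
        rw [hN', mem_Icc] at hx
        obtain ⟨hx1, hx2⟩ := hx
        interval_cases x
        · exact hk.1.1.1
        · exact hk.1.1.2
        · exact hk.1.2
        · exact hk.2
      rcases key with k | k | k | k
      · exact fin 0 k
      · exact fin 1 k
      · exact fin 2 k
      · exact fin 3 k
  · have hS5 : #S = 5 := by omega
    have hN5 : N = 5 := by omega
    refine ⟨hN5, hS5, ?_⟩
    let e : Fin 5 ≃ S := (S.equivFinOfCardEq hS5).symm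
    have p1 : ∀ i, 1 ≤ i → i ≤ N → (decide (i ∈ D (e 0))).toNat + (decide (i ∈ D (e 1))).toNat +
        (decide (i ∈ D (e 2))).toNat + (decide (i ∈ D (e 3))).toNat +
        (decide (i ∈ D (e 4))).toNat = 2 := by
      intro i h1 h2
      have := h.h1 i h1 h2
      rw [card_bool e, Fin.sum_univ_five] at this
      exact this
    have p2 : ∀ i, 1 ≤ i → i + 1 ≤ N →
        (decide (i ∈ D (e 0)) && decide (i + 1 ∈ D (e 0))).toNat +
        (decide (i ∈ D (e 1)) && decide (i + 1 ∈ D (e 1))).toNat +
        (decide (i ∈ D (e 2)) && decide (i + 1 ∈ D (e 2))).toNat +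
        (decide (i ∈ D (e 3)) && decide (i + 1 ∈ D (e 3))).toNat +
        (decide (i ∈ D (e 4)) && decide (i + 1 ∈ D (e 4))).toNat = y := by
      intro i h1 h2
      have := h.h2 i h1 h2
      rw [card_bool e, Fin.sum_univ_five] at this
      simpa only [Bool.decide_and] using this
    have p3 : ∀ i j, 1 ≤ i → i + 2 ≤ j → j ≤ N →
        (decide (i ∈ D (e 0)) && decide (j ∈ D (e 0))).toNat +
        (decide (i ∈ D (e 1)) && decide (j ∈ D (e 1))).toNat +
        (decide (i ∈ D (e 2)) && decide (j ∈ D (e 2))).toNat +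
        (decide (i ∈ D (e 3)) && decide (j ∈ D (e 3))).toNat +
        (decide (i ∈ D (e 4)) && decide (j ∈ D (e 4))).toNat = u := by
      intro i j h1 h2 h3
      have := h.h3 i j h1 h2 h3
      rw [card_bool e, Fin.sum_univ_five] at this
      simpa only [Bool.decide_and] using this
    have key := dec55 ⟨y, hy⟩ ⟨u, hu⟩ _ _ _ _ _ (p1 1 le_rfl (by omega))
        _ _ _ _ _ (p1 2 (by omega) (by omega)) (p2 1 le_rfl (by omega))
        _ _ _ _ _ (p1 3 (by omega) (by omega)) (p2 2 (by omega) (by omega))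
          (p3 1 3 le_rfl (by omega) (by omega))
        _ _ _ _ _ (p1 4 (by omega) (by omega)) (p2 3 (by omega) (by omega))
          (p3 1 4 le_rfl (by omega) (by omega)) (p3 2 4 (by omega) (by omega) (by omega))
        _ _ _ _ _ (p1 5 (by omega) (by omega)) (p2 4 (by omega) (by omega))
          (p3 1 5 le_rfl (by omega) (by omega)) (p3 2 5 (by omega) (by omega) (by omega))
          (p3 3 5 (by omega) (by omega) (by omega))
    have fin : ∀ k : Fin 5, ¬ ((decide (1 ∈ D (e k)) && decide (2 ∈ D (e k)) &&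
          decide (3 ∈ D (e k)) && decide (4 ∈ D (e k)) && decide (5 ∈ D (e k))) = true) := by
      intro k hk
      simp only [Bool.and_eq_true, decide_eq_true_eq] at hk
      apply h.nf (e k) (e k).2
      apply subset_antisymm (h.sub _ (e k).2)
      intro x hx
      rw [hN5, mem_Icc] at hx
      obtain ⟨hx1, hx2⟩ := hx
      interval_cases x
      · exact hk.1.1.1.1
      · exact hk.1.1.1.2
      · exact hk.1.1.2
      · exact hk.1.2
      · exact hk.2
    have key2 := ((((key.resolve_left (fin 0)).resolve_left (fin 1)).resolve_left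
      (fin 2)).resolve_left (fin 3)).resolve_left (fin 4)
    obtain ⟨⟨k0, k1, k2, k3, k4⟩, hnd⟩ : (cd (D (e 0)) ∈ codes ∧ cd (D (e 1)) ∈ codes ∧
        cd (D (e 2)) ∈ codes ∧ cd (D (e 3)) ∈ codes ∧ cd (D (e 4)) ∈ codes) ∧
        [cd (D (e 0)), cd (D (e 1)), cd (D (e 2)), cd (D (e 3)), cd (D (e 4))].Nodup :=
      ⟨⟨key2.1, key2.2.1, key2.2.2.1, key2.2.2.2.1, key2.2.2.2.2.1⟩, key2.2.2.2.2.2⟩
    have hsub5 : ∀ s ∈ S, D s ⊆ Icc 1 5 := by
      intro s hs; have := h.sub s hs; rwa [hN5] at this
    have hall : ∀ k : Fin 5, cd (D (e k)) ∈ codes := by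
      intro k
      fin_cases k
      exacts [k0, k1, k2, k3, k4]
    constructor
    · intro s hs
      have := hall (e.symm ⟨s, hs⟩)
      rw [Equiv.apply_symm_apply] at this
      exact mem_F33 _ (hsub5 s hs) this
    · intro X hX
      have hcX := F33_codes X hX
      have e1 : #{s ∈ S | D s = X} = #{s ∈ S | cd (D s) = cd X} := by
        congr 1
        apply filter_congr
        intro s hs
        exact ⟨fun h => by rw [h], fun h => cd_inj _ _ (hsub5 s hs) (F33_sub X hX) h⟩
      rw [e1, card_bool e, Fin.sum_univ_five]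
      set L := [cd (D (e 0)), cd (D (e 1)), cd (D (e 2)), cd (D (e 3)), cd (D (e 4))] with hL
      have hsubp : L.Subperm codes := by
        apply List.subperm_of_subset hnd
        intro c hc
        rw [hL] at hc
        simp only [List.mem_cons, List.not_mem_nil, or_false] at hc
        rcases hc with rfl | rfl | rfl | rfl | rfl
        exacts [k0, k1, k2, k3, k4]
      have hperm : L.Perm codes := hsubp.perm_of_length_le (by simp [hL, codes])
      have hcount : L.count (cd X) = 1 := by
        rw [hperm.count_eq]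
        exact List.count_eq_one_of_mem (by decide) hcX
      rw [← hcount, hL]
      simp only [List.count_cons, List.count_nil, Nat.zero_add]
      have tr : ∀ a b : ℕ, (decide (a = b)).toNat = if (a == b) = true then 1 else 0 := by
        intro a b
        by_cases hab : a = b <;> simp [hab]
      rw [tr, tr, tr, tr, tr]
      omega

end V11176.MinSym
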