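import Mathlib
import Pool.Agent.V11176.MinSymD

open Finset

namespace V11176.MinSym

variable {ι : Type*}

theorem unif_compl {N : ℕ} {S : Finset ι} {D : ι → Finset ℕ} {F : Finset (Finset ℕ)}
    (hD : ∀ s ∈ S, D s ⊆ Icc 1 N) (hF : ∀ X ∈ F, X ⊆ Icc 1 N) (h : Unif S (Dc N D) F) :
    Unif S D (compl N F) := by
  constructor
  · intro s hs
    rw [compl, mem_image]
    refine ⟨Dc N D s, h.1 s hs, ?_⟩
    rw [Dc, Finset.sdiff_sdiff_eq_self (hD s hs)]
  · intro Y hY
    rw [compl, mem_image] at hY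
    obtain ⟨X, hX, rfl⟩ := hY
    refine Eq.trans ?_ (h.2 X hX)
    congr 1
    apply filter_congr
    intro s hs
    constructor
    · intro e
      rw [Dc, e, Finset.sdiff_sdiff_eq_self (hF X hX)]
    · intro e
      rw [← e, Dc, Finset.sdiff_sdiff_eq_self (hD s hs)]

theorem F1_sub (N : ℕ) : ∀ X ∈ F1 N, X ⊆ Icc 1 N := by
  intro X hX
  rw [F1, mem_image] at hX
  obtain ⟨i, hi, rfl⟩ := hX
  exact singleton_subset_iff.2 hi

/-- The conclusion of the classification. -/
def Concl (N : ℕ) (S : Finset ι) (D : ι → Finset ℕ) : Prop :=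
  #S = N ∧ (Unif S D (F1 N) ∨ Unif S D (compl N (F1 N)) ∨
    (N = 5 ∧ (Unif S D F33 ∨ Unif S D (compl 5 F33))))

theorem base {N : ℕ} (hN : 1 ≤ N) (hN5 : N ≤ 5) {S : Finset ι} {D : ι → Finset ℕ}
    (h : SymF (N + 1) S D) (hD : ∀ s ∈ S, D s ⊆ Icc 1 N) (hne : ∀ s ∈ S, D s ≠ ∅)
    (hnf : ∀ s ∈ S, D s ≠ Icc 1 N) (hS : S.Nonempty) (hle : #S ≤ N) (hc : 4 ≤ N ∨ #S = N) :
    Concl N S D := by
  obtain ⟨p, y, u, v, p', y', u', v', hpp, h1, h2⟩ := cs_both h hD hne hnf hN
  rcases le_total p p' with hle' | hle'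
  · have hp := p_pos h1 hS
    have hp2 : p ≤ 2 := by omega
    by_cases hp1 : p = 1
    · subst hp1
      have := base1 h1 hN hc
      exact ⟨this.1, Or.inl this.2⟩
    · have hp2' : p = 2 := by omega
      subst hp2'
      have := base2 h1 hle (by omega) hN5
      exact ⟨by omega, Or.inr (Or.inr ⟨this.1, Or.inl this.2.2⟩)⟩
  · have hp := p_pos h2 hS
    have hp2 : p' ≤ 2 := by omega
    by_cases hp1 : p' = 1
    · subst hp1
      have := base1 h2 hN hc
      exact ⟨this.1, Or.inr (Or.inl (unif_compl hD (F1_sub N) this.2))⟩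
    · have hp2' : p' = 2 := by omega
      subst hp2'
      have := base2 h2 hle (by omega) hN5
      refine ⟨by omega, Or.inr (Or.inr ⟨this.1, Or.inr ?_⟩)⟩
      have h3 := this.2.2
      have hN' := this.1
      subst hN'
      exact unif_compl hD F33_sub h3

theorem classify (N : ℕ) (hN : 4 ≤ N) (S : Finset ι) (D : ι → Finset ℕ)
    (h : SymF (N + 1) S D) (hD : ∀ s ∈ S, D s ⊆ Icc 1 N) (hne : ∀ s ∈ S, D s ≠ ∅)
    (hnf : ∀ s ∈ S, D s ≠ Icc 1 N) (hS : S.Nonempty) (hle : #S ≤ N) :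
    Concl N S D := by
  induction N using Nat.strong_induction_on generalizing S D with
  | _ N ih =>
  by_cases hN5 : N ≤ 5
  · exact base (by omega) hN5 h hD hne hnf hS hle (Or.inl hN)
  have hN6 : 6 ≤ N := by omega
  have e1 : N - 1 + 2 = N + 1 := by omega
  have e2 : N - 1 + 1 = N := by omega
  have e3 : N - 1 - 1 = N - 2 := by omega
  have e4 : N - 2 + 1 = N - 1 := by omega
  have hs0 := sym_out (n := N - 1) (by omega) (S := S) (D := D) (by rw [e1]; exact h)
    (by rw [e2]; exact hD)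
  have hs1 := sym_in (n := N - 1) (by omega) (S := S) (D := D) (by rw [e1]; exact h)
    (by rw [e2]; exact hD)
  rw [e2, e3] at hs0 hs1
  set D' : ι → Finset ℕ := fun s => D s ∩ Icc 1 (N - 2) with hD'
  have hr0 := sym_rm (m := N - 1) (by omega) hs0
  have hr1 := sym_rm (m := N - 1) (by omega) hs1
  rw [e3] at hr0 hr1
  set R0 : Finset ι := {s ∈ {s ∈ S | N ∉ D s} | D' s ≠ ∅ ∧ D' s ≠ Icc 1 (N - 2)} with hR0
  set R1 : Finset ι := {s ∈ {s ∈ S | N ∈ D s} | D' s ≠ ∅ ∧ D' s ≠ Icc 1 (N - 2)} with hR1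
  have key : ∀ R : Finset ι, SymF (N - 1) R D' → (∀ s ∈ R, D' s ≠ ∅ ∧ D' s ≠ Icc 1 (N - 2)) →
      R = ∅ ∨ N - 2 ≤ #R := by
    intro R hR hR2
    by_cases hRe : R = ∅
    · exact Or.inl hRe
    · right
      by_contra hc
      have := ih (N - 2) (by omega) (by omega) R D' (by rw [e4]; exact hR)
        (fun s _ => inter_subset_right) (fun s hs => (hR2 s hs).1) (fun s hs => (hR2 s hs).2)
        (nonempty_iff_ne_empty.2 hRe) (by omega)
      have := this.1
      omega
  have k0 := key R0 hr0 (fun s hs => (mem_filter.1 hs).2)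
  have k1 := key R1 hr1 (fun s hs => (mem_filter.1 hs).2)
  have hcard : #R0 + #R1 ≤ #S := by
    have h3 := card_filter_add_card_filter_not (s := S) (fun s => N ∈ D s)
    have h4 : #R0 ≤ #{s ∈ S | N ∉ D s} := card_filter_le _ _
    have h5 : #R1 ≤ #{s ∈ S | N ∈ D s} := card_filter_le _ _
    omega
  obtain ⟨p, y, u, v, p', y', u', v', hpp, c1, c2⟩ := cs_both h hD hne hnf (by omega)
  by_cases hR1e : R1 = ∅
  · have hB : ∀ s ∈ S, N ∈ D s → D s ∩ Icc 1 (N - 2) = ∅ ∨
        D s ∩ Icc 1 (N - 2) = Icc 1 (N - 2) := by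
      intro s hs hNs
      by_contra hc
      rw [not_or] at hc
      have : s ∈ R1 := by
        rw [hR1, mem_filter, mem_filter]
        exact ⟨⟨hs, hNs⟩, hc⟩
      rw [hR1e] at this
      simp at this
    have := caseB hN6 c1 hS hle hB
    exact ⟨this.1, Or.inl this.2⟩
  · have hR0e : R0 = ∅ := by
      rcases k0 with k0 | k0
      · exact k0
      · exfalso
        have := k1.resolve_left hR1e
        omega
    have hB : ∀ s ∈ S, N ∈ Dc N D s → Dc N D s ∩ Icc 1 (N - 2) = ∅ ∨
        Dc N D s ∩ Icc 1 (N - 2) = Icc 1 (N - 2) := by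
      intro s hs hNs
      rw [Dc, mem_sdiff] at hNs
      by_cases hc : D' s ≠ ∅ ∧ D' s ≠ Icc 1 (N - 2)
      · exfalso
        have : s ∈ R0 := by
          rw [hR0, mem_filter, mem_filter]
          exact ⟨⟨hs, hNs.2⟩, hc⟩
        rw [hR0e] at this
        simp at this
      · rw [not_and_or, not_not, not_not] at hc
        rcases hc with hc | hc
        · right
          ext x
          simp only [Dc, mem_inter, mem_sdiff, mem_Icc]
          constructor
          · intro hx; exact hx.2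
          · intro hx
            refine ⟨⟨⟨hx.1, by omega⟩, fun hxD => ?_⟩, hx⟩
            have : x ∈ D' s := by rw [hD', mem_inter, mem_Icc]; exact ⟨hxD, hx⟩
            rw [hc] at this
            simp at this
        · left
          rw [eq_empty_iff_forall_notMem]
          intro x hx
          simp only [Dc, mem_inter, mem_sdiff, mem_Icc] at hx
          apply hx.1.2
          have : x ∈ D' s := by rw [hc, mem_Icc]; exact hx.2
          rw [hD', mem_inter] at this
          exact this.1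
    have := caseB hN6 c2 hS hle hB
    exact ⟨this.1, Or.inr (Or.inl (unif_compl hD (F1_sub N) this.2))⟩

/-- Classification of the families of size exactly `N = n - 1`. -/
theorem classify' (N : ℕ) (hN : 1 ≤ N) (S : Finset ι) (D : ι → Finset ℕ)
    (h : SymF (N + 1) S D) (hD : ∀ s ∈ S, D s ⊆ Icc 1 N) (hne : ∀ s ∈ S, D s ≠ ∅)
    (hnf : ∀ s ∈ S, D s ≠ Icc 1 N) (hS : #S = N) : Concl N S D := by
  have hSn : S.Nonempty := card_pos.1 (by omega)
  by_cases h4 : 4 ≤ N
  · exact classify N h4 S D h hD hne hnf hSn hS.le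
  · exact base hN (by omega) h hD hne hnf hSn hS.le (Or.inr hS)

end V11176.MinSym
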