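import Mathlib
import Pool.Agent.V11176.Gessel
import Pool.Agent.V11176.MinSymE

open Finset

namespace V11176.Shapes

open V11176.Gessel V11176.MinSym

variable {μ : YoungDiagram} {n : ℕ}

/-- transposition of cells -/
def swapE (μ : YoungDiagram) : μ.cells ≃ μ.transpose.cells where
  toFun c := ⟨c.1.swap, by
    rw [YoungDiagram.mem_cells, YoungDiagram.mem_transpose, Prod.swap_swap]; exact c.2⟩
  invFun c := ⟨c.1.swap, by
    have := c.2
    rw [YoungDiagram.mem_cells, YoungDiagram.mem_transpose] at this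
    exact this⟩
  left_inv c := by simp
  right_inv c := by simp

def tr (q : Fin n ≃ μ.cells) : Fin n ≃ μ.transpose.cells := q.trans (swapE μ)

theorem tr_fst (q : Fin n ≃ μ.cells) (a : Fin n) : (tr q a).1.1 = (q a).1.2 := rfl

theorem tr_snd (q : Fin n ≃ μ.cells) (a : Fin n) : (tr q a).1.2 = (q a).1.1 := rfl

theorem tr_std (q : Fin n ≃ μ.cells) : tr q ∈ stdSet μ.transpose n ↔ q ∈ stdSet μ n := by
  unfold stdSet
  rw [mem_filter, mem_filter]
  simp only [mem_univ, true_and, tr_fst, tr_snd]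
  exact ⟨fun h a b h1 h2 => h a b h2 h1, fun h a b h1 h2 => h a b h2 h1⟩

theorem tr_surj (q' : Fin n ≃ μ.transpose.cells) : ∃ q : Fin n ≃ μ.cells, tr q = q' := by
  refine ⟨q'.trans (swapE μ).symm, ?_⟩
  ext a : 1
  simp [tr]

theorem tr_des (q : Fin n ≃ μ.cells) (hq : q ∈ stdSet μ n) :
    desQ (tr q) = Icc 1 (n - 1) \ desQ q := by
  rw [stdSet, mem_filter] at hq
  ext j
  rw [mem_sdiff]
  by_cases hj : j ∈ Icc 1 (n - 1)
  · have hj' := mem_Icc.1 hj
    have hjn : j < n := by omega
    rw [desQ, desQ, mem_asc _ j hj'.1 hjn, mem_asc _ j hj'.1 hjn]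
    simp only [hj, true_and, rowf, tr_fst]
    set a : Fin n := ⟨j - 1, by omega⟩ with ha
    set b : Fin n := ⟨j, hjn⟩ with hb
    have hab : a < b := by rw [ha, hb, Fin.lt_def]; simp only; omega
    constructor
    · intro h1 h2
      have hmem : ((q a).1.1, (q b).1.2) ∈ μ.cells :=
        μ.up_left_mem h2.le le_rfl (show ((q b).1.1, (q b).1.2) ∈ μ from (q b).2)
      set x := q.symm ⟨((q a).1.1, (q b).1.2), hmem⟩ with hx
      have hqx : q x = ⟨((q a).1.1, (q b).1.2), hmem⟩ := by rw [hx, Equiv.apply_symm_apply]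
      have h3 : a ≤ x := hq.2 a x (by rw [hqx]) (by rw [hqx]; exact h1.le)
      have h4 : x ≤ b := hq.2 x b (by rw [hqx]; exact h2.le) (by rw [hqx])
      have h5 : x = a ∨ x = b := by
        rw [Fin.le_def] at h3 h4
        rw [Fin.ext_iff, Fin.ext_iff]
        simp only [ha, hb] at h3 h4 ⊢
        omega
      rcases h5 with h5 | h5
      · rw [h5] at hqx
        rw [hqx] at h1
        simp at h1
      · rw [h5] at hqx
        rw [hqx] at h2
        simp at h2
    · intro h1
      by_contra h2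
      have := hq.2 b a (not_lt.1 h1) (not_lt.1 h2)
      omega
  · constructor
    · intro h; exact absurd (asc_sub _ h) hj
    · intro h; exact absurd h.1 hj

theorem unif_tr {F : Finset (Finset ℕ)} (hF : ∀ X ∈ F, X ⊆ Icc 1 (n - 1))
    (h : Unif (stdSet μ n) desQ F) :
    Unif (stdSet μ.transpose n) desQ (MinSym.compl (n - 1) F) := by
  constructor
  · intro s hs
    obtain ⟨q, rfl⟩ := tr_surj s
    rw [tr_std] at hs
    rw [tr_des q hs, MinSym.compl, mem_image]
    exact ⟨_, h.1 q hs, rfl⟩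
  · intro Y hY
    rw [MinSym.compl, mem_image] at hY
    obtain ⟨X, hX, rfl⟩ := hY
    refine Eq.trans ?_ (h.2 X hX)
    symm
    refine card_bij (fun q _ => tr q) ?_ ?_ ?_
    · intro q hq
      rw [mem_filter] at hq ⊢
      refine ⟨(tr_std q).2 hq.1, ?_⟩
      rw [tr_des q hq.1, hq.2]
    · intro q _ q' _ he
      ext a : 1
      have h1 := congrArg (fun z => (swapE μ).symm (z a)) he
      simpa [tr] using h1
    · intro s hs
      obtain ⟨q, rfl⟩ := tr_surj s
      rw [mem_filter, tr_std] at hs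
      refine ⟨q, ?_, rfl⟩
      rw [mem_filter]
      refine ⟨hs.1, ?_⟩
      have h1 := hs.2
      rw [tr_des q hs.1] at h1
      have h2 : desQ q ⊆ Icc 1 (n - 1) := asc_sub _
      have h3 := congrArg (fun Z => Icc 1 (n - 1) \ Z) h1
      simp only [Finset.sdiff_sdiff_eq_self h2, Finset.sdiff_sdiff_eq_self (hF X hX)] at h3
      exact h3

/-- The column of an entry is the number of smaller entries in its row. -/
theorem col_eq (q : Fin n ≃ μ.cells) (hq : q ∈ stdSet μ n) (a : Fin n) :
    (q a).1.2 = #{b : Fin n | b < a ∧ rowf q b = rowf q a} := by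
  rw [stdSet, mem_filter] at hq
  rw [← card_range (q a).1.2]
  symm
  refine card_bij (fun b _ => (q b).1.2) ?_ ?_ ?_
  · intro b hb
    simp only [mem_filter, mem_univ, true_and] at hb
    rw [mem_range]
    by_contra hc
    have := hq.2 a b hb.2.ge (not_lt.1 hc)
    omega
  · intro b hb b' hb' he
    simp only [mem_filter, mem_univ, true_and] at hb hb'
    apply q.injective
    apply Subtype.ext
    apply Prod.ext
    · exact hb.2.trans hb'.2.symm
    · exact he
  · intro c hc
    rw [mem_range] at hc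
    have hmem : ((q a).1.1, c) ∈ μ.cells :=
      μ.up_left_mem le_rfl hc.le (show ((q a).1.1, (q a).1.2) ∈ μ from (q a).2)
    refine ⟨q.symm ⟨((q a).1.1, c), hmem⟩, ?_, by simp⟩
    simp only [mem_filter, mem_univ, true_and]
    have hle : q.symm ⟨((q a).1.1, c), hmem⟩ ≤ a :=
      hq.2 _ _ (by simp) (by simpa using hc.le)
    refine ⟨lt_of_le_of_ne hle ?_, by simp [rowf]⟩
    intro h
    have h1 := congrArg (fun z => (q z).1.2) h
    simp only [Equiv.apply_symm_apply] at h1
    omega

theorem std_ext (q q' : Fin n ≃ μ.cells) (hq : q ∈ stdSet μ n) (hq' : q' ∈ stdSet μ n)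
    (h : rowf q = rowf q') : q = q' := by
  ext a : 1
  apply Subtype.ext
  apply Prod.ext
  · exact congr_fun h a
  · rw [col_eq q hq, col_eq q' hq', h]

theorem std_exists (hn : μ.cells.card = n) (r : Fin n → ℕ)
    (h1 : ∀ a, (r a, #{b : Fin n | b < a ∧ r b = r a}) ∈ μ.cells)
    (h2 : ∀ a b, r a ≤ r b → #{x : Fin n | x < a ∧ r x = r a} ≤ #{x : Fin n | x < b ∧ r x = r b} →
      a ≤ b) : ∃ q : Fin n ≃ μ.cells, q ∈ stdSet μ n ∧ rowf q = r := by
  let f : Fin n → μ.cells := fun a => ⟨(r a, #{b : Fin n | b < a ∧ r b = r a}), h1 a⟩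
  have hinj : Function.Injective f := by
    intro a b hab
    have := congrArg Subtype.val hab
    simp only [f, Prod.mk.injEq] at this
    exact le_antisymm (h2 a b this.1.le this.2.le) (h2 b a this.1.ge this.2.ge)
  have hbij : Function.Bijective f := by
    rw [Fintype.bijective_iff_injective_and_card]
    refine ⟨hinj, ?_⟩
    rw [Fintype.card_fin, Fintype.card_coe, hn]
  refine ⟨Equiv.ofBijective f hbij, ?_, rfl⟩
  rw [stdSet, mem_filter]
  exact ⟨mem_univ _, fun a b h3 h4 => h2 a b h3 h4⟩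

/-- The shape `(n-1, 1)`. -/
def hook (n : ℕ) (hn : 2 ≤ n) : YoungDiagram :=
  YoungDiagram.ofRowLens [n - 1, 1] (by
    rw [List.sortedGE_iff_pairwise]
    simp; omega)

theorem mem_hook (n : ℕ) (hn : 2 ≤ n) (c : ℕ × ℕ) :
    c ∈ (hook n hn).cells ↔ (c.1 = 0 ∧ c.2 < n - 1) ∨ (c.1 = 1 ∧ c.2 = 0) := by
  rw [YoungDiagram.mem_cells, hook, YoungDiagram.mem_ofRowLens]
  rcases c with ⟨i, j⟩
  constructor
  · rintro ⟨h, h2⟩
    simp only [List.length_cons, List.length_nil] at h
    interval_cases i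
    · left; simpa using h2
    · right; simpa using h2
  · rintro (⟨h1, h2⟩ | ⟨h1, h2⟩)
    · simp only at h1 h2
      subst h1
      exact ⟨by simp, by simpa using h2⟩
    · simp only at h1 h2
      subst h1
      subst h2
      exact ⟨by simp, by simp⟩

theorem hook_card (n : ℕ) (hn : 2 ≤ n) : (hook n hn).cells.card = n := by
  have : (hook n hn).cells = insert (1, 0) ((range (n - 1)).image (fun j => (0, j))) := by
    ext c
    rw [mem_hook, mem_insert, mem_image]
    constructor
    · rintro (⟨h1, h2⟩ | ⟨h1, h2⟩)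
      · right; exact ⟨c.2, mem_range.2 h2, Prod.ext h1.symm rfl⟩
      · left; exact Prod.ext h1 h2
    · rintro (h | ⟨j, hj, rfl⟩)
      · right; rw [h]; exact ⟨rfl, rfl⟩
      · left; exact ⟨rfl, mem_range.1 hj⟩
  rw [this, card_insert_of_notMem, card_image_of_injective, card_range]
  · omega
  · intro a b h; simpa using h
  · intro h
    rw [mem_image] at h
    obtain ⟨j, _, hj⟩ := h
    simp at hj

end V11176.Shapes
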