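import Mathlib
import Pool.Agent.V11176.Shapes

open Finset

namespace V11176.Shapes

open V11176.Gessel V11176.MinSym

theorem hook_row (n : ℕ) (hn : 2 ≤ n) (q : Fin n ≃ (hook n hn).cells)
    (hq : q ∈ stdSet (hook n hn) n) :
    ∃ i : Fin n, 1 ≤ (i : ℕ) ∧ rowf q = (fun a => if a = i then 1 else 0) := by
  have hmem : (1, 0) ∈ (hook n hn).cells := by rw [mem_hook]; right; exact ⟨rfl, rfl⟩
  have hmem0 : (0, 0) ∈ (hook n hn).cells := by rw [mem_hook]; left; exact ⟨rfl, by omega⟩
  rw [stdSet, mem_filter] at hq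
  refine ⟨q.symm ⟨(1, 0), hmem⟩, ?_, ?_⟩
  · have h1 : q.symm ⟨(0, 0), hmem0⟩ ≤ q.symm ⟨(1, 0), hmem⟩ := hq.2 _ _ (by simp) (by simp)
    have h2 : q.symm ⟨(0, 0), hmem0⟩ ≠ q.symm ⟨(1, 0), hmem⟩ := by
      intro h
      have := q.symm.injective h
      simp at this
    have h3 : q.symm ⟨(0, 0), hmem0⟩ < q.symm ⟨(1, 0), hmem⟩ := lt_of_le_of_ne h1 h2
    rw [Fin.lt_def] at h3
    omega
  · funext a
    simp only [rowf]
    split_ifs with h
    · rw [h, Equiv.apply_symm_apply]
    · have h1 := (q a).2
      rw [mem_hook] at h1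
      rcases h1 with h1 | h1
      · exact h1.1
      · exfalso
        apply h
        rw [Equiv.eq_symm_apply]
        apply Subtype.ext
        exact Prod.ext h1.1 h1.2

theorem asc_ind (n : ℕ) (i : Fin n) (hi : 1 ≤ (i : ℕ)) :
    asc (fun a : Fin n => if a = i then 1 else 0) = {(i : ℕ)} := by
  ext j
  rw [mem_singleton]
  constructor
  · intro h
    have hj := mem_Icc.1 (asc_sub _ h)
    have hjn : j < n := by omega
    rw [mem_asc _ j hj.1 hjn] at h
    by_contra hc
    have h1 : (⟨j, hjn⟩ : Fin n) ≠ i := fun e => hc (by rw [← e])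
    simp [h1] at h
  · rintro rfl
    rw [mem_asc _ _ hi i.2]
    have h1 : (⟨(i : ℕ) - 1, by omega⟩ : Fin n) ≠ i := by
      intro e
      have := congrArg Fin.val e
      simp only at this
      omega
    simp [h1]

theorem count_ind (n : ℕ) (i a : Fin n) :
    #{b : Fin n | b < a ∧ (if b = i then 1 else 0) = (if a = i then 1 else 0)} =
      if a = i then 0 else if a < i then (a : ℕ) else a - 1 := by
  by_cases h : a = i
  · have hz : #{b : Fin n | b < a ∧ (if b = i then 1 else 0) = (if a = i then 1 else 0)} = 0 := by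
      rw [card_eq_zero, filter_eq_empty_iff]
      rintro b _ ⟨h1, h2⟩
      rw [if_pos h] at h2
      by_cases hb : b = i
      · rw [hb, h] at h1; exact lt_irrefl _ h1
      · simp [hb] at h2
    rw [hz, if_pos h]
  · have e1 : (univ.filter (fun b : Fin n => b < a ∧ (if b = i then 1 else 0) =
        (if a = i then 1 else 0)) : Finset (Fin n)) = (Iio a).erase i := by
      ext b
      simp only [mem_filter, mem_univ, true_and, mem_erase, mem_Iio, h, if_false]
      by_cases hb : b = i <;> simp [hb]
    rw [e1, if_neg h]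
    by_cases h2 : a < i
    · rw [if_pos h2, erase_eq_of_notMem, Fin.card_Iio]
      rw [mem_Iio]
      exact fun h3 => lt_asymm h2 h3
    · rw [if_neg h2, card_erase_of_mem, Fin.card_Iio]
      rw [mem_Iio]
      exact lt_of_le_of_ne (not_lt.1 h2) (Ne.symm h)

theorem unif_hook (n : ℕ) (hn : 2 ≤ n) : Unif (stdSet (hook n hn) n) desQ (F1 (n - 1)) := by
  constructor
  · intro q hq
    obtain ⟨i, hi, hr⟩ := hook_row n hn q hq
    rw [desQ, hr, asc_ind n i hi, F1, mem_image]
    exact ⟨i, by rw [mem_Icc]; have := i.2; omega, rfl⟩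
  · intro X hX
    rw [F1, mem_image] at hX
    obtain ⟨j, hj, rfl⟩ := hX
    rw [mem_Icc] at hj
    have hjn : j < n := by omega
    obtain ⟨q, hq, hr⟩ := std_exists (μ := hook n hn) (hook_card n hn)
      (fun a : Fin n => if a = ⟨j, hjn⟩ then 1 else 0) (by
        intro a
        rw [count_ind, mem_hook]
        by_cases h : a = ⟨j, hjn⟩
        · right; simp [h]
        · left
          have ha := a.2
          refine ⟨by simp [h], ?_⟩
          simp only [h, if_false]
          split_ifs with h2
          · rw [Fin.lt_def] at h2; simp only at h2; omega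
          · omega) (by
        intro a b h1 h2
        rw [count_ind, count_ind] at h2
        by_cases ha : a = ⟨j, hjn⟩
        · by_cases hb : b = ⟨j, hjn⟩
          · rw [ha, hb]
          · simp [ha, hb] at h1
        · by_cases hb : b = ⟨j, hjn⟩
          · simp only [ha, hb, if_false, if_true] at h2
            rw [hb, Fin.le_def]
            simp only
            split_ifs at h2 with h3
            · omega
            · rw [Fin.lt_def] at h3
              simp only at h3
              have : (a : ℕ) ≠ j := fun e => ha (Fin.ext e)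
              omega
          · simp only [ha, hb, if_false] at h2
            have ha' : (a : ℕ) ≠ j := fun e => ha (Fin.ext e)
            have hb' : (b : ℕ) ≠ j := fun e => hb (Fin.ext e)
            rw [Fin.le_def]
            split_ifs at h2 with h3 h4 h4
            · omega
            · rw [Fin.lt_def] at h3 h4; simp only at h3 h4; omega
            · rw [Fin.lt_def] at h3 h4; simp only at h3 h4; omega
            · rw [Fin.lt_def] at h3 h4; simp only at h3 h4; omega)
    rw [card_eq_one]
    refine ⟨q, ?_⟩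
    ext q'
    rw [mem_filter, mem_singleton]
    constructor
    · rintro ⟨hq', hd⟩
      obtain ⟨i, hi, hr'⟩ := hook_row n hn q' hq'
      rw [desQ, hr', asc_ind n i hi, singleton_inj] at hd
      have hi' : i = ⟨j, hjn⟩ := Fin.ext hd
      apply std_ext q' q hq' hq
      rw [hr', hr, hi']
    · rintro rfl
      refine ⟨hq, ?_⟩
      rw [desQ, hr, asc_ind n ⟨j, hjn⟩ hj.1]

/-- The shape `(3, 3)`. -/
def sq33 : YoungDiagram := YoungDiagram.ofRowLens [3, 3] (by
    rw [List.sortedGE_iff_pairwise]
    simp)

theorem mem_33 (c : ℕ × ℕ) : c ∈ sq33.cells ↔ c.1 < 2 ∧ c.2 < 3 := by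
  rw [YoungDiagram.mem_cells, sq33, YoungDiagram.mem_ofRowLens]
  rcases c with ⟨i, j⟩
  constructor
  · rintro ⟨h, h2⟩
    simp only [List.length_cons, List.length_nil] at h
    interval_cases i
    · exact ⟨by norm_num, by simpa using h2⟩
    · exact ⟨by norm_num, by simpa using h2⟩
  · rintro ⟨h1, h2⟩
    simp only at h1 h2
    interval_cases i
    · exact ⟨by simp, by simpa using h2⟩
    · exact ⟨by simp, by simpa using h2⟩

theorem card_33 : sq33.cells.card = 6 := by
  have : sq33.cells = range 2 ×ˢ range 3 := by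
    ext c
    rw [mem_33, mem_product, mem_range, mem_range]
  rw [this]
  rfl

/-- word of Booleans as a row function -/
def rb (b : Fin 6 → Bool) : Fin 6 → ℕ := fun a => (b a).toNat

/-- the conditions for a word to be the row word of a standard tableau of shape (3,3) -/
def GoodB (b : Fin 6 → Bool) : Prop :=
  (∀ a, #{x : Fin 6 | x < a ∧ rb b x = rb b a} < 3) ∧
  (∀ x y : Fin 6, rb b x ≤ rb b y → #{z : Fin 6 | z < x ∧ rb b z = rb b x} ≤
    #{z : Fin 6 | z < y ∧ rb b z = rb b y} → x ≤ y)

instance (b : Fin 6 → Bool) : Decidable (GoodB b) := by unfold GoodB; infer_instance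

theorem good_asc : ∀ b : Fin 6 → Bool, GoodB b → asc (rb b) ∈ F33 := by
  decide +kernel

theorem good_ex : ∀ X ∈ F33, ∃ b : Fin 6 → Bool, GoodB b ∧ asc (rb b) = X := by
  decide +kernel

theorem good_unique : ∀ b : Fin 6 → Bool, GoodB b → ∀ b' : Fin 6 → Bool, GoodB b' →
    asc (rb b) = asc (rb b') → b = b' := by
  decide +kernel

theorem rb_of_std (q : Fin 6 ≃ sq33.cells) (hq : q ∈ stdSet sq33 6) :
    ∃ b : Fin 6 → Bool, GoodB b ∧ rb b = rowf q := by
  refine ⟨fun a => decide (rowf q a = 1), ?_⟩
  have hr : rb (fun a => decide (rowf q a = 1)) = rowf q := by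
    funext a
    have h1 := (q a).2
    rw [mem_33] at h1
    unfold rb rowf
    have h2 := h1.1
    interval_cases h3 : (q a).1.1 <;> simp [h3]
  refine ⟨?_, hr⟩
  unfold GoodB
  rw [hr]
  constructor
  · intro a
    have := (q a).2
    rw [mem_33, col_eq q hq] at this
    exact this.2
  · intro x y h1 h2
    rw [← col_eq q hq, ← col_eq q hq] at h2
    rw [stdSet, mem_filter] at hq
    exact hq.2 x y h1 h2

theorem unif_33 : Unif (stdSet sq33 6) desQ F33 := by
  constructor
  · intro q hq
    obtain ⟨b, hb, hr⟩ := rb_of_std q hq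
    rw [desQ, ← hr]
    exact good_asc b hb
  · intro X hX
    obtain ⟨b, hb, hbX⟩ := good_ex X hX
    obtain ⟨q, hq, hr⟩ := std_exists (μ := sq33) card_33 (rb b) (by
      intro a
      rw [mem_33]
      exact ⟨by unfold rb; have := Bool.toNat_le (b a); simp only; omega, hb.1 a⟩) hb.2
    rw [card_eq_one]
    refine ⟨q, ?_⟩
    ext q'
    rw [mem_filter, mem_singleton]
    constructor
    · rintro ⟨hq', hd⟩
      obtain ⟨b', hb', hr'⟩ := rb_of_std q' hq'
      apply std_ext q' q hq' hq
      rw [← hr', hr]
      congr 1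
      apply good_unique b' hb' b hb
      rw [hr', hbX, ← hd, desQ]
    · rintro rfl
      refine ⟨hq, ?_⟩
      rw [desQ, hr, hbX]

end V11176.Shapes
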