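import Pool.Agent.V11176.SemFam

/-!
Existence and uniqueness of the family of Schubert polynomials of `S_n`.
-/

namespace V11176.Sem

open MvPolynomial

lemma tr_comm {n : ℕ} (i j : ℕ) (hi : i + 1 < n) (hj : j + 1 < n) (h : i + 1 < j) :
    tr i hi * tr j hj = tr j hj * tr i hi := by
  apply Equiv.Perm.Disjoint.commute
  intro x
  by_cases hx : x.val = i ∨ x.val = i + 1
  · right
    apply Equiv.swap_apply_of_ne_of_ne <;> simp only [ne_eq, Fin.ext_iff] <;> omega
  · left
    apply Equiv.swap_apply_of_ne_of_ne <;> simp only [ne_eq, Fin.ext_iff] <;> omega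

lemma tr_braid {n : ℕ} (i : ℕ) (hi : i + 1 < n) (hj : i + 1 + 1 < n) :
    tr i hi * tr (i + 1) hj * tr i hi = tr (i + 1) hj * tr i hi * tr (i + 1) hj := by
  unfold tr
  have hab : (⟨i, Nat.lt_of_succ_lt hi⟩ : Fin n) ≠ ⟨i + 1, hi⟩ := by
    simp only [ne_eq, Fin.ext_iff]; omega
  have hac : (⟨i, Nat.lt_of_succ_lt hi⟩ : Fin n) ≠ ⟨i + 1 + 1, hj⟩ := by
    simp only [ne_eq, Fin.ext_iff]; omega
  have hbc : (⟨i + 1, hi⟩ : Fin n) ≠ ⟨i + 1 + 1, hj⟩ := by
    simp only [ne_eq, Fin.ext_iff]; omega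
  rw [Equiv.swap_mul_swap_mul_swap hab hac]
  rw [Equiv.swap_comm (⟨i, Nat.lt_of_succ_lt hi⟩ : Fin n) ⟨i + 1, hi⟩,
    Equiv.swap_comm (⟨i + 1, hi⟩ : Fin n) ⟨i + 1 + 1, hj⟩,
    Equiv.swap_mul_swap_mul_swap hbc.symm hac.symm, Equiv.swap_comm]

lemma len_tr_asc {n : ℕ} (w : Equiv.Perm (Fin n)) (i : ℕ) (hi : i + 1 < n)
    (h : w ⟨i, Nat.lt_of_succ_lt hi⟩ < w ⟨i + 1, hi⟩) : len (w * tr i hi) = len w + 1 := by
  have h2 : (w * tr i hi) ⟨i + 1, hi⟩ < (w * tr i hi) ⟨i, Nat.lt_of_succ_lt hi⟩ := by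
    rw [tr_left, tr_right]; exact h
  have h3 := len_tr _ i hi h2
  rw [tr_mul_tr] at h3
  exact h3.symm

/-- One choice of Schubert polynomials, going down from the longest element along a chosen
ascent at each step. -/
noncomputable def schub (n : ℕ) (w : Equiv.Perm (Fin n)) : Poly :=
  if h : w = Fin.revPerm then ∏ i ∈ Finset.range n, X i ^ (n - 1 - i)
  else
    dd (exists_asc w h).choose
      (schub n (w * tr (exists_asc w h).choose (exists_asc w h).choose_spec.choose))
termination_by n * n - len w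
decreasing_by
  have h1 := (exists_asc w h).choose_spec.choose_spec
  have h2 := len_tr_asc w _ _ h1
  have h3 := len_le (w * tr (exists_asc w h).choose (exists_asc w h).choose_spec.choose)
  omega

lemma schub_top (n : ℕ) :
    schub n Fin.revPerm = ∏ i ∈ Finset.range n, X i ^ (n - 1 - i) := by
  rw [schub, dif_pos rfl]

lemma schub_down (n : ℕ) (w : Equiv.Perm (Fin n)) (h : w ≠ Fin.revPerm) :
    ∃ (i : ℕ) (hi : i + 1 < n), w ⟨i, Nat.lt_of_succ_lt hi⟩ < w ⟨i + 1, hi⟩ ∧
      schub n w = dd i (schub n (w * tr i hi)) := by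
  refine ⟨(exists_asc w h).choose, (exists_asc w h).choose_spec.choose,
    (exists_asc w h).choose_spec.choose_spec, ?_⟩
  rw [schub, dif_neg h]

lemma rev_no_asc (n : ℕ) (i : ℕ) (hi : i + 1 < n) :
    ¬ ((Fin.revPerm : Equiv.Perm (Fin n)) ⟨i, Nat.lt_of_succ_lt hi⟩ < Fin.revPerm ⟨i + 1, hi⟩) := by
  rw [Fin.revPerm_apply, Fin.revPerm_apply, Fin.rev_lt_rev, Fin.lt_def]
  simp

theorem schub_asc (n : ℕ) (w : Equiv.Perm (Fin n)) (i : ℕ) (hi : i + 1 < n)
    (h : w ⟨i, Nat.lt_of_succ_lt hi⟩ < w ⟨i + 1, hi⟩) :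
    dd i (schub n (w * tr i hi)) = schub n w := by
  induction hk : n * n - len w using Nat.strong_induction_on generalizing w i with
  | _ k ih =>
    have hw : w ≠ Fin.revPerm := by
      rintro rfl
      exact rev_no_asc n i hi h
    obtain ⟨j, hj, hjd, hje⟩ := schub_down n w hw
    -- induction hypothesis for a longer element
    have IH : ∀ (v : Equiv.Perm (Fin n)), len w < len v → ∀ (l : ℕ) (hl : l + 1 < n),
        v ⟨l, Nat.lt_of_succ_lt hl⟩ < v ⟨l + 1, hl⟩ →
        dd l (schub n (v * tr l hl)) = schub n v := by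
      intro v hv l hl hvl
      have := len_le v
      exact ih _ (by omega) v l hl hvl rfl
    have l1 := len_tr_asc w i hi h
    have l2 := len_tr_asc w j hj hjd
    -- the general rank two statement
    have far : ∀ (i j : ℕ) (hi : i + 1 < n) (hj : j + 1 < n),
        w ⟨i, Nat.lt_of_succ_lt hi⟩ < w ⟨i + 1, hi⟩ →
        w ⟨j, Nat.lt_of_succ_lt hj⟩ < w ⟨j + 1, hj⟩ → i + 1 < j →
        dd i (schub n (w * tr i hi)) = dd j (schub n (w * tr j hj)) := by
      intro i j hi hj h hjd h6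
      have l1 := len_tr_asc w i hi h
      have l2 := len_tr_asc w j hj hjd
      have a1 := IH (w * tr i hi) (by omega) j hj (by
        rw [tr_ne _ _ _ _ _ (by omega) (by omega), tr_ne _ _ _ _ _ (by omega) (by omega)]
        exact hjd)
      have a2 := IH (w * tr j hj) (by omega) i hi (by
        rw [tr_ne _ _ _ _ _ (by omega) (by omega), tr_ne _ _ _ _ _ (by omega) (by omega)]
        exact h)
      rw [← a1, ← a2, mul_assoc, mul_assoc, tr_comm i j hi hj h6, dd_comm i j h6]
    have adj : ∀ (i : ℕ) (hi : i + 1 < n) (hj : i + 1 + 1 < n),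
        w ⟨i, Nat.lt_of_succ_lt hi⟩ < w ⟨i + 1, hi⟩ →
        w ⟨i + 1, hi⟩ < w ⟨i + 1 + 1, hj⟩ →
        dd i (schub n (w * tr i hi)) = dd (i + 1) (schub n (w * tr (i + 1) hj)) := by
      intro i hi hj h hjd
      have l1 := len_tr_asc w i hi h
      have l2 := len_tr_asc w (i + 1) hj hjd
      have c1 : (w * tr i hi) ⟨i + 1, Nat.lt_of_succ_lt hj⟩ <
          (w * tr i hi) ⟨i + 1 + 1, hj⟩ := by
        rw [tr_right, tr_ne _ _ _ _ _ (by omega) (by omega)]
        exact h.trans hjd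
      have c2 : (w * tr (i + 1) hj) ⟨i, Nat.lt_of_succ_lt hi⟩ <
          (w * tr (i + 1) hj) ⟨i + 1, hi⟩ := by
        rw [tr_left, tr_ne _ _ _ _ _ (by omega) (by omega)]
        exact h.trans hjd
      have l3 := len_tr_asc _ (i + 1) hj c1
      have l4 := len_tr_asc _ i hi c2
      have c3 : (w * tr i hi * tr (i + 1) hj) ⟨i, Nat.lt_of_succ_lt hi⟩ <
          (w * tr i hi * tr (i + 1) hj) ⟨i + 1, hi⟩ := by
        rw [tr_left, tr_ne _ _ _ _ _ (by omega) (by omega), tr_left,
          tr_ne _ _ _ _ _ (by omega) (by omega)]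
        exact hjd
      have c4 : (w * tr (i + 1) hj * tr i hi) ⟨i + 1, Nat.lt_of_succ_lt hj⟩ <
          (w * tr (i + 1) hj * tr i hi) ⟨i + 1 + 1, hj⟩ := by
        rw [tr_right, tr_ne _ _ _ _ _ (by omega) (by omega),
          tr_ne _ _ _ _ _ (by omega) (by omega), tr_right]
        exact h
      have a1 := IH (w * tr i hi) (by omega) (i + 1) hj c1
      have a2 := IH _ (by omega) i hi c3
      have b1 := IH (w * tr (i + 1) hj) (by omega) i hi c2
      have b2 := IH _ (by omega) (i + 1) hj c4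
      rw [← a1, ← a2, ← b1, ← b2]
      have e : w * tr i hi * tr (i + 1) hj * tr i hi =
          w * tr (i + 1) hj * tr i hi * tr (i + 1) hj := by
        have := tr_braid i hi hj
        rw [mul_assoc w, mul_assoc w, this, mul_assoc w, mul_assoc w]
      rw [e, dd_braid]
    rw [hje]
    rcases lt_trichotomy i j with hij | hij | hij
    · by_cases h6 : i + 1 < j
      · exact far i j hi hj h hjd h6
      · obtain rfl : j = i + 1 := by omega
        exact adj i hi hj h hjd
    · subst hij; rfl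
    · by_cases h6 : j + 1 < i
      · exact (far j i hj hi hjd h h6).symm
      · obtain rfl : i = j + 1 := by omega
        exact (adj j hj hi hjd h).symm

theorem schub_isSchubert (n : ℕ) : IsSchubert n (schub n) := by
  refine ⟨schub_top n, ?_⟩
  intro w i hi hl
  have hd : w ⟨i + 1, hi⟩ < w ⟨i, Nat.lt_of_succ_lt hi⟩ := by
    rcases lt_trichotomy (w ⟨i + 1, hi⟩) (w ⟨i, Nat.lt_of_succ_lt hi⟩) with h | h | h
    · exact h
    · exfalso
      have := w.injective h
      rw [Fin.mk.injEq] at this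
      omega
    · exfalso
      have := len_tr_asc w i hi h
      omega
  have h2 : (w * tr i hi) ⟨i, Nat.lt_of_succ_lt hi⟩ < (w * tr i hi) ⟨i + 1, hi⟩ := by
    rw [tr_left, tr_right]; exact hd
  have h3 := schub_asc n (w * tr i hi) i hi h2
  rw [tr_mul_tr] at h3
  rw [← h3]
  exact dd_spec i (schub n w)

theorem isSchubert_unique (n : ℕ) (S T : Equiv.Perm (Fin n) → Poly) (hS : IsSchubert n S)
    (hT : IsSchubert n T) : S = T := by
  funext w
  revert w
  apply down_ind
  · rw [hS.top, hT.top]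
  · intro w i hi h hw
    rw [← dd_desc hS w i hi h, ← dd_desc hT w i hi h, hw]

/-- The standard elementary monomial `e^1_{a_1} e^2_{a_2} ⋯`. -/
noncomputable def sem (a : ℕ →₀ ℕ) : Poly := a.prod es

lemma sem_eq_FF (a : ℕ →₀ ℕ) (N : ℕ) (h : ∀ i ∈ a.support, i < N + 1) :
    sem a = FF N a := by
  unfold sem FF
  apply Finsupp.prod_of_support_subset
  · intro i hi
    exact Finset.mem_range.mpr (h i hi)
  · intro i _
    exact es_zero i

lemma sem_inC (a : ℕ →₀ ℕ) : InC (sem a) := by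
  intro w
  obtain ⟨N, hN⟩ : ∃ N, (∀ x ∈ w, x < N) ∧ ∀ i ∈ a.support, i < N + 1 := by
    refine ⟨w.sum + ∑ x ∈ a.support, x + 1, ?_, ?_⟩
    · intro x hx
      have := List.single_le_sum (l := w) (by simp) x hx
      omega
    · intro i hi
      have h1 : i ≤ ∑ x ∈ a.support, x :=
        Finset.single_le_sum (f := fun x => x) (s := a.support) (by simp) hi
      omega
  rw [sem_eq_FF a N hN.2]
  exact word_pos w N hN.1 a

lemma sem_ne (a : ℕ →₀ ℕ) (h : ∀ i, a i ≤ i) : sem a ≠ 0 := by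
  unfold sem Finsupp.prod
  rw [Finset.prod_ne_zero_iff]
  intro i _
  exact es_ne_zero i (a i) (h i)

lemma zero_of_sum {ι : Type*} (s : Finset ι) (f : ι → Poly) (h : ∀ i ∈ s, InC (f i))
    (h0 : ∑ i ∈ s, f i = 0) : ∀ i ∈ s, f i = 0 := by
  classical
  intro i hi
  rw [← Finset.add_sum_erase s f hi] at h0
  exact ((h i hi).zero_of_add
    (inC_sum _ _ (fun j hj => h j (Finset.mem_of_mem_erase hj))) h0).1

theorem main {n : ℕ} {S : Equiv.Perm (Fin n) → Poly} (hS : IsSchubert n S)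
    (w : Equiv.Perm (Fin n)) (c : (ℕ →₀ ℕ) →₀ ℤ) (hc : ∀ a ∈ c.support, ∀ i, a i ≤ i)
    (hexp : S w = c.sum fun a k => C k * sem a) (hpos : ∀ a, 0 ≤ c a) :
    ∃ a : ℕ →₀ ℕ, (∀ i, a i ≤ i) ∧ S w = sem a ∧ c = Finsupp.single a 1 := by
  have hne : c.support.Nonempty := by
    rw [Finset.nonempty_iff_ne_empty]
    intro h
    rw [Finsupp.support_eq_empty] at h
    rw [h, Finsupp.sum_zero_index] at hexp
    exact S_ne hS w hexp
  obtain ⟨a, ha⟩ := hne
  have hca : 1 ≤ c a := by
    have h1 := Finsupp.mem_support_iff.mp ha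
    have h2 := hpos a
    omega
  have hsplit : S w = sem a + (C (c a - 1) * sem a +
      ∑ b ∈ c.support.erase a, C (c b) * sem b) := by
    rw [hexp, Finsupp.sum, ← Finset.add_sum_erase _ _ ha, map_sub, map_one]
    ring
  have hrest : InC (∑ b ∈ c.support.erase a, C (c b) * sem b) :=
    inC_sum _ _ (fun b _ => (sem_inC b).smul (hpos b))
  have hfst : InC (C (c a - 1) * sem a) := (sem_inC a).smul (by omega)
  rcases indecomposable hS w _ _ (sem_inC a) (hfst.add hrest) hsplit with h | h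
  · exact absurd h (sem_ne a (hc a ha))
  · refine ⟨a, hc a ha, by rw [hsplit, h, add_zero], ?_⟩
    obtain ⟨h1, h2⟩ := hfst.zero_of_add hrest h
    have h3 : c a = 1 := by
      rcases mul_eq_zero.mp h1 with h4 | h4
      · rw [C_eq_zero] at h4; omega
      · exact absurd h4 (sem_ne a (hc a ha))
    have h5 := zero_of_sum _ _ (fun b _ => (sem_inC b).smul (hpos b)) h2
    ext b
    by_cases hb : b = a
    · rw [hb, Finsupp.single_eq_same, h3]
    · rw [Finsupp.single_eq_of_ne (by simpa using hb)]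
      by_contra hcb
      have hbs : b ∈ c.support := Finsupp.mem_support_iff.mpr hcb
      have h6 := h5 b (Finset.mem_erase.mpr ⟨hb, hbs⟩)
      rcases mul_eq_zero.mp h6 with h7 | h7
      · rw [C_eq_zero] at h7; exact hcb h7
      · exact sem_ne b (hc b hbs) h7

end V11176.Sem
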