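import Mathlib

namespace V11176

/-- Schensted row insertion of `x` in the row `R`: if some entry is larger than `x`, the first such
entry is replaced by `x` and bumped out, otherwise `x` is appended at the end of the row. -/
def rowInsert : List ℕ → ℕ → List ℕ × Option ℕ
  | [], x => ([x], none)
  | y :: R, x => if x < y then (x :: R, some y) else (y :: (rowInsert R x).1, (rowInsert R x).2)

/-- Insertion of `x` in a tableau (list of rows, top row first): row-insert `x` in the first row,
and insert the bumped entry, if any, in the tableau formed by the other rows. -/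
def insT : List (List ℕ) → ℕ → List (List ℕ)
  | [], x => [[x]]
  | R :: T, x =>
    match rowInsert R x with
    | (R', none) => R' :: T
    | (R', some y) => R' :: insT T y

/-- The RSK insertion tableau of a word. -/
def rskP (w : List ℕ) : List (List ℕ) := w.foldl insT []

/-- The index of the (first) row containing `v`. -/
def rowIdx (v : ℕ) : List (List ℕ) → ℕ
  | [] => 0
  | R :: T => if v ∈ R then 0 else rowIdx v T + 1

theorem rowInsert_perm (R : List ℕ) (x : ℕ) :
    List.Perm ((rowInsert R x).1 ++ (rowInsert R x).2.toList) (x :: R) := by
  induction R with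
  | nil => simp [rowInsert]
  | cons y R ih =>
    unfold rowInsert
    split_ifs with h
    · simp only [Option.toList_some, List.cons_append]
      refine List.Perm.cons _ ?_
      exact List.perm_append_singleton y R
    · simp only [List.cons_append]
      exact (List.Perm.cons y ih).trans (List.Perm.swap x y R)

theorem rowInsert_sorted (R : List ℕ) (x : ℕ) (hR : R.Pairwise (· < ·)) (hx : x ∉ R) :
    (rowInsert R x).1.Pairwise (· < ·) := by
  induction R with
  | nil => simp [rowInsert]
  | cons y R ih =>
    unfold rowInsert
    rw [List.pairwise_cons] at hR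
    simp only [List.mem_cons, not_or] at hx
    split_ifs with h
    · simp only [List.pairwise_cons]
      exact ⟨fun a ha => h.trans (hR.1 a ha), hR.2⟩
    · simp only [List.pairwise_cons]
      refine ⟨fun a ha => ?_, ih hR.2 hx.2⟩
      have : a ∈ x :: R := (rowInsert_perm R x).subset (List.mem_append_left _ ha)
      rcases List.mem_cons.1 this with h1 | h1
      · omega
      · exact hR.1 a h1

/-- The bumped entry is larger than `x`, belongs to the row, and is the least such. -/
theorem rowInsert_bump (R : List ℕ) (x y : ℕ) (hR : R.Pairwise (· < ·))
    (h : (rowInsert R x).2 = some y) : x < y ∧ y ∈ R ∧ ∀ z ∈ R, x < z → y ≤ z := by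
  induction R with
  | nil => simp [rowInsert] at h
  | cons u R ih =>
    unfold rowInsert at h
    rw [List.pairwise_cons] at hR
    split_ifs at h with h1
    · simp only [Option.some.injEq] at h
      subst h
      refine ⟨h1, by simp, fun z hz _ => ?_⟩
      rcases List.mem_cons.1 hz with h2 | h2
      · exact h2.ge
      · exact (hR.1 z h2).le
    · simp only at h
      obtain ⟨h2, h3, h4⟩ := ih hR.2 h
      refine ⟨h2, List.mem_cons_of_mem _ h3, fun z hz hxz => ?_⟩
      rcases List.mem_cons.1 hz with h5 | h5
      · omega
      · exact h4 z h5 hxz

theorem rowInsert_none (R : List ℕ) (x : ℕ) (h : (rowInsert R x).2 = none) :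
    ∀ z ∈ R, ¬ x < z := by
  induction R with
  | nil => simp
  | cons u R ih =>
    unfold rowInsert at h
    split_ifs at h with h1
    simp only at h
    intro z hz
    rcases List.mem_cons.1 hz with h5 | h5
    · rw [h5]; exact h1
    · exact ih h z h5

/-- A tableau is good when all rows are strictly increasing and all entries are distinct. -/
def Good (T : List (List ℕ)) : Prop := (∀ R ∈ T, R.Pairwise (· < ·)) ∧ T.flatten.Nodup

theorem insT_cons_none (R : List ℕ) (T : List (List ℕ)) (x : ℕ) (h : (rowInsert R x).2 = none) :
    insT (R :: T) x = (rowInsert R x).1 :: T := by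
  unfold insT
  rcases h2 : rowInsert R x with ⟨R', o⟩
  rw [h2] at h
  simp only at h
  subst h
  rfl

theorem insT_cons_some (R : List ℕ) (T : List (List ℕ)) (x y : ℕ)
    (h : (rowInsert R x).2 = some y) :
    insT (R :: T) x = (rowInsert R x).1 :: insT T y := by
  conv_lhs => unfold insT
  rcases h2 : rowInsert R x with ⟨R', o⟩
  rw [h2] at h
  simp only at h
  subst h
  rfl

theorem insT_perm (T : List (List ℕ)) (x : ℕ) :
    List.Perm (insT T x).flatten (x :: T.flatten) := by
  induction T generalizing x with
  | nil => simp [insT]
  | cons R T ih =>
    have hp := rowInsert_perm R x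
    rcases h : (rowInsert R x).2 with _ | y
    · rw [insT_cons_none _ _ _ h]
      rw [h] at hp
      simp only [Option.toList_none, List.append_nil] at hp
      simp only [List.flatten_cons]
      exact hp.append_right _
    · rw [insT_cons_some _ _ _ _ h]
      rw [h] at hp
      simp only [Option.toList_some] at hp
      simp only [List.flatten_cons]
      refine ((ih y).append_left _).trans ?_
      have : (rowInsert R x).1 ++ y :: T.flatten = ((rowInsert R x).1 ++ [y]) ++ T.flatten := by
        simp
      rw [this]
      exact hp.append_right _

theorem good_tail {R : List ℕ} {T : List (List ℕ)} (h : Good (R :: T)) : Good T := by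
  refine ⟨fun R' hR' => h.1 R' (List.mem_cons_of_mem _ hR'), ?_⟩
  have := h.2
  rw [List.flatten_cons, List.nodup_append] at this
  exact this.2.1

theorem good_insT (T : List (List ℕ)) (x : ℕ) (h : Good T) (hx : x ∉ T.flatten) :
    Good (insT T x) := by
  constructor
  · induction T generalizing x with
    | nil => simp [insT]
    | cons R T ih =>
      have hR := h.1 R (by simp)
      have hxR : x ∉ R := fun h1 => hx (by simp [h1])
      have hs := rowInsert_sorted R x hR hxR
      rcases h2 : (rowInsert R x).2 with _ | y
      · rw [insT_cons_none _ _ _ h2]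
        intro R' hR'
        rcases List.mem_cons.1 hR' with h3 | h3
        · rw [h3]; exact hs
        · exact h.1 R' (List.mem_cons_of_mem _ h3)
      · rw [insT_cons_some _ _ _ _ h2]
        intro R' hR'
        obtain ⟨-, hyR, -⟩ := rowInsert_bump R x y hR h2
        have hyT : y ∉ T.flatten := by
          intro h4
          have := h.2
          rw [List.flatten_cons, List.nodup_append] at this
          exact this.2.2 y hyR y h4 rfl
        rcases List.mem_cons.1 hR' with h3 | h3
        · rw [h3]; exact hs
        · exact ih y (good_tail h) hyT R' h3
  · rw [(insT_perm T x).nodup_iff, List.nodup_cons]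
    exact ⟨hx, h.2⟩

theorem rowIdx_cons_mem {v : ℕ} {R : List ℕ} {T : List (List ℕ)} (h : v ∈ R) :
    rowIdx v (R :: T) = 0 := by simp [rowIdx, h]

theorem rowIdx_cons_not {v : ℕ} {R : List ℕ} {T : List (List ℕ)} (h : v ∉ R) :
    rowIdx v (R :: T) = rowIdx v T + 1 := by simp [rowIdx, h]

/-- membership in the new first row -/
theorem mem_new_row {R : List ℕ} {x v : ℕ} :
    v ∈ (rowInsert R x).1 ∨ (rowInsert R x).2 = some v ↔ v = x ∨ v ∈ R := by
  have hp := (rowInsert_perm R x).mem_iff (a := v)
  simp only [List.mem_append, List.mem_cons, Option.mem_toList] at hp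
  exact hp

/-- inserting `a` when `a+1` is present pushes `a+1` strictly below `a`. -/
theorem ins_low (T : List (List ℕ)) (a : ℕ) (hT : Good T) (ha : a ∉ T.flatten)
    (hb : a + 1 ∈ T.flatten) : rowIdx a (insT T a) < rowIdx (a + 1) (insT T a) := by
  cases T with
  | nil => simp at hb
  | cons R T =>
    have hR := hT.1 R (by simp)
    have haR : a ∉ R := fun h1 => ha (by simp [h1])
    have haT : a ∉ T.flatten := fun h1 => ha (by simp only [List.flatten_cons, List.mem_append]; exact Or.inr h1)
    have hp := rowInsert_perm R a
    have hnd : ((rowInsert R a).1 ++ (rowInsert R a).2.toList).Nodup := by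
      rw [hp.nodup_iff, List.nodup_cons]
      refine ⟨haR, ?_⟩
      have := hT.2
      rw [List.flatten_cons, List.nodup_append] at this
      exact this.1
    rw [List.flatten_cons, List.mem_append] at hb
    rcases h2 : (rowInsert R a).2 with _ | y
    · rw [insT_cons_none _ _ _ h2]
      have hbR : a + 1 ∉ R := fun h3 => rowInsert_none R a h2 _ h3 (by omega)
      have ha' : a ∈ (rowInsert R a).1 := by
        have := (mem_new_row (R := R) (x := a) (v := a)).2 (Or.inl rfl)
        rw [h2] at this
        simpa using this
      have hb' : a + 1 ∉ (rowInsert R a).1 := by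
        intro h3
        rcases (mem_new_row (R := R) (x := a) (v := a + 1)).1 (Or.inl h3) with h4 | h4
        · omega
        · exact hbR h4
      rw [rowIdx_cons_mem ha', rowIdx_cons_not hb']
      omega
    · rw [insT_cons_some _ _ _ _ h2]
      obtain ⟨h3, h4, h5⟩ := rowInsert_bump R a y hR h2
      have ha' : a ∈ (rowInsert R a).1 := by
        have := (mem_new_row (R := R) (x := a) (v := a)).2 (Or.inl rfl)
        rw [h2] at this
        rcases this with h6 | h6
        · exact h6
        · simp only [Option.some.injEq] at h6; omega
      have hb' : a + 1 ∉ (rowInsert R a).1 := by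
        intro h6
        rcases (mem_new_row (R := R) (x := a) (v := a + 1)).1 (Or.inl h6) with h7 | h7
        · omega
        · have := h5 _ h7 (by omega)
          have h8 : y = a + 1 := by omega
          rw [h2, h8] at hnd
          simp only [Option.toList_some] at hnd
          rw [List.nodup_append] at hnd
          exact hnd.2.2 _ h6 (a + 1) (by simp) rfl
      rw [rowIdx_cons_mem ha', rowIdx_cons_not hb']
      omega

/-- inserting `a+1` when `a` is present leaves `a+1` weakly above `a`. -/
theorem ins_high (T : List (List ℕ)) (b : ℕ) (hT : Good T) (v : ℕ) :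
    rowIdx b (insT T b) ≤ rowIdx v (insT T b) := by
  cases T with
  | nil => simp [insT, rowIdx]
  | cons R T =>
    have hR := hT.1 R (by simp)
    rcases h2 : (rowInsert R b).2 with _ | y
    · rw [insT_cons_none _ _ _ h2]
      have ha' : b ∈ (rowInsert R b).1 := by
        have := (mem_new_row (R := R) (x := b) (v := b)).2 (Or.inl rfl)
        rw [h2] at this
        simpa using this
      rw [rowIdx_cons_mem ha']
      omega
    · rw [insT_cons_some _ _ _ _ h2]
      obtain ⟨h3, h4, h5⟩ := rowInsert_bump R b y hR h2
      have ha' : b ∈ (rowInsert R b).1 := by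
        have := (mem_new_row (R := R) (x := b) (v := b)).2 (Or.inl rfl)
        rw [h2] at this
        rcases this with h6 | h6
        · exact h6
        · simp only [Option.some.injEq] at h6; omega
      rw [rowIdx_cons_mem ha']
      omega

/-- inserting another entry keeps the relative position of the rows of `a` and `a+1`. -/
theorem ins_other (T : List (List ℕ)) (a x : ℕ) (hT : Good T) (hx : x ∉ T.flatten)
    (ha : a ∈ T.flatten) (hb : a + 1 ∈ T.flatten) :
    (rowIdx a (insT T x) < rowIdx (a + 1) (insT T x)) ↔ (rowIdx a T < rowIdx (a + 1) T) := by
  induction T generalizing x with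
  | nil => simp at ha
  | cons R T ih =>
    have hR := hT.1 R (by simp)
    have hxR : x ∉ R := fun h1 => hx (by simp [h1])
    have hxa : x ≠ a := fun h => hx (h ▸ ha)
    have hxb : x ≠ a + 1 := fun h => hx (h ▸ hb)
    have hnd' : R.Nodup ∧ T.flatten.Nodup ∧ ∀ v ∈ R, v ∉ T.flatten := by
      have := hT.2
      rw [List.flatten_cons, List.nodup_append] at this
      exact ⟨this.1, this.2.1, fun v h1 h2 => this.2.2 v h1 v h2 rfl⟩
    have hp := rowInsert_perm R x
    have hnd : ((rowInsert R x).1 ++ (rowInsert R x).2.toList).Nodup := by
      rw [hp.nodup_iff, List.nodup_cons]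
      exact ⟨hxR, hnd'.1⟩
    rw [List.flatten_cons, List.mem_append] at ha hb
    have key : ∀ v, v ≠ x → (v ∈ (rowInsert R x).1 ↔ v ∈ R ∧ (rowInsert R x).2 ≠ some v) := by
      intro v hv
      have h0 := mem_new_row (R := R) (x := x) (v := v)
      constructor
      · intro h
        refine ⟨(h0.1 (Or.inl h)).resolve_left hv, fun h1 => ?_⟩
        rw [h1, List.nodup_append] at hnd
        exact hnd.2.2 v h v (by simp) rfl
      · rintro ⟨h, h1⟩
        exact (h0.2 (Or.inr h)).resolve_right h1
    have ka := key a hxa.symm
    have kb := key (a + 1) hxb.symm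
    rcases h2 : (rowInsert R x).2 with _ | y
    · rw [insT_cons_none _ _ _ h2]
      rw [h2] at ka kb
      simp only [ne_eq, reduceCtorEq, not_false_eq_true, and_true] at ka kb
      unfold rowIdx
      simp only [ka, kb]
    · rw [insT_cons_some _ _ _ _ h2]
      obtain ⟨h3, h4, h5⟩ := rowInsert_bump R x y hR h2
      rw [h2] at ka kb
      simp only [ne_eq, Option.some.injEq] at ka kb
      have hyT : y ∉ T.flatten := hnd'.2.2 y h4
      by_cases hya : y = a
      · -- a is bumped
        subst hya
        have ha1 : y ∉ (rowInsert R x).1 := by rw [ka]; tauto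
        by_cases hbR : y + 1 ∈ R
        · have hb1 : y + 1 ∈ (rowInsert R x).1 := by rw [kb]; exact ⟨hbR, by omega⟩
          rw [rowIdx_cons_mem hb1, rowIdx_cons_mem hbR]
          omega
        · have hb1 : y + 1 ∉ (rowInsert R x).1 := by rw [kb]; tauto
          rw [rowIdx_cons_not ha1, rowIdx_cons_not hb1, rowIdx_cons_mem h4, rowIdx_cons_not hbR]
          have := ins_low T y (good_tail hT) hyT (hb.resolve_left hbR)
          constructor
          · intro _; omega
          · intro _; omega
      · by_cases hyb : y = a + 1
        · subst hyb
          have hb1 : a + 1 ∉ (rowInsert R x).1 := by rw [kb]; tauto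
          have haR : a ∉ R := by
            intro h6
            have := h5 a h6
            omega
          have ha1 : a ∉ (rowInsert R x).1 := by rw [ka]; tauto
          rw [rowIdx_cons_not ha1, rowIdx_cons_not hb1, rowIdx_cons_mem h4, rowIdx_cons_not haR]
          have := ins_high T (a + 1) (good_tail hT) a
          constructor
          · intro _; omega
          · intro _; omega
        · have ka' : a ∈ (rowInsert R x).1 ↔ a ∈ R := by rw [ka]; tauto
          have kb' : a + 1 ∈ (rowInsert R x).1 ↔ a + 1 ∈ R := by rw [kb]; tauto
          by_cases haR : a ∈ R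
          · rw [rowIdx_cons_mem (ka'.2 haR), rowIdx_cons_mem haR]
            by_cases hbR : a + 1 ∈ R
            · rw [rowIdx_cons_mem (kb'.2 hbR), rowIdx_cons_mem hbR]
            · have hb1 : a + 1 ∉ (rowInsert R x).1 := by rw [kb']; exact hbR
              rw [rowIdx_cons_not hb1, rowIdx_cons_not hbR]
              omega
          · have ha1 : a ∉ (rowInsert R x).1 := by rw [ka']; exact haR
            by_cases hbR : a + 1 ∈ R
            · rw [rowIdx_cons_mem (kb'.2 hbR), rowIdx_cons_mem hbR]
              omega
            · have hb1 : a + 1 ∉ (rowInsert R x).1 := by rw [kb']; exact hbR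
              rw [rowIdx_cons_not hb1, rowIdx_cons_not hbR, rowIdx_cons_not ha1,
                rowIdx_cons_not haR]
              have := ih y (good_tail hT) hyT (ha.resolve_left haR) (hb.resolve_left hbR)
              omega

theorem rskP_append (w : List ℕ) (x : ℕ) : rskP (w ++ [x]) = insT (rskP w) x := by
  simp [rskP, List.foldl_append]

theorem rskP_perm (w : List ℕ) : List.Perm (rskP w).flatten w := by
  induction w using List.reverseRecOn with
  | nil => simp [rskP]
  | append_singleton w x ih =>
    rw [rskP_append]
    exact (insT_perm _ x).trans ((List.Perm.cons x ih).trans (List.perm_append_singleton x w).symm)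

theorem rskP_good (w : List ℕ) (hw : w.Nodup) : Good (rskP w) := by
  induction w using List.reverseRecOn with
  | nil => simp [rskP, Good]
  | append_singleton w x ih =>
    rw [rskP_append]
    rw [List.nodup_append] at hw
    refine good_insT _ x (ih hw.1) ?_
    rw [(rskP_perm w).mem_iff]
    intro h
    exact hw.2.2 x h x (by simp) rfl

/-- The classical description of the descents of the insertion tableau. -/
theorem rskP_descent (w : List ℕ) (hw : w.Nodup) (a : ℕ) (ha : a ∈ w) (hb : a + 1 ∈ w) :
    (rowIdx a (rskP w) < rowIdx (a + 1) (rskP w)) ↔ w.idxOf (a + 1) < w.idxOf a := by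
  induction w using List.reverseRecOn with
  | nil => simp at ha
  | append_singleton w x ih =>
    rw [rskP_append]
    rw [List.nodup_append] at hw
    have hxw : x ∉ w := fun h => hw.2.2 x h x (by simp) rfl
    have hg := rskP_good w hw.1
    have hxT : x ∉ (rskP w).flatten := by rw [(rskP_perm w).mem_iff]; exact hxw
    by_cases hxa : x = a
    · subst hxa
      have hb' : x + 1 ∈ w := by
        rcases List.mem_append.1 hb with h | h
        · exact h
        · simp at h
      have h1 := ins_low (rskP w) x hg hxT (by rw [(rskP_perm w).mem_iff]; exact hb')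
      rw [List.idxOf_append_of_mem hb', List.idxOf_append_of_notMem hxw]
      have h2 := List.idxOf_lt_length_of_mem hb'
      constructor
      · intro _; omega
      · intro _; exact h1
    · by_cases hxb : x = a + 1
      · subst hxb
        have ha' : a ∈ w := by
          rcases List.mem_append.1 ha with h | h
          · exact h
          · simp at h
        have h1 := ins_high (rskP w) (a + 1) hg a
        rw [List.idxOf_append_of_mem ha', List.idxOf_append_of_notMem hxw]
        have h2 := List.idxOf_lt_length_of_mem ha'
        constructor
        · intro _; omega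
        · intro _; omega
      · have ha' : a ∈ w := by
          rcases List.mem_append.1 ha with h | h
          · exact h
          · simp at h; omega
        have hb' : a + 1 ∈ w := by
          rcases List.mem_append.1 hb with h | h
          · exact h
          · simp at h; omega
        rw [List.idxOf_append_of_mem ha', List.idxOf_append_of_mem hb', ← ih hw.1 ha' hb']
        exact ins_other (rskP w) a x hg hxT (by rw [(rskP_perm w).mem_iff]; exact ha')
          (by rw [(rskP_perm w).mem_iff]; exact hb')

end V11176
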