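import Mathlib
import Pool.Agent.V11176.RSK
import Pool.Agent.V11176.JackCount

open Finset

namespace V11176

variable {n : ℕ}

open Classical in
theorem card_monotone (m a : ℕ) : #{g : Fin m → Fin a | Monotone g} = Nat.multichoose a m := by
  rw [← Sym.card_sym_fin_eq_multichoose, ← Finset.card_univ]
  refine Finset.card_nbij (fun g => (⟨(univ.val.map g), by simp⟩ : Sym (Fin a) m)) (by simp) ?_ ?_
  · intro g hg g' hg' h
    simp only [coe_filter, mem_univ, true_and, Set.mem_ofPred_eq] at hg hg'
    have h1 : (univ.val.map g) = (univ.val.map g') := by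
      have := congrArg Subtype.val h
      exact this
    rw [Fin.univ_val_map, Fin.univ_val_map, Multiset.coe_eq_coe] at h1
    exact List.ofFn_injective (h1.eq_of_pairwise' hg.sortedLE_ofFn.pairwise
      hg'.sortedLE_ofFn.pairwise)
  · rintro ⟨s, hs⟩ -
    obtain ⟨l, rfl⟩ := Quot.exists_rep s
    have hl : l.length = m := by simpa using hs
    subst hl
    refine ⟨l.get ∘ Tuple.sort l.get, ?_, ?_⟩
    · simp only [coe_filter, mem_univ, true_and, Set.mem_ofPred_eq]
      exact Tuple.monotone_sort _
    · apply Subtype.ext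
      simp only
      rw [Fin.univ_val_map]
      have h1 := Equiv.Perm.ofFn_comp_perm (Tuple.sort l.get) l.get
      rw [List.ofFn_get] at h1
      exact Quot.sound h1

open Classical in
theorem card_monotone' (S : Finset (Fin n)) (a : ℕ) :
    #{g : S → Fin a | Monotone g} = Nat.multichoose a (#S) := by
  rw [← card_monotone]
  have e := S.orderIsoOfFin rfl
  refine Finset.card_nbij' (fun g => g ∘ e) (fun g => g ∘ e.symm) ?_ ?_ ?_ ?_
  · intro g hg
    simp only [coe_filter, mem_univ, true_and, Set.mem_ofPred_eq] at hg ⊢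
    exact hg.comp e.monotone
  · intro g hg
    simp only [coe_filter, mem_univ, true_and, Set.mem_ofPred_eq] at hg ⊢
    exact hg.comp e.symm.monotone
  · intro g _
    ext x; simp
  · intro g _
    ext x; simp

open Classical in
theorem card_WInc (r : Fin n → ℕ) (a : ℕ) :
    #{κ : Fin n → Fin a | WInc r κ} =
      ∏ x ∈ univ.image r, Nat.multichoose a (#{v | r v = x}) := by
  rw [← Finset.prod_coe_sort]
  have h1 : ∀ x : (univ.image r : Finset ℕ), Nat.multichoose a (#{v | r v = (x : ℕ)}) =
      #{g : (univ.filter (fun v => r v = (x : ℕ)) : Finset (Fin n)) → Fin a | Monotone g} := by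
    intro x
    rw [card_monotone']
  simp_rw [h1]
  rw [← Fintype.card_piFinset]
  refine Finset.card_nbij' (fun κ => fun x v => κ v.1)
    (fun h => fun v => h ⟨r v, by simp⟩ ⟨v, by simp⟩) ?_ ?_ ?_ ?_
  · intro κ hκ
    simp only [coe_filter, mem_univ, true_and, Set.mem_ofPred_eq, mem_coe,
      Fintype.mem_piFinset, mem_filter] at hκ ⊢
    rintro x ⟨u, hu⟩ ⟨v, hv⟩ huv
    simp only [mem_filter, mem_univ, true_and] at hu hv
    simp only [Subtype.mk_le_mk] at huv
    rcases huv.eq_or_lt with h | h
    · subst h; exact le_rfl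
    · exact hκ u v h (hu.trans hv.symm)
  · intro h hh
    simp only [coe_filter, mem_univ, true_and, Set.mem_ofPred_eq, mem_coe,
      Fintype.mem_piFinset, mem_filter] at hh ⊢
    intro u v huv hr
    have key : ∀ (x : ℕ) (hx : x ∈ univ.image r) (hu : r u = x) (hv : r v = x),
        h ⟨x, hx⟩ ⟨u, by simp [hu]⟩ ≤ h ⟨x, hx⟩ ⟨v, by simp [hv]⟩ := by
      intro x hx hu hv
      exact hh ⟨x, hx⟩ (by simpa using huv.le)
    have k2 : ∀ (x : ℕ) (hx : x ∈ univ.image r) (hv : r v = x),
        h ⟨r v, by simp⟩ ⟨v, by simp⟩ = h ⟨x, hx⟩ ⟨v, by simp [hv]⟩ := by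
      intro x hx hv
      subst hv
      rfl
    have k3 := k2 (r u) (by simp) hr.symm
    have k4 := key (r u) (by simp) rfl hr.symm
    exact k4.trans k3.symm.le
  · intro κ _
    rfl
  · intro h _
    funext ⟨x, hx⟩ ⟨v, hv⟩
    have hv' : r v = x := by simpa using hv
    subst hv'
    rfl

/-- The set partition into fibres. -/
noncomputable def kerP {a : ℕ} (κ : Fin n → Fin a) : Finpartition (univ : Finset (Fin n)) :=
  letI : DecidableRel (Setoid.ker κ).r := Classical.decRel _
  Finpartition.ofSetoid (Setoid.ker κ)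

theorem mem_kerP {a : ℕ} (κ : Fin n → Fin a) (u v : Fin n) :
    v ∈ (kerP κ).part u ↔ κ u = κ v := by
  letI : DecidableRel (Setoid.ker κ).r := Classical.decRel _
  exact Finpartition.mem_part_ofSetoid_iff_rel

theorem finpartition_ext (P Q : Finpartition (univ : Finset (Fin n)))
    (h : ∀ u, P.part u = Q.part u) : P = Q := by
  have key : ∀ P Q : Finpartition (univ : Finset (Fin n)), (∀ u, P.part u = Q.part u) →
      ∀ B ∈ P.parts, B ∈ Q.parts := by
    intro P Q h B hB
    obtain ⟨u, hu⟩ := P.nonempty_of_mem_parts hB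
    rw [← P.part_eq_of_mem hB hu, h u]
    exact Q.part_mem.2 (mem_univ _)
  apply Finpartition.ext
  ext B
  exact ⟨key P Q h B, key Q P (fun u => (h u).symm) B⟩

open Classical in
theorem card_kerP (a : ℕ) (β : Finpartition (univ : Finset (Fin n))) :
    #{κ : Fin n → Fin a | kerP κ = β} = a.descFactorial (#β.parts) := by
  have h0 : a.descFactorial (#β.parts) = Fintype.card (β.parts ↪ Fin a) := by
    rw [Fintype.card_embedding_eq]
    simp
  rw [h0, ← Finset.card_univ]
  symm
  refine Finset.card_nbij (fun g => fun v => g ⟨β.part v, β.part_mem.2 (mem_univ _)⟩) ?_ ?_ ?_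
  · intro g _
    simp only [coe_filter, mem_univ, true_and, Set.mem_ofPred_eq]
    apply finpartition_ext
    intro u
    ext v
    rw [mem_kerP]
    rw [g.injective.eq_iff, Subtype.mk.injEq,
      β.mem_part_iff_part_eq_part (mem_univ _) (mem_univ _)]
    exact eq_comm
  · intro g _ g' _ h
    ext ⟨B, hB⟩
    obtain ⟨u, hu⟩ := β.nonempty_of_mem_parts hB
    have h1 := congr_fun h u
    simp only at h1
    have h2 : (⟨β.part u, β.part_mem.2 (mem_univ _)⟩ : β.parts) = ⟨B, hB⟩ :=
      Subtype.ext (β.part_eq_of_mem hB hu)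
    rw [h2] at h1
    rw [h1]
  · intro κ hκ
    simp only [coe_filter, mem_univ, true_and, Set.mem_ofPred_eq] at hκ
    have hch : ∀ B : β.parts, ∃ u, u ∈ B.1 := fun B => β.nonempty_of_mem_parts B.2
    choose f hf using hch
    have hpart : ∀ B : β.parts, β.part (f B) = B.1 := fun B => β.part_eq_of_mem B.2 (hf B)
    have hk : ∀ u v, κ u = κ v ↔ β.part u = β.part v := by
      intro u v
      rw [← mem_kerP, hκ, β.mem_part_iff_part_eq_part (mem_univ _) (mem_univ _)]
      exact eq_comm
    refine ⟨⟨fun B => κ (f B), fun B B' h => ?_⟩, by simp, ?_⟩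
    · have := (hk _ _).1 h
      rw [hpart, hpart] at this
      exact Subtype.ext this
    · funext v
      simp only [Function.Embedding.coeFn_mk]
      rw [hk, hpart]

theorem sum_kerP {R : Type*} [CommSemiring R] (a : ℕ)
    (G : Finpartition (univ : Finset (Fin n)) → R) :
    ∑ β : Finpartition (univ : Finset (Fin n)), (a.descFactorial (#β.parts) : R) * G β =
      ∑ κ : Fin n → Fin a, G (kerP κ) := by
  classical
  rw [← Finset.sum_fiberwise (univ : Finset (Fin n → Fin a)) kerP (fun κ => G (kerP κ))]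
  refine Finset.sum_congr rfl fun β _ => ?_
  rw [Finset.sum_congr rfl (g := fun _ => G β) (fun κ hκ => by rw [(mem_filter.1 hκ).2])]
  rw [Finset.sum_const, card_kerP, nsmul_eq_mul]

/-- `f_β(π)`: the position `i` is occupied in `π` by an element of the block `B = β.part (π i)`;
if `k` earlier positions are also occupied by elements of `B`, then position `i` receives the
`k`-th smallest (counting from `0`) element of `B`. -/
def refill (β : Finpartition (univ : Finset (Fin n))) (π : Equiv.Perm (Fin n)) (i : Fin n) :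
    Fin n :=
  ((β.part (π i)).sort (· ≤ ·)).getD (#{j | j < i ∧ π j ∈ β.part (π i)}) (π i)

theorem sort_getD (s : Finset (Fin n)) (x d : Fin n) (hx : x ∈ s) :
    (s.sort (· ≤ ·)).getD (#{y ∈ s | y < x}) d = x := by
  set L := s.sort (· ≤ ·) with hL
  have hxL : x ∈ L := by rw [hL, Finset.mem_sort]; exact hx
  have hsort : L.Pairwise (· < ·) := by
    rw [hL]; exact (Finset.sortedLT_sort s).pairwise
  obtain ⟨m, hm, rfl⟩ := List.getElem_of_mem hxL
  have h1 : ({y ∈ s | y < L[m]} : Finset (Fin n)) = (L.take m).toFinset := by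
    ext y
    simp only [mem_filter, List.mem_toFinset]
    have hys : y ∈ s ↔ y ∈ L := by rw [hL, Finset.mem_sort]
    rw [hys]
    constructor
    · rintro ⟨h2, h3⟩
      obtain ⟨k, hk, rfl⟩ := List.getElem_of_mem h2
      rw [List.mem_take_iff_getElem]
      refine ⟨k, ?_, rfl⟩
      rw [lt_min_iff]
      refine ⟨?_, hk⟩
      by_contra hc
      rcases (not_lt.1 hc).eq_or_lt with h4 | h4
      · subst h4; exact lt_irrefl _ h3
      · have := List.pairwise_iff_getElem.1 hsort m k hm hk h4
        exact lt_asymm h3 this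
    · intro h2
      obtain ⟨k, hk, rfl⟩ := List.mem_take_iff_getElem.1 h2
      rw [lt_min_iff] at hk
      exact ⟨List.getElem_mem _, List.pairwise_iff_getElem.1 hsort k m hk.2 hm hk.1⟩
  rw [h1, List.toFinset_card_of_nodup
    ((List.take_sublist _ _).nodup (hL ▸ Finset.sort_nodup s (· ≤ ·))),
    List.length_take, min_eq_left hm.le]
  rw [List.getD_eq_getElem _ _ hm]

theorem refill_kerP {a : ℕ} (κ : Fin n → Fin a) (π : Equiv.Perm (Fin n)) (i : Fin n) :
    refill (kerP κ) π i = stdE (κ ∘ π) κ i := by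
  obtain ⟨h1, h2⟩ := stdE_spec (κ ∘ π) κ π (fun i => rfl)
  set w := stdE (κ ∘ π) κ with hw
  unfold refill
  have hmem : w i ∈ (kerP κ).part (π i) := by
    rw [mem_kerP, h1]; rfl
  have hcard : #{j | j < i ∧ π j ∈ (kerP κ).part (π i)} =
      #{y ∈ (kerP κ).part (π i) | y < w i} := by
    refine Finset.card_nbij' (fun j => w j) (fun y => w.symm y) ?_ ?_ ?_ ?_
    · intro j hj
      simp only [coe_filter, mem_univ, true_and, Set.mem_ofPred_eq, mem_kerP] at hj ⊢
      refine ⟨by rw [h1]; exact hj.2, h2 j i hj.1 ?_⟩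
      exact hj.2.symm
    · intro y hy
      simp only [coe_filter, mem_univ, true_and, Set.mem_ofPred_eq, mem_kerP] at hy ⊢
      have h3 := h1 (w.symm y)
      simp only [Equiv.apply_symm_apply, Function.comp] at h3
      refine ⟨?_, by rw [hy.1, h3]⟩
      by_contra hc
      rcases (not_lt.1 hc).eq_or_lt with h4 | h4
      · rw [h4] at hy; simp at hy
      · have h5 := h2 i (w.symm y) h4 (by
          simp only [Function.comp]
          rw [hy.1, h3])
        simp only [Equiv.apply_symm_apply] at h5
        exact lt_asymm hy.2 h5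
    · intro j _; simp
    · intro y _; simp
  rw [hcard]
  exact sort_getD _ _ _ hmem

/-- The word of `w`. -/
theorem idxOf_word (w : Equiv.Perm (Fin n)) (v : Fin n) :
    (List.ofFn (fun i => ((w i : Fin n) : ℕ))).idxOf (v : ℕ) = (w.symm v : ℕ) := by
  have hnd : (List.ofFn (fun i => ((w i : Fin n) : ℕ))).Nodup :=
    List.nodup_ofFn.2 (fun i j h => w.injective (Fin.ext h))
  have hlen : ((w.symm v : Fin n) : ℕ) < (List.ofFn (fun i => ((w i : Fin n) : ℕ))).length := by
    simp
  have h1 := hnd.idxOf_getElem (w.symm v : ℕ) hlen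
  simpa using h1

/-- Cells `j` (counted from `0`) such that `j+1` lies in a row strictly below the row of `j`. -/
def desSet (n : ℕ) (T : List (List ℕ)) : Set ℕ :=
  {j | j + 1 < n ∧ rowIdx j T < rowIdx (j + 1) T}

theorem mem_desSet (w : Equiv.Perm (Fin n)) (j : ℕ) (hj : j + 1 < n) :
    j ∈ desSet n (rskP (List.ofFn (fun i => ((w i : Fin n) : ℕ)))) ↔
      w.symm ⟨j + 1, hj⟩ < w.symm ⟨j, by omega⟩ := by
  have hnd : (List.ofFn (fun i => ((w i : Fin n) : ℕ))).Nodup :=
    List.nodup_ofFn.2 (fun i j h => w.injective (Fin.ext h))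
  have hm : ∀ v : Fin n, (v : ℕ) ∈ List.ofFn (fun i => ((w i : Fin n) : ℕ)) := by
    intro v
    rw [List.mem_ofFn]
    exact ⟨w.symm v, by simp⟩
  have h1 := rskP_descent _ hnd j (hm ⟨j, by omega⟩) (hm ⟨j + 1, hj⟩)
  have e1 := idxOf_word w ⟨j, by omega⟩
  have e2 := idxOf_word w ⟨j + 1, hj⟩
  simp only at e1 e2
  rw [e1, e2] at h1
  unfold desSet
  simp only [Set.mem_ofPred_eq, hj, true_and]
  rw [h1]
  exact Iff.rfl

theorem strict_iff (w : Equiv.Perm (Fin n)) (r : Fin n → ℕ) (hr : Monotone r) :
    (∀ j (h : j + 1 < n), j ∈ desSet n (rskP (List.ofFn (fun i => ((w i : Fin n) : ℕ)))) →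
      r ⟨j, by omega⟩ < r ⟨j + 1, h⟩) ↔ IncOn r w.symm := by
  constructor
  · intro H
    have key : ∀ d : ℕ, ∀ u v : Fin n, (v : ℕ) = u + d + 1 → r u = r v →
        w.symm u < w.symm v := by
      intro d
      induction d with
      | zero =>
        intro u v huv h
        have hv : (u : ℕ) + 1 < n := by have := v.2; omega
        have ev : v = ⟨u + 1, hv⟩ := Fin.ext (by simpa using huv)
        by_contra hc
        have hne : w.symm v ≠ w.symm u := fun h2 => by
          have := w.symm.injective h2
          rw [this] at huv; omega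
        have hlt : w.symm v < w.symm u := by omega
        have h3 := H u hv ((mem_desSet w u hv).2 (by rw [← ev]; exact hlt))
        rw [← ev] at h3
        simp only [Fin.eta] at h3
        omega
      | succ d ih =>
        intro u v huv h
        have hv : (u : ℕ) + d + 1 < n := by have := v.2; omega
        have h1 : r u = r ⟨u + d + 1, hv⟩ := by
          refine le_antisymm (hr ?_) ?_
          · rw [Fin.le_def]; simp only; omega
          · rw [h]; apply hr; rw [Fin.le_def]; simp only; omega
        have h2 := ih u ⟨u + d + 1, hv⟩ rfl h1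
        have h3 : r ⟨u + d + 1, hv⟩ = r v := by rw [← h1, h]
        have hv' : (u : ℕ) + d + 1 + 1 < n := by have := v.2; omega
        have ev : v = ⟨u + d + 1 + 1, hv'⟩ := Fin.ext (by simp only; omega)
        by_contra hc
        have hlt : w.symm v < w.symm ⟨u + d + 1, hv⟩ := lt_of_le_of_lt (not_lt.1 hc) h2
        have h4 := H (u + d + 1) hv' ((mem_desSet w _ hv').2 (by rw [← ev]; exact hlt))
        rw [← ev] at h4
        omega
    intro u v huv h
    refine key (v - u - 1) u v ?_ h
    rw [Fin.lt_def] at huv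
    omega
  · intro H j hj hjd
    rw [mem_desSet w j hj] at hjd
    have hle : r ⟨j, by omega⟩ ≤ r ⟨j + 1, hj⟩ := hr (by rw [Fin.le_def]; simp)
    rcases hle.eq_or_lt with h | h
    · have := H ⟨j, by omega⟩ ⟨j + 1, hj⟩ (by rw [Fin.lt_def]; simp) h
      omega
    · exact h

end V11176
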