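import Mathlib

/-!
# Algebraic power series are diagonals of rational series, with nonnegative coefficients
-/

namespace Pool.Agent.V11176.Diag

open Finset

abbrev B := MvPowerSeries (Fin 2) ℚ

/-- the exponent `(i,j)` -/
noncomputable def mon (i j : ℕ) : Fin 2 →₀ ℕ := Finsupp.single 0 i + Finsupp.single 1 j

@[simp] theorem mon_zero (i j : ℕ) : mon i j 0 = i := by simp [mon]

@[simp] theorem mon_one (i j : ℕ) : mon i j 1 = j := by simp [mon]

theorem mon_eta (m : Fin 2 →₀ ℕ) : mon (m 0) (m 1) = m := by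
  ext i
  fin_cases i <;> simp

theorem ext_iff' {m m' : Fin 2 →₀ ℕ} : m = m' ↔ m 0 = m' 0 ∧ m 1 = m' 1 := by
  constructor
  · rintro rfl
    exact ⟨rfl, rfl⟩
  · rintro ⟨h1, h2⟩
    ext i
    fin_cases i
    · exact h1
    · exact h2

/-! ### The substitution `t ↦ xy` -/

/-- `f ↦ f(xy)` -/
noncomputable def phi : PowerSeries ℚ →+* B where
  toFun f := fun m => if m 0 = m 1 then PowerSeries.coeff (m 0) f else 0
  map_zero' := by
    funext m
    simp
    rfl
  map_add' f g := by
    funext m
    show _ = (if m 0 = m 1 then PowerSeries.coeff (m 0) f else 0) +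
      (if m 0 = m 1 then PowerSeries.coeff (m 0) g else 0)
    split_ifs <;> simp
  map_one' := by
    ext m
    show (if m 0 = m 1 then PowerSeries.coeff (m 0) (1 : PowerSeries ℚ) else 0) = _
    rw [MvPowerSeries.coeff_one, PowerSeries.coeff_one]
    by_cases h : m = 0
    · subst h
      simp
    · rw [if_neg h]
      by_cases h2 : m 0 = m 1
      · rw [if_pos h2, if_neg]
        intro h3
        apply h
        rw [ext_iff']
        simp only [Finsupp.coe_zero, Pi.zero_apply]
        omega
      · rw [if_neg h2]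
  map_mul' f g := by
    ext m
    show (if m 0 = m 1 then PowerSeries.coeff (m 0) (f * g) else 0) = _
    rw [MvPowerSeries.coeff_mul]
    show _ = ∑ p ∈ antidiagonal m, (if p.1 0 = p.1 1 then PowerSeries.coeff (p.1 0) f else 0) *
      (if p.2 0 = p.2 1 then PowerSeries.coeff (p.2 0) g else 0)
    by_cases h : m 0 = m 1
    · rw [if_pos h, PowerSeries.coeff_mul]
      have h1 : ∑ p ∈ antidiagonal m, (if p.1 0 = p.1 1 then PowerSeries.coeff (p.1 0) f else 0) *
          (if p.2 0 = p.2 1 then PowerSeries.coeff (p.2 0) g else 0) =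
          ∑ p ∈ (antidiagonal m).filter (fun p => p.1 0 = p.1 1),
            PowerSeries.coeff (p.1 0) f * PowerSeries.coeff (p.2 0) g := by
        rw [sum_filter]
        apply sum_congr rfl
        intro p hp
        rw [HasAntidiagonal.mem_antidiagonal] at hp
        by_cases h2 : p.1 0 = p.1 1
        · have h3 : p.2 0 = p.2 1 := by
            have e0 : p.1 0 + p.2 0 = m 0 := by rw [← hp]; rfl
            have e1 : p.1 1 + p.2 1 = m 1 := by rw [← hp]; rfl
            omega
          rw [if_pos h2, if_pos h3, if_pos h2]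
        · rw [if_neg h2, if_neg h2, zero_mul]
      rw [h1]
      symm
      refine sum_nbij' (fun p => (p.1 0, p.2 0)) (fun p => (mon p.1 p.1, mon p.2 p.2)) ?_ ?_ ?_ ?_ ?_
      · intro p hp
        rw [mem_filter, HasAntidiagonal.mem_antidiagonal] at hp
        rw [HasAntidiagonal.mem_antidiagonal, ← hp.1]
        rfl
      · intro p hp
        rw [HasAntidiagonal.mem_antidiagonal] at hp
        rw [mem_filter, HasAntidiagonal.mem_antidiagonal]
        refine ⟨?_, by simp⟩
        rw [ext_iff']
        simp only [Finsupp.coe_add, Pi.add_apply, mon_zero, mon_one]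
        omega
      · intro p hp
        rw [mem_filter, HasAntidiagonal.mem_antidiagonal] at hp
        have e0 : p.1 0 + p.2 0 = m 0 := by rw [← hp.1]; rfl
        have e1 : p.1 1 + p.2 1 = m 1 := by rw [← hp.1]; rfl
        have e2 := hp.2
        show (mon (p.1 0) (p.1 0), mon (p.2 0) (p.2 0)) = p
        refine Prod.ext ?_ ?_
        · show mon (p.1 0) (p.1 0) = p.1
          rw [ext_iff', mon_zero, mon_one]
          omega
        · show mon (p.2 0) (p.2 0) = p.2
          rw [ext_iff', mon_zero, mon_one]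
          omega
      · intro p _
        simp
      · intro p _
        rfl
    · rw [if_neg h]
      symm
      apply sum_eq_zero
      intro p hp
      rw [HasAntidiagonal.mem_antidiagonal] at hp
      have e0 : p.1 0 + p.2 0 = m 0 := by rw [← hp]; rfl
      have e1 : p.1 1 + p.2 1 = m 1 := by rw [← hp]; rfl
      by_cases h2 : p.1 0 = p.1 1
      · rw [if_neg (by omega : ¬ p.2 0 = p.2 1), mul_zero]
      · rw [if_neg h2, zero_mul]

theorem coeff_phi (m : Fin 2 →₀ ℕ) (f : PowerSeries ℚ) :
    MvPowerSeries.coeff m (phi f) = if m 0 = m 1 then PowerSeries.coeff (m 0) f else 0 := rfl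

theorem phi_C (a : ℚ) : phi (PowerSeries.C a) = MvPowerSeries.C a := by
  ext m
  rw [coeff_phi, PowerSeries.coeff_C, MvPowerSeries.coeff_C]
  by_cases h : m = 0
  · subst h
    simp
  · rw [if_neg h]
    by_cases h2 : m 0 = m 1
    · rw [if_pos h2, if_neg]
      intro h3
      apply h
      rw [ext_iff']
      simp only [Finsupp.coe_zero, Pi.zero_apply]
      omega
    · rw [if_neg h2]

theorem phi_X : phi PowerSeries.X = (MvPowerSeries.X 0 * MvPowerSeries.X 1 : B) := by
  ext m
  rw [coeff_phi, PowerSeries.coeff_X]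
  have h1 : (MvPowerSeries.X 0 * MvPowerSeries.X 1 : B) = MvPowerSeries.monomial (mon 1 1) 1 := by
    unfold MvPowerSeries.X mon
    rw [MvPowerSeries.monomial_mul_monomial, one_mul]
  rw [h1, MvPowerSeries.coeff_monomial]
  by_cases h : m = mon 1 1
  · subst h
    simp
  · rw [if_neg h]
    by_cases h2 : m 0 = m 1
    · rw [if_pos h2, if_neg]
      intro h3
      apply h
      rw [ext_iff']
      simp only [mon_zero, mon_one]
      omega
    · rw [if_neg h2]

/-! ### Supports -/

/-- the support of `f` is contained in `{ℓ ≥ k}` -/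
def Supp (ℓ : (Fin 2 →₀ ℕ) →+ ℤ) (k : ℤ) (f : B) : Prop :=
  ∀ m, ℓ m < k → MvPowerSeries.coeff m f = 0

variable {ℓ : (Fin 2 →₀ ℕ) →+ ℤ}

theorem Supp.mul {k k' : ℤ} {f g : B} (hf : Supp ℓ k f) (hg : Supp ℓ k' g) :
    Supp ℓ (k + k') (f * g) := by
  intro m hm
  rw [MvPowerSeries.coeff_mul]
  apply sum_eq_zero
  intro p hp
  rw [HasAntidiagonal.mem_antidiagonal] at hp
  have h1 : ℓ p.1 + ℓ p.2 = ℓ m := by rw [← hp, map_add]
  rcases lt_or_ge (ℓ p.1) k with h | h
  · rw [hf _ h, zero_mul]
  · rw [hg _ (by omega), mul_zero]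

theorem Supp.mono {k k' : ℤ} {f : B} (hf : Supp ℓ k f) (h : k' ≤ k) : Supp ℓ k' f :=
  fun m hm => hf m (by omega)

theorem Supp.add {k : ℤ} {f g : B} (hf : Supp ℓ k f) (hg : Supp ℓ k g) : Supp ℓ k (f + g) := by
  intro m hm
  rw [map_add, hf m hm, hg m hm, add_zero]

theorem Supp.sub {k : ℤ} {f g : B} (hf : Supp ℓ k f) (hg : Supp ℓ k g) : Supp ℓ k (f - g) := by
  intro m hm
  rw [map_sub, hf m hm, hg m hm, sub_zero]

theorem Supp.sum {ι : Type*} {k : ℤ} (s : Finset ι) (f : ι → B) (hf : ∀ i ∈ s, Supp ℓ k (f i)) :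
    Supp ℓ k (∑ i ∈ s, f i) := by
  intro m hm
  rw [map_sum]
  exact sum_eq_zero fun i hi => hf i hi m hm

theorem Supp.X (i : Fin 2) : Supp ℓ (ℓ (Finsupp.single i 1)) (MvPowerSeries.X i) := by
  intro m hm
  rw [MvPowerSeries.coeff_X, if_neg]
  rintro rfl
  exact lt_irrefl _ hm

theorem Supp.one : Supp ℓ 0 (1 : B) := by
  intro m hm
  rw [MvPowerSeries.coeff_one, if_neg]
  rintro rfl
  rw [map_zero] at hm
  exact lt_irrefl _ hm

theorem Supp.inv {f : B} (hf : Supp ℓ 0 f) : Supp ℓ 0 f⁻¹ := by
  intro m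
  induction m using WellFoundedLT.induction with
  | _ m ih =>
    intro hm
    rw [MvPowerSeries.coeff_inv, if_neg]
    · have : (∑ x ∈ antidiagonal m, if x.2 < m then MvPowerSeries.coeff x.1 f *
          MvPowerSeries.coeff x.2 f⁻¹ else 0) = 0 := by
        apply sum_eq_zero
        intro x hx
        rw [HasAntidiagonal.mem_antidiagonal] at hx
        have h1 : ℓ x.1 + ℓ x.2 = ℓ m := by rw [← hx, map_add]
        split_ifs with h2
        · rcases lt_or_ge (ℓ x.1) 0 with h | h
          · rw [hf _ h, zero_mul]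
          · rw [ih x.2 h2 (by omega), mul_zero]
        · rfl
      rw [this, mul_zero]
    · rintro rfl
      rw [map_zero] at hm
      exact lt_irrefl _ hm

/-- `m ↦ m₁ - m₀` -/
noncomputable def l1 : (Fin 2 →₀ ℕ) →+ ℤ where
  toFun m := (m 1 : ℤ) - m 0
  map_zero' := by simp
  map_add' a b := by
    simp only [Finsupp.coe_add, Pi.add_apply]
    push_cast
    ring

/-- `m ↦ m₀ - m₁` -/
noncomputable def l0 : (Fin 2 →₀ ℕ) →+ ℤ where
  toFun m := (m 0 : ℤ) - m 1
  map_zero' := by simp
  map_add' a b := by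
    simp only [Finsupp.coe_add, Pi.add_apply]
    push_cast
    ring

theorem l1_apply (m : Fin 2 →₀ ℕ) : l1 m = (m 1 : ℤ) - m 0 := rfl
theorem l0_apply (m : Fin 2 →₀ ℕ) : l0 m = (m 0 : ℤ) - m 1 := rfl

theorem supp_phi_l1 (f : PowerSeries ℚ) : Supp l1 0 (phi f) := by
  intro m hm
  rw [l1_apply] at hm
  rw [coeff_phi, if_neg]
  omega

theorem supp_phi_l0 (f : PowerSeries ℚ) : Supp l0 0 (phi f) := by
  intro m hm
  rw [l0_apply] at hm
  rw [coeff_phi, if_neg]
  omega

theorem supp_X1_l1 : Supp l1 1 (MvPowerSeries.X 1 : B) := by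
  have := Supp.X (ℓ := l1) 1
  simpa [l1_apply] using this

theorem supp_X1_l0 : Supp l0 (-1) (MvPowerSeries.X 1 : B) := by
  have := Supp.X (ℓ := l0) 1
  simpa [l0_apply] using this

theorem supp_X0_l0 : Supp l0 1 (MvPowerSeries.X 0 : B) := by
  have := Supp.X (ℓ := l0) 0
  simpa [l0_apply] using this

theorem supp_X1_pow (n : ℕ) : Supp l1 0 ((MvPowerSeries.X 1 : B) ^ n) := by
  induction n with
  | zero => rw [pow_zero]; exact Supp.one
  | succ n ih =>
    rw [pow_succ]
    exact (ih.mul supp_X1_l1).mono (by norm_num)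

theorem diag_zero {f : B} {ℓ : (Fin 2 →₀ ℕ) →+ ℤ} (hf : Supp ℓ 1 f) (n : ℕ) (h : ℓ (mon n n) = 0) :
    MvPowerSeries.coeff (mon n n) f = 0 := hf _ (by rw [h]; norm_num)

/-! ### Polynomials -/

/-- `ℚ[t][T] → ℚ[x,y]`, `t ↦ xy`, `T ↦ y` -/
noncomputable def theta : Polynomial (Polynomial ℚ) →+* MvPolynomial (Fin 2) ℚ :=
  Polynomial.eval₂RingHom (Polynomial.eval₂RingHom MvPolynomial.C
    (MvPolynomial.X 0 * MvPolynomial.X 1)) (MvPolynomial.X 1)

/-- `ℚ⟦t⟧[T] → ℚ⟦x,y⟧`, `t ↦ xy`, `T ↦ y` -/
noncomputable def ev : Polynomial (PowerSeries ℚ) →+* B :=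
  Polynomial.eval₂RingHom phi (MvPowerSeries.X 1)

theorem coe_theta (q : Polynomial (Polynomial ℚ)) :
    ((theta q : MvPolynomial (Fin 2) ℚ) : B) =
      ev (q.map (Polynomial.coeToPowerSeries.ringHom : Polynomial ℚ →+* PowerSeries ℚ)) := by
  have h : (MvPolynomial.coeToMvPowerSeries.ringHom).comp theta =
      ev.comp (Polynomial.mapRingHom (Polynomial.coeToPowerSeries.ringHom :
        Polynomial ℚ →+* PowerSeries ℚ)) := by
    apply Polynomial.ringHom_ext'
    · apply Polynomial.ringHom_ext'
      · refine RingHom.ext fun a => ?_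
        simp [theta, ev, phi_C]
      · simp [theta, ev, phi_X]
    · simp [theta, ev]
  have := congrArg (fun f => f q) h
  simpa using this

theorem supp_ev (u : Polynomial (PowerSeries ℚ)) : Supp l1 0 (ev u) := by
  unfold ev
  rw [Polynomial.coe_eval₂RingHom, Polynomial.eval₂_eq_sum_range]
  apply Supp.sum
  intro i _
  exact ((supp_phi_l1 _).mul (supp_X1_pow i)).mono (by norm_num)

theorem const_theta (q : Polynomial (Polynomial ℚ)) :
    MvPolynomial.constantCoeff (theta q) = (q.coeff 0).coeff 0 := by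
  have h : (MvPolynomial.constantCoeff).comp theta =
      (Polynomial.constantCoeff : Polynomial ℚ →+* ℚ).comp
        (Polynomial.constantCoeff : Polynomial (Polynomial ℚ) →+* Polynomial ℚ) := by
    apply Polynomial.ringHom_ext'
    · apply Polynomial.ringHom_ext'
      · refine RingHom.ext fun a => ?_
        simp [theta]
      · simp [theta]
    · simp [theta]
  have := congrArg (fun f => f q) h
  simpa using this

/-- rational series -/
def IsRat (R : B) : Prop := ∃ P Q : MvPolynomial (Fin 2) ℚ,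
  MvPolynomial.constantCoeff Q ≠ 0 ∧ R * (Q : B) = (P : B)

/-- Furstenberg's theorem in the regular case. -/
theorem etale (q : Polynomial (Polynomial ℚ)) (h : PowerSeries ℚ)
    (h0 : (q.coeff 0).coeff 0 = 0) (h1 : (q.coeff 1).coeff 0 ≠ 0)
    (hz : Polynomial.eval₂ (Polynomial.coeToPowerSeries.ringHom : Polynomial ℚ →+* PowerSeries ℚ)
      (PowerSeries.X * h) q = 0) :
    ∃ R : B, IsRat R ∧ ∀ n, MvPowerSeries.coeff (mon n n) R = PowerSeries.coeff n (PowerSeries.X * h) := by
  set z := PowerSeries.X * h with hzdef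
  set qm := q.map (Polynomial.coeToPowerSeries.ringHom : Polynomial ℚ →+* PowerSeries ℚ) with hqm
  have hroot : qm.IsRoot z := by
    rw [Polynomial.IsRoot, hqm, Polynomial.eval_map]
    exact hz
  set u := qm /ₘ (Polynomial.X - Polynomial.C z) with hu
  have hfac : (Polynomial.X - Polynomial.C z) * u = qm :=
    Polynomial.mul_divByMonic_eq_iff_isRoot.2 hroot
  set x : B := MvPowerSeries.X 0 with hx
  set y : B := MvPowerSeries.X 1 with hy
  set w : B := x * phi h with hw
  set U := ev u with hU
  set U' := ev (Polynomial.derivative u) with hU'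
  have hphiz : phi z = y * w := by
    rw [hzdef, map_mul, phi_X, hw]
    ring
  have evX : ev Polynomial.X = y := by simp [ev, hy]
  have evC : ∀ f, ev (Polynomial.C f) = phi f := by
    intro f
    simp [ev]
  have hq : ((theta q : MvPolynomial (Fin 2) ℚ) : B) = y * ((1 - w) * U) := by
    rw [coe_theta, ← hqm, ← hfac, map_mul, map_sub, evX, evC, hphiz]
    ring
  have hq' : ((theta (Polynomial.derivative q) : MvPolynomial (Fin 2) ℚ) : B) =
      U + y * (1 - w) * U' := by
    rw [coe_theta, ← Polynomial.derivative_map, ← hqm, ← hfac, Polynomial.derivative_mul]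
    simp only [map_add, map_mul, map_sub, Polynomial.derivative_X,
      Polynomial.derivative_C, sub_zero, one_mul]
    rw [evX, evC, hphiz]
    ring
  -- the denominator
  let Qp : MvPolynomial (Fin 2) ℚ :=
    MvPolynomial.X 0 * theta (Polynomial.C (Polynomial.divX (q.coeff 0))) + theta (Polynomial.divX q)
  have hQp : theta q = MvPolynomial.X 1 * Qp := by
    have e1 : Polynomial.divX q * Polynomial.X + Polynomial.C (q.coeff 0) = q :=
      Polynomial.divX_mul_X_add q
    have e2 : Polynomial.divX (q.coeff 0) * Polynomial.X + Polynomial.C ((q.coeff 0).coeff 0) =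
      q.coeff 0 := Polynomial.divX_mul_X_add _
    rw [h0, map_zero, add_zero] at e2
    have t1 : theta Polynomial.X = MvPolynomial.X 1 := by simp [theta]
    have t2 : theta (Polynomial.C Polynomial.X) = MvPolynomial.X 0 * MvPolynomial.X 1 := by
      simp [theta]
    conv_lhs => rw [← e1, ← e2]
    rw [map_add, map_mul, Polynomial.C_mul, map_mul, t1, t2]
    ring
  have hy0 : y ≠ 0 := by
    intro h
    have h2 := congrArg (MvPowerSeries.coeff (Finsupp.single 1 1)) h
    rw [hy, MvPowerSeries.coeff_X, if_pos rfl, map_zero] at h2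
    exact one_ne_zero h2
  have hQU : (Qp : B) = (1 - w) * U := by
    apply mul_left_cancel₀ hy0
    rw [← hq, hQp, MvPolynomial.coe_mul, MvPolynomial.coe_X]
  have hcQ : MvPolynomial.constantCoeff Qp = (q.coeff 1).coeff 0 := by
    rw [map_add, map_mul, MvPolynomial.constantCoeff_X, zero_mul, zero_add, const_theta,
      Polynomial.coeff_divX]
  have hcw : MvPowerSeries.constantCoeff (1 - w) = 1 := by
    rw [map_sub, map_one, hw, map_mul, hx, MvPowerSeries.constantCoeff_X, zero_mul, sub_zero]
  have hcU : MvPowerSeries.constantCoeff U ≠ 0 := by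
    intro hc
    apply h1
    rw [← hcQ]
    have e1 : MvPowerSeries.constantCoeff (Qp : B) = MvPolynomial.constantCoeff Qp := rfl
    rw [← e1, hQU, map_mul, hc, mul_zero]
  set E := (1 - w)⁻¹ with hE
  have hE1 : (1 - w) * E = 1 := MvPowerSeries.mul_inv_cancel _ (by rw [hcw]; norm_num)
  have hV1 : U * U⁻¹ = 1 := MvPowerSeries.mul_inv_cancel _ hcU
  refine ⟨y * E + y ^ 2 * (U' * U⁻¹), ⟨MvPolynomial.X 1 * theta (Polynomial.derivative q), Qp, ?_, ?_⟩, ?_⟩
  · rw [hcQ]
    exact h1
  · rw [hQU, MvPolynomial.coe_mul, MvPolynomial.coe_X, hq']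
    linear_combination (y * U) * hE1 + (y ^ 2 * U' * (1 - w)) * hV1
  · intro n
    have hwl : Supp l0 1 w := ((supp_X0_l0).mul (supp_phi_l0 h)).mono (by norm_num)
    have hEl : Supp l0 0 E := (Supp.one.sub (hwl.mono (by norm_num))).inv
    have e1 : y * E = y + phi z + y * (w * (w * E)) := by
      rw [hphiz]
      linear_combination (y + y * w) * hE1
    have e2 : MvPowerSeries.coeff (mon n n) (y * (w * (w * E))) = 0 := by
      apply diag_zero (ℓ := l0)
      · exact (supp_X1_l0.mul (hwl.mul (hwl.mul hEl))).mono (by norm_num)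
      · rw [l0_apply]; simp
    have e3 : MvPowerSeries.coeff (mon n n) (y ^ 2 * (U' * U⁻¹)) = 0 := by
      apply diag_zero (ℓ := l1)
      · rw [pow_two]
        exact ((supp_X1_l1.mul supp_X1_l1).mul ((supp_ev _).mul (supp_ev _).inv)).mono (by norm_num)
      · rw [l1_apply]; simp
    have e4 : MvPowerSeries.coeff (mon n n) y = 0 := by
      rw [hy, MvPowerSeries.coeff_X, if_neg]
      intro h
      rw [ext_iff'] at h
      simp at h
      omega
    rw [map_add, e3, add_zero, e1, map_add, map_add, e2, e4, zero_add, add_zero, coeff_phi]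
    simp

/-! ### Reduction to the regular case -/

abbrev cps : Polynomial ℚ →+* PowerSeries ℚ := Polynomial.coeToPowerSeries.ringHom

theorem cps_coeff (g : Polynomial ℚ) (n : ℕ) : PowerSeries.coeff n (cps g) = g.coeff n :=
  Polynomial.coeff_coe g n

theorem cps_injective : Function.Injective cps := by
  intro a b h
  ext n
  rw [← cps_coeff, ← cps_coeff, h]

theorem dvd_of_cps {g : Polynomial ℚ} {k : ℕ} (h : PowerSeries.X ^ k ∣ cps g) :
    Polynomial.X ^ k ∣ g := by
  rw [Polynomial.X_pow_dvd_iff]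
  intro d hd
  rw [← cps_coeff]
  exact PowerSeries.X_pow_dvd_iff.1 h d hd

theorem sub_dvd (F G : PowerSeries ℚ) (p : Polynomial (Polynomial ℚ)) :
    F - G ∣ Polynomial.eval₂ cps F p - Polynomial.eval₂ cps G p := by
  rw [← Polynomial.eval_map, ← Polynomial.eval_map]
  exact Polynomial.sub_dvd_eval_sub _ _ _

theorem reduce (F : PowerSeries ℚ)
    (hF : ∃ p : Polynomial (Polynomial ℚ), p ≠ 0 ∧ Polynomial.eval₂ cps F p = 0) :
    ∃ (g : Polynomial ℚ) (r : ℕ) (h : PowerSeries ℚ) (q : Polynomial (Polynomial ℚ)),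
      F = cps g + PowerSeries.X ^ r * (PowerSeries.X * h) ∧
      (q.coeff 0).coeff 0 = 0 ∧ (q.coeff 1).coeff 0 ≠ 0 ∧
      Polynomial.eval₂ cps (PowerSeries.X * h) q = 0 := by
  classical
  -- minimal degree
  obtain ⟨p, hp0, hpF, hD⟩ : ∃ p : Polynomial (Polynomial ℚ), p ≠ 0 ∧
      Polynomial.eval₂ cps F p = 0 ∧ Polynomial.eval₂ cps F (Polynomial.derivative p) ≠ 0 := by
    have hex : ∃ n, ∃ p : Polynomial (Polynomial ℚ), p.natDegree = n ∧ p ≠ 0 ∧
        Polynomial.eval₂ cps F p = 0 := by
      obtain ⟨p, h1, h2⟩ := hF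
      exact ⟨_, p, rfl, h1, h2⟩
    obtain ⟨p, hpn, hp0, hpF⟩ := Nat.find_spec hex
    refine ⟨p, hp0, hpF, fun hD => ?_⟩
    by_cases hdeg : p.natDegree = 0
    · rw [Polynomial.natDegree_eq_zero] at hdeg
      obtain ⟨a, rfl⟩ := hdeg
      rw [Polynomial.eval₂_C] at hpF
      apply hp0
      rw [cps_injective (hpF.trans (map_zero cps).symm), Polynomial.C_0]
    · have h1 : Polynomial.derivative p ≠ 0 := fun h => hdeg (Polynomial.derivative_eq_zero.1 h)
      have h2 : (Polynomial.derivative p).natDegree < p.natDegree :=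
        Polynomial.natDegree_derivative_lt hdeg
      rw [hpn] at h2
      exact Nat.find_min hex h2 ⟨_, rfl, h1, hD⟩
  set D := Polynomial.eval₂ cps F (Polynomial.derivative p) with hDdef
  set r := D.order.toNat with hr
  have hDr : PowerSeries.X ^ r * PowerSeries.divXPowOrder D = D :=
    PowerSeries.X_pow_order_mul_divXPowOrder
  have hv : PowerSeries.constantCoeff (PowerSeries.divXPowOrder D) ≠ 0 := fun h =>
    hD (PowerSeries.constantCoeff_divXPowOrder_eq_zero_iff.1 h)
  set v := PowerSeries.divXPowOrder D with hvdef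
  set g := PowerSeries.trunc (r + 1) F with hg
  have hdvd : PowerSeries.X ^ (r + 1) ∣ F - cps g := by
    rw [PowerSeries.X_pow_dvd_iff]
    intro m hm
    rw [map_sub, cps_coeff, hg, PowerSeries.coeff_trunc, if_pos hm, sub_self]
  obtain ⟨h, hh⟩ := hdvd
  have hh' : F - cps g = PowerSeries.X ^ r * (PowerSeries.X * h) := by
    rw [hh, pow_succ]
    ring
  set A := Polynomial.taylor g p with hA
  have hAF : Polynomial.eval₂ cps (F - cps g) A = 0 := by
    rw [hA, Polynomial.taylor_apply, Polynomial.eval₂_comp, Polynomial.eval₂_add,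
      Polynomial.eval₂_X, Polynomial.eval₂_C, sub_add_cancel]
    exact hpF
  have hA1 : cps (A.coeff 1) = Polynomial.eval₂ cps (cps g) (Polynomial.derivative p) := by
    rw [hA, Polynomial.taylor_coeff_one, Polynomial.eval₂_at_apply]
  have hA1' : ∃ s, cps (A.coeff 1) = PowerSeries.X ^ r * (v - PowerSeries.X * s) := by
    obtain ⟨s, hs⟩ := sub_dvd F (cps g) (Polynomial.derivative p)
    refine ⟨h * s, ?_⟩
    rw [← hDdef, ← hA1, hh', ← hDr] at hs
    linear_combination -hs
  obtain ⟨s, hs⟩ := hA1'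
  obtain ⟨a₁, ha₁⟩ : Polynomial.X ^ r ∣ A.coeff 1 := by
    apply dvd_of_cps
    rw [hs]
    exact Dvd.intro _ rfl
  have hXr : (PowerSeries.X ^ r : PowerSeries ℚ) ≠ 0 := pow_ne_zero _ PowerSeries.X_ne_zero
  have hcX : cps Polynomial.X = PowerSeries.X := Polynomial.coe_X
  have ha₁' : cps a₁ = v - PowerSeries.X * s := by
    apply mul_left_cancel₀ hXr
    rw [← hs, ha₁, map_mul, map_pow, hcX]
  have ha₁0 : a₁.coeff 0 ≠ 0 := by
    rw [← cps_coeff, ha₁', PowerSeries.coeff_zero_eq_constantCoeff_apply, map_sub, map_mul,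
      PowerSeries.constantCoeff_X, zero_mul, sub_zero]
    exact hv
  -- split `A`
  set A₂ := Polynomial.divX (Polynomial.divX A) with hA₂
  have hAsplit : A = Polynomial.C (A.coeff 0) + Polynomial.C (A.coeff 1) * Polynomial.X +
      A₂ * Polynomial.X ^ 2 := by
    have e1 := Polynomial.divX_mul_X_add A
    have e2 := Polynomial.divX_mul_X_add (Polynomial.divX A)
    rw [Polynomial.coeff_divX, zero_add] at e2
    rw [← hA₂] at e2
    conv_lhs => rw [← e1, ← e2]
    ring
  have hA0 : PowerSeries.X ^ (2 * r + 1) ∣ cps (A.coeff 0) := by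
    have e1 : cps (A.coeff 0) + cps (A.coeff 1) * (F - cps g) +
        Polynomial.eval₂ cps (F - cps g) A₂ * (F - cps g) ^ 2 = 0 := by
      rw [← hAF]
      conv_rhs => rw [hAsplit]
      simp only [Polynomial.eval₂_add, Polynomial.eval₂_mul, Polynomial.eval₂_C,
        Polynomial.eval₂_X, Polynomial.eval₂_X_pow]
    refine ⟨-((v - PowerSeries.X * s) * h) - Polynomial.eval₂ cps (F - cps g) A₂ *
      (PowerSeries.X * h ^ 2), ?_⟩
    have e2 : cps (A.coeff 0) = -(cps (A.coeff 1) * (F - cps g)) -
        Polynomial.eval₂ cps (F - cps g) A₂ * (F - cps g) ^ 2 := by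
      linear_combination e1
    rw [e2]
    generalize Polynomial.eval₂ cps (F - cps g) A₂ = Z
    rw [hh', hs]
    ring
  obtain ⟨a₀', ha₀'⟩ := dvd_of_cps hA0
  have ha₀ : A.coeff 0 = Polynomial.X ^ (2 * r) * (Polynomial.X * a₀') := by
    rw [ha₀', pow_succ]
    ring
  -- the new polynomial
  let q : Polynomial (Polynomial ℚ) := Polynomial.C (Polynomial.X * a₀') +
    Polynomial.C a₁ * Polynomial.X + A₂.comp (Polynomial.C (Polynomial.X ^ r) * Polynomial.X) *
      Polynomial.X ^ 2
  refine ⟨g, r, h, q, ?_, ?_, ?_, ?_⟩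
  · rw [← hh']
    ring
  · show (q.coeff 0).coeff 0 = 0
    have : q.coeff 0 = Polynomial.X * a₀' := by
      simp only [q, Polynomial.coeff_add, Polynomial.coeff_C_zero, Polynomial.mul_coeff_zero,
        Polynomial.coeff_X_zero, mul_zero, add_zero]
      rw [Polynomial.coeff_X_pow]
      simp
    rw [this]
    simp
  · have : q.coeff 1 = a₁ := by
      simp only [q, Polynomial.coeff_add, Polynomial.coeff_C_mul, Polynomial.coeff_X_one, mul_one]
      rw [Polynomial.coeff_C, if_neg one_ne_zero, zero_add, Polynomial.coeff_mul_X_pow', if_neg (by norm_num),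
        add_zero]
    rw [this]
    exact ha₁0
  · have hX2r : (PowerSeries.X ^ (2 * r) : PowerSeries ℚ) ≠ 0 := pow_ne_zero _ PowerSeries.X_ne_zero
    have ecomp : Polynomial.eval₂ cps (PowerSeries.X * h)
        (A₂.comp (Polynomial.C (Polynomial.X ^ r) * Polynomial.X)) =
        Polynomial.eval₂ cps (F - cps g) A₂ := by
      rw [Polynomial.eval₂_comp, Polynomial.eval₂_mul, Polynomial.eval₂_C, Polynomial.eval₂_X,
        map_pow, hcX, ← hh']
    have e0 : PowerSeries.X ^ (2 * r) * Polynomial.eval₂ cps (PowerSeries.X * h) q =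
        Polynomial.eval₂ cps (F - cps g) A := by
      conv_rhs => rw [hAsplit]
      simp only [q, Polynomial.eval₂_add, Polynomial.eval₂_mul, Polynomial.eval₂_C,
        Polynomial.eval₂_X, Polynomial.eval₂_X_pow]
      rw [ecomp, ha₀, ha₁]
      simp only [map_mul, map_pow, hcX]
      generalize Polynomial.eval₂ cps (F - cps g) A₂ = Z
      rw [hh']
      ring
    rw [hAF] at e0
    exact (mul_eq_zero.1 e0).resolve_left hX2r

/-- **Furstenberg's theorem.** -/
theorem furstenberg (F : PowerSeries ℚ)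
    (hF : ∃ p : Polynomial (Polynomial ℚ), p ≠ 0 ∧ Polynomial.eval₂ cps F p = 0) :
    ∃ R : B, IsRat R ∧ ∀ n, MvPowerSeries.coeff (mon n n) R = PowerSeries.coeff n F := by
  obtain ⟨g, r, h, q, hFg, h0, h1, hz⟩ := reduce F hF
  obtain ⟨R, ⟨P, Q, hQ, hRQ⟩, hR⟩ := etale q h h0 h1 hz
  have tg : ∀ g : Polynomial ℚ, ((theta (Polynomial.C g) : MvPolynomial (Fin 2) ℚ) : B) = phi (cps g) := by
    intro g
    rw [coe_theta, Polynomial.map_C]
    simp [ev]
  have tX : phi (PowerSeries.X ^ r) = ((MvPolynomial.X 0 * MvPolynomial.X 1) ^ r : MvPolynomial (Fin 2) ℚ) := by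
    rw [map_pow, phi_X]
    simp
  refine ⟨phi (cps g) + phi (PowerSeries.X ^ r) * R,
    ⟨theta (Polynomial.C g) * Q + (MvPolynomial.X 0 * MvPolynomial.X 1) ^ r * P, Q, hQ, ?_⟩, ?_⟩
  · rw [MvPolynomial.coe_add, MvPolynomial.coe_mul, MvPolynomial.coe_mul, tg, ← tX, ← hRQ]
    ring
  · intro n
    rw [map_add, coeff_phi, hFg, map_add]
    simp only [mon_zero, mon_one, if_true]
    congr 1
    have e1 : phi (PowerSeries.X ^ r) = (MvPowerSeries.monomial (mon r r) (1 : ℚ) : B) := by
      ext m
      rw [coeff_phi, PowerSeries.coeff_X_pow, MvPowerSeries.coeff_monomial]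
      by_cases h : m = mon r r
      · subst h
        simp
      · rw [if_neg h]
        by_cases h2 : m 0 = m 1
        · rw [if_pos h2, if_neg]
          intro h3
          apply h
          rw [ext_iff', mon_zero, mon_one]
          omega
        · rw [if_neg h2]
    rw [e1, MvPowerSeries.coeff_monomial_mul, PowerSeries.coeff_X_pow_mul']
    by_cases hrn : r ≤ n
    · have h2 : mon r r ≤ mon n n := by
        intro i
        fin_cases i <;> simpa using hrn
      have h3 : mon n n - mon r r = mon (n - r) (n - r) := by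
        rw [ext_iff']
        simp [Finsupp.tsub_apply]
      rw [if_pos h2, if_pos hrn, h3, one_mul, hR]
    · have h2 : ¬ mon r r ≤ mon n n := by
        intro h
        have := h 0
        simp at this
        exact hrn this
      rw [if_neg h2, if_neg hrn]

/-! ### Bounding the coefficients and repairing signs -/

theorem IsRat.add {R R' : B} (h : IsRat R) (h' : IsRat R') : IsRat (R + R') := by
  obtain ⟨P, Q, hQ, hR⟩ := h
  obtain ⟨P', Q', hQ', hR'⟩ := h'
  refine ⟨P * Q' + P' * Q, Q * Q', ?_, ?_⟩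
  · rw [map_mul]
    exact mul_ne_zero hQ hQ'
  · rw [MvPolynomial.coe_mul, MvPolynomial.coe_add, MvPolynomial.coe_mul, MvPolynomial.coe_mul,
      ← hR, ← hR']
    ring

/-- Coefficients of a rational series grow at most exponentially. -/
theorem IsRat.bound {R : B} (h : IsRat R) :
    ∃ K M : ℚ, 0 ≤ K ∧ ∀ m, |MvPowerSeries.coeff m R| ≤ K * M ^ (m 0 + m 1) := by
  obtain ⟨P, Q, hQ, hR⟩ := h
  obtain ⟨c, hc⟩ : ∃ c : ℚ, c = |MvPolynomial.constantCoeff Q| := ⟨_, rfl⟩
  have hc0 : 0 < c := by
    rw [hc]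
    exact abs_pos.2 hQ
  obtain ⟨S, hS⟩ : ∃ S : ℚ, S = (∑ b ∈ Q.support, |MvPolynomial.coeff b Q|) / c := ⟨_, rfl⟩
  obtain ⟨K, hK⟩ : ∃ K : ℚ, K = (∑ b ∈ P.support, |MvPolynomial.coeff b P|) / c := ⟨_, rfl⟩
  have hS0 : 0 ≤ S := by
    rw [hS]
    exact div_nonneg (sum_nonneg fun _ _ => abs_nonneg _) hc0.le
  have hK0 : 0 ≤ K := by
    rw [hK]
    exact div_nonneg (sum_nonneg fun _ _ => abs_nonneg _) hc0.le
  have hM1 : 1 ≤ 1 + S := by linarith
  refine ⟨K, 1 + S, hK0, ?_⟩
  intro m
  induction m using WellFoundedLT.induction with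
  | _ m ih =>
    have hcm : MvPowerSeries.coeff m (R * (Q : B)) = MvPolynomial.coeff m P := by
      rw [hR]
      rfl
    rw [MvPowerSeries.coeff_mul] at hcm
    have hmem : ((m, 0) : (Fin 2 →₀ ℕ) × (Fin 2 →₀ ℕ)) ∈ antidiagonal m := by
      rw [HasAntidiagonal.mem_antidiagonal]
      simp
    rw [← add_sum_erase _ _ hmem] at hcm
    have hcm' : MvPowerSeries.coeff m R * MvPolynomial.constantCoeff Q = MvPolynomial.coeff m P -
        ∑ p ∈ (antidiagonal m).erase (m, 0), MvPowerSeries.coeff p.1 R * MvPolynomial.coeff p.2 Q := by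
      exact eq_sub_of_add_eq hcm
    have hP : |MvPolynomial.coeff m P| ≤ K * c := by
      rw [hK, div_mul_cancel₀ _ hc0.ne']
      by_cases hm : m ∈ P.support
      · exact single_le_sum (f := fun b => |MvPolynomial.coeff b P|) (fun _ _ => abs_nonneg _) hm
      · rw [MvPolynomial.mem_support_iff, not_not] at hm
        rw [hm, abs_zero]
        exact sum_nonneg fun _ _ => abs_nonneg _
    rcases Nat.eq_zero_or_pos (m 0 + m 1) with h0 | hpos
    · -- m = 0
      have hm0 : m = 0 := by
        rw [ext_iff']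
        simp only [Finsupp.coe_zero, Pi.zero_apply]
        omega
      subst hm0
      have : (antidiagonal (0 : Fin 2 →₀ ℕ)).erase (0, 0) = ∅ := by
        rw [eq_empty_iff_forall_notMem]
        intro p hp
        rw [mem_erase, HasAntidiagonal.mem_antidiagonal] at hp
        apply hp.1
        obtain ⟨h1, h2⟩ := add_eq_zero.1 hp.2
        exact Prod.ext h1 h2
      rw [this, sum_empty, sub_zero] at hcm'
      rw [h0, pow_zero, mul_one]
      have h2 := congrArg abs hcm'
      rw [abs_mul, ← hc] at h2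
      rw [← h2] at hP
      exact le_of_mul_le_mul_right hP hc0
    · obtain ⟨k, hk⟩ : ∃ k, m 0 + m 1 = k + 1 := ⟨m 0 + m 1 - 1, by omega⟩
      have hsum : |∑ p ∈ (antidiagonal m).erase (m, 0), MvPowerSeries.coeff p.1 R *
          MvPolynomial.coeff p.2 Q| ≤ K * (1 + S) ^ k * (S * c) := by
        calc |∑ p ∈ (antidiagonal m).erase (m, 0), MvPowerSeries.coeff p.1 R *
          MvPolynomial.coeff p.2 Q|
            ≤ ∑ p ∈ (antidiagonal m).erase (m, 0), |MvPowerSeries.coeff p.1 R *
              MvPolynomial.coeff p.2 Q| := abs_sum_le_sum_abs _ _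
          _ ≤ ∑ p ∈ (antidiagonal m).erase (m, 0), K * (1 + S) ^ k * |MvPolynomial.coeff p.2 Q| := by
            apply sum_le_sum
            intro p hp
            rw [mem_erase, HasAntidiagonal.mem_antidiagonal] at hp
            obtain ⟨hne, hadd⟩ := hp
            have e0 : p.1 0 + p.2 0 = m 0 := by rw [← hadd]; rfl
            have e1 : p.1 1 + p.2 1 = m 1 := by rw [← hadd]; rfl
            have hp2 : p.2 ≠ 0 := by
              intro h
              apply hne
              rw [h, add_zero] at hadd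
              exact Prod.ext hadd h
            have hp2' : 0 < p.2 0 + p.2 1 := by
              rcases Nat.eq_zero_or_pos (p.2 0 + p.2 1) with h | h
              · exfalso
                apply hp2
                rw [ext_iff']
                simp only [Finsupp.coe_zero, Pi.zero_apply]
                omega
              · exact h
            have hlt : p.1 < m := by
              rw [← hadd]
              exact lt_add_of_pos_right _ (pos_iff_ne_zero.2 hp2)
            rw [abs_mul]
            apply mul_le_mul_of_nonneg_right _ (abs_nonneg _)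
            refine (ih p.1 hlt).trans ?_
            apply mul_le_mul_of_nonneg_left _ hK0
            apply pow_le_pow_right₀ hM1
            omega
          _ = K * (1 + S) ^ k * ∑ p ∈ (antidiagonal m).erase (m, 0), |MvPolynomial.coeff p.2 Q| := by
            rw [mul_sum]
          _ ≤ K * (1 + S) ^ k * (S * c) := by
            apply mul_le_mul_of_nonneg_left _ (by positivity)
            have hSc : S * c = ∑ b ∈ Q.support, |MvPolynomial.coeff b Q| := by
              rw [hS, div_mul_cancel₀ _ hc0.ne']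
            rw [hSc]
            have hinj : Set.InjOn (fun p : (Fin 2 →₀ ℕ) × (Fin 2 →₀ ℕ) => p.2)
                ((antidiagonal m).erase (m, 0) : Finset _) := by
              intro p hp p' hp' hpp
              rw [mem_coe, mem_erase, HasAntidiagonal.mem_antidiagonal] at hp hp'
              have h1 : p.2 = p'.2 := hpp
              have h2 : p.1 + p.2 = p'.1 + p.2 := by rw [hp.2, h1, hp'.2]
              exact Prod.ext (add_right_cancel h2) h1
            rw [← sum_image (f := fun b => |MvPolynomial.coeff b Q|) hinj]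
            rw [← sum_filter_ne_zero]
            apply sum_le_sum_of_subset_of_nonneg
            · intro b hb
              rw [mem_filter] at hb
              rw [MvPolynomial.mem_support_iff]
              intro h
              apply hb.2
              rw [h, abs_zero]
            · intro _ _ _
              exact abs_nonneg _
      have h2 : |MvPowerSeries.coeff m R| * c ≤ (K * (1 + S) ^ (k + 1)) * c := by
        rw [hc, ← abs_mul, hcm', ← hc]
        refine (abs_sub _ _).trans ?_
        refine (add_le_add hP hsum).trans ?_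
        have h3 : 1 ≤ (1 + S) ^ k := one_le_pow₀ hM1
        have h4 : 0 ≤ K * c := by positivity
        rw [pow_succ]
        nlinarith [mul_nonneg h4 (sub_nonneg.2 h3)]
      rw [hk]
      exact le_of_mul_le_mul_right h2 hc0

/-- the series `∑ (Mx)^i (My)^j` -/
noncomputable def geo (M : ℚ) : B := fun m => M ^ (m 0 + m 1)

theorem coeff_geo (M : ℚ) (m : Fin 2 →₀ ℕ) : MvPowerSeries.coeff m (geo M) = M ^ (m 0 + m 1) := rfl

theorem coeff_CX_mul (M : ℚ) (s : Fin 2) (f : B) (m : Fin 2 →₀ ℕ) :
    MvPowerSeries.coeff m (MvPowerSeries.C M * MvPowerSeries.X s * f) =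
      if 1 ≤ m s then M * MvPowerSeries.coeff (m - Finsupp.single s 1) f else 0 := by
  have h1 : (MvPowerSeries.C M * MvPowerSeries.X s : B) =
      MvPowerSeries.monomial (Finsupp.single s 1) M := by
    unfold MvPowerSeries.X
    rw [← MvPowerSeries.monomial_zero_eq_C_apply, MvPowerSeries.monomial_mul_monomial, zero_add,
      mul_one]
  rw [h1, MvPowerSeries.coeff_monomial_mul]
  have h2 : Finsupp.single s 1 ≤ m ↔ 1 ≤ m s := Finsupp.single_le_iff
  simp only [h2]

theorem geo_rat (M : ℚ) : IsRat (geo M) := by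
  refine ⟨1, (1 - MvPolynomial.C M * MvPolynomial.X 0) * (1 - MvPolynomial.C M * MvPolynomial.X 1),
    ?_, ?_⟩
  · simp
  · have e : (((1 - MvPolynomial.C M * MvPolynomial.X 0) * (1 - MvPolynomial.C M * MvPolynomial.X 1) :
        MvPolynomial (Fin 2) ℚ) : B) = (1 - MvPowerSeries.C M * MvPowerSeries.X 0) *
          (1 - MvPowerSeries.C M * MvPowerSeries.X 1) := by
      have h : ∀ p q : MvPolynomial (Fin 2) ℚ, ((p - q : MvPolynomial (Fin 2) ℚ) : B) =
          (p : B) - (q : B) := fun p q => map_sub MvPolynomial.coeToMvPowerSeries.ringHom p q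
      rw [MvPolynomial.coe_mul, h, h, MvPolynomial.coe_mul, MvPolynomial.coe_mul,
        MvPolynomial.coe_one, MvPolynomial.coe_C, MvPolynomial.coe_X, MvPolynomial.coe_X]
    rw [e, MvPolynomial.coe_one]
    have h1 : ∀ m : Fin 2 →₀ ℕ, MvPowerSeries.coeff m
        (geo M - MvPowerSeries.C M * MvPowerSeries.X 0 * geo M) =
        if m 0 = 0 then M ^ (m 1) else 0 := by
      intro m
      rw [map_sub, coeff_CX_mul, coeff_geo, coeff_geo]
      by_cases h : m 0 = 0
      · rw [if_neg (by omega), if_pos h, h, zero_add, sub_zero]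
      · rw [if_pos (by omega), if_neg h]
        simp only [Finsupp.tsub_apply, Finsupp.single_apply, if_true]
        obtain ⟨k, hk⟩ : ∃ k, m 0 = k + 1 := ⟨m 0 - 1, by omega⟩
        rw [hk]
        simp
        ring
    have h2 : geo M * ((1 - MvPowerSeries.C M * MvPowerSeries.X 0) *
          (1 - MvPowerSeries.C M * MvPowerSeries.X 1)) =
        (geo M - MvPowerSeries.C M * MvPowerSeries.X 0 * geo M) -
        MvPowerSeries.C M * MvPowerSeries.X 1 *
          (geo M - MvPowerSeries.C M * MvPowerSeries.X 0 * geo M) := by ring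
    rw [h2]
    ext m
    rw [map_sub, coeff_CX_mul, h1, h1, MvPowerSeries.coeff_one]
    by_cases hm : m = 0
    · subst hm
      simp
    · rw [if_neg hm]
      by_cases h : m 0 = 0
      · have h' : m 1 ≠ 0 := by
          intro h3
          apply hm
          rw [ext_iff']
          simp only [Finsupp.coe_zero, Pi.zero_apply]
          omega
        obtain ⟨k, hk⟩ : ∃ k, m 1 = k + 1 := ⟨m 1 - 1, by omega⟩
        rw [if_pos h, if_pos (by omega)]
        simp only [Finsupp.tsub_apply, Finsupp.single_apply, if_true, h, hk]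
        simp
        ring
      · rw [if_neg h, zero_sub, neg_eq_zero]
        split_ifs with h3 h4
        · exfalso
          simp only [Finsupp.tsub_apply, Finsupp.single_apply] at h4
          simp at h4
          exact h h4
        · rw [mul_zero]
        · rfl

/-- the diagonal part of `geo M` -/
noncomputable def dgeo (M : ℚ) : B := phi (PowerSeries.mk fun n => M ^ (n + n))

theorem coeff_dgeo (M : ℚ) (m : Fin 2 →₀ ℕ) :
    MvPowerSeries.coeff m (dgeo M) = if m 0 = m 1 then M ^ (m 0 + m 1) else 0 := by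
  rw [dgeo, coeff_phi, PowerSeries.coeff_mk]
  by_cases h : m 0 = m 1
  · rw [if_pos h, if_pos h, h]
  · rw [if_neg h, if_neg h]

theorem dgeo_rat (M : ℚ) : IsRat (dgeo M) := by
  refine ⟨1, 1 - MvPolynomial.C (M ^ 2) * (MvPolynomial.X 0 * MvPolynomial.X 1), ?_, ?_⟩
  · simp
  · have e : ((1 - MvPolynomial.C (M ^ 2) * (MvPolynomial.X 0 * MvPolynomial.X 1) :
        MvPolynomial (Fin 2) ℚ) : B) = phi (1 - PowerSeries.C (M ^ 2) * PowerSeries.X) := by
      have h : ∀ p q : MvPolynomial (Fin 2) ℚ, ((p - q : MvPolynomial (Fin 2) ℚ) : B) =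
          (p : B) - (q : B) := fun p q => map_sub MvPolynomial.coeToMvPowerSeries.ringHom p q
      rw [h, MvPolynomial.coe_mul, MvPolynomial.coe_mul, map_sub, map_mul, phi_X, phi_C, map_one,
        MvPolynomial.coe_one, MvPolynomial.coe_C, MvPolynomial.coe_X, MvPolynomial.coe_X]
    rw [e, dgeo, ← map_mul, MvPolynomial.coe_one, ← map_one phi]
    congr 1
    ext n
    rw [mul_sub, mul_one, map_sub, ← mul_assoc, mul_comm _ (PowerSeries.C (M ^ 2)), mul_assoc,
      PowerSeries.coeff_C_mul, PowerSeries.coeff_mk, PowerSeries.coeff_one]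
    rcases n with _ | n
    · simp
    · rw [PowerSeries.coeff_succ_mul_X, PowerSeries.coeff_mk, if_neg (by omega)]
      ring

theorem C_rat (a : ℚ) {R : B} (h : IsRat R) : IsRat (MvPowerSeries.C a * R) := by
  obtain ⟨P, Q, hQ, hR⟩ := h
  refine ⟨MvPolynomial.C a * P, Q, hQ, ?_⟩
  rw [MvPolynomial.coe_mul, MvPolynomial.coe_C, ← hR, mul_assoc]

/-- Off the diagonal every rational series can be made nonnegative without changing the
diagonal. -/
theorem repair {R : B} (h : IsRat R) (hd : ∀ n, 0 ≤ MvPowerSeries.coeff (mon n n) R) :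
    ∃ R' : B, IsRat R' ∧ (∀ m, 0 ≤ MvPowerSeries.coeff m R') ∧
      ∀ n, MvPowerSeries.coeff (mon n n) R' = MvPowerSeries.coeff (mon n n) R := by
  obtain ⟨K, M, hK, hb⟩ := h.bound
  refine ⟨R + (MvPowerSeries.C K * geo M + MvPowerSeries.C (-K) * dgeo M),
    h.add ((C_rat K (geo_rat M)).add (C_rat (-K) (dgeo_rat M))), ?_, ?_⟩
  · intro m
    rw [map_add, map_add, MvPowerSeries.coeff_C_mul, MvPowerSeries.coeff_C_mul, coeff_geo,
      coeff_dgeo]
    by_cases hm : m 0 = m 1
    · rw [if_pos hm]
      have h1 : m = mon (m 0) (m 0) := by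
        rw [ext_iff', mon_zero, mon_one]
        omega
      have h2 := hd (m 0)
      rw [← h1] at h2
      linarith
    · rw [if_neg hm]
      have := (abs_le.1 (hb m)).1
      linarith
  · intro n
    rw [map_add, map_add, MvPowerSeries.coeff_C_mul, MvPowerSeries.coeff_C_mul, coeff_geo,
      coeff_dgeo, mon_zero, mon_one, if_pos rfl]
    ring

end Pool.Agent.V11176.Diag
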