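import Mathlib

/-!
# Invariant ordered decompositions, and words in two letters

`true` stands for a nonempty even block, `false` for an odd block.
-/

namespace Pool.Agent.V11176.Even

open Finset
open scoped Classical

variable {α : Type} 

/-- size condition: `true` = nonempty and even, `false` = odd -/
def ty : Bool → ℕ → Prop
  | true, n => 0 < n ∧ Even n
  | false, n => Odd n

/-- the minimal size -/
def wc : Bool → ℕ
  | true => 2
  | false => 1

def wt : List Bool → ℕ
  | [] => 0
  | c :: w => wc c + wt w

@[simp] theorem wt_nil : wt [] = 0 := rfl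
@[simp] theorem wt_cons (c : Bool) (w : List Bool) : wt (c :: w) = wc c + wt w := rfl

theorem wt_append (a b : List Bool) : wt (a ++ b) = wt a + wt b := by
  induction a with
  | nil => simp
  | cons c a ih => simp [ih, add_assoc]

/-- invariant sets -/
def Inv (τ : Equiv.Perm α) (A : Finset α) : Prop := ∀ x, τ x ∈ A ↔ x ∈ A

/-- number of ordered decompositions of `S` into invariant sets of the types given by the word -/
noncomputable def F (τ : Equiv.Perm α) : List Bool → Finset α → ℕ
  | [], S => if S = ∅ then 1 else 0
  | c :: w, S => ∑ A ∈ S.powerset.filter (fun A => Inv τ A ∧ ty c A.card), F τ w (S \ A)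

theorem F_nil (τ : Equiv.Perm α) (S : Finset α) : F τ [] S = if S = ∅ then 1 else 0 := rfl

theorem F_cons (τ : Equiv.Perm α) (c : Bool) (w : List Bool) (S : Finset α) :
    F τ (c :: w) S = ∑ A ∈ S.powerset.filter (fun A => Inv τ A ∧ ty c A.card), F τ w (S \ A) := rfl

theorem ty_wc {c : Bool} {n : ℕ} (h : ty c n) : wc c ≤ n ∧ (Even n ↔ Even (wc c)) := by
  cases c with
  | true =>
    obtain ⟨h1, m, rfl⟩ := h
    refine ⟨?_, ?_⟩
    · show 2 ≤ m + m
      omega
    · constructor
      · intro _; exact ⟨1, rfl⟩
      · intro _; exact ⟨m, rfl⟩
  | false =>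
    have h' : Odd n := h
    refine ⟨?_, ?_⟩
    · obtain ⟨m, rfl⟩ := h'
      show 1 ≤ 2 * m + 1
      omega
    · constructor
      · intro h2
        exact absurd h' (Nat.not_odd_iff_even.2 h2)
      · intro h2
        have : wc false = 1 := rfl
        rw [this] at h2
        exact absurd h2 (by decide)

theorem F_ne_zero {τ : Equiv.Perm α} {w : List Bool} {S : Finset α} (h : F τ w S ≠ 0) :
    wt w ≤ S.card ∧ (Even S.card ↔ Even (wt w)) := by
  induction w generalizing S with
  | nil =>
    rw [F_nil] at h
    have hS : S = ∅ := by
      by_contra h'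
      rw [if_neg h'] at h
      exact h rfl
    subst hS
    simp
  | cons c w ih =>
    rw [F_cons] at h
    obtain ⟨A, hA, hA2⟩ := exists_ne_zero_of_sum_ne_zero h
    rw [mem_filter, mem_powerset] at hA
    obtain ⟨hsub, -, hty⟩ := hA
    obtain ⟨h1, h2⟩ := ih hA2
    obtain ⟨h3, h4⟩ := ty_wc hty
    have h5 : (S \ A).card + A.card = S.card := card_sdiff_add_card_eq_card hsub
    rw [wt_cons]
    refine ⟨by omega, ?_⟩
    rw [← h5, Nat.even_add, Nat.even_add, h2, h4]
    tauto

theorem F_eq_zero_of_lt {τ : Equiv.Perm α} {w : List Bool} {S : Finset α} (h : S.card < wt w) :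
    F τ w S = 0 := by
  by_contra h'
  have := (F_ne_zero h').1
  omega

theorem F_eq_zero_of_parity {τ : Equiv.Perm α} {w : List Bool} {S : Finset α} (h : Even S.card)
    (h2 : ¬ Even (wt w)) : F τ w S = 0 := by
  by_contra h'
  exact h2 ((F_ne_zero h').2.1 h)

/-! ### Words -/

/-- all results of the substitutions `o → o, e` and `e → e, eo, ee` -/
def U : List Bool → List (List Bool)
  | [] => [[]]
  | false :: w => (U w).map (fun u => false :: u) ++ (U w).map (fun u => true :: u)
  | true :: w => (U w).map (fun u => true :: u) ++
      ((U w).map (fun u => true :: false :: u) ++ (U w).map (fun u => true :: true :: u))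

/-- sum of `F` over a list of words -/
noncomputable def FL (τ : Equiv.Perm α) (L : List (List Bool)) (S : Finset α) : ℕ :=
  (L.map fun u => F τ u S).sum

theorem FL_nil (τ : Equiv.Perm α) (S : Finset α) : FL τ [] S = 0 := rfl

theorem FL_cons (τ : Equiv.Perm α) (u : List Bool) (L : List (List Bool)) (S : Finset α) :
    FL τ (u :: L) S = F τ u S + FL τ L S := by
  simp [FL]

theorem FL_append (τ : Equiv.Perm α) (L L' : List (List Bool)) (S : Finset α) :
    FL τ (L ++ L') S = FL τ L S + FL τ L' S := by
  simp [FL]

theorem FL_map_cons (τ : Equiv.Perm α) (c : Bool) (L : List (List Bool)) (S : Finset α) :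
    FL τ (L.map fun u => c :: u) S =
      ∑ A ∈ S.powerset.filter (fun A => Inv τ A ∧ ty c A.card), FL τ L (S \ A) := by
  induction L with
  | nil => simp [FL_nil]
  | cons u L ih =>
    rw [List.map_cons, FL_cons, ih, F_cons, ← sum_add_distrib]
    rfl

/-- marked words: the letters of `a` are frozen -/
noncomputable def P (τ : Equiv.Perm α) (a b : List Bool) (S : Finset α) : ℕ :=
  FL τ ((U b).map fun u => a ++ u) S

theorem P_nil (τ : Equiv.Perm α) (a : List Bool) (S : Finset α) : P τ a [] S = F τ a S := by
  simp [P, U, FL]

theorem P_false (τ : Equiv.Perm α) (a b : List Bool) (S : Finset α) :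
    P τ a (false :: b) S = P τ (a ++ [false]) b S + P τ (a ++ [true]) b S := by
  simp only [P, U, List.map_append, List.map_map, FL_append]
  congr 2
  · congr 1
    funext u
    simp
  · congr 1
    funext u
    simp

theorem P_true (τ : Equiv.Perm α) (a b : List Bool) (S : Finset α) :
    P τ a (true :: b) S = P τ (a ++ [true]) b S + P τ (a ++ [true]) (false :: b) S := by
  simp only [P, U, List.map_append, List.map_map, FL_append]
  congr 2
  · congr 1
    funext u
    simp
  · congr 2
    · funext u
      simp
  · congr 2
    · funext u
      simp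

theorem P_eq_zero_of_lt {τ : Equiv.Perm α} {a b : List Bool} {S : Finset α}
    (h : S.card < wt (a ++ b)) : P τ a b S = 0 := by
  induction b generalizing a with
  | nil =>
    rw [P_nil]
    rw [List.append_nil] at h
    exact F_eq_zero_of_lt h
  | cons c b ih =>
    rw [wt_append, wt_cons] at h
    cases c with
    | false =>
      rw [P_false, ih, ih]
      · simp only [wt_append, wt_cons, wt_nil]
        have : wc true = 2 := rfl
        have : wc false = 1 := rfl
        omega
      · simp only [wt_append, wt_cons, wt_nil]
        omega
    | true =>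
      rw [P_true, P_false, ih, ih, ih]
      all_goals
        simp only [wt_append, wt_cons, wt_nil]
        have : wc true = 2 := rfl
        have : wc false = 1 := rfl
        omega

theorem P_min {τ : Equiv.Perm α} {a b : List Bool} {S : Finset α}
    (h : S.card = wt (a ++ b)) : P τ a b S = F τ (a ++ b) S := by
  induction b generalizing a with
  | nil => rw [P_nil, List.append_nil]
  | cons c b ih =>
    have hh := h
    rw [wt_append, wt_cons] at h
    have e2 : wc true = 2 := rfl
    have e1 : wc false = 1 := rfl
    cases c with
    | false =>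
      rw [P_false, ih, P_eq_zero_of_lt, add_zero]
      · simp
      · simp only [wt_append, wt_cons, wt_nil]
        omega
      · simpa using hh
    | true =>
      rw [P_true, ih, P_eq_zero_of_lt, add_zero]
      · simp
      · simp only [wt_append, wt_cons, wt_nil]
        omega
      · simpa using hh

/-- telescoping over the letters of `a` -/
def del : List Bool → List Bool → List Bool → List (List Bool × List Bool)
  | _, [], _ => []
  | s, false :: a, b => (s ++ [true], a ++ b) :: del (s ++ [false]) a b
  | s, true :: a, b => (s ++ [true], false :: (a ++ b)) :: del (s ++ [true]) a b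

theorem wt_del {s a b : List Bool} {p : List Bool × List Bool} (hp : p ∈ del s a b) :
    wt (p.1 ++ p.2) = wt (s ++ a ++ b) + 1 := by
  induction a generalizing s with
  | nil => simp [del] at hp
  | cons c a ih =>
    have e2 : wc true = 2 := rfl
    have e1 : wc false = 1 := rfl
    cases c with
    | false =>
      simp only [del, List.mem_cons] at hp
      rcases hp with rfl | hp
      · simp only [wt_append, wt_cons, wt_nil]
        omega
      · rw [ih hp]
        simp
    | true =>
      simp only [del, List.mem_cons] at hp
      rcases hp with rfl | hp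
      · simp only [wt_append, wt_cons, wt_nil]
        omega
      · rw [ih hp]
        simp

/-- sum of `P` over a list of marked words -/
noncomputable def PL (τ : Equiv.Perm α) (L : List (List Bool × List Bool)) (S : Finset α) : ℕ :=
  (L.map fun p => P τ p.1 p.2 S).sum

theorem PL_nil (τ : Equiv.Perm α) (S : Finset α) : PL τ [] S = 0 := rfl

theorem PL_cons (τ : Equiv.Perm α) (p : List Bool × List Bool) (L : List (List Bool × List Bool))
    (S : Finset α) : PL τ (p :: L) S = P τ p.1 p.2 S + PL τ L S := by
  simp [PL]

theorem PL_append (τ : Equiv.Perm α) (L L' : List (List Bool × List Bool)) (S : Finset α) :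
    PL τ (L ++ L') S = PL τ L S + PL τ L' S := by
  simp [PL]

theorem P_del (τ : Equiv.Perm α) (s a b : List Bool) (S : Finset α) :
    P τ s (a ++ b) S = P τ (s ++ a) b S + PL τ (del s a b) S := by
  induction a generalizing s with
  | nil => simp [del, PL_nil]
  | cons c a ih =>
    cases c with
    | false =>
      rw [List.cons_append, P_false, ih (s ++ [false]), del, PL_cons]
      simp only [List.append_assoc, List.cons_append, List.nil_append]
      ring
    | true =>
      rw [List.cons_append, P_true, ih (s ++ [true]), del, PL_cons]
      simp only [List.append_assoc, List.cons_append, List.nil_append]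
      ring

/-- two further steps -/
def step (p : List Bool × List Bool) : List (List Bool × List Bool) :=
  (del [] p.1 p.2).flatMap fun q => del q.1 q.2 []

theorem wt_step {p q : List Bool × List Bool} (hq : q ∈ step p) :
    wt (q.1 ++ q.2) = wt (p.1 ++ p.2) + 2 := by
  rw [step, List.mem_flatMap] at hq
  obtain ⟨r, hr, hq⟩ := hq
  have h1 := wt_del hr
  have h2 := wt_del hq
  rw [h2]
  simp only [List.append_nil, List.nil_append] at h1 ⊢
  rw [h1]

theorem P_step (τ : Equiv.Perm α) (p : List Bool × List Bool) (S : Finset α) (hS : Even S.card)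
    (hp : Even (wt (p.1 ++ p.2))) :
    P τ [] (p.1 ++ p.2) S = P τ p.1 p.2 S + PL τ (step p) S := by
  rw [P_del, List.nil_append]
  congr 1
  have key : ∀ L : List (List Bool × List Bool), (∀ q ∈ L, ¬ Even (wt (q.1 ++ q.2))) →
      PL τ L S = PL τ (L.flatMap fun q => del q.1 q.2 []) S := by
    intro L
    induction L with
    | nil => intro _; rfl
    | cons q L ih =>
      intro h
      rw [PL_cons, List.flatMap_cons, PL_append, ih (fun r hr => h r (List.mem_cons_of_mem _ hr))]
      congr 1
      have h1 := P_del τ q.1 q.2 [] S
      rw [List.append_nil, P_nil, F_eq_zero_of_parity hS (h q List.mem_cons_self), zero_add] at h1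
      exact h1
  apply key
  intro q hq
  rw [wt_del hq, List.nil_append, Nat.even_add_one]
  exact not_not.2 hp

def st : ℕ → List (List Bool × List Bool)
  | 0 => [([true], [])]
  | k + 1 => (st k).flatMap step

theorem wt_st {k : ℕ} {p : List Bool × List Bool} (hp : p ∈ st k) :
    wt (p.1 ++ p.2) = 2 * (k + 1) := by
  induction k generalizing p with
  | zero =>
    simp only [st, List.mem_singleton] at hp
    subst hp
    rfl
  | succ k ih =>
    rw [st, List.mem_flatMap] at hp
    obtain ⟨q, hq, hp⟩ := hp
    rw [wt_step hp, ih hq]
    ring

/-- the inductive step, on the level of words -/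
theorem st_succ (τ : Equiv.Perm α) (k : ℕ) (S : Finset α) (hS : Even S.card) :
    ((st k).map fun p => P τ [] (p.1 ++ p.2) S).sum = PL τ (st k) S + PL τ (st (k + 1)) S := by
  rw [st]
  have key : ∀ L : List (List Bool × List Bool), (∀ q ∈ L, Even (wt (q.1 ++ q.2))) →
      (L.map fun p => P τ [] (p.1 ++ p.2) S).sum = PL τ L S + PL τ (L.flatMap step) S := by
    intro L
    induction L with
    | nil => intro _; rfl
    | cons q L ih =>
      intro h
      rw [List.map_cons, List.sum_cons, ih (fun r hr => h r (List.mem_cons_of_mem _ hr)),
        PL_cons, List.flatMap_cons, PL_append, P_step τ q S hS (h q List.mem_cons_self)]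
      ring
  apply key
  intro q hq
  rw [wt_st hq]
  exact even_two_mul _

/-- all words -/
def words (k : ℕ) : List (List Bool) := (st k).flatMap fun p => (U p.2).map fun u => p.1 ++ u

theorem PL_st (τ : Equiv.Perm α) (k : ℕ) (S : Finset α) : PL τ (st k) S = FL τ (words k) S := by
  rw [words]
  generalize st k = L
  induction L with
  | nil => rfl
  | cons q L ih =>
    rw [PL_cons, List.flatMap_cons, FL_append, ih]
    rfl

end Pool.Agent.V11176.Even
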