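import Pool.Agent.V11176.EvenA

/-!
# Counting invariant two-block partitions
-/

namespace Pool.Agent.V11176.Even

open Finset
open scoped Classical

variable {α : Type} 

theorem prod_sgn (Y : Finset α) (p : α → Prop) [DecidablePred p] :
    ∏ x ∈ Y, (if p x then (-1 : ℤ) else 1) = (-1) ^ (Y.filter p).card := by
  rw [prod_ite]
  simp

theorem sum_sgn (A D : Finset α) (hD : D ⊆ A) :
    ∑ Y ∈ A.powerset, ∏ x ∈ Y, (if x ∈ D then (-1 : ℤ) else 1) =
      if D = ∅ then 2 ^ A.card else 0 := by
  rw [← prod_one_add]
  by_cases h : D = ∅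
  · subst h
    simp only [notMem_empty, if_false, if_true]
    rw [prod_const]
    norm_num
  · rw [if_neg h]
    obtain ⟨x, hx⟩ := nonempty_iff_ne_empty.2 h
    apply prod_eq_zero (hD hx)
    rw [if_pos hx]
    norm_num

theorem sum_sgn_even (A D : Finset α) (hD : D ⊆ A) :
    2 * ∑ Y ∈ A.powerset.filter (fun Y => Even Y.card), ∏ x ∈ Y, (if x ∈ D then (-1 : ℤ) else 1) =
      (if D = ∅ then 2 ^ A.card else 0) + (if D = A then 2 ^ A.card else 0) := by
  have h1 : (if D = A then (2 : ℤ) ^ A.card else 0) = if A \ D = ∅ then 2 ^ A.card else 0 := by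
    have : D = A ↔ A \ D = ∅ := by
      rw [sdiff_eq_empty_iff_subset]
      exact ⟨fun h => h ▸ subset_rfl, fun h => subset_antisymm hD h⟩
    simp only [this]
  rw [h1, ← sum_sgn A D hD, ← sum_sgn A (A \ D) sdiff_subset, ← sum_add_distrib, sum_filter, mul_sum]
  apply sum_congr rfl
  intro Y hY
  rw [mem_powerset] at hY
  have h2 : ∏ x ∈ Y, (if x ∈ A \ D then (-1 : ℤ) else 1) =
      (-1) ^ Y.card * ∏ x ∈ Y, (if x ∈ D then (-1 : ℤ) else 1) := by
    rw [← prod_const, ← prod_mul_distrib]
    apply prod_congr rfl
    intro x hx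
    have := hY hx
    by_cases h : x ∈ D
    · simp [h]
    · simp [h, this]
  rw [h2]
  by_cases h : Even Y.card
  · rw [if_pos h, h.neg_one_pow]
    ring
  · rw [if_neg h, (Nat.not_even_iff_odd.1 h).neg_one_pow]
    ring

theorem sgn_mul (p q : Prop) [Decidable p] [Decidable q] [Decidable (¬ (p ↔ q))] :
    (if ¬ (p ↔ q) then (-1 : ℤ) else 1) =
    (if p then (-1 : ℤ) else 1) * (if q then (-1 : ℤ) else 1) := by
  by_cases hp : p <;> by_cases hq : q <;> simp [hp, hq]

/-- sets exchanged with their complement in `A` -/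
def Anti (τ : Equiv.Perm α) (A X : Finset α) : Prop := ∀ x ∈ A, (τ x ∈ X ↔ ¬ x ∈ X)

theorem swap_sgn (τ : Equiv.Perm α) (X Y : Finset α) :
    ∏ x ∈ Y, (if ¬ (τ x ∈ X ↔ x ∈ X) then (-1 : ℤ) else 1) =
      ∏ x ∈ X, (if ¬ (τ.symm x ∈ Y ↔ x ∈ Y) then (-1 : ℤ) else 1) := by
  simp only [sgn_mul]
  rw [prod_mul_distrib, prod_mul_distrib, prod_sgn Y (fun x => τ x ∈ X), prod_sgn Y (fun x => x ∈ X),
    prod_sgn X (fun x => τ.symm x ∈ Y), prod_sgn X (fun x => x ∈ Y)]
  have h1 : (Y.filter fun x => τ x ∈ X).card = (X.filter fun x => τ.symm x ∈ Y).card := by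
    apply card_bij (fun x _ => τ x)
    · intro x hx
      rw [mem_filter] at hx ⊢
      exact ⟨hx.2, by simpa using hx.1⟩
    · intro x _ y _ h
      exact τ.injective h
    · intro y hy
      rw [mem_filter] at hy
      exact ⟨τ.symm y, by rw [mem_filter]; exact ⟨hy.2, by simpa using hy.1⟩, by simp⟩
  have h2 : (Y.filter fun x => x ∈ X) = (X.filter fun x => x ∈ Y) := by
    ext x
    simp only [mem_filter]
    tauto
  rw [h1, h2]

theorem inv_count (τ : Equiv.Perm α) (A : Finset α) (hA : Inv τ A) :
    (A.powerset.filter fun X => Inv τ X).card +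
      (A.powerset.filter fun X => Anti τ A X).card =
    2 * (A.powerset.filter fun X => Inv τ X ∧ Even X.card).card := by
  have hA' : ∀ x, τ.symm x ∈ A ↔ x ∈ A := by
    intro x
    rw [← hA (τ.symm x), Equiv.apply_symm_apply]
  -- double sum
  have e1 : ∀ X ∈ A.powerset,
      2 * ∑ Y ∈ A.powerset.filter (fun Y => Even Y.card),
        ∏ x ∈ Y, (if ¬ (τ x ∈ X ↔ x ∈ X) then (-1 : ℤ) else 1) =
      2 ^ A.card * ((if Inv τ X then 1 else 0) + (if Anti τ A X then 1 else 0)) := by
    intro X hX
    rw [mem_powerset] at hX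
    have h0 := sum_sgn_even A (A.filter fun x => ¬ (τ x ∈ X ↔ x ∈ X)) (filter_subset _ _)
    have h1 : ∑ Y ∈ A.powerset.filter (fun Y => Even Y.card),
        ∏ x ∈ Y, (if ¬ (τ x ∈ X ↔ x ∈ X) then (-1 : ℤ) else 1) =
        ∑ Y ∈ A.powerset.filter (fun Y => Even Y.card),
        ∏ x ∈ Y, (if x ∈ (A.filter fun x => ¬ (τ x ∈ X ↔ x ∈ X)) then (-1 : ℤ) else 1) := by
      apply sum_congr rfl
      intro Y hY
      rw [mem_filter, mem_powerset] at hY
      apply prod_congr rfl
      intro x hx
      have : x ∈ A := hY.1 hx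
      simp only [mem_filter, this, true_and]
    rw [h1, h0]
    have h2 : (A.filter fun x => ¬ (τ x ∈ X ↔ x ∈ X)) = ∅ ↔ Inv τ X := by
      rw [filter_eq_empty_iff]
      constructor
      · intro h x
        by_cases hx : x ∈ A
        · have := h hx
          tauto
        · have h3 : τ x ∉ A := fun h' => hx ((hA x).1 h')
          exact ⟨fun h' => absurd (hX h') h3, fun h' => absurd (hX h') hx⟩
      · intro h x _
        exact not_not.2 (h x)
    have h3 : (A.filter fun x => ¬ (τ x ∈ X ↔ x ∈ X)) = A ↔ Anti τ A X := by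
      rw [filter_eq_self]
      constructor
      · intro h x hx
        have := h x hx
        tauto
      · intro h x hx
        have := h x hx
        tauto
    simp only [h2, h3]
    split_ifs <;> ring
  have e2 : ∀ Y ∈ A.powerset,
      ∑ X ∈ A.powerset, ∏ x ∈ Y, (if ¬ (τ x ∈ X ↔ x ∈ X) then (-1 : ℤ) else 1) =
      2 ^ A.card * (if Inv τ Y then 1 else 0) := by
    intro Y hY
    rw [mem_powerset] at hY
    have h0 := sum_sgn A (A.filter fun x => ¬ (τ.symm x ∈ Y ↔ x ∈ Y)) (filter_subset _ _)
    have h1 : ∑ X ∈ A.powerset, ∏ x ∈ Y, (if ¬ (τ x ∈ X ↔ x ∈ X) then (-1 : ℤ) else 1) =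
        ∑ X ∈ A.powerset, ∏ x ∈ X,
          (if x ∈ (A.filter fun x => ¬ (τ.symm x ∈ Y ↔ x ∈ Y)) then (-1 : ℤ) else 1) := by
      apply sum_congr rfl
      intro X hX
      rw [mem_powerset] at hX
      rw [swap_sgn]
      apply prod_congr rfl
      intro x hx
      have : x ∈ A := hX hx
      simp only [mem_filter, this, true_and]
    rw [h1, h0]
    have h2 : (A.filter fun x => ¬ (τ.symm x ∈ Y ↔ x ∈ Y)) = ∅ ↔ Inv τ Y := by
      rw [filter_eq_empty_iff]
      constructor
      · intro h x
        by_cases hx : τ x ∈ A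
        · have := h hx
          rw [not_not, Equiv.symm_apply_apply] at this
          exact this.symm
        · have h3 : x ∉ A := fun h' => hx ((hA x).2 h')
          exact ⟨fun h' => absurd (hY h') hx, fun h' => absurd (hY h') h3⟩
      · intro h x _
        rw [not_not]
        have := h (τ.symm x)
        rw [Equiv.apply_symm_apply] at this
        exact this.symm
    simp only [h2]
    split_ifs <;> ring
  have e3 : ∑ X ∈ A.powerset, 2 * ∑ Y ∈ A.powerset.filter (fun Y => Even Y.card),
        ∏ x ∈ Y, (if ¬ (τ x ∈ X ↔ x ∈ X) then (-1 : ℤ) else 1) =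
      2 * ∑ Y ∈ A.powerset.filter (fun Y => Even Y.card), ∑ X ∈ A.powerset,
        ∏ x ∈ Y, (if ¬ (τ x ∈ X ↔ x ∈ X) then (-1 : ℤ) else 1) := by
    rw [← mul_sum, sum_comm]
  rw [sum_congr rfl e1, sum_congr rfl (fun Y hY => e2 Y (mem_filter.1 hY).1), ← mul_sum, ← mul_sum,
    sum_add_distrib, sum_boole, sum_boole, sum_boole, filter_filter] at e3
  have h2 : (2 : ℤ) ^ A.card ≠ 0 := by positivity
  have e4 : (((A.powerset.filter fun X => Inv τ X).card +
      (A.powerset.filter fun X => Anti τ A X).card : ℕ) : ℤ) =
    ((2 * (A.powerset.filter fun X => Even X.card ∧ Inv τ X).card : ℕ) : ℤ) := by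
    apply mul_left_cancel₀ h2
    push_cast
    linear_combination e3
  have e5 := Nat.cast_injective (R := ℤ) e4
  rw [e5]
  congr 2
  ext X
  simp only [mem_filter]
  tauto

/-- the induced permutation on subsets -/
def hat (τ : Equiv.Perm α) : Equiv.Perm (Finset α) := Equiv.finsetCongr τ

theorem mem_hat {τ : Equiv.Perm α} {A : Finset α} {x : α} : x ∈ hat τ A ↔ τ.symm x ∈ A := by
  unfold hat
  rw [Equiv.finsetCongr_apply, mem_map_equiv]

theorem apply_mem_hat {τ : Equiv.Perm α} {A : Finset α} {x : α} : τ x ∈ hat τ A ↔ x ∈ A := by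
  rw [mem_hat, Equiv.symm_apply_apply]

theorem hat_eq_self {τ : Equiv.Perm α} {A : Finset α} : hat τ A = A ↔ Inv τ A := by
  constructor
  · intro h x
    conv_lhs => rw [← h]
    exact apply_mem_hat
  · intro h
    ext x
    rw [mem_hat, ← h (τ.symm x), Equiv.apply_symm_apply]

/-- set partitions of `S` -/
def IsPart (S : Finset α) (P : Finset (Finset α)) : Prop :=
  ∅ ∉ P ∧ (∀ A ∈ P, ∀ B ∈ P, A ≠ B → Disjoint A B) ∧ ∀ x, x ∈ S ↔ ∃ A ∈ P, x ∈ A

theorem IsPart.subset {S : Finset α} {P : Finset (Finset α)} (h : IsPart S P) {A : Finset α}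
    (hA : A ∈ P) : A ⊆ S := fun x hx => (h.2.2 x).2 ⟨A, hA, hx⟩

/-- invariant set partitions of `S` with `m` blocks -/
noncomputable def parts (τ : Equiv.Perm α) (S : Finset α) (m : ℕ) : Finset (Finset (Finset α)) :=
  S.powerset.powerset.filter (fun P => IsPart S P ∧ Inv (hat τ) P ∧ P.card = m)

theorem mem_parts {τ : Equiv.Perm α} {S : Finset α} {m : ℕ} {P : Finset (Finset α)} :
    P ∈ parts τ S m ↔ IsPart S P ∧ Inv (hat τ) P ∧ P.card = m := by
  unfold parts
  rw [mem_filter, mem_powerset]
  constructor
  · intro h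
    exact h.2
  · intro h
    exact ⟨fun A hA => mem_powerset.2 (h.1.subset hA), h⟩

theorem pair_of_mem {A X : Finset α} {P : Finset (Finset α)} (hP : IsPart A P) (hc : P.card = 2)
    (hX : X ∈ P) : P = {X, A \ X} := by
  obtain ⟨B, C, hBC, rfl⟩ := card_eq_two.1 hc
  have hd : Disjoint B C := hP.2.1 B (by simp) C (by simp) hBC
  have hA : A = B ∪ C := by
    ext x
    rw [hP.2.2 x]
    simp
  rw [mem_insert, mem_singleton] at hX
  rcases hX with rfl | rfl
  · rw [hA, union_sdiff_cancel_left hd]
  · rw [hA, union_sdiff_cancel_right hd, pair_comm]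

theorem isPart_pair {A X : Finset α} (hX : X ⊆ A) (h0 : X ≠ ∅) (h1 : X ≠ A) :
    IsPart A {X, A \ X} := by
  refine ⟨?_, ?_, ?_⟩
  · rw [mem_insert, mem_singleton]
    rintro (h | h)
    · exact h0 h.symm
    · exact h1 (subset_antisymm hX (sdiff_eq_empty_iff_subset.1 h.symm))
  · intro B hB C hC hBC
    rw [mem_insert, mem_singleton] at hB hC
    rcases hB with rfl | rfl <;> rcases hC with rfl | rfl
    · exact absurd rfl hBC
    · exact disjoint_sdiff
    · exact disjoint_sdiff.symm
    · exact absurd rfl hBC
  · intro x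
    constructor
    · intro hx
      by_cases h : x ∈ X
      · exact ⟨X, by simp, h⟩
      · exact ⟨A \ X, by simp, mem_sdiff.2 ⟨hx, h⟩⟩
    · rintro ⟨B, hB, hx⟩
      rw [mem_insert, mem_singleton] at hB
      rcases hB with rfl | rfl
      · exact hX hx
      · exact (mem_sdiff.1 hx).1

theorem pair_mem_parts {τ : Equiv.Perm α} {A X : Finset α} (hA : Inv τ A) (hX : X ⊆ A)
    (h0 : X ≠ ∅) (h1 : X ≠ A) : {X, A \ X} ∈ parts τ A 2 ↔ Inv τ X ∨ Anti τ A X := by
  have hne : X ≠ A \ X := by
    intro h
    apply h0
    have : Disjoint X (A \ X) := disjoint_sdiff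
    rw [← h] at this
    exact disjoint_self.1 this
  rw [mem_parts]
  constructor
  · rintro ⟨-, hi, -⟩
    have h2 : hat τ X ∈ ({X, A \ X} : Finset (Finset α)) := (hi X).2 (by simp)
    rw [mem_insert, mem_singleton] at h2
    rcases h2 with h | h
    · left
      exact hat_eq_self.1 h
    · right
      intro x hx
      have h3 : τ x ∈ hat τ X ↔ x ∈ X := apply_mem_hat
      rw [h, mem_sdiff] at h3
      have h4 : τ x ∈ A := (hA x).2 hx
      tauto
  · intro h
    refine ⟨isPart_pair hX h0 h1, ?_, card_pair hne⟩
    rcases h with h | h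
    · have e1 : hat τ X = X := hat_eq_self.2 h
      have e2 : hat τ (A \ X) = A \ X := by
        rw [hat_eq_self]
        intro x
        rw [mem_sdiff, mem_sdiff, h x, hA x]
      intro Z
      rw [mem_insert, mem_singleton, mem_insert, mem_singleton]
      constructor
      · rintro (h' | h')
        · left
          exact (hat τ).injective (h'.trans e1.symm)
        · right
          exact (hat τ).injective (h'.trans e2.symm)
      · rintro (rfl | rfl)
        · left; exact e1
        · right; exact e2
    · have e1 : hat τ X = A \ X := by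
        ext x
        rw [mem_hat, mem_sdiff]
        by_cases hx : x ∈ A
        · have hx' : τ.symm x ∈ A := by
            rw [← hA (τ.symm x), Equiv.apply_symm_apply]
            exact hx
          have := h _ hx'
          rw [Equiv.apply_symm_apply] at this
          tauto
        · have hx' : τ.symm x ∉ A := by
            rw [← hA (τ.symm x), Equiv.apply_symm_apply]
            exact hx
          exact ⟨fun h' => absurd (hX h') hx', fun h' => absurd h'.1 hx⟩
      have e2 : hat τ (A \ X) = X := by
        ext x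
        rw [mem_hat, mem_sdiff]
        by_cases hx : x ∈ A
        · have hx' : τ.symm x ∈ A := by
            rw [← hA (τ.symm x), Equiv.apply_symm_apply]
            exact hx
          have := h _ hx'
          rw [Equiv.apply_symm_apply] at this
          tauto
        · have hx' : τ.symm x ∉ A := by
            rw [← hA (τ.symm x), Equiv.apply_symm_apply]
            exact hx
          exact ⟨fun h' => absurd h'.1 hx', fun h' => absurd (hX h') hx⟩
      intro Z
      rw [mem_insert, mem_singleton, mem_insert, mem_singleton]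
      constructor
      · rintro (h' | h')
        · right
          exact (hat τ).injective (h'.trans e2.symm)
        · left
          exact (hat τ).injective (h'.trans e1.symm)
      · rintro (rfl | rfl)
        · right; exact e1
        · left; exact e2

/-- **Key identity**: invariant two-block partitions are as numerous as nonempty invariant
subsets of even size. -/
theorem card_parts_two (τ : Equiv.Perm α) (A : Finset α) (hA : Inv τ A) :
    (parts τ A 2).card = (A.powerset.filter fun X => Inv τ X ∧ ty true X.card).card := by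
  by_cases hA0 : A = ∅
  · subst hA0
    rw [powerset_empty]
    have h1 : parts τ (∅ : Finset α) 2 = ∅ := by
      rw [eq_empty_iff_forall_notMem]
      intro P hP
      rw [mem_parts] at hP
      obtain ⟨hP, -, hc⟩ := hP
      obtain ⟨B, C, hBC, rfl⟩ := card_eq_two.1 hc
      have hB : B = ∅ := subset_empty.1 (hP.subset (by simp))
      have hC : C = ∅ := subset_empty.1 (hP.subset (by simp))
      exact hBC (hB.trans hC.symm)
    have h2 : (({∅} : Finset (Finset α)).filter fun X => Inv τ X ∧ ty true X.card) = ∅ := by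
      rw [filter_eq_empty_iff]
      intro X hX h
      rw [mem_singleton] at hX
      subst hX
      have := h.2.1
      simp at this
    rw [h1, h2, card_empty, card_empty]
  · set I := A.powerset.filter fun X => Inv τ X with hI
    set J := A.powerset.filter fun X => Anti τ A X with hJ
    set K := A.powerset.filter fun X => (X ≠ ∅ ∧ X ≠ A) ∧ (Inv τ X ∨ Anti τ A X) with hK
    have hIJ : Disjoint I J := by
      rw [disjoint_left]
      intro X hX hX'
      rw [hI, mem_filter] at hX
      rw [hJ, mem_filter] at hX'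
      obtain ⟨x, hx⟩ := nonempty_iff_ne_empty.2 hA0
      have h1 := hX.2 x
      have h2 := hX'.2 x hx
      tauto
    have hempty : Inv τ (∅ : Finset α) := fun x => by simp
    have h1 : I ∪ J = insert ∅ (insert A K) := by
      ext X
      rw [hI, hJ, hK, mem_union, mem_insert, mem_insert, mem_filter, mem_filter, mem_filter,
        mem_powerset]
      constructor
      · intro h
        by_cases h0 : X = ∅
        · left; exact h0
        · by_cases h1 : X = A
          · right; left; exact h1
          · right; right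
            rcases h with h | h
            · exact ⟨h.1, ⟨h0, h1⟩, Or.inl h.2⟩
            · exact ⟨h.1, ⟨h0, h1⟩, Or.inr h.2⟩
      · rintro (rfl | rfl | h)
        · left
          exact ⟨empty_subset _, hempty⟩
        · left
          exact ⟨subset_rfl, hA⟩
        · rcases h.2.2 with h' | h'
          · left; exact ⟨h.1, h'⟩
          · right; exact ⟨h.1, h'⟩
    have h2 : I.card + J.card = K.card + 2 := by
      rw [← card_union_of_disjoint hIJ, h1, card_insert_of_notMem, card_insert_of_notMem]
      · rw [hK, mem_filter]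
        intro h
        exact h.2.1.2 rfl
      · rw [mem_insert]
        rintro (h | h)
        · exact hA0 h.symm
        · rw [hK, mem_filter] at h
          exact h.2.1.1 rfl
    have h3 : K.card = 2 * (parts τ A 2).card := by
      have h4 : ((parts τ A 2).sigma fun P => P).card = (parts τ A 2).card * 2 := by
        rw [card_sigma]
        rw [sum_const_nat (m := 2)]
        intro P hP
        exact (mem_parts.1 hP).2.2
      rw [mul_comm, ← h4]
      apply card_nbij' (fun X => (⟨{X, A \ X}, X⟩ : Σ _ : Finset (Finset α), Finset α)) (fun x => x.2)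
      · intro X hX
        rw [mem_coe, hK, mem_filter, mem_powerset] at hX
        rw [mem_coe, mem_sigma]
        refine ⟨?_, by simp⟩
        exact (pair_mem_parts hA hX.1 hX.2.1.1 hX.2.1.2).2 hX.2.2
      · rintro ⟨P, X⟩ hPX
        rw [mem_coe, mem_sigma] at hPX
        obtain ⟨hP, hX⟩ := hPX
        simp only at hP hX
        have hP' := mem_parts.1 hP
        have h5 := pair_of_mem hP'.1 hP'.2.2 hX
        have h6 : X ⊆ A := hP'.1.subset hX
        have h7 : X ≠ ∅ := fun h => hP'.1.1 (h ▸ hX)
        have h8 : X ≠ A := by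
          intro h
          apply hP'.1.1
          rw [h5, h, sdiff_self]
          simp
        rw [mem_coe, hK, mem_filter, mem_powerset]
        refine ⟨h6, ⟨h7, h8⟩, ?_⟩
        rw [← pair_mem_parts hA h6 h7 h8, ← h5]
        exact hP
      · intro X _
        rfl
      · rintro ⟨P, X⟩ hPX
        rw [mem_coe, mem_sigma] at hPX
        obtain ⟨hP, hX⟩ := hPX
        simp only at hP hX
        have hP' := mem_parts.1 hP
        have h5 := pair_of_mem hP'.1 hP'.2.2 hX
        simp only
        rw [← h5]
    have h4 := inv_count τ A hA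
    have h5 : (A.powerset.filter fun X => Inv τ X ∧ Even X.card) =
        insert ∅ (A.powerset.filter fun X => Inv τ X ∧ ty true X.card) := by
      ext X
      rw [mem_insert, mem_filter, mem_filter, mem_powerset]
      constructor
      · rintro ⟨h6, h7, h8⟩
        by_cases h0 : X = ∅
        · left; exact h0
        · right
          exact ⟨h6, h7, card_pos.2 (nonempty_iff_ne_empty.2 h0), h8⟩
      · rintro (rfl | ⟨h6, h7, h8⟩)
        · exact ⟨empty_subset _, hempty, by simp⟩
        · exact ⟨h6, h7, h8.2⟩
    rw [h5, card_insert_of_notMem] at h4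
    · rw [← hI, ← hJ, h2, h3] at h4
      omega
    · rw [mem_filter]
      intro h
      have := h.2.2.1
      simp at this

theorem card_parts_one (τ : Equiv.Perm α) (A : Finset α) (hA : Inv τ A) :
    (parts τ A 1).card = if A = ∅ then 0 else 1 := by
  by_cases hA0 : A = ∅
  · subst hA0
    rw [if_pos rfl, card_eq_zero, eq_empty_iff_forall_notMem]
    intro P hP
    rw [mem_parts] at hP
    obtain ⟨hP, -, hc⟩ := hP
    obtain ⟨B, rfl⟩ := card_eq_one.1 hc
    have hB : B = ∅ := subset_empty.1 (hP.subset (by simp))
    apply hP.1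
    rw [hB]
    simp
  · rw [if_neg hA0, card_eq_one]
    refine ⟨{A}, ?_⟩
    ext P
    rw [mem_parts, mem_singleton]
    constructor
    · rintro ⟨hP, -, hc⟩
      obtain ⟨B, rfl⟩ := card_eq_one.1 hc
      congr 1
      ext x
      rw [hP.2.2 x]
      simp
    · rintro rfl
      refine ⟨⟨?_, ?_, ?_⟩, ?_, by simp⟩
      · rw [mem_singleton]
        exact fun h => hA0 h.symm
      · intro B hB C hC h
        rw [mem_singleton] at hB hC
        exact absurd (hB.trans hC.symm) h
      · intro x
        simp
      · intro Z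
        rw [mem_singleton, mem_singleton]
        have e1 : hat τ A = A := hat_eq_self.2 hA
        constructor
        · intro h
          exact (hat τ).injective (h.trans e1.symm)
        · rintro rfl
          exact e1

end Pool.Agent.V11176.Even
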