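import Pool.Agent.V11176.EvenB

/-!
# The composition formula
-/

namespace Pool.Agent.V11176.Even

open Finset
open scoped Classical

variable {α : Type}

/-- union of the blocks -/
noncomputable def uni (Q : Finset (Finset α)) : Finset α := Q.biUnion id

theorem mem_uni {Q : Finset (Finset α)} {x : α} : x ∈ uni Q ↔ ∃ A ∈ Q, x ∈ A := by
  simp [uni]

theorem isPart_uni {S : Finset α} {P Q : Finset (Finset α)} (hP : IsPart S P) (hQ : Q ⊆ P) :
    IsPart (uni Q) Q :=
  ⟨fun h => hP.1 (hQ h), fun A hA B hB h => hP.2.1 A (hQ hA) B (hQ hB) h, fun _ => mem_uni⟩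

theorem IsPart.uni_eq {S : Finset α} {P : Finset (Finset α)} (hP : IsPart S P) : uni P = S := by
  ext x
  rw [mem_uni, hP.2.2 x]

theorem isPart_sdiff {S : Finset α} {P Q : Finset (Finset α)} (hP : IsPart S P) (hQ : Q ⊆ P) :
    IsPart (S \ uni Q) (P \ Q) := by
  refine ⟨fun h => hP.1 (mem_sdiff.1 h).1, fun A hA B hB h =>
    hP.2.1 A (mem_sdiff.1 hA).1 B (mem_sdiff.1 hB).1 h, fun x => ?_⟩
  rw [mem_sdiff, mem_uni, hP.2.2 x]
  constructor
  · rintro ⟨⟨A, hA, hx⟩, h⟩
    exact ⟨A, mem_sdiff.2 ⟨hA, fun h' => h ⟨A, h', hx⟩⟩, hx⟩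
  · rintro ⟨A, hA, hx⟩
    rw [mem_sdiff] at hA
    refine ⟨⟨A, hA.1, hx⟩, ?_⟩
    rintro ⟨B, hB, hx'⟩
    have hne : A ≠ B := fun h => hA.2 (h ▸ hB)
    exact disjoint_left.1 (hP.2.1 A hA.1 B (hQ hB) hne) hx hx'

theorem isPart_union {S A : Finset α} {P Q : Finset (Finset α)} (hA : A ⊆ S) (hQ : IsPart A Q)
    (hP : IsPart (S \ A) P) : IsPart S (Q ∪ P) := by
  have hd : ∀ B ∈ Q, ∀ C ∈ P, Disjoint B C := by
    intro B hB C hC
    rw [disjoint_left]
    intro x hx hx'
    exact (mem_sdiff.1 (hP.subset hC hx')).2 (hQ.subset hB hx)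
  refine ⟨?_, ?_, ?_⟩
  · rw [mem_union]
    rintro (h | h)
    · exact hQ.1 h
    · exact hP.1 h
  · intro B hB C hC h
    rw [mem_union] at hB hC
    rcases hB with hB | hB <;> rcases hC with hC | hC
    · exact hQ.2.1 B hB C hC h
    · exact hd B hB C hC
    · exact (hd C hC B hB).symm
    · exact hP.2.1 B hB C hC h
  · intro x
    constructor
    · intro hx
      by_cases hxA : x ∈ A
      · obtain ⟨B, hB, hx'⟩ := (hQ.2.2 x).1 hxA
        exact ⟨B, mem_union_left _ hB, hx'⟩
      · obtain ⟨B, hB, hx'⟩ := (hP.2.2 x).1 (mem_sdiff.2 ⟨hx, hxA⟩)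
        exact ⟨B, mem_union_right _ hB, hx'⟩
    · rintro ⟨B, hB, hx⟩
      rw [mem_union] at hB
      rcases hB with hB | hB
      · exact hA (hQ.subset hB hx)
      · exact (mem_sdiff.1 (hP.subset hB hx)).1

theorem inv_uni {τ : Equiv.Perm α} {Q : Finset (Finset α)} (hQ : Inv (hat τ) Q) :
    Inv τ (uni Q) := by
  intro x
  rw [mem_uni, mem_uni]
  constructor
  · rintro ⟨A, hA, hx⟩
    refine ⟨(hat τ).symm A, ?_, ?_⟩
    · rw [← hQ, Equiv.apply_symm_apply]
      exact hA
    · rw [← apply_mem_hat (τ := τ), Equiv.apply_symm_apply]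
      exact hx
  · rintro ⟨A, hA, hx⟩
    exact ⟨hat τ A, (hQ A).2 hA, apply_mem_hat.2 hx⟩

theorem Inv.sdiff {β : Type} [DecidableEq β] {τ : Equiv.Perm β} {P Q : Finset β} (hP : Inv τ P) (hQ : Inv τ Q) :
    Inv τ (P \ Q) := by
  intro x
  rw [mem_sdiff, mem_sdiff, hP x, hQ x]

theorem Inv.union {β : Type} [DecidableEq β] {τ : Equiv.Perm β} {P Q : Finset β} (hP : Inv τ P) (hQ : Inv τ Q) :
    Inv τ (P ∪ Q) := by
  intro x
  rw [mem_union, mem_union, hP x, hQ x]

theorem exch (τ : Equiv.Perm α) (S : Finset α) (r m : ℕ) (Φ : Finset (Finset α) → ℕ) :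
    ∑ P ∈ parts τ S (r + m), ∑ Q ∈ P.powerset.filter (fun Q => Inv (hat τ) Q ∧ Q.card = r),
      Φ (P \ Q) =
    ∑ A ∈ S.powerset.filter (Inv τ), (parts τ A r).card * ∑ P' ∈ parts τ (S \ A) m, Φ P' := by
  have h1 : ∀ A ∈ S.powerset.filter (Inv τ), (parts τ A r).card * ∑ P' ∈ parts τ (S \ A) m, Φ P' =
      ∑ x ∈ parts τ A r ×ˢ parts τ (S \ A) m, Φ x.2 := by
    intro A _
    rw [sum_product]
    simp only [sum_const, smul_eq_mul]
  rw [sum_congr rfl h1, sum_sigma', sum_sigma']
  refine sum_nbij' (fun x => ⟨uni x.2, (x.2, x.1 \ x.2)⟩) (fun y => ⟨y.2.1 ∪ y.2.2, y.2.1⟩)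
    ?_ ?_ ?_ ?_ ?_
  · rintro ⟨P, Q⟩ h
    rw [mem_sigma] at h
    obtain ⟨hP, hQ⟩ := h
    simp only at hP hQ
    rw [mem_parts] at hP
    rw [mem_filter, mem_powerset] at hQ
    obtain ⟨hP1, hP2, hP3⟩ := hP
    obtain ⟨hQ1, hQ2, hQ3⟩ := hQ
    rw [mem_sigma]
    refine ⟨?_, ?_⟩
    · simp only
      rw [mem_filter, mem_powerset]
      refine ⟨?_, inv_uni hQ2⟩
      intro x hx
      obtain ⟨A, hA, hx'⟩ := mem_uni.1 hx
      exact hP1.subset (hQ1 hA) hx'
    · simp only
      rw [mem_product]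
      refine ⟨mem_parts.2 ⟨isPart_uni hP1 hQ1, hQ2, hQ3⟩,
        mem_parts.2 ⟨isPart_sdiff hP1 hQ1, hP2.sdiff hQ2, ?_⟩⟩
      have := card_sdiff_add_card_eq_card hQ1
      simp only
      omega
  · rintro ⟨A, ⟨Q, P⟩⟩ h
    rw [mem_sigma] at h
    obtain ⟨hA, h⟩ := h
    simp only at hA h
    rw [mem_filter, mem_powerset] at hA
    rw [mem_product, mem_parts, mem_parts] at h
    obtain ⟨⟨hQ1, hQ2, hQ3⟩, ⟨hP1, hP2, hP3⟩⟩ := h
    simp only at hQ1 hQ2 hQ3 hP1 hP2 hP3
    rw [mem_sigma]
    refine ⟨mem_parts.2 ⟨isPart_union hA.1 hQ1 hP1, hQ2.union hP2, ?_⟩, ?_⟩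
    · simp only
      rw [card_union_of_disjoint, hQ3, hP3]
      rw [disjoint_left]
      intro B hB hB'
      obtain ⟨x, hx⟩ := nonempty_iff_ne_empty.2 (fun h => hQ1.1 (h ▸ hB) : B ≠ ∅)
      exact (mem_sdiff.1 (hP1.subset hB' hx)).2 (hQ1.subset hB hx)
    · simp only
      rw [mem_filter, mem_powerset]
      exact ⟨subset_union_left, hQ2, hQ3⟩
  · rintro ⟨P, Q⟩ h
    rw [mem_sigma] at h
    obtain ⟨hP, hQ⟩ := h
    simp only at hP hQ
    rw [mem_filter, mem_powerset] at hQ
    simp only
    rw [union_sdiff_of_subset hQ.1]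
  · rintro ⟨A, ⟨Q, P⟩⟩ h
    rw [mem_sigma] at h
    obtain ⟨hA, h⟩ := h
    simp only at hA h
    rw [mem_product, mem_parts, mem_parts] at h
    obtain ⟨⟨hQ1, hQ2, hQ3⟩, ⟨hP1, hP2, hP3⟩⟩ := h
    simp only at hQ1 hQ2 hQ3 hP1 hP2 hP3
    simp only
    have e1 : uni Q = A := hQ1.uni_eq
    have e2 : (Q ∪ P) \ Q = P := by
      rw [union_sdiff_cancel_left]
      rw [disjoint_left]
      intro B hB hB'
      obtain ⟨x, hx⟩ := nonempty_iff_ne_empty.2 (fun h => hQ1.1 (h ▸ hB) : B ≠ ∅)
      exact (mem_sdiff.1 (hP1.subset hB' hx)).2 (hQ1.subset hB hx)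
    rw [e1, e2]
  · rintro ⟨P, Q⟩ _
    rfl

/-- for a partition with the minimal number of blocks only blocks of the minimal size occur -/
theorem F_min {β : Type} [inst : DecidableEq β] (τ : Equiv.Perm β) (c : Bool) (w : List Bool)
    (S : Finset β) (hS : S.card = wc c + wt w) :
    F τ (c :: w) S = ∑ A ∈ S.powerset.filter (fun A => Inv τ A ∧ A.card = wc c), F τ w (S \ A) := by
  have hinst : inst = fun a b => Classical.propDecidable (a = b) := Subsingleton.elim _ _
  subst hinst
  rw [F_cons]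
  have hty : ty c (wc c) := by
    cases c with
    | true => exact ⟨by decide, by decide⟩
    | false => show Odd 1; decide
  symm
  apply sum_subset
  · intro A hA
    rw [mem_filter] at hA ⊢
    refine ⟨hA.1, hA.2.1, ?_⟩
    rw [hA.2.2]
    exact hty
  · intro A hA hA'
    rw [mem_filter, mem_powerset] at hA
    rw [mem_filter, mem_powerset] at hA'
    apply F_eq_zero_of_lt
    have h1 := card_sdiff_add_card_eq_card hA.1
    have h2 := (ty_wc hA.2.2).1
    have h3 : A.card ≠ wc c := fun h => hA' ⟨hA.1, hA.2.1, h⟩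
    omega

/-- decompositions refined by one further invariant set -/
theorem two_sets (τ : Equiv.Perm α) (S : Finset α) (Φ : Finset α → ℕ) :
    ∑ A ∈ S.powerset.filter (Inv τ), (A.powerset.filter fun X => Inv τ X ∧ ty true X.card).card *
      Φ (S \ A) =
    ∑ B ∈ S.powerset.filter (fun B => Inv τ B ∧ ty true B.card),
      ∑ C ∈ (S \ B).powerset.filter (Inv τ), Φ ((S \ B) \ C) := by
  have h1 : ∀ A ∈ S.powerset.filter (Inv τ),
      (A.powerset.filter fun X => Inv τ X ∧ ty true X.card).card * Φ (S \ A) =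
      ∑ x ∈ A.powerset.filter (fun X => Inv τ X ∧ ty true X.card), Φ (S \ A) := by
    intro A _
    rw [sum_const, smul_eq_mul]
  rw [sum_congr rfl h1, sum_sigma', sum_sigma']
  refine sum_nbij' (fun x => ⟨x.2, x.1 \ x.2⟩) (fun y => ⟨y.1 ∪ y.2, y.1⟩) ?_ ?_ ?_ ?_ ?_
  · rintro ⟨A, B⟩ h
    rw [mem_sigma] at h
    obtain ⟨hA, hB⟩ := h
    simp only at hA hB
    rw [mem_filter, mem_powerset] at hA hB
    rw [mem_sigma]
    simp only
    rw [mem_filter, mem_powerset, mem_filter, mem_powerset]
    exact ⟨⟨hB.1.trans hA.1, hB.2⟩, sdiff_subset_sdiff hA.1 subset_rfl, hA.2.sdiff hB.2.1⟩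
  · rintro ⟨B, C⟩ h
    rw [mem_sigma] at h
    obtain ⟨hB, hC⟩ := h
    simp only at hB hC
    rw [mem_filter, mem_powerset] at hB hC
    rw [mem_sigma]
    simp only
    rw [mem_filter, mem_powerset, mem_filter, mem_powerset]
    exact ⟨⟨union_subset hB.1 (hC.1.trans sdiff_subset), hB.2.1.union hC.2⟩, subset_union_left, hB.2⟩
  · rintro ⟨A, B⟩ h
    rw [mem_sigma] at h
    obtain ⟨hA, hB⟩ := h
    simp only at hA hB
    rw [mem_filter, mem_powerset] at hA hB
    simp only
    rw [union_sdiff_of_subset hB.1]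
  · rintro ⟨B, C⟩ h
    rw [mem_sigma] at h
    obtain ⟨hB, hC⟩ := h
    simp only at hB hC
    rw [mem_filter, mem_powerset] at hB hC
    simp only
    rw [union_sdiff_cancel_left]
    rw [disjoint_left]
    intro x hx hx'
    exact (mem_sdiff.1 (hC.1 hx')).2 hx
  · rintro ⟨A, B⟩ h
    rw [mem_sigma] at h
    obtain ⟨hA, hB⟩ := h
    simp only at hA hB
    rw [mem_filter, mem_powerset] at hA hB
    simp only
    congr 1
    ext x
    simp only [mem_sdiff]
    have := @hB.1 x
    tauto

theorem split_types (τ : Equiv.Perm α) (S : Finset α) (Φ : Finset α → ℕ) :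
    ∑ C ∈ S.powerset.filter (Inv τ), Φ (S \ C) = Φ S +
      (∑ C ∈ S.powerset.filter (fun C => Inv τ C ∧ ty false C.card), Φ (S \ C) +
       ∑ C ∈ S.powerset.filter (fun C => Inv τ C ∧ ty true C.card), Φ (S \ C)) := by
  have hempty : Inv τ (∅ : Finset α) := fun x => by simp
  have h1 : S.powerset.filter (Inv τ) = insert ∅
      (S.powerset.filter (fun C => Inv τ C ∧ ty false C.card) ∪
       S.powerset.filter (fun C => Inv τ C ∧ ty true C.card)) := by
    ext C
    rw [mem_insert, mem_union, mem_filter, mem_filter, mem_filter, mem_powerset]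
    constructor
    · rintro ⟨hC, hi⟩
      by_cases h0 : C = ∅
      · left; exact h0
      · right
        rcases Nat.even_or_odd C.card with h | h
        · right
          exact ⟨hC, hi, card_pos.2 (nonempty_iff_ne_empty.2 h0), h⟩
        · left
          exact ⟨hC, hi, h⟩
    · rintro (rfl | h | h)
      · exact ⟨empty_subset _, hempty⟩
      · exact ⟨h.1, h.2.1⟩
      · exact ⟨h.1, h.2.1⟩
  rw [h1, sum_insert, sum_union, sdiff_empty]
  · rw [disjoint_left]
    intro C hC hC'
    rw [mem_filter] at hC hC'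
    have h2 : Odd C.card := hC.2.2
    have h3 : Even C.card := hC'.2.2.2
    exact absurd h3 (Nat.not_even_iff_odd.2 h2)
  · rw [mem_union, mem_filter, mem_filter]
    rintro (h | h)
    · have h2 : Odd (∅ : Finset α).card := h.2.2
      rw [card_empty] at h2
      exact absurd h2 (by decide)
    · have h2 : 0 < (∅ : Finset α).card := h.2.2.1
      rw [card_empty] at h2
      exact absurd h2 (by decide)

theorem P_nil_false (τ : Equiv.Perm α) (w : List Bool) (S : Finset α) :
    P τ [] (false :: w) S =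
      ∑ C ∈ S.powerset.filter (fun C => Inv τ C ∧ ty false C.card), P τ [] w (S \ C) +
      ∑ C ∈ S.powerset.filter (fun C => Inv τ C ∧ ty true C.card), P τ [] w (S \ C) := by
  simp only [P, List.nil_append, List.map_id', U, FL_append, FL_map_cons]

theorem P_nil_true (τ : Equiv.Perm α) (w : List Bool) (S : Finset α) :
    P τ [] (true :: w) S =
      ∑ B ∈ S.powerset.filter (fun B => Inv τ B ∧ ty true B.card),
        (P τ [] w (S \ B) +
          (∑ C ∈ (S \ B).powerset.filter (fun C => Inv τ C ∧ ty false C.card),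
            P τ [] w ((S \ B) \ C) +
          ∑ C ∈ (S \ B).powerset.filter (fun C => Inv τ C ∧ ty true C.card),
            P τ [] w ((S \ B) \ C))) := by
  have e1 : ∀ c : Bool, (U w).map (fun u => true :: c :: u) =
      ((U w).map (fun u => c :: u)).map (fun u => true :: u) := by
    intro c
    rw [List.map_map]
    rfl
  simp only [P, List.nil_append, List.map_id', U, FL_append]
  rw [e1, e1, FL_map_cons, FL_map_cons, FL_map_cons, ← sum_add_distrib, ← sum_add_distrib]
  simp only [FL_map_cons]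

/-- **Composition formula**: the sum of `F w` over all invariant partitions into the minimal
number of blocks. -/
theorem composition (τ : Equiv.Perm α) (w : List Bool) (S : Finset α) :
    ∑ P' ∈ parts τ S (wt w), F (hat τ) w P' = P τ [] w S := by
  induction w generalizing S with
  | nil =>
    have h1 : P τ [] [] S = if S = ∅ then 1 else 0 := by
      rw [P_nil, F_nil]
    rw [h1]
    by_cases hS : S = ∅
    · subst hS
      rw [if_pos rfl]
      have h2 : parts τ (∅ : Finset α) (wt []) = {∅} := by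
        ext P'
        rw [mem_parts, mem_singleton, wt_nil]
        constructor
        · intro h
          exact card_eq_zero.1 h.2.2
        · rintro rfl
          refine ⟨⟨by simp, by simp, by simp⟩, fun x => by simp, by simp⟩
      rw [h2, sum_singleton, F_nil, if_pos rfl]
    · rw [if_neg hS]
      apply sum_eq_zero
      intro P' hP'
      rw [mem_parts, wt_nil] at hP'
      exfalso
      apply hS
      have h3 := card_eq_zero.1 hP'.2.2
      subst h3
      rw [← hP'.1.uni_eq]
      rfl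
  | cons c w ih =>
    have h1 : ∑ P' ∈ parts τ S (wt (c :: w)), F (hat τ) (c :: w) P' =
        ∑ A ∈ S.powerset.filter (Inv τ), (parts τ A (wc c)).card * P τ [] w (S \ A) := by
      rw [wt_cons]
      have h2 : ∀ P' ∈ parts τ S (wc c + wt w), F (hat τ) (c :: w) P' =
          ∑ Q ∈ P'.powerset.filter (fun Q => Inv (hat τ) Q ∧ Q.card = wc c), F (hat τ) w (P' \ Q) := by
        intro P' hP'
        exact F_min _ _ _ _ (mem_parts.1 hP').2.2
      rw [sum_congr rfl h2, exch]
      apply sum_congr rfl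
      intro A _
      rw [ih]
    rw [h1]
    cases c with
    | true =>
      rw [P_nil_true]
      have h2 : ∀ A ∈ S.powerset.filter (Inv τ), (parts τ A (wc true)).card * P τ [] w (S \ A) =
          (A.powerset.filter fun X => Inv τ X ∧ ty true X.card).card * P τ [] w (S \ A) := by
        intro A hA
        rw [mem_filter] at hA
        show (parts τ A 2).card * _ = _
        rw [card_parts_two τ A hA.2]
      rw [sum_congr rfl h2, two_sets τ S (fun X => P τ [] w X)]
      apply sum_congr rfl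
      intro B _
      exact split_types τ (S \ B) (fun X => P τ [] w X)
    | false =>
      rw [P_nil_false]
      have h2 : ∀ A ∈ S.powerset.filter (Inv τ), (parts τ A (wc false)).card * P τ [] w (S \ A) =
          if A = ∅ then 0 else P τ [] w (S \ A) := by
        intro A hA
        rw [mem_filter] at hA
        show (parts τ A 1).card * _ = _
        rw [card_parts_one τ A hA.2]
        split_ifs <;> simp
      rw [sum_congr rfl h2]
      have h3 := split_types τ S (fun X => P τ [] w X)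
      have hempty : Inv τ (∅ : Finset α) := fun x => by simp
      have h4 : (∅ : Finset α) ∈ S.powerset.filter (Inv τ) := by
        rw [mem_filter]
        exact ⟨empty_mem_powerset _, hempty⟩
      rw [← add_sum_erase _ _ h4] at h3 ⊢
      rw [if_pos rfl, zero_add]
      simp only [sdiff_empty] at h3
      have h5 := Nat.add_left_cancel h3
      rw [← h5]
      apply sum_congr rfl
      intro A hA
      rw [if_neg (mem_erase.1 hA).1]

end Pool.Agent.V11176.Even
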