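import Pool.Agent.V11176.EvenC

/-!
# Chains of set partitions
-/

namespace Pool.Agent.V11176.Even

open Finset
open scoped Classical

/-! ### Transport of `F` -/

theorem F_map {α β : Type} (ι : α ↪ β) (τ : Equiv.Perm α) (τ' : Equiv.Perm β)
    (h : ∀ x, ι (τ x) = τ' (ι x)) (w : List Bool) (S : Finset α) :
    F τ' w (S.map ι) = F τ w S := by
  have hinv : ∀ A : Finset α, Inv τ' (A.map ι) ↔ Inv τ A := by
    intro A
    constructor
    · intro hA x
      have := hA (ι x)
      rw [← h, mem_map', mem_map'] at this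
      exact this
    · intro hA y
      constructor
      · intro hy
        obtain ⟨a, ha, hay⟩ := mem_map.1 hy
        have h1 : τ.symm a ∈ A := by
          rw [← hA, Equiv.apply_symm_apply]
          exact ha
        have h2 : τ' y = τ' (ι (τ.symm a)) := by
          rw [← h, Equiv.apply_symm_apply, hay]
        rw [τ'.injective h2]
        exact mem_map_of_mem ι h1
      · intro hy
        obtain ⟨a, ha, rfl⟩ := mem_map.1 hy
        rw [← h]
        exact mem_map_of_mem ι ((hA a).2 ha)
  induction w generalizing S with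
  | nil =>
    rw [F_nil, F_nil]
    simp only [map_eq_empty]
  | cons c w ih =>
    rw [F_cons, F_cons]
    symm
    refine sum_bij (fun A _ => A.map ι) ?_ ?_ ?_ ?_
    · intro A hA
      rw [mem_filter, mem_powerset] at hA
      rw [mem_filter, mem_powerset]
      refine ⟨map_subset_map.2 hA.1, (hinv A).2 hA.2.1, ?_⟩
      rw [card_map]
      exact hA.2.2
    · intro A _ B _ hAB
      exact map_injective ι hAB
    · intro B hB
      rw [mem_filter, mem_powerset] at hB
      obtain ⟨hB1, hB2, hB3⟩ := hB
      obtain ⟨A, hA, rfl⟩ := subset_map_iff.1 hB1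
      refine ⟨A, ?_, rfl⟩
      rw [mem_filter, mem_powerset]
      refine ⟨hA, (hinv A).1 hB2, ?_⟩
      rw [card_map] at hB3
      exact hB3
    · intro A hA
      rw [← ih, Finset.map_sdiff]

/-! ### Setoids -/

instance finSetoid (V : Type) [Finite V] : Finite (Setoid V) :=
  Finite.of_injective (fun s : Setoid V => (s : V → V → Prop)) (fun _ _ h => Setoid.eq_iff_rel_eq.2 h)

noncomputable instance fintypeSetoid (V : Type) [Finite V] : Fintype (Setoid V) := Fintype.ofFinite _

/-- induced permutation on the blocks -/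
def qperm {V : Type} (σ : Equiv.Perm V) (π : Setoid V) (h : Setoid.comap σ π = π) :
    Equiv.Perm (Quotient π) :=
  Quotient.congr σ (fun a b => by
    show π a b ↔ π (σ a) (σ b)
    rw [← Setoid.comap_rel, h])

theorem qperm_mk {V : Type} (σ : Equiv.Perm V) (π : Setoid V) (h : Setoid.comap σ π = π) (x : V) :
    qperm σ π h (Quotient.mk π x) = Quotient.mk π (σ x) := rfl

theorem card_comap {A B : Type} (f : A → B) (hf : Function.Surjective f) (s : Setoid B) :
    Nat.card (Quotient (Setoid.comap f s)) = Nat.card (Quotient s) := by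
  refine Nat.card_eq_of_bijective (Quotient.map' (s₁ := Setoid.comap f s) (s₂ := s) f
    (fun _ _ h => h)) ⟨?_, ?_⟩
  · intro a b
    induction a using Quotient.inductionOn' with
    | _ a =>
    induction b using Quotient.inductionOn' with
    | _ b =>
    intro h
    have h' : (Quotient.mk'' (f a) : Quotient s) = Quotient.mk'' (f b) := h
    have h'' : s (f a) (f b) := Quotient.exact' h'
    exact Quotient.sound' h''
  · intro b
    induction b using Quotient.inductionOn' with
    | _ b =>
      obtain ⟨a, rfl⟩ := hf b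
      exact ⟨Quotient.mk'' a, rfl⟩

theorem eq_of_le_of_card {V : Type} [Finite V] {π r : Setoid V} (h : π ≤ r)
    (hc : Nat.card (Quotient π) = Nat.card (Quotient r)) : π = r := by
  refine le_antisymm h ?_
  have hs : Function.Surjective (Setoid.map_of_le h) := by
    intro b
    induction b using Quotient.inductionOn' with
    | _ b => exact ⟨Quotient.mk'' b, rfl⟩
  have hb : Function.Bijective (Setoid.map_of_le h) :=
    hs.bijective_of_nat_card_le hc.le
  intro x y hxy
  have h1 : Setoid.map_of_le h (Quotient.mk'' x) = Setoid.map_of_le h (Quotient.mk'' y) :=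
    Quotient.sound' hxy
  exact Quotient.exact' (hb.1 h1)

theorem card_le_of_le {V : Type} [Finite V] {π r : Setoid V} (h : π ≤ r) :
    Nat.card (Quotient r) ≤ Nat.card (Quotient π) := by
  have hs : Function.Surjective (Setoid.map_of_le h) := by
    intro b
    induction b using Quotient.inductionOn' with
    | _ b => exact ⟨Quotient.mk'' b, rfl⟩
  exact Nat.card_le_card_of_surjective _ hs

/-- admissible invariant chains -/
def IsCh (k : ℕ) {V : Type} (σ : Equiv.Perm V) (C : Finset (Setoid V)) : Prop :=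
  IsChain (· ≤ ·) (C : Set (Setoid V)) ∧
    (∀ r ∈ C, ∃ j : ℕ, 1 ≤ j ∧ j ≤ k ∧ Nat.card (Quotient r) = 2 * j) ∧
    (∀ r ∈ C, Setoid.comap (⇑σ) r ∈ C)

noncomputable def G (k : ℕ) {V : Type} [Finite V] (σ : Equiv.Perm V) : ℤ :=
  ∑ C ∈ (univ : Finset (Finset (Setoid V))).filter (IsCh k σ), (-1 : ℤ) ^ (k + C.card)

/-- pull back of a partition of the blocks -/
def cemb {V : Type} (π : Setoid V) : Setoid (Quotient π) ↪ Setoid V :=
  ⟨Setoid.comap (Quotient.mk π), Setoid.comap_injective _ Quotient.mk_surjective⟩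

theorem cemb_rel {V : Type} (π : Setoid V) (s : Setoid (Quotient π)) (x y : V) :
    cemb π s x y ↔ s (Quotient.mk π x) (Quotient.mk π y) := Iff.rfl

theorem le_cemb {V : Type} (π : Setoid V) (s : Setoid (Quotient π)) : π ≤ cemb π s := by
  intro x y h
  rw [cemb_rel, Quotient.sound h]

theorem cemb_le {V : Type} (π : Setoid V) {s t : Setoid (Quotient π)} :
    cemb π s ≤ cemb π t ↔ s ≤ t := by
  constructor
  · intro h a b
    induction a using Quotient.inductionOn'
    induction b using Quotient.inductionOn'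
    intro hab
    exact h hab
  · intro h x y hxy
    exact h hxy

theorem exists_cemb {V : Type} {π r : Setoid V} (h : π ≤ r) : ∃ s, cemb π s = r := by
  refine ⟨Setoid.map r (Quotient.mk π), ?_⟩
  show Setoid.comap (Quotient.mk π) (Setoid.map r (Quotient.mk π)) = r
  apply Setoid.comap_map_of_ker_le
  intro x y hxy
  exact h (Quotient.exact hxy)

theorem card_cemb {V : Type} (π : Setoid V) (s : Setoid (Quotient π)) :
    Nat.card (Quotient (cemb π s)) = Nat.card (Quotient s) :=
  card_comap _ Quotient.mk_surjective s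

theorem comap_cemb {V : Type} (σ : Equiv.Perm V) (π : Setoid V) (h : Setoid.comap σ π = π)
    (s : Setoid (Quotient π)) :
    Setoid.comap σ (cemb π s) = cemb π (Setoid.comap (qperm σ π h) s) := by
  ext x y
  rfl

theorem IsCh.eq_of_card {k : ℕ} {V : Type} [Finite V] {σ : Equiv.Perm V} {C : Finset (Setoid V)}
    (hC : IsCh k σ C) {r s : Setoid V} (hr : r ∈ C) (hs : s ∈ C)
    (h : Nat.card (Quotient r) = Nat.card (Quotient s)) : r = s := by
  by_contra hne
  rcases hC.1 (mem_coe.2 hr) (mem_coe.2 hs) hne with h1 | h1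
  · exact hne (eq_of_le_of_card h1 h)
  · exact hne (eq_of_le_of_card h1 h.symm).symm

theorem G_rec (k : ℕ) {V : Type} [Finite V] (σ : Equiv.Perm V) :
    G (k + 1) σ + G k σ =
      ∑ π : {π : Setoid V // Setoid.comap σ π = π ∧ Nat.card (Quotient π) = 2 * (k + 1)},
        G k (qperm σ π.1 π.2.1) := by
  have hsplit : (univ : Finset (Finset (Setoid V))).filter (IsCh (k + 1) σ) =
      (univ : Finset (Finset (Setoid V))).filter (IsCh k σ) ∪
      (univ : Finset (Finset (Setoid V))).filter (fun C => IsCh (k + 1) σ C ∧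
        ∃ π ∈ C, Nat.card (Quotient π) = 2 * (k + 1)) := by
    ext C
    rw [mem_union, mem_filter, mem_filter, mem_filter]
    simp only [mem_univ, true_and]
    constructor
    · intro h
      by_cases h2 : ∃ π ∈ C, Nat.card (Quotient π) = 2 * (k + 1)
      · right; exact ⟨h, h2⟩
      · left
        refine ⟨h.1, ?_, h.2.2⟩
        intro r hr
        obtain ⟨j, hj1, hj2, hj3⟩ := h.2.1 r hr
        refine ⟨j, hj1, ?_, hj3⟩
        by_contra h3
        apply h2
        have : j = k + 1 := by omega
        subst this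
        exact ⟨r, hr, hj3⟩
    · rintro (h | h)
      · refine ⟨h.1, ?_, h.2.2⟩
        intro r hr
        obtain ⟨j, hj1, hj2, hj3⟩ := h.2.1 r hr
        exact ⟨j, hj1, by omega, hj3⟩
      · exact h.1
  have hdisj : Disjoint ((univ : Finset (Finset (Setoid V))).filter (IsCh k σ))
      ((univ : Finset (Finset (Setoid V))).filter (fun C => IsCh (k + 1) σ C ∧
        ∃ π ∈ C, Nat.card (Quotient π) = 2 * (k + 1))) := by
    rw [disjoint_left]
    intro C hC hC'
    rw [mem_filter] at hC hC'
    obtain ⟨π, hπ, hc⟩ := hC'.2.2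
    obtain ⟨j, hj1, hj2, hj3⟩ := hC.2.2.1 π hπ
    omega
  have h1 : G (k + 1) σ + G k σ =
      ∑ C ∈ (univ : Finset (Finset (Setoid V))).filter (fun C => IsCh (k + 1) σ C ∧
        ∃ π ∈ C, Nat.card (Quotient π) = 2 * (k + 1)), (-1 : ℤ) ^ (k + 1 + C.card) := by
    rw [G, hsplit, sum_union hdisj, G]
    have : ∑ C ∈ (univ : Finset (Finset (Setoid V))).filter (IsCh k σ), (-1 : ℤ) ^ (k + 1 + C.card) =
        - ∑ C ∈ (univ : Finset (Finset (Setoid V))).filter (IsCh k σ), (-1 : ℤ) ^ (k + C.card) := by
      rw [← sum_neg_distrib]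
      apply sum_congr rfl
      intro C _
      ring
    rw [this]
    ring
  rw [h1]
  have h2 : ∀ π : {π : Setoid V // Setoid.comap σ π = π ∧ Nat.card (Quotient π) = 2 * (k + 1)},
      G k (qperm σ π.1 π.2.1) =
      ∑ C ∈ (univ : Finset (Finset (Setoid (Quotient π.1)))).filter (IsCh k (qperm σ π.1 π.2.1)),
        (-1 : ℤ) ^ (k + C.card) := fun π => rfl
  rw [sum_congr rfl (fun π _ => h2 π), sum_sigma']
  symm
  have hnot : ∀ (π : {π : Setoid V // Setoid.comap σ π = π ∧ Nat.card (Quotient π) = 2 * (k + 1)})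
      (C : Finset (Setoid (Quotient π.1))), IsCh k (qperm σ π.1 π.2.1) C →
      ∀ r ∈ C.map (cemb π.1), Nat.card (Quotient r) ≠ 2 * (k + 1) := by
    intro π C hC r hr
    obtain ⟨s, hs, rfl⟩ := mem_map.1 hr
    rw [card_cemb]
    obtain ⟨j, hj1, hj2, hj3⟩ := hC.2.1 s hs
    omega
  refine sum_bij (fun x _ => insert x.1.1 (x.2.map (cemb x.1.1))) ?_ ?_ ?_ ?_
  · rintro ⟨π, C⟩ hx
    rw [mem_sigma, mem_filter] at hx
    obtain ⟨-, -, hC⟩ := hx
    simp only at hC
    rw [mem_filter]
    refine ⟨mem_univ _, ⟨?_, ?_, ?_⟩, π.1, mem_insert_self _ _, π.2.2⟩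
    · rw [coe_insert, coe_map]
      apply IsChain.insert
      · rintro _ ⟨s, hs, rfl⟩ _ ⟨t, ht, rfl⟩ hne
        have hst : s ≠ t := fun h => hne (by rw [h])
        rcases hC.1 hs ht hst with h | h
        · left; exact (cemb_le _).2 h
        · right; exact (cemb_le _).2 h
      · rintro _ ⟨s, hs, rfl⟩ _
        left
        exact le_cemb _ _
    · intro r hr
      rw [mem_insert] at hr
      rcases hr with rfl | hr
      · exact ⟨k + 1, by omega, le_rfl, π.2.2⟩
      · obtain ⟨s, hs, rfl⟩ := mem_map.1 hr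
        obtain ⟨j, hj1, hj2, hj3⟩ := hC.2.1 s hs
        exact ⟨j, hj1, by omega, by rw [card_cemb]; exact hj3⟩
    · intro r hr
      rw [mem_insert] at hr
      rcases hr with rfl | hr
      · rw [π.2.1]
        exact mem_insert_self _ _
      · obtain ⟨s, hs, rfl⟩ := mem_map.1 hr
        rw [comap_cemb σ π.1 π.2.1]
        exact mem_insert_of_mem (mem_map_of_mem _ (hC.2.2 s hs))
  · rintro ⟨π, C⟩ hx ⟨π', C'⟩ hx' heq
    rw [mem_sigma, mem_filter] at hx hx'
    obtain ⟨-, -, hC⟩ := hx
    obtain ⟨-, -, hC'⟩ := hx'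
    simp only at hC hC' heq
    have hππ : π = π' := by
      have h3 : π.1 ∈ insert π'.1 (C'.map (cemb π'.1)) := by
        rw [← heq]
        exact mem_insert_self _ _
      rw [mem_insert] at h3
      rcases h3 with h3 | h3
      · exact Subtype.ext h3
      · exact absurd π.2.2 (hnot π' C' hC' _ h3)
    subst hππ
    congr 1
    have h3 : π.1 ∉ C.map (cemb π.1) := fun h => hnot π C hC _ h π.2.2
    have h4 : π.1 ∉ C'.map (cemb π.1) := fun h => hnot π C' hC' _ h π.2.2
    have h5 : C.map (cemb π.1) = C'.map (cemb π.1) := by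
      rw [← erase_insert h3, ← erase_insert h4, heq]
    exact map_injective _ h5
  · intro C hC
    rw [mem_filter] at hC
    obtain ⟨-, hC, π, hπ, hπc⟩ := hC
    have hfix : Setoid.comap σ π = π := by
      apply hC.eq_of_card (hC.2.2 π hπ) hπ
      exact card_comap _ σ.surjective π
    have hge : ∀ r ∈ C, π ≤ r := by
      intro r hr
      by_cases hne : π = r
      · exact le_of_eq hne
      rcases hC.1 (mem_coe.2 hπ) (mem_coe.2 hr) hne with h | h
      · exact h
      · exfalso
        apply hne
        obtain ⟨j, hj1, hj2, hj3⟩ := hC.2.1 r hr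
        have h5 := card_le_of_le h
        exact (eq_of_le_of_card h (by omega)).symm
    have hmem : ∀ r ∈ C.erase π, ∃ s, cemb π s = r := by
      intro r hr
      exact exists_cemb (hge r (mem_of_mem_erase hr))
    let C' : Finset (Setoid (Quotient π)) := univ.filter fun s => cemb π s ∈ C.erase π
    have hC'map : C'.map (cemb π) = C.erase π := by
      ext r
      rw [mem_map]
      constructor
      · rintro ⟨s, hs, rfl⟩
        exact (mem_filter.1 hs).2
      · intro hr
        obtain ⟨s, rfl⟩ := hmem r hr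
        exact ⟨s, mem_filter.2 ⟨mem_univ _, hr⟩, rfl⟩
    refine ⟨⟨⟨π, hfix, hπc⟩, C'⟩, ?_, ?_⟩
    · rw [mem_sigma, mem_filter]
      refine ⟨mem_univ _, mem_univ _, ?_, ?_, ?_⟩
      · intro s hs t ht hst
        have hs' : cemb π s ∈ C := mem_of_mem_erase (mem_filter.1 (mem_coe.1 hs)).2
        have ht' : cemb π t ∈ C := mem_of_mem_erase (mem_filter.1 (mem_coe.1 ht)).2
        have hne : cemb π s ≠ cemb π t := fun h => hst ((cemb π).injective h)
        rcases hC.1 (mem_coe.2 hs') (mem_coe.2 ht') hne with h | h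
        · left; exact (cemb_le _).1 h
        · right; exact (cemb_le _).1 h
      · intro s hs
        have hs' := (mem_filter.1 hs).2
        rw [mem_erase] at hs'
        obtain ⟨j, hj1, hj2, hj3⟩ := hC.2.1 _ hs'.2
        refine ⟨j, hj1, ?_, by rw [← card_cemb]; exact hj3⟩
        by_contra h
        have : j = k + 1 := by omega
        subst this
        exact hs'.1 (hC.eq_of_card hs'.2 hπ (hj3.trans hπc.symm))
      · intro s hs
        have hs' := (mem_filter.1 hs).2
        rw [mem_erase] at hs'
        refine mem_filter.2 ⟨mem_univ _, ?_⟩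
        rw [← comap_cemb σ π hfix, mem_erase]
        refine ⟨?_, hC.2.2 _ hs'.2⟩
        intro h
        apply hs'.1
        apply Setoid.comap_injective σ σ.surjective
        rw [h, hfix]
    · simp only
      rw [hC'map, insert_erase hπ]
  · rintro ⟨π, C⟩ hx
    rw [mem_sigma, mem_filter] at hx
    obtain ⟨-, -, hC⟩ := hx
    simp only at hC ⊢
    have h3 : π.1 ∉ C.map (cemb π.1) := fun h => hnot π C hC _ h π.2.2
    rw [card_insert_of_notMem h3, card_map]
    ring

end Pool.Agent.V11176.Even
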