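import Pool.Agent.V11176.EvenD

/-!
# The main identity
-/

namespace Pool.Agent.V11176.Even

open Finset
open scoped Classical

/-- blocks as sets -/
noncomputable def bemb {V : Type} [Fintype V] (π : Setoid V) : Quotient π ↪ Finset V :=
  ⟨fun q => univ.filter (fun y => Quotient.mk π y = q), by
    intro a b
    induction a using Quotient.inductionOn' with
    | _ a =>
    intro h
    simp only at h
    have h1 : a ∈ univ.filter (fun y => Quotient.mk π y = Quotient.mk'' a) := by
      rw [mem_filter]
      exact ⟨mem_univ _, rfl⟩
    rw [h, mem_filter] at h1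
    exact h1.2⟩

theorem mem_bemb {V : Type} [Fintype V] {π : Setoid V} {q : Quotient π} {y : V} :
    y ∈ bemb π q ↔ Quotient.mk π y = q := by
  unfold bemb
  simp

theorem bemb_perm {V : Type} [Fintype V] (σ : Equiv.Perm V) (π : Setoid V)
    (h : Setoid.comap σ π = π) (q : Quotient π) :
    bemb π (qperm σ π h q) = hat σ (bemb π q) := by
  ext y
  rw [mem_bemb, mem_hat, mem_bemb]
  constructor
  · intro h1
    apply (qperm σ π h).injective
    rw [qperm_mk, Equiv.apply_symm_apply, h1]
  · intro h1
    rw [← h1, qperm_mk, Equiv.apply_symm_apply]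

theorem sum_setoid {V : Type} [Fintype V] (σ : Equiv.Perm V) (m : ℕ) (w : List Bool) :
    ∑ π : {π : Setoid V // Setoid.comap σ π = π ∧ Nat.card (Quotient π) = m},
      F (qperm σ π.1 π.2.1) w univ = ∑ P ∈ parts σ univ m, F (hat σ) w P := by
  refine sum_bij (fun π _ => univ.map (bemb π.1)) ?_ ?_ ?_ ?_
  · rintro ⟨π, hπ, hm⟩ -
    simp only
    rw [mem_parts]
    refine ⟨⟨?_, ?_, ?_⟩, ?_, ?_⟩
    · intro h
      obtain ⟨q, -, hq⟩ := mem_map.1 h
      obtain ⟨x, rfl⟩ := Quotient.exists_rep q
      have : x ∈ bemb π (Quotient.mk π x) := mem_bemb.2 rfl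
      rw [hq] at this
      exact absurd this (notMem_empty _)
    · intro A hA B hB hne
      obtain ⟨a, -, rfl⟩ := mem_map.1 hA
      obtain ⟨b, -, rfl⟩ := mem_map.1 hB
      rw [disjoint_left]
      intro y hy hy'
      rw [mem_bemb] at hy hy'
      exact hne (by rw [← hy, ← hy'])
    · intro x
      constructor
      · intro _
        exact ⟨bemb π (Quotient.mk π x), mem_map_of_mem _ (mem_univ _), mem_bemb.2 rfl⟩
      · intro _
        exact mem_univ _
    · intro A
      constructor
      · intro h
        obtain ⟨q, -, hq⟩ := mem_map.1 h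
        have h2 : hat σ A = hat σ (bemb π ((qperm σ π hπ).symm q)) := by
          rw [← bemb_perm σ π hπ, Equiv.apply_symm_apply, hq]
        rw [(hat σ).injective h2]
        exact mem_map_of_mem _ (mem_univ _)
      · intro h
        obtain ⟨q, -, rfl⟩ := mem_map.1 h
        rw [← bemb_perm σ π hπ]
        exact mem_map_of_mem _ (mem_univ _)
    · rw [card_map, card_univ, ← Nat.card_eq_fintype_card, hm]
  · rintro ⟨π, hπ, hm⟩ - ⟨π', hπ', hm'⟩ - h
    simp only at h
    apply Subtype.ext
    simp only
    have key : ∀ (ρ : Setoid V) (x y : V), ρ x y ↔ ∃ A ∈ univ.map (bemb ρ), x ∈ A ∧ y ∈ A := by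
      intro ρ x y
      constructor
      · intro hxy
        refine ⟨bemb ρ (Quotient.mk ρ y), mem_map_of_mem _ (mem_univ _), mem_bemb.2 ?_, mem_bemb.2 rfl⟩
        exact Quotient.sound hxy
      · rintro ⟨A, hA, hx, hy⟩
        obtain ⟨q, -, rfl⟩ := mem_map.1 hA
        rw [mem_bemb] at hx hy
        exact Quotient.exact (hx.trans hy.symm)
    ext x y
    rw [key π, key π', h]
  · intro P hP
    rw [mem_parts] at hP
    obtain ⟨⟨hP1, hP2, hP3⟩, hP4, hP5⟩ := hP
    let π : Setoid V := 
      { r := fun x y => ∀ A ∈ P, x ∈ A ↔ y ∈ A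
        iseqv := ⟨fun x A _ => Iff.rfl, fun h A hA => (h A hA).symm,
          fun h h' A hA => (h A hA).trans (h' A hA)⟩ }
    have hπrel : ∀ x y, π x y ↔ ∀ A ∈ P, x ∈ A ↔ y ∈ A := fun x y => Iff.rfl
    have hblock : ∀ A ∈ P, ∀ x ∈ A, bemb π (Quotient.mk π x) = A := by
      intro A hA x hx
      ext y
      rw [mem_bemb]
      constructor
      · intro h
        have h1 : π y x := Quotient.exact h
        exact (h1 A hA).2 hx
      · intro hy
        apply Quotient.sound
        show π y x
        intro B hB
        constructor
        · intro h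
          have : A = B := by
            by_contra hne
            exact disjoint_left.1 (hP2 A hA B hB hne) hy h
          rw [← this]
          exact hx
        · intro h
          have : A = B := by
            by_contra hne
            exact disjoint_left.1 (hP2 A hA B hB hne) hx h
          rw [← this]
          exact hy
    have hmap : univ.map (bemb π) = P := by
      ext A
      rw [mem_map]
      constructor
      · rintro ⟨q, -, rfl⟩
        obtain ⟨x, rfl⟩ := Quotient.exists_rep q
        obtain ⟨A, hA, hx⟩ := (hP3 x).1 (mem_univ _)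
        show bemb π (Quotient.mk π x) ∈ P
        rw [hblock A hA x hx]
        exact hA
      · intro hA
        obtain ⟨x, hx⟩ := nonempty_iff_ne_empty.2 (fun h => hP1 (h ▸ hA) : A ≠ ∅)
        exact ⟨Quotient.mk π x, mem_univ _, hblock A hA x hx⟩
    have hfix : Setoid.comap σ π = π := by
      ext x y
      show (∀ A ∈ P, σ x ∈ A ↔ σ y ∈ A) ↔ (∀ A ∈ P, x ∈ A ↔ y ∈ A)
      constructor
      · intro h A hA
        have := h (hat σ A) ((hP4 A).2 hA)
        rw [apply_mem_hat, apply_mem_hat] at this
        exact this
      · intro h A hA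
        have hB : (hat σ).symm A ∈ P := by
          rw [← hP4, Equiv.apply_symm_apply]
          exact hA
        have := h _ hB
        rw [← apply_mem_hat (τ := σ) (x := x), ← apply_mem_hat (τ := σ) (x := y),
          Equiv.apply_symm_apply] at this
        exact this
    have hcard : Nat.card (Quotient π) = m := by
      rw [Nat.card_eq_fintype_card, ← card_univ, ← card_map (bemb π), hmap, hP5]
    exact ⟨⟨π, hfix, hcard⟩, mem_univ _, hmap⟩
  · rintro ⟨π, hπ, hm⟩ -
    exact (F_map (bemb π) _ (hat σ) (bemb_perm σ π hπ) w univ).symm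

theorem sum_list_comm {ι : Type} [Fintype ι] {β : Type} (L : List β) (f : ι → β → ℕ) :
    ∑ i, (L.map (f i)).sum = (L.map fun b => ∑ i, f i b).sum := by
  induction L with
  | nil => simp
  | cons b L ih => simp [sum_add_distrib, ih]

/-- **Main identity**: the alternating sum over invariant chains is a nonnegative combination
of the counting functions `F`. -/
theorem main (k : ℕ) : ∀ (V : Type) [Fintype V] (σ : Equiv.Perm V), Even (Fintype.card V) →
    0 < Fintype.card V → G k σ = (PL σ (st k) (univ : Finset V) : ℤ) := by
  induction k with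
  | zero =>
    intro V _ σ hE hpos
    have h1 : (univ : Finset (Finset (Setoid V))).filter (IsCh 0 σ) = {∅} := by
      ext C
      rw [mem_filter, mem_singleton]
      constructor
      · rintro ⟨-, -, h, -⟩
        rw [eq_empty_iff_forall_notMem]
        intro r hr
        obtain ⟨j, hj1, hj2, -⟩ := h r hr
        omega
      · rintro rfl
        refine ⟨mem_univ _, ?_, ?_, ?_⟩
        · rw [coe_empty]
          exact Set.pairwise_empty _
        · intro r hr
          exact absurd hr (notMem_empty _)
        · intro r hr
          exact absurd hr (notMem_empty _)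
    rw [G, h1, sum_singleton, card_empty, st, PL_cons, PL_nil, P_nil, F_cons]
    have h2 : ∑ A ∈ (univ : Finset V).powerset.filter (fun A => Inv σ A ∧ ty true A.card),
        F σ [] (univ \ A) = 1 := by
      have h3 : (univ : Finset V) ∈ (univ : Finset V).powerset.filter
          (fun A => Inv σ A ∧ ty true A.card) := by
        rw [mem_filter]
        refine ⟨by simp, fun x => by simp, ?_⟩
        rw [card_univ]
        exact ⟨hpos, hE⟩
      rw [sum_eq_single_of_mem _ h3]
      · rw [F_nil, sdiff_self, if_pos]
        rfl
      · intro A _ hA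
        rw [F_nil, if_neg]
        intro h
        apply hA
        rw [sdiff_eq_empty_iff_subset] at h
        exact univ_subset_iff.1 h
    rw [h2]
    norm_num
  | succ k ih =>
    intro V _ σ hE hpos
    have h1 := G_rec k σ
    have h2 : ∀ π : {π : Setoid V // Setoid.comap σ π = π ∧ Nat.card (Quotient π) = 2 * (k + 1)},
        G k (qperm σ π.1 π.2.1) =
        (((st k).map fun p => F (qperm σ π.1 π.2.1) (p.1 ++ p.2) univ).sum : ℕ) := by
      rintro ⟨π, hπ, hc⟩
      have hc' : Fintype.card (Quotient π) = 2 * (k + 1) := by
        rw [← Nat.card_eq_fintype_card, hc]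
      simp only
      rw [ih (Quotient π) (qperm σ π hπ) (by rw [hc']; exact even_two_mul _) (by omega)]
      congr 1
      unfold PL
      congr 1
      apply List.map_congr_left
      intro p hp
      apply P_min
      rw [card_univ, hc', wt_st hp]
    have h3 : ∑ π : {π : Setoid V // Setoid.comap σ π = π ∧ Nat.card (Quotient π) = 2 * (k + 1)},
        G k (qperm σ π.1 π.2.1) = ((PL σ (st k) univ + PL σ (st (k + 1)) univ : ℕ) : ℤ) := by
      rw [sum_congr rfl (fun π _ => h2 π), ← Nat.cast_sum]
      congr 1
      rw [sum_list_comm, ← st_succ σ k univ (by rw [card_univ]; exact hE)]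
      congr 1
      apply List.map_congr_left
      intro p hp
      rw [sum_setoid, ← composition, wt_st hp]
    rw [h3, ih V σ hE hpos] at h1
    push_cast at h1
    linarith

end Pool.Agent.V11176.Even
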