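import Pool.Agent.V11176.EvenE

/-!
# Expansion in Young permutation characters
-/

namespace Pool.Agent.V11176.Even

open Finset
open scoped Classical

/-- decompositions with prescribed sizes -/
noncomputable def Fs {α : Type} (τ : Equiv.Perm α) : List ℕ → Finset α → ℕ
  | [], S => if S = ∅ then 1 else 0
  | m :: s, S => ∑ A ∈ S.powerset.filter (fun A => Inv τ A ∧ A.card = m), Fs τ s (S \ A)

theorem Fs_nil {α : Type} (τ : Equiv.Perm α) (S : Finset α) :
    Fs τ [] S = if S = ∅ then 1 else 0 := rfl

theorem Fs_cons {α : Type} (τ : Equiv.Perm α) (m : ℕ) (s : List ℕ) (S : Finset α) :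
    Fs τ (m :: s) S =
      ∑ A ∈ S.powerset.filter (fun A => Inv τ A ∧ A.card = m), Fs τ s (S \ A) := rfl

theorem Fs_swap {α : Type} (τ : Equiv.Perm α) (a b : ℕ) (s : List ℕ) (S : Finset α) :
    Fs τ (a :: b :: s) S = Fs τ (b :: a :: s) S := by
  simp only [Fs_cons]
  rw [sum_sigma', sum_sigma']
  refine sum_nbij' (fun x => ⟨x.2, x.1⟩) (fun x => ⟨x.2, x.1⟩) ?_ ?_ ?_ ?_ ?_
  · rintro ⟨A, B⟩ h
    simp only [mem_sigma, mem_filter, mem_powerset] at h ⊢
    obtain ⟨⟨hA1, hA2, hA3⟩, hB1, hB2, hB3⟩ := h
    refine ⟨⟨hB1.trans sdiff_subset, hB2, hB3⟩, ?_, hA2, hA3⟩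
    intro x hx
    rw [mem_sdiff]
    exact ⟨hA1 hx, fun h => (mem_sdiff.1 (hB1 h)).2 hx⟩
  · rintro ⟨A, B⟩ h
    simp only [mem_sigma, mem_filter, mem_powerset] at h ⊢
    obtain ⟨⟨hA1, hA2, hA3⟩, hB1, hB2, hB3⟩ := h
    refine ⟨⟨hB1.trans sdiff_subset, hB2, hB3⟩, ?_, hA2, hA3⟩
    intro x hx
    rw [mem_sdiff]
    exact ⟨hA1 hx, fun h => (mem_sdiff.1 (hB1 h)).2 hx⟩
  · rintro ⟨A, B⟩ _
    rfl
  · rintro ⟨A, B⟩ _
    rfl
  · rintro ⟨A, B⟩ _
    simp only
    congr 1
    ext x
    simp only [mem_sdiff]
    tauto

theorem Fs_perm {α : Type} (τ : Equiv.Perm α) {s s' : List ℕ} (h : s.Perm s') :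
    ∀ S : Finset α, Fs τ s S = Fs τ s' S := by
  induction h with
  | nil => intro S; rfl
  | cons a _ ih =>
    intro S
    rw [Fs_cons, Fs_cons]
    exact sum_congr rfl fun A _ => ih _
  | swap a b l => intro S; exact Fs_swap τ _ _ _ S
  | trans _ _ ih1 ih2 => intro S; rw [ih1, ih2]

/-- all size vectors compatible with a word -/
noncomputable def comps : List Bool → ℕ → List (List ℕ)
  | [], n => if n = 0 then [[]] else []
  | c :: w, n => ((List.range (n + 1)).filter (fun m => ty c m)).flatMap fun m =>
      (comps w (n - m)).map (fun s => m :: s)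

theorem comps_spec {w : List Bool} {n : ℕ} {s : List ℕ} (h : s ∈ comps w n) :
    s.sum = n ∧ ∀ m ∈ s, 0 < m := by
  induction w generalizing n s with
  | nil =>
    rw [comps] at h
    split_ifs at h with hn
    · rw [List.mem_singleton] at h
      subst h
      simp [hn]
    · exact absurd h List.not_mem_nil
  | cons c w ih =>
    rw [comps, List.mem_flatMap] at h
    obtain ⟨m, hm, h⟩ := h
    rw [List.mem_filter, List.mem_range] at hm
    rw [List.mem_map] at h
    obtain ⟨s', hs', rfl⟩ := h
    obtain ⟨h1, h2⟩ := ih hs'
    have hty : ty c m := by simpa using hm.2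
    have hm0 : 0 < m := by
      have h3 := (ty_wc hty).1
      have h4 : 0 < wc c := by cases c <;> decide
      omega
    refine ⟨?_, ?_⟩
    · rw [List.sum_cons, h1]
      omega
    · intro x hx
      rw [List.mem_cons] at hx
      rcases hx with rfl | hx
      · exact hm0
      · exact h2 x hx

theorem sum_fiber {α : Type} (S : Finset α) (τ : Equiv.Perm α) (c : Bool) (Φ : Finset α → ℕ) :
    ∑ A ∈ S.powerset.filter (fun A => Inv τ A ∧ ty c A.card), Φ A =
    (((List.range (S.card + 1)).filter (fun m => ty c m)).map fun m =>
      ∑ A ∈ S.powerset.filter (fun A => Inv τ A ∧ A.card = m), Φ A).sum := by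
  have h1 : (((List.range (S.card + 1)).filter (fun m => ty c m)).map fun m =>
      ∑ A ∈ S.powerset.filter (fun A => Inv τ A ∧ A.card = m), Φ A).sum =
      ∑ m ∈ (range (S.card + 1)).filter (fun m => ty c m),
        ∑ A ∈ S.powerset.filter (fun A => Inv τ A ∧ A.card = m), Φ A := by
    rw [← List.sum_toFinset]
    · apply sum_congr _ (fun _ _ => rfl)
      ext m
      simp
    · exact List.Nodup.filter _ List.nodup_range
  rw [h1]
  have h2 : ∀ A ∈ S.powerset.filter (fun A => Inv τ A ∧ ty c A.card),
      A.card ∈ (range (S.card + 1)).filter (fun m => ty c m) := by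
    intro A hA
    rw [mem_filter, mem_powerset] at hA
    rw [mem_filter, mem_range]
    have := card_le_card hA.1
    exact ⟨by omega, hA.2.2⟩
  rw [← sum_fiberwise_of_maps_to h2]
  apply sum_congr rfl
  intro m hm
  rw [mem_filter] at hm
  apply sum_congr _ (fun _ _ => rfl)
  ext A
  simp only [mem_filter]
  constructor
  · rintro ⟨⟨h3, h4, h5⟩, h6⟩
    exact ⟨h3, h4, h6⟩
  · rintro ⟨h3, h4, h6⟩
    exact ⟨⟨h3, h4, by rw [h6]; exact hm.2⟩, h6⟩

theorem F_comps {α : Type} (τ : Equiv.Perm α) (w : List Bool) (S : Finset α) :
    F τ w S = ((comps w S.card).map fun s => Fs τ s S).sum := by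
  induction w generalizing S with
  | nil =>
    rw [F_nil, comps]
    by_cases h : S = ∅
    · subst h
      simp [Fs_nil]
    · rw [if_neg h, if_neg (fun h' => h (card_eq_zero.1 h'))]
      rfl
  | cons c w ih =>
    rw [F_cons, sum_fiber, comps]
    generalize (List.range (S.card + 1)).filter (fun m => ty c m) = L
    induction L with
    | nil => rfl
    | cons m L ihL =>
      rw [List.map_cons, List.sum_cons, ihL, List.flatMap_cons, List.map_append, List.sum_append,
        List.map_map]
      congr 1
      have h1 : ∀ A ∈ S.powerset.filter (fun A => Inv τ A ∧ A.card = m),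
          F τ w (S \ A) = ((comps w (S.card - m)).map fun s => Fs τ s (S \ A)).sum := by
        intro A hA
        rw [mem_filter, mem_powerset] at hA
        rw [ih, card_sdiff_of_subset hA.1, hA.2.2]
      rw [sum_congr rfl h1]
      generalize comps w (S.card - m) = M
      induction M with
      | nil => simp
      | cons s M ihM =>
        simp only [List.map_cons, List.sum_cons, sum_add_distrib]
        rw [ihM]
        rfl

/-- functions describing decompositions with prescribed sizes -/
noncomputable def T {V : Type} [Fintype V] (τ : Equiv.Perm V) (s : List ℕ) (S : Finset V) :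
    Finset (V → ℕ) :=
  (Fintype.piFinset fun _ => range (s.length + 1)).filter fun f =>
    (∀ x, f (τ x) = f x) ∧ (∀ x, f x = 0 ↔ x ∉ S) ∧
      ∀ i (hi : i < s.length), (univ.filter fun x => f x = i + 1).card = s[i]

theorem mem_T {V : Type} [Fintype V] {τ : Equiv.Perm V} {s : List ℕ} {S : Finset V} {f : V → ℕ} :
    f ∈ T τ s S ↔ (∀ x, f x ≤ s.length) ∧ (∀ x, f (τ x) = f x) ∧ (∀ x, f x = 0 ↔ x ∉ S) ∧
      ∀ i (hi : i < s.length), (univ.filter fun x => f x = i + 1).card = s[i] := by
  unfold T
  rw [mem_filter, Fintype.mem_piFinset]
  simp only [mem_range, Nat.lt_succ_iff]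

theorem card_T {V : Type} [Fintype V] (τ : Equiv.Perm V) (s : List ℕ) (S : Finset V) :
    (T τ s S).card = Fs τ s S := by
  induction s generalizing S with
  | nil =>
    rw [Fs_nil]
    by_cases hS : S = ∅
    · subst hS
      rw [if_pos rfl, card_eq_one]
      refine ⟨fun _ => 0, ?_⟩
      ext f
      rw [mem_T, mem_singleton]
      constructor
      · intro h
        funext x
        have := h.1 x
        simpa using this
      · rintro rfl
        simp
    · rw [if_neg hS, card_eq_zero, eq_empty_iff_forall_notMem]
      intro f hf
      rw [mem_T] at hf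
      obtain ⟨x, hx⟩ := nonempty_iff_ne_empty.2 hS
      have h1 := hf.1 x
      rw [List.length_nil, Nat.le_zero] at h1
      exact ((hf.2.2.1 x).1 h1) hx
  | cons m s ih =>
    rw [Fs_cons]
    have hmaps : ∀ f ∈ T τ (m :: s) S, (univ.filter fun x => f x = 1) ∈
        S.powerset.filter (fun A => Inv τ A ∧ A.card = m) := by
      intro f hf
      rw [mem_T] at hf
      obtain ⟨h1, h2, h3, h4⟩ := hf
      rw [mem_filter, mem_powerset]
      refine ⟨?_, ?_, ?_⟩
      · intro x hx
        rw [mem_filter] at hx
        by_contra h
        have := (h3 x).2 h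
        omega
      · intro x
        rw [mem_filter, mem_filter, h2]
        simp
      · have := h4 0 (by simp)
        simpa using this
    rw [card_eq_sum_card_fiberwise hmaps]
    apply sum_congr rfl
    intro A hA
    rw [mem_filter, mem_powerset] at hA
    obtain ⟨hA1, hA2, hA3⟩ := hA
    rw [← ih]
    refine card_nbij' (fun f x => f x - 1)
      (fun g x => if x ∈ A then 1 else if g x = 0 then 0 else g x + 1) ?_ ?_ ?_ ?_
    · intro f hf
      rw [mem_coe, mem_filter, mem_T] at hf
      obtain ⟨⟨h1, h2, h3, h4⟩, h5⟩ := hf
      have hA' : ∀ x, x ∈ A ↔ f x = 1 := by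
        intro x
        rw [← h5, mem_filter]
        simp
      rw [mem_coe, mem_T]
      beta_reduce
      refine ⟨?_, ?_, ?_, ?_⟩
      · intro x
        have := h1 x
        rw [List.length_cons] at this
        omega
      · intro x
        simp only [h2 x]
      · intro x
        rw [mem_sdiff, hA' x]
        have := h3 x
        constructor
        · intro h
          by_cases h0 : f x = 0
          · exact fun h' => (this.1 h0) h'.1
          · have : f x = 1 := by omega
            exact fun h' => h'.2 this
        · intro h
          by_contra h'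
          apply h
          refine ⟨?_, by omega⟩
          by_contra h''
          have := this.2 h''
          omega
      · intro i hi
        have h6 := h4 (i + 1) (by rw [List.length_cons]; omega)
        rw [List.getElem_cons_succ] at h6
        rw [← h6]
        congr 1
        ext x
        rw [mem_filter, mem_filter]
        constructor
        · rintro ⟨h7, h8⟩
          exact ⟨h7, by omega⟩
        · rintro ⟨h7, h8⟩
          exact ⟨h7, by omega⟩
    · intro g hg
      rw [mem_coe, mem_T] at hg
      obtain ⟨h1, h2, h3, h4⟩ := hg
      rw [mem_coe, mem_filter, mem_T]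
      have hgA : ∀ x ∈ A, g x = 0 := by
        intro x hx
        rw [h3, mem_sdiff]
        exact fun h => h.2 hx
      refine ⟨⟨?_, ?_, ?_, ?_⟩, ?_⟩
      · intro x
        simp only
        rw [List.length_cons]
        have := h1 x
        split_ifs <;> omega
      · intro x
        simp only [h2 x, hA2 x]
      · intro x
        simp only
        by_cases hx : x ∈ A
        · rw [if_pos hx]
          exact ⟨fun h => absurd h one_ne_zero, fun h => absurd (hA1 hx) h⟩
        · rw [if_neg hx]
          have h5 := h3 x
          rw [mem_sdiff] at h5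
          by_cases h0 : g x = 0
          · rw [if_pos h0]
            have h6 := h5.1 h0
            exact ⟨fun _ h7 => h6 ⟨h7, hx⟩, fun _ => rfl⟩
          · rw [if_neg h0]
            constructor
            · intro h
              omega
            · intro h
              exfalso
              apply h0
              rw [h5]
              exact fun h' => h h'.1
      · intro i hi
        rcases i with _ | i
        · rw [List.getElem_cons_zero, ← hA3]
          congr 1
          ext x
          rw [mem_filter]
          simp only [mem_univ, true_and, zero_add]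
          constructor
          · intro h
            by_contra hx
            rw [if_neg hx] at h
            split_ifs at h with h0
            omega
          · intro hx
            rw [if_pos hx]
        · rw [List.getElem_cons_succ]
          rw [List.length_cons] at hi
          rw [← h4 i (by omega)]
          congr 1
          ext x
          rw [mem_filter, mem_filter]
          simp only [mem_univ, true_and]
          constructor
          · intro h
            split_ifs at h with h5 h6
            all_goals omega
          · intro h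
            have hx : x ∉ A := fun hx => by
              have := hgA x hx
              omega
            rw [if_neg hx, if_neg (by omega), h]
      · ext x
        rw [mem_filter]
        simp only [mem_univ, true_and]
        constructor
        · intro h
          by_contra hx
          rw [if_neg hx] at h
          split_ifs at h with h0
          omega
        · intro hx
          rw [if_pos hx]
    · intro f hf
      rw [mem_coe, mem_filter, mem_T] at hf
      obtain ⟨⟨h1, h2, h3, h4⟩, h5⟩ := hf
      have hA' : ∀ x, x ∈ A ↔ f x = 1 := by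
        intro x
        rw [← h5, mem_filter]
        simp
      funext x
      simp only
      by_cases hx : x ∈ A
      · rw [if_pos hx, (hA' x).1 hx]
      · rw [if_neg hx]
        have : f x ≠ 1 := fun h => hx ((hA' x).2 h)
        split_ifs <;> omega
    · intro g hg
      rw [mem_coe, mem_T] at hg
      obtain ⟨h1, h2, h3, h4⟩ := hg
      have hgA : ∀ x ∈ A, g x = 0 := by
        intro x hx
        rw [h3, mem_sdiff]
        exact fun h => h.2 hx
      funext x
      simp only
      by_cases hx : x ∈ A
      · rw [if_pos hx, hgA x hx]
      · rw [if_neg hx]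
        split_ifs <;> omega

theorem card_functions {V : Type} [Fintype V] (τ : Equiv.Perm V) (s : List ℕ) :
    Nat.card {f : V → Fin s.length //
      (∀ x, f (τ x) = f x) ∧ ∀ i, (univ.filter (fun x => f x = i)).card = s.get i} =
    Fs τ s univ := by
  rw [← card_T, Nat.card_eq_fintype_card, Fintype.card_subtype]
  refine card_bij (fun f _ x => (f x : ℕ) + 1) ?_ ?_ ?_
  · intro f hf
    rw [mem_filter] at hf
    obtain ⟨-, h1, h2⟩ := hf
    rw [mem_T]
    refine ⟨?_, ?_, ?_, ?_⟩
    · intro x
      exact (f x).2
    · intro x
      rw [h1]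
    · intro x
      simp
    · intro i hi
      have h3 := h2 ⟨i, hi⟩
      rw [List.get_eq_getElem] at h3
      rw [← h3]
      congr 1
      ext x
      rw [mem_filter, mem_filter, Fin.ext_iff]
      simp
  · intro f _ g _ h
    funext x
    have h1 : (f x : ℕ) + 1 = (g x : ℕ) + 1 := congrFun h x
    exact Fin.ext (by omega)
  · intro g hg
    rw [mem_T] at hg
    obtain ⟨h1, h2, h3, h4⟩ := hg
    have hpos : ∀ x, 0 < g x := by
      intro x
      rw [Nat.pos_iff_ne_zero]
      intro h
      exact ((h3 x).1 h) (mem_univ x)
    refine ⟨fun x => ⟨g x - 1, ?_⟩, ?_, ?_⟩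
    · have := h1 x
      have := hpos x
      omega
    · rw [mem_filter]
      refine ⟨mem_univ _, ?_, ?_⟩
      · intro x
        rw [Fin.ext_iff]
        simp only [h2]
      · intro i
        have h5 := h4 i.1 i.2
        rw [List.get_eq_getElem, ← h5]
        congr 1
        ext x
        rw [mem_filter, mem_filter, Fin.ext_iff]
        simp only [mem_univ, true_and]
        have := hpos x
        omega
    · funext x
      simp only
      have := hpos x
      omega

theorem expand {V : Type} [Fintype V] {n : ℕ} (L : List (List ℕ))
    (hL : ∀ s ∈ L, s.sum = n ∧ ∀ m ∈ s, 0 < m) (τ : Equiv.Perm V) :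
    (L.map fun s => Fs τ s (univ : Finset V)).sum =
      ∑ μ : Nat.Partition n, (L.countP fun s : List ℕ => (s : Multiset ℕ) = μ.parts) *
        Fs τ μ.parts.toList (univ : Finset V) := by
  induction L with
  | nil => simp
  | cons s L ih =>
    have hs := hL s List.mem_cons_self
    rw [List.map_cons, List.sum_cons, ih (fun t ht => hL t (List.mem_cons_of_mem _ ht))]
    let ν : Nat.Partition n := 
      { parts := (s : Multiset ℕ)
        parts_pos := fun {i} hi => hs.2 i (by simpa using hi)
        parts_sum := by simpa using hs.1 }
    have h1 : ∀ μ : Nat.Partition n, ((s :: L).countP fun s : List ℕ => (s : Multiset ℕ) = μ.parts) *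
        Fs τ μ.parts.toList (univ : Finset V) =
        (if μ = ν then Fs τ s (univ : Finset V) else 0) +
        (L.countP fun s : List ℕ => (s : Multiset ℕ) = μ.parts) * Fs τ μ.parts.toList (univ : Finset V) := by
      intro μ
      rw [List.countP_cons]
      by_cases h : μ = ν
      · subst h
        rw [if_pos rfl, if_pos (by simp [ν]), add_mul, one_mul, add_comm]
        congr 1
        apply Fs_perm
        rw [← Multiset.coe_eq_coe, Multiset.coe_toList]
      · rw [if_neg h, if_neg]
        · simp
        · intro h'
          apply h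
          apply Nat.Partition.ext
          have h2 : (s : Multiset ℕ) = μ.parts := by simpa using h'
          exact h2.symm
    rw [sum_congr rfl (fun μ _ => h1 μ), sum_add_distrib, sum_ite_eq' univ ν, if_pos (mem_univ _)]

theorem final (n k : ℕ) (hn : 0 < n) :
    ∃ c : Nat.Partition (2 * n) → ℕ, ∀ σ : Equiv.Perm (Fin (2 * n)),
      G k σ = ∑ μ : Nat.Partition (2 * n), (c μ : ℤ) *
        (Nat.card {f : Fin (2 * n) → Fin μ.parts.toList.length //
          (∀ x, f (σ x) = f x) ∧
          ∀ i, (Finset.univ.filter (fun x => f x = i)).card = μ.parts.toList.get i} : ℤ) := by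
  let L : List (List ℕ) := (words k).flatMap fun w => comps w (2 * n)
  have hL : ∀ s ∈ L, s.sum = 2 * n ∧ ∀ m ∈ s, 0 < m := by
    intro s hs
    rw [List.mem_flatMap] at hs
    obtain ⟨w, -, hs⟩ := hs
    exact comps_spec hs
  refine ⟨fun μ => L.countP fun s : List ℕ => (s : Multiset ℕ) = μ.parts, fun σ => ?_⟩
  have h1 := main k (Fin (2 * n)) σ (by rw [Fintype.card_fin]; exact even_two_mul _)
    (by rw [Fintype.card_fin]; omega)
  rw [h1, PL_st]
  have h2 : FL σ (words k) univ = (L.map fun s => Fs σ s univ).sum := by
    show ((words k).map fun u => F σ u univ).sum =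
      (((words k).flatMap fun w => comps w (2 * n)).map fun s => Fs σ s univ).sum
    generalize words k = W
    induction W with
    | nil => rfl
    | cons u W ih =>
      rw [List.map_cons, List.sum_cons, ih, List.flatMap_cons, List.map_append, List.sum_append,
        F_comps, card_univ, Fintype.card_fin]
  rw [h2, expand L hL σ]
  push_cast
  apply sum_congr rfl
  intro μ _
  congr 2
  rw [← card_functions]

end Pool.Agent.V11176.Even
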