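import Mathlib

open Set Cardinal

namespace V11176.MetaBox

universe u

variable {J V : Type u}

/-- Graphs of partial injections. -/
def PInj (e : Set (J × V)) : Prop := ∀ p ∈ e, ∀ q ∈ e, (p.1 = q.1 ↔ p.2 = q.2)

def dom (e : Set (J × V)) : Set J := Prod.fst '' e

open Classical in
/-- The total function which is `e` on its domain and `c` elsewhere. -/
noncomputable def pt (e : Set (J × V)) (c : V) : J → V :=
  fun j => if h : ∃ v, (j, v) ∈ e then h.choose else c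

lemma pt_mem {e : Set (J × V)} (h : PInj e) {c : V} {p : J × V} (hp : p ∈ e) :
    pt e c p.1 = p.2 := by
  have hex : ∃ v, (p.1, v) ∈ e := ⟨p.2, hp⟩
  unfold pt
  rw [dif_pos hex]
  exact (h _ hex.choose_spec _ hp).1 rfl

lemma pt_not_mem {e : Set (J × V)} {c : V} {j : J} (hj : j ∉ dom e) : pt e c j = c := by
  unfold pt
  rw [dif_neg]
  rintro ⟨v, hv⟩
  exact hj ⟨(j, v), hv, rfl⟩

lemma PInj.mono {e e' : Set (J × V)} (h : PInj e') (he : e ⊆ e') : PInj e :=
  fun p hp q hq => h p (he hp) q (he hq)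

lemma dom_mono {e e' : Set (J × V)} (h : e ⊆ e') : dom e ⊆ dom e' := image_mono h

lemma mem_dom {e : Set (J × V)} {j : J} : j ∈ dom e ↔ ∃ v, (j, v) ∈ e := by
  constructor
  · rintro ⟨⟨a, b⟩, h, rfl⟩; exact ⟨b, h⟩
  · rintro ⟨v, h⟩; exact ⟨_, h, rfl⟩

/-- Unions of chains of partial injections. -/
lemma PInj.sUnion {s : Set (Set (J × V))} (hc : IsChain (· ⊆ ·) s) (h : ∀ e ∈ s, PInj e) :
    PInj (⋃₀ s) := by
  rintro p ⟨e, he, hp⟩ q ⟨e', he', hq⟩
  rcases hc.total he he' with h1 | h1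
  · exact h e' he' p (h1 hp) q hq
  · exact h e he p hp q (h1 hq)

section chain

variable {ι : Type u} [LinearOrder ι] [WellFoundedLT ι]

/-- A transfinite chain driven by a step function. -/
noncomputable def chain (e0 : Set (J × V)) (f : Set (J × V) → Set (J × V)) :
    ι → Set (J × V) :=
  WellFounded.fix (wellFounded_lt (α := ι))
    (fun i E => ⋃₀ (insert e0 (range (fun j : Iio i => f (E j.1 j.2)))))

lemma chain_eq (e0 : Set (J × V)) (f : Set (J × V) → Set (J × V)) (i : ι) :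
    chain e0 f i = ⋃₀ (insert e0 (range (fun j : Iio i => f (chain e0 f j.1)))) := by
  unfold chain
  rw [WellFounded.fix_eq]

lemma base_subset (e0 : Set (J × V)) (f : Set (J × V) → Set (J × V)) (i : ι) :
    e0 ⊆ chain e0 f i := by
  rw [chain_eq]
  exact subset_sUnion_of_mem (mem_insert _ _)

lemma step_subset (e0 : Set (J × V)) (f : Set (J × V) → Set (J × V)) {j i : ι} (h : j < i) :
    f (chain e0 f j) ⊆ chain e0 f i := by
  rw [chain_eq (i := i)]
  exact subset_sUnion_of_mem (mem_insert_of_mem _ ⟨⟨j, h⟩, rfl⟩)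

lemma chain_P {lam : Cardinal.{u}} (hlam : ℵ₀ ≤ lam) (hι : ∀ i : ι, #(Iio i) < lam)
    (P : Set (J × V) → Prop)
    (hP4 : ∀ s : Set (Set (J × V)), s.Nonempty → #s < lam → IsChain (· ⊆ ·) s →
      (∀ e ∈ s, P e) → P (⋃₀ s))
    (e0 : Set (J × V)) (he0 : P e0) (f : Set (J × V) → Set (J × V))
    (hf : ∀ e, P e → P (f e) ∧ e ⊆ f e) (i : ι) : P (chain e0 f i) := by
  induction i using WellFoundedLT.induction with
  | ind i ih =>
    rw [chain_eq]
    apply hP4
    · exact insert_nonempty _ _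
    · refine (mk_insert_le).trans_lt ?_
      refine add_lt_of_lt hlam (mk_range_le.trans_lt (hι i)) (one_lt_aleph0.trans_le hlam)
    · have key : ∀ j k : ι, j < k → k < i → f (chain e0 f j) ⊆ f (chain e0 f k) := by
        intro j k hjk hk
        exact (step_subset e0 f hjk).trans (hf _ (ih k hk)).2
      have key0 : ∀ j : ι, j < i → e0 ⊆ f (chain e0 f j) := fun j hj =>
        (base_subset e0 f j).trans (hf _ (ih j hj)).2
      rintro a ha b hb hab
      rcases ha with rfl | ⟨⟨j, hj⟩, rfl⟩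
      · rcases hb with rfl | ⟨⟨k, hk⟩, rfl⟩
        · exact absurd rfl hab
        · exact Or.inl (key0 k hk)
      · rcases hb with rfl | ⟨⟨k, hk⟩, rfl⟩
        · exact Or.inr (key0 j hj)
        · rcases lt_trichotomy j k with h | h | h
          · exact Or.inl (key j k h hk)
          · subst h; exact absurd rfl hab
          · exact Or.inr (key k j h hj)
    · rintro e (rfl | ⟨⟨j, hj⟩, rfl⟩)
      · exact he0
      · exact (hf _ (ih j hj)).1

end chain

/-- A good pair for `U n`. -/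
def GP (c : ℕ → V) (U : ℕ → Set (J → V)) (n : ℕ) (e : Set (J × V)) (B : Set J) : Prop :=
  ∀ x : J → V, (∀ p ∈ e, x p.1 = p.2) → (∀ j ∈ B, x j = c n) → x ∈ U n

def Blocked (κ lam : Cardinal.{u}) (c : ℕ → V) (U : ℕ → Set (J → V)) (n : ℕ)
    (e : Set (J × V)) (Z : Set J) : Prop :=
  ∀ y : Set (J × V), PInj y → e ⊆ y → Disjoint (dom y) Z → ∀ e'' : Set (J × V), e'' ⊆ y →
    #e'' < lam → ∀ B : Set J, #B < κ → Disjoint B (dom y) → GP c U n e'' B → ¬ Disjoint B Z

section main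

variable (κ lam : Cardinal.{u}) (hlam : lam.IsRegular) (hlamω : ℵ₀ < lam) (hlamκ : lam ≤ κ)
  (c : ℕ → V) (U : ℕ → Set (J → V)) (P : Set (J × V) → Prop)
  (hP1 : ∀ e, P e → PInj e)
  (hP2 : ∀ e e'' : Set (J × V), P e → PInj (e ∪ e'') → #e'' < lam → P (e ∪ e''))
  (hP3 : ∀ (e : Set (J × V)) (Z : Set J), P e → #Z < κ → Disjoint Z (dom e) →
    ∃ e', P e' ∧ e ⊆ e' ∧ Z ⊆ dom e')
  (hP4 : ∀ s : Set (Set (J × V)), s.Nonempty → #s < lam → IsChain (· ⊆ ·) s →
      (∀ e ∈ s, P e) → P (⋃₀ s))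
  (hP5 : ∀ s : Set (Set (J × V)), s.Nonempty → #s ≤ lam → IsChain (· ⊆ ·) s →
      (∀ e ∈ s, P e) → ∃ y, PInj y ∧ ⋃₀ s ⊆ y ∧ ∀ n, ∃ D : Set J, #D < lam ∧
        ∀ x : J → V, (∀ j ∈ D, x j = pt y (c n) j) → x ∈ U n)
  (e0 : Set (J × V)) (he0 : P e0)

include hlam hlamω hlamκ hP1 hP3 hP4 hP5 he0

lemma exists_free : ∃ e1, P e1 ∧ ∀ e', P e' → e1 ⊆ e' → ∀ n, ∀ Z : Set J, #Z < κ →
    Disjoint Z (dom e') → ¬ Blocked κ lam c U n e' Z := by
  by_contra hcon
  push Not at hcon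
  have hstep : ∀ e, P e → ∃ (a f : Set (J × V)) (n : ℕ) (Z : Set J), P a ∧ e ⊆ a ∧
      Disjoint Z (dom a) ∧ Blocked κ lam c U n a Z ∧ P f ∧ a ⊆ f ∧ Z ⊆ dom f := by
    intro e he
    obtain ⟨a, ha, hea, n, Z, hZ, hd, hb⟩ := hcon e he
    obtain ⟨f, hf, haf, hZf⟩ := hP3 a Z ha hZ hd
    exact ⟨a, f, n, Z, ha, hea, hd, hb, hf, haf, hZf⟩
  choose! a f n Z h using hstep
  have hcard : #(lam.ord.ToType) = lam := mk_ord_toType lam
  have hIio : ∀ i : lam.ord.ToType, #(Iio i) < lam := fun i => mk_Iio_toType_ord_lt i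
  set E : lam.ord.ToType → Set (J × V) := chain e0 f with hEdef
  have hE : ∀ i, P (E i) := fun i =>
    chain_P hlamω.le hIio P hP4 e0 he0 f
      (fun e he => ⟨(h e he).2.2.2.2.1, (h e he).2.1.trans (h e he).2.2.2.2.2.1⟩) i
  have hmono : ∀ i k, i < k → f (E i) ⊆ E k := fun i k hik => step_subset e0 f hik
  have hEf : ∀ i, E i ⊆ f (E i) := fun i => (h _ (hE i)).2.1.trans (h _ (hE i)).2.2.2.2.2.1
  -- the final chain
  have hne : Nonempty lam.ord.ToType := by
    rw [← mk_ne_zero_iff, hcard]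
    exact (aleph0_pos.trans hlamω).ne'
  obtain ⟨y, hy, hsy, hD⟩ := hP5 (range (fun i => f (E i))) (range_nonempty _)
    (mk_range_le.trans hcard.le)
    (by
      rintro _ ⟨i, rfl⟩ _ ⟨k, rfl⟩ hik
      rcases lt_trichotomy i k with h1 | h1 | h1
      · exact Or.inl ((hmono i k h1).trans (hEf k))
      · subst h1; exact absurd rfl hik
      · exact Or.inr ((hmono k i h1).trans (hEf i)))
    (by rintro _ ⟨i, rfl⟩; exact (h _ (hE i)).2.2.2.2.1)
  have hfy : ∀ i, f (E i) ⊆ y := fun i =>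
    (subset_sUnion_of_mem (mem_range_self (f := fun i => f (E i)) i)).trans hsy
  -- pigeonhole
  obtain ⟨m, hm⟩ := infinite_pigeonhole (fun i => ULift.up.{u} (n (E i)))
    (by rw [hcard]; exact hlamω.le)
    (by
      rw [hcard, hlam.cof_ord, mk_uLift, mk_nat, lift_aleph0]; exact hlamω)
  rw [hcard] at hm
  obtain ⟨D, hDc, hDU⟩ := hD m.down
  have hex : ∃ i, n (E i) = m.down ∧ Disjoint D (Z (E i)) := by
    by_contra hno
    push Not at hno
    have hpick : ∀ i : ((fun i => ULift.up.{u} (n (E i))) ⁻¹' {m}), ∃ j, j ∈ D ∧ j ∈ Z (E i.1) := by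
      rintro ⟨i, hi⟩
      have h1 : n (E i) = m.down := by
        have : ULift.up.{u} (n (E i)) = m := hi
        rw [← this]
      have h2 := hno i h1
      rw [not_disjoint_iff] at h2
      exact h2
    choose g hg1 hg2 using hpick
    have hinj : Function.Injective (fun i => (⟨g i, hg1 i⟩ : D)) := by
      intro i k hik
      have hgik : g i = g k := congrArg Subtype.val hik
      by_contra hne'
      have hsep : ∀ i k, i < k → Disjoint (Z (E i)) (Z (E k)) := by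
        intro i k hik
        have h1 : Z (E i) ⊆ dom (a (E k)) :=
          ((h _ (hE i)).2.2.2.2.2.2).trans
            (dom_mono ((hmono i k hik).trans (h _ (hE k)).2.1))
        exact ((h _ (hE k)).2.2.1.symm).mono_left h1
      rcases lt_trichotomy i.1 k.1 with h1 | h1 | h1
      · exact (disjoint_left.1 (hsep _ _ h1)) (hg2 i) (hgik ▸ hg2 k)
      · exact hne' (Subtype.ext h1)
      · exact (disjoint_left.1 (hsep _ _ h1)) (hg2 k) (hgik ▸ hg2 i)
    have := mk_le_of_injective hinj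
    rw [hm] at this
    exact absurd hDc (not_lt.2 this)
  obtain ⟨i, hi, hdis⟩ := hex
  obtain ⟨ha1, ha2, ha3, ha4, ha5, ha6, ha7⟩ := h _ (hE i)
  have hZy : Z (E i) ⊆ dom y := ha7.trans (dom_mono (hfy i))
  rw [hi] at ha4
  refine ha4 {p ∈ y | p.1 ∉ Z (E i)} (hy.mono (sep_subset _ _)) ?_ ?_
    {p ∈ y | p.1 ∈ D} ?_ ?_ (D \ dom y) ?_ ?_ ?_ ?_
  · intro p hp
    refine ⟨hfy i (ha6 hp), fun hpZ => ?_⟩
    exact disjoint_left.1 ha3 hpZ ⟨p, hp, rfl⟩
  · rw [disjoint_left]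
    rintro _ ⟨p, hp, rfl⟩ hpZ
    exact hp.2 hpZ
  · intro p hp
    exact ⟨hp.1, fun hpZ => disjoint_left.1 hdis hp.2 hpZ⟩
  · refine lt_of_le_of_lt ?_ hDc
    refine mk_le_of_injective (f := fun p : {p ∈ y | p.1 ∈ D} => (⟨p.1.1, p.2.2⟩ : D)) ?_
    intro p q hpq
    have h1 : p.1.1 = q.1.1 := congrArg Subtype.val hpq
    exact Subtype.ext (Prod.ext h1 ((hy _ p.2.1 _ q.2.1).1 h1))
  · exact ((mk_le_mk_of_subset sdiff_subset).trans_lt hDc).trans_le hlamκ
  · rw [disjoint_left]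
    rintro j hj ⟨p, hp, rfl⟩
    exact hj.2 ⟨p, hp.1, rfl⟩
  · intro x hx1 hx2
    apply hDU
    intro j hj
    by_cases hjy : j ∈ dom y
    · obtain ⟨p, hp, rfl⟩ := hjy
      rw [pt_mem hy hp]
      exact hx1 p ⟨hp, hj⟩
    · rw [pt_not_mem hjy]
      exact hx2 j ⟨hj, hjy⟩
  · rw [disjoint_left]
    intro j hj hjZ
    exact hj.2 (hZy hjZ)

include hP2 in
/-- The common point. -/
lemma exists_point : ∃ x : J → V, ∀ n, x ∈ U n := by
  obtain ⟨e1, he1, hfree⟩ := exists_free κ lam hlam hlamω hlamκ c U P hP1 hP3 hP4 hP5 e0 he0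
  have hκ : ℵ₀ ≤ κ := hlamω.le.trans hlamκ
  let S := {s : Set (J × V) × Set J // P s.1 ∧ e1 ⊆ s.1 ∧ #s.2 < κ ∧ Disjoint s.2 (dom s.1)}
  have hstep : ∀ (n : ℕ) (s : S), ∃ (s' : S) (e : Set (J × V)) (B : Set J),
      s.1.1 ⊆ s'.1.1 ∧ e ⊆ s'.1.1 ∧ s.1.2 ⊆ s'.1.2 ∧ B ⊆ s'.1.2 ∧ GP c U n e B ∧
        Disjoint B s.1.2 := by
    rintro n ⟨⟨s, Z⟩, hs, hes, hZ, hd⟩
    have hnb := hfree s hs hes n Z hZ hd
    unfold Blocked at hnb
    push Not at hnb
    obtain ⟨y, hy, hsy, hyZ, e'', hey, hec, B, hB, hBy, hG, hBZ⟩ := hnb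
    have hsub : s ∪ e'' ⊆ y := union_subset hsy hey
    refine ⟨⟨(s ∪ e'', Z ∪ B), hP2 s e'' hs (hy.mono hsub) hec, hes.trans subset_union_left,
      (mk_union_le _ _).trans_lt (add_lt_of_lt hκ hZ hB), ?_⟩, e'', B, subset_union_left,
      subset_union_right, subset_union_left, subset_union_right, hG, hBZ⟩
    show Disjoint (Z ∪ B) (dom (s ∪ e''))
    refine Disjoint.mono_right (dom_mono hsub) ?_
    rw [disjoint_union_left]
    exact ⟨hyZ.symm, hBy⟩
  choose nx ex Bx h1 h2 h3 h4 h5 h6 using hstep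
  have hinit : P e1 ∧ e1 ⊆ e1 ∧ #(∅ : Set J) < κ ∧ Disjoint (∅ : Set J) (dom e1) :=
    ⟨he1, subset_rfl, by simpa using aleph0_pos.trans_le hκ, empty_disjoint _⟩
  let st : ℕ → S := fun n => Nat.rec (⟨(e1, ∅), hinit⟩ : S) (fun n s => nx n s) n
  have hst : ∀ n, st (n + 1) = nx n (st n) := fun n => rfl
  have hmono1 : Monotone (fun n => (st n).1.1) := monotone_nat_of_le_succ fun n => by
    rw [hst]; exact h1 n (st n)
  have hmono2 : Monotone (fun n => (st n).1.2) := monotone_nat_of_le_succ fun n => by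
    rw [hst]; exact h3 n (st n)
  set E : Set (J × V) := ⋃₀ (range fun n => (st n).1.1) with hE
  have hEi : PInj E := by
    apply PInj.sUnion
    · rintro _ ⟨i, rfl⟩ _ ⟨k, rfl⟩ _
      exact (le_total i k).imp (fun h => hmono1 h) (fun h => hmono1 h)
    · rintro _ ⟨i, rfl⟩
      exact hP1 _ (st i).2.1
  have hZE : ∀ n, Disjoint (st n).1.2 (dom E) := by
    intro n
    rw [disjoint_left]
    rintro j hj ⟨p, ⟨_, ⟨m, rfl⟩, hp⟩, rfl⟩
    have ha : p.1 ∈ (st (max n m)).1.2 := hmono2 (le_max_left n m) hj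
    have hb : p ∈ (st (max n m)).1.1 := hmono1 (le_max_right n m) hp
    exact disjoint_left.1 (st (max n m)).2.2.2.2 ha ⟨p, hb, rfl⟩
  classical
  let x : J → V := fun j => if h : ∃ v, (j, v) ∈ E then h.choose else
    if h : ∃ n, j ∈ Bx n (st n) then c (h.choose) else c 0
  refine ⟨x, fun n => h5 n (st n) x ?_ ?_⟩
  · intro p hp
    have hpE : p ∈ E := by
      refine ⟨_, ⟨n + 1, rfl⟩, ?_⟩
      show p ∈ (st (n + 1)).1.1
      rw [hst]
      exact h2 n (st n) hp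
    have hex : ∃ v, (p.1, v) ∈ E := ⟨p.2, hpE⟩
    show (if h : ∃ v, (p.1, v) ∈ E then h.choose else _) = p.2
    rw [dif_pos hex]
    exact (hEi _ hex.choose_spec _ hpE).1 rfl
  · intro j hj
    have hjZ : ∀ k, j ∈ Bx k (st k) → j ∈ (st (k + 1)).1.2 := by
      intro k hk
      rw [hst]
      exact h4 k (st k) hk
    have hne : ¬ ∃ v, (j, v) ∈ E := by
      rintro ⟨v, hv⟩
      exact disjoint_left.1 (hZE (n + 1)) (hjZ n hj) ⟨_, hv, rfl⟩
    have hex : ∃ k, j ∈ Bx k (st k) := ⟨n, hj⟩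
    show (if h : ∃ v, (j, v) ∈ E then h.choose else _) = c n
    rw [dif_neg hne, dif_pos hex]
    congr 1
    by_contra hk
    have hsp := hex.choose_spec
    rcases lt_or_gt_of_ne hk with hlt | hlt
    · have := hmono2 (Nat.succ_le_of_lt hlt) (hjZ _ hsp)
      exact disjoint_left.1 (h6 n (st n)) hj this
    · have := hmono2 (Nat.succ_le_of_lt hlt) (hjZ _ hj)
      exact disjoint_left.1 (h6 _ (st _)) hsp this

end main

end V11176.MetaBox
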