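import Pool.Agent.V11176.MetaBox

open Set Cardinal

namespace V11176.MetaBox

universe u

variable {J V : Type u}

lemma exists_ext (e : Set (J × V)) (he : PInj e) (Z : Set J) (hZ : Disjoint Z (dom e))
    (W : Set V) (hW : Disjoint W (Prod.snd '' e)) (hcard : #Z ≤ #W) :
    ∃ e', PInj e' ∧ e ⊆ e' ∧ Z ⊆ dom e' ∧ #e' ≤ #e + #Z ∧
      Prod.snd '' e' ⊆ Prod.snd '' e ∪ W := by
  obtain ⟨g⟩ := hcard
  let r : Set (J × V) := range (fun z : Z => (z.1, (g z).1))
  refine ⟨e ∪ r, ?_, subset_union_left, ?_, ?_, ?_⟩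
  · have key : ∀ p ∈ e, ∀ q ∈ r, p.1 ≠ q.1 ∧ p.2 ≠ q.2 := by
      rintro p hp _ ⟨z, rfl⟩
      constructor
      · intro h
        exact disjoint_left.1 hZ z.2 ⟨p, hp, h⟩
      · intro h
        exact disjoint_left.1 hW (g z).2 ⟨p, hp, h⟩
    rintro p (hp | hp) q (hq | hq)
    · exact he p hp q hq
    · have := key p hp q hq
      exact ⟨fun h => absurd h this.1, fun h => absurd h this.2⟩
    · have := key q hq p hp
      exact ⟨fun h => absurd h.symm this.1, fun h => absurd h.symm this.2⟩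
    · obtain ⟨z, rfl⟩ := hp
      obtain ⟨w, rfl⟩ := hq
      constructor
      · intro h
        have : z = w := Subtype.ext h
        rw [this]
      · intro h
        have : g z = g w := Subtype.ext h
        rw [g.injective this]
  · intro z hz
    exact ⟨(z, (g ⟨z, hz⟩).1), Or.inr ⟨⟨z, hz⟩, rfl⟩, rfl⟩
  · exact (mk_union_le _ _).trans (by gcongr; exact mk_range_le)
  · rintro _ ⟨p, hp | hp, rfl⟩
    · exact Or.inl ⟨p, hp, rfl⟩
    · obtain ⟨z, rfl⟩ := hp
      exact Or.inr (g z).2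

/-- The regular uncountable case. -/
lemma exists_point_regular (κ : Cardinal.{u}) (hκ : κ.IsRegular) (hω : ℵ₀ < κ) (hV : #V = κ)
    (c : ℕ → V) (U : ℕ → Set (J → V))
    (hU : ∀ n, ∀ x ∈ U n, ∃ D : Set J, #D < κ ∧ ∀ x' : J → V, (∀ j ∈ D, x' j = x j) → x' ∈ U n)
    (hF : ∀ n e, PInj e → pt e (c n) ∈ U n) : ∃ x : J → V, ∀ n, x ∈ U n := by
  have hVi : Infinite V := by rw [infinite_iff, hV]; exact hω.le
  refine exists_point κ κ hκ hω le_rfl c U (fun e => PInj e ∧ #e < κ) (fun e h => h.1)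
    ?_ ?_ ?_ ?_ ∅ ⟨fun p hp => absurd hp (notMem_empty _), by simpa using aleph0_pos.trans hω⟩
  · rintro e e'' ⟨h1, h2⟩ h3 h4
    exact ⟨h3, (mk_union_le _ _).trans_lt (add_lt_of_lt hω.le h2 h4)⟩
  · rintro e Z ⟨h1, h2⟩ hZ hd
    have hs : #(Prod.snd '' e) < κ := mk_image_le.trans_lt h2
    have hcompl : #((Prod.snd '' e)ᶜ : Set V) = κ := by
      rw [mk_compl_of_infinite _ (by rw [hV]; exact hs), hV]
    obtain ⟨e', h3, h4, h5, h6, -⟩ := exists_ext e h1 Z hd ((Prod.snd '' e)ᶜ)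
      disjoint_compl_left (by rw [hcompl]; exact hZ.le)
    exact ⟨e', ⟨h3, h6.trans_lt (add_lt_of_lt hω.le h2 hZ)⟩, h4, h5⟩
  · intro s hne hs hc hP
    refine ⟨PInj.sUnion hc (fun e he => (hP e he).1), ?_⟩
    rw [sUnion_eq_iUnion]
    rw [card_iUnion_lt_iff_forall_of_isRegular hκ hs]
    rintro ⟨e, he⟩
    exact (hP e he).2
  · intro s hne hs hc hP
    have hi : PInj (⋃₀ s) := PInj.sUnion hc (fun e he => (hP e he).1)
    exact ⟨⋃₀ s, hi, subset_rfl, fun n => hU n _ (hF n _ hi)⟩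

section cat

variable {ι : Type u} [LinearOrder ι] [WellFoundedLT ι]

/-- A transfinite chain driven by varying step functions. -/
noncomputable def chain2 (f : ι → Set (J × V) → Set (J × V)) :
    ι → Set (J × V) :=
  WellFounded.fix (wellFounded_lt (α := ι))
    (fun i E => ⋃₀ (range (fun j : Iio i => f j.1 (E j.1 j.2))))

lemma chain2_eq (f : ι → Set (J × V) → Set (J × V)) (i : ι) :
    chain2 f i = ⋃₀ (range (fun j : Iio i => f j.1 (chain2 f j.1))) := by
  unfold chain2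
  rw [WellFounded.fix_eq]

lemma step2_subset (f : ι → Set (J × V) → Set (J × V)) {j i : ι} (h : j < i) :
    f j (chain2 f j) ⊆ chain2 f i := by
  rw [chain2_eq (i := i)]
  exact subset_sUnion_of_mem (mem_range_self (f := fun j : Iio i => f j.1 (chain2 f j.1)) ⟨j, h⟩)

end cat

/-- The size class at level `τ`. -/
def Q (π : V → V) (τ : Cardinal.{u}) (e : Set (J × V)) : Prop :=
  PInj e ∧ #(π '' (Prod.snd '' e)) ≤ Order.succ τ

lemma image_card_sUnion (π : V → V) (τ : Cardinal.{u}) (hτ : ℵ₀ ≤ τ) (s : Set (Set (J × V)))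
    (hs : #s ≤ Order.succ τ) (h : ∀ e ∈ s, #(π '' (Prod.snd '' e)) ≤ Order.succ τ) :
    #(π '' (Prod.snd '' (⋃₀ s))) ≤ Order.succ τ := by
  have heq : π '' (Prod.snd '' (⋃₀ s)) = ⋃ e : s, π '' (Prod.snd '' (e : Set (J × V))) := by
    ext v
    simp only [mem_image, mem_sUnion, mem_iUnion]
    constructor
    · rintro ⟨w, ⟨p, ⟨e, he, hp⟩, hw⟩, hv⟩
      exact ⟨⟨e, he⟩, w, ⟨p, hp, hw⟩, hv⟩
    · rintro ⟨⟨e, he⟩, w, ⟨p, hp, hw⟩, hv⟩
      exact ⟨w, ⟨p, ⟨e, he, hp⟩, hw⟩, hv⟩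
  have hτ' : ℵ₀ ≤ Order.succ τ := hτ.trans (Order.le_succ τ)
  have h1 : #(π '' (Prod.snd '' (⋃₀ s))) ≤
      #s * ⨆ e : s, #(π '' (Prod.snd '' (e : Set (J × V)))) := by
    rw [heq]; exact mk_iUnion_le _
  have h2 : (⨆ e : s, #(π '' (Prod.snd '' (e : Set (J × V))))) ≤ Order.succ τ :=
    ciSup_le' fun e => h e.1 e.2
  have h3 : #s * (⨆ e : s, #(π '' (Prod.snd '' (e : Set (J × V))))) ≤
      Order.succ τ * Order.succ τ := mul_le_mul' hs h2
  rw [mul_eq_self hτ'] at h3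
  exact h1.trans h3

lemma category (κ : Cardinal.{u}) (hcof : ℵ₀ < κ.ord.cof) (hsing : κ.ord.cof < κ)
    (π : V → V) (c : ℕ → V) (U : ℕ → Set (J → V))
    (hU : ∀ n, ∀ x ∈ U n, ∃ D : Set J, #D < κ ∧ ∀ x' : J → V, (∀ j ∈ D, x' j = x j) → x' ∈ U n)
    (hF : ∀ n e, PInj e → pt e (c n) ∈ U n) :
    ∃ τ : Cardinal.{u}, ℵ₀ ≤ τ ∧ τ < κ ∧ ∃ e0 : Set (J × V), Q π τ e0 ∧ ∀ e, Q π τ e → e0 ⊆ e →
      ∃ y, PInj y ∧ e ⊆ y ∧ ∀ n, ∃ D : Set J, #D < Order.succ τ ∧
        ∀ x : J → V, (∀ j ∈ D, x j = pt y (c n) j) → x ∈ U n := by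
  by_contra hcon
  push Not at hcon
  have hω : ℵ₀ < κ := hcof.trans hsing
  obtain ⟨C, hC, hCc⟩ := Order.exists_cof_eq (α := κ.ord.ToType)
  have hcof' : Order.cof κ.ord.ToType = κ.ord.cof := by simp
  rw [hcof'] at hCc
  let τ : C → Cardinal.{u} := fun i => max (max ℵ₀ κ.ord.cof) #(Iio i.1)
  have hτ1 : ∀ i, ℵ₀ ≤ τ i := fun i => (le_max_left _ _).trans (le_max_left _ _)
  have hτ2 : ∀ i, κ.ord.cof ≤ τ i := fun i => (le_max_right _ _).trans (le_max_left _ _)
  have hτ3 : ∀ i, τ i < κ := fun i => max_lt (max_lt hω hsing) (mk_Iio_toType_ord_lt i.1)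
  have hτm : ∀ i k : C, i ≤ k → τ i ≤ τ k := fun i k hik =>
    max_le_max le_rfl (mk_le_mk_of_subset (Iio_subset_Iio hik))
  have hstep : ∀ (i : C) (e : Set (J × V)), Q π (τ i) e → ∃ e', Q π (τ i) e' ∧ e ⊆ e' ∧
      ∀ y, PInj y → e' ⊆ y → ∃ n, ∀ D : Set J, #D < Order.succ (τ i) →
        ∃ x : J → V, (∀ j ∈ D, x j = pt y (c n) j) ∧ x ∉ U n := by
    intro i e he
    exact hcon (τ i) (hτ1 i) (hτ3 i) e he
  choose! f hf using hstep
  have hE : ∀ i : C, Q π (τ i) (chain2 f i) := by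
    intro i
    induction i using WellFoundedLT.induction with
    | ind i ih =>
      rw [chain2_eq]
      constructor
      · apply PInj.sUnion
        · rintro _ ⟨⟨j, hj⟩, rfl⟩ _ ⟨⟨k, hk⟩, rfl⟩ hne
          rcases lt_trichotomy j k with h | h | h
          · exact Or.inl ((step2_subset f h).trans (hf k _ (ih k hk)).2.1)
          · subst h; exact absurd rfl hne
          · exact Or.inr ((step2_subset f h).trans (hf j _ (ih j hj)).2.1)
        · rintro _ ⟨⟨j, hj⟩, rfl⟩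
          exact (hf j _ (ih j hj)).1.1
      · apply image_card_sUnion π (τ i) (hτ1 i)
        · refine mk_range_le.trans ?_
          refine le_trans ?_ ((hτ2 i).trans (Order.le_succ _))
          rw [← hCc]
          exact mk_subtype_le _
        · rintro _ ⟨⟨j, hj⟩, rfl⟩
          exact (hf j _ (ih j hj)).1.2.trans (Order.succ_le_succ (hτm j i (le_of_lt hj)))
  set y : Set (J × V) := ⋃₀ (range (fun i : C => f i (chain2 f i))) with hy
  have hyi : PInj y := by
    apply PInj.sUnion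
    · rintro _ ⟨j, rfl⟩ _ ⟨k, rfl⟩ hne
      rcases lt_trichotomy j k with h | h | h
      · exact Or.inl ((step2_subset f h).trans (hf k _ (hE k)).2.1)
      · subst h; exact absurd rfl hne
      · exact Or.inr ((step2_subset f h).trans (hf j _ (hE j)).2.1)
    · rintro _ ⟨j, rfl⟩
      exact (hf j _ (hE j)).1.1
  choose D hD1 hD2 using fun n => hU n _ (hF n y hyi)
  have hν : (max ℵ₀ (⨆ n, #(D n))) < κ := by
    refine max_lt hω ?_
    exact Ordinal.iSup_lt_lift (by simpa using hcof) hD1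
  have hex : ∃ i : C, max ℵ₀ (⨆ n, #(D n)) ≤ τ i := by
    by_contra hno
    push Not at hno
    have hcover : (univ : Set κ.ord.ToType) = ⋃ i : C, Iic i.1 := by
      symm
      rw [eq_univ_iff_forall]
      intro x
      obtain ⟨i, hi, hxi⟩ := hC x
      exact mem_iUnion.2 ⟨⟨i, hi⟩, hxi⟩
    have h1 : κ ≤ #C * (max ℵ₀ (⨆ n, #(D n))) := by
      calc κ = #(univ : Set κ.ord.ToType) := by rw [mk_univ, mk_ord_toType]
        _ = #(⋃ i : C, Iic i.1) := by rw [hcover]
        _ ≤ #C * ⨆ i : C, #(Iic i.1) := mk_iUnion_le _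
        _ ≤ #C * (max ℵ₀ (⨆ n, #(D n))) := by
            gcongr
            apply ciSup_le'
            intro i
            have h2 : #(Iic i.1) ≤ #(Iio i.1) + 1 := by
              rw [← Iio_insert]
              exact mk_insert_le
            have h3 : #(Iio i.1) ≤ max ℵ₀ (⨆ n, #(D n)) :=
              (le_max_right _ _).trans (hno i).le
            refine h2.trans ?_
            exact add_le_of_le (le_max_left _ _) h3 (one_le_aleph0.trans (le_max_left _ _))
    rw [hCc] at h1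
    exact absurd h1 (not_le.2 (mul_lt_of_lt hω.le hsing hν))
  obtain ⟨i, hi⟩ := hex
  obtain ⟨n, hn⟩ := (hf i _ (hE i)).2.2 y hyi
    (subset_sUnion_of_mem (mem_range_self (f := fun i : C => f i (chain2 f i)) i))
  have hDn : #(D n) < Order.succ (τ i) := by
    rw [Order.lt_succ_iff]
    exact ((le_ciSup (bddAbove_range _) n).trans (le_max_right _ _)).trans hi
  obtain ⟨x, hx1, hx2⟩ := hn (D n) hDn
  exact hx2 (hD2 n x hx1)

/-- The singular case of uncountable cofinality. -/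
lemma exists_point_singular (κ : Cardinal.{u}) (hcof : ℵ₀ < κ.ord.cof) (hsing : κ.ord.cof < κ)
    (hV : #V = κ) (c : ℕ → V) (U : ℕ → Set (J → V))
    (hU : ∀ n, ∀ x ∈ U n, ∃ D : Set J, #D < κ ∧ ∀ x' : J → V, (∀ j ∈ D, x' j = x j) → x' ∈ U n)
    (hF : ∀ n e, PInj e → pt e (c n) ∈ U n) : ∃ x : J → V, ∀ n, x ∈ U n := by
  have hω : ℵ₀ < κ := hcof.trans hsing
  -- the projection with large fibres
  obtain ⟨φ⟩ : Nonempty (V ≃ V × V) := by
    rw [← Cardinal.eq, mk_prod, lift_id, hV, mul_eq_self hω.le]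
  let π : V → V := fun v => (φ v).2
  have hfib : ∀ s : V, κ ≤ #(π ⁻¹' {s}) := by
    intro s
    rw [← hV]
    refine mk_le_of_injective (f := fun v : V => (⟨φ.symm (v, s), by simp [π]⟩ : π ⁻¹' {s})) ?_
    intro v w h
    have h1 : φ.symm (v, s) = φ.symm (w, s) := congrArg Subtype.val h
    have h2 := φ.symm.injective h1
    exact (Prod.ext_iff.1 h2).1
  obtain ⟨τ, hτ1, hτ2, e0, he0, hal⟩ := category κ hcof hsing π c U hU hF
  have hτs : Order.succ τ < κ := by
    refine lt_of_le_of_ne (Order.succ_le_of_lt hτ2) ?_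
    intro h
    have hr := isRegular_succ hτ1
    rw [h] at hr
    exact absurd hr.cof_ord hsing.ne
  have hτ' : ℵ₀ ≤ Order.succ τ := hτ1.trans (Order.le_succ τ)
  refine exists_point κ (Order.succ τ) (isRegular_succ hτ1) (hτ1.trans_lt (Order.lt_succ τ)) hτs.le
    c U (fun e => e0 ⊆ e ∧ Q π τ e) (fun e h => h.2.1) ?_ ?_ ?_ ?_ e0 ⟨subset_rfl, he0⟩
  · rintro e e'' ⟨h0, h1, h2⟩ h3 h4
    refine ⟨h0.trans subset_union_left, h3, ?_⟩
    rw [image_union, image_union]
    refine (mk_union_le _ _).trans ?_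
    exact add_le_of_le hτ' h2 ((mk_image_le.trans mk_image_le).trans h4.le)
  · rintro e Z ⟨h0, h1, h2⟩ hZ hd
    obtain ⟨s, hs⟩ : ∃ s, s ∉ π '' (Prod.snd '' e) := by
      by_contra hno
      push Not at hno
      have : #(π '' (Prod.snd '' e)) = κ := by
        rw [eq_univ_of_forall hno, mk_univ, hV]
      rw [this] at h2
      exact absurd h2 (not_le.2 hτs)
    obtain ⟨e', h3, h4, h5, -, h6⟩ := exists_ext e h1 Z hd (π ⁻¹' {s})
      (by
        rw [disjoint_left]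
        rintro v hv hv'
        apply hs
        exact ⟨v, hv', hv⟩)
      (hZ.le.trans (hfib s))
    refine ⟨e', ⟨h0.trans h4, h3, ?_⟩, h4, h5⟩
    have h7 : π '' (Prod.snd '' e') ⊆ insert s (π '' (Prod.snd '' e)) := by
      refine (image_mono h6).trans ?_
      rw [image_union]
      rintro _ (h | ⟨v, hv, rfl⟩)
      · exact Or.inr h
      · exact Or.inl hv
    refine (mk_le_mk_of_subset h7).trans (mk_insert_le.trans ?_)
    exact add_le_of_le hτ' h2 (one_le_aleph0.trans hτ')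
  · intro s hne hs hc hP
    refine ⟨?_, PInj.sUnion hc (fun e he => (hP e he).2.1),
      image_card_sUnion π τ hτ1 s hs.le (fun e he => (hP e he).2.2)⟩
    obtain ⟨e, he⟩ := hne
    exact (hP e he).1.trans (subset_sUnion_of_mem he)
  · intro s hne hs hc hP
    have hQ : Q π τ (⋃₀ s) := ⟨PInj.sUnion hc (fun e he => (hP e he).2.1),
      image_card_sUnion π τ hτ1 s hs (fun e he => (hP e he).2.2)⟩
    obtain ⟨e, he⟩ := hne
    exact hal _ hQ ((hP e he).1.trans (subset_sUnion_of_mem he))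

end V11176.MetaBox
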