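import Mathlib

/-!
# A coefficientwise inequality between two `q`-series (core)
-/

namespace Pool.Agent.V11176.QIneq

open PowerSeries Finset

/-- all coefficients are nonnegative -/
def Nn (F : ℚ⟦X⟧) : Prop := ∀ n, 0 ≤ coeff n F

theorem Nn.add {F G : ℚ⟦X⟧} (hF : Nn F) (hG : Nn G) : Nn (F + G) := fun n => by
  rw [map_add]; exact add_nonneg (hF n) (hG n)

theorem Nn.mul {F G : ℚ⟦X⟧} (hF : Nn F) (hG : Nn G) : Nn (F * G) := fun n => by
  rw [coeff_mul]
  exact sum_nonneg fun p _ => mul_nonneg (hF _) (hG _)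

theorem Nn.one : Nn 1 := fun n => by
  rw [coeff_one]; split_ifs <;> norm_num

theorem Nn.zero : Nn 0 := fun n => by simp

theorem Nn.Xpow (k : ℕ) : Nn (X ^ k) := fun n => by
  rw [coeff_X_pow]; split_ifs <;> norm_num

theorem Nn.prod {ι : Type*} (s : Finset ι) (f : ι → ℚ⟦X⟧) (h : ∀ i ∈ s, Nn (f i)) :
    Nn (∏ i ∈ s, f i) := by
  classical
  induction s using Finset.induction_on with
  | empty => simpa using Nn.one
  | insert a s ha ih =>
    rw [prod_insert ha]
    exact (h a (mem_insert_self _ _)).mul (ih fun i hi => h i (mem_insert_of_mem hi))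

theorem Nn.sum {ι : Type*} (s : Finset ι) (f : ι → ℚ⟦X⟧) (h : ∀ i ∈ s, Nn (f i)) :
    Nn (∑ i ∈ s, f i) := by
  classical
  induction s using Finset.induction_on with
  | empty => simpa using Nn.zero
  | insert a s ha ih =>
    rw [sum_insert ha]
    exact (h a (mem_insert_self _ _)).add (ih fun i hi => h i (mem_insert_of_mem hi))

/-- `1 / (1 - q^k)` -/
noncomputable def u (k : ℕ) : ℚ⟦X⟧ := (1 - X ^ k)⁻¹

theorem const_ne (k : ℕ) (hk : 1 ≤ k) : constantCoeff (1 - X ^ k : ℚ⟦X⟧) ≠ 0 := by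
  rw [map_sub, map_one, map_pow, constantCoeff_X, zero_pow (by omega)]
  norm_num

theorem u_mul (k : ℕ) (hk : 1 ≤ k) : (1 - X ^ k) * u k = 1 :=
  PowerSeries.mul_inv_cancel _ (const_ne k hk)

theorem coeff_u (k : ℕ) (hk : 1 ≤ k) (n : ℕ) : coeff n (u k) = if k ∣ n then 1 else 0 := by
  have h : u k = PowerSeries.mk fun n => if k ∣ n then (1 : ℚ) else 0 := by
    have h1 : (1 - X ^ k) * (PowerSeries.mk fun n => if k ∣ n then (1 : ℚ) else 0) = 1 := by
      ext m
      rw [sub_mul, one_mul, map_sub, coeff_X_pow_mul', coeff_mk, coeff_one]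
      by_cases h0 : m = 0
      · subst h0
        have hk0 : ¬ k ≤ 0 := by omega
        simp [hk0]
      · rw [if_neg h0]
        by_cases hkm : k ≤ m
        · rw [if_pos hkm, coeff_mk]
          have : k ∣ m - k ↔ k ∣ m := by
            constructor
            · intro h
              have := (Nat.dvd_add_right h).2 (dvd_refl k)
              rwa [Nat.sub_add_cancel hkm] at this
            · intro h
              exact Nat.dvd_sub h (dvd_refl k)
          simp only [this, sub_self]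
        · rw [if_neg hkm, if_neg]
          · simp
          · intro h
            exact hkm (Nat.le_of_dvd (by omega) h)
    calc u k = u k * ((1 - X ^ k) * (PowerSeries.mk fun n => if k ∣ n then (1 : ℚ) else 0)) := by
          rw [h1, mul_one]
      _ = ((1 - X ^ k) * u k) * (PowerSeries.mk fun n => if k ∣ n then (1 : ℚ) else 0) := by ring
      _ = _ := by rw [u_mul k hk, one_mul]
  rw [h, coeff_mk]

theorem Nn.u (k : ℕ) (hk : 1 ≤ k) : Nn (u k) := fun n => by
  rw [coeff_u k hk]; split_ifs <;> norm_num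

/-- the coefficients of `u 1 * u 2` -/
theorem coeff_u1u2 (n : ℕ) : coeff n (u 1 * u 2) = ((n / 2 + 1 : ℕ) : ℚ) := by
  have h : u 1 * u 2 = PowerSeries.mk fun n => ((n / 2 + 1 : ℕ) : ℚ) := by
    have h1 : (1 - X ^ 1) * (PowerSeries.mk fun n => ((n / 2 + 1 : ℕ) : ℚ)) = u 2 := by
      ext m
      rw [sub_mul, one_mul, map_sub, coeff_X_pow_mul', coeff_mk, coeff_u 2 (by norm_num)]
      by_cases h0 : 1 ≤ m
      · rw [if_pos h0, coeff_mk]
        by_cases h2 : 2 ∣ m
        · rw [if_pos h2]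
          obtain ⟨r, rfl⟩ := h2
          have e1 : 2 * r / 2 = r := by omega
          have e2 : (2 * r - 1) / 2 = r - 1 := by omega
          rw [e1, e2]
          have : 1 ≤ r := by omega
          rw [Nat.sub_add_cancel this]
          push_cast
          ring
        · rw [if_neg h2]
          have e1 : m / 2 = (m - 1) / 2 := by omega
          rw [e1]
          ring
      · rw [if_neg h0]
        have : m = 0 := by omega
        subst this
        simp
    rw [← h1]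
    have := u_mul 1 le_rfl
    calc _root_.Pool.Agent.V11176.QIneq.u 1 * ((1 - X ^ 1) * (PowerSeries.mk fun n => ((n / 2 + 1 : ℕ) : ℚ))) =
          ((1 - X ^ 1) * _root_.Pool.Agent.V11176.QIneq.u 1) * (PowerSeries.mk fun n => ((n / 2 + 1 : ℕ) : ℚ)) := by ring
      _ = _ := by rw [this, one_mul]
  rw [h, coeff_mk]

/-- coefficient of a shifted `u 1 * u 2` -/
theorem coeff_shift (s n : ℕ) : coeff n (X ^ s * (u 1 * u 2)) = (((n + 2 - s) / 2 : ℕ) : ℚ) := by
  rw [coeff_X_pow_mul']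
  split_ifs with h
  · rw [coeff_u1u2]
    congr 1
    omega
  · have : (n + 2 - s) / 2 = 0 := by omega
    rw [this]
    simp

/-- the numerator `N` -/
noncomputable def Nm (m : ℕ) : ℚ⟦X⟧ :=
  (1 - X ^ (2 * m + 2)) * (1 - X ^ 4) + X ^ 3 * ((1 - X ^ (2 * m)) * (1 - X ^ (2 * m - 2))) -
    X * ((1 - X ^ m) * (1 - X ^ (m - 1)))

theorem Nm_nonneg (m : ℕ) (hm : 2 ≤ m) : Nn (Nm m * (u 1 * u 2)) := by
  intro n
  have h1 : X ^ (2 * m - 2) * X ^ 2 = (X : ℚ⟦X⟧) ^ (2 * m) := by
    rw [← pow_add]; congr 1; omega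
  have h2 : X ^ (m - 1) * X = (X : ℚ⟦X⟧) ^ m := by
    rw [← pow_succ]; congr 1; omega
  have e : Nm m * (u 1 * u 2) = X ^ 0 * (u 1 * u 2) - X ^ 1 * (u 1 * u 2) + X ^ 3 * (u 1 * u 2) -
      X ^ 4 * (u 1 * u 2) + X ^ m * (u 1 * u 2) + X ^ (m + 1) * (u 1 * u 2) -
      X ^ (2 * m) * (u 1 * u 2) - X ^ (2 * m + 1) * (u 1 * u 2) - X ^ (2 * m + 2) * (u 1 * u 2) -
      X ^ (2 * m + 3) * (u 1 * u 2) + X ^ (2 * m + 6) * (u 1 * u 2) +
      X ^ (4 * m + 1) * (u 1 * u 2) := by
    have e3 : X ^ 3 * ((1 - X ^ (2 * m)) * (1 - X ^ (2 * m - 2))) =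
        (X ^ 3 - X ^ (2 * m + 3) - X ^ (2 * m + 1) + X ^ (4 * m + 1) : ℚ⟦X⟧) := by
      have a1 : X ^ 3 * X ^ (2 * m - 2) = (X : ℚ⟦X⟧) ^ (2 * m + 1) := by
        rw [← pow_add]; congr 1; omega
      have a2 : X ^ 3 * (X ^ (2 * m) * X ^ (2 * m - 2)) = (X : ℚ⟦X⟧) ^ (4 * m + 1) := by
        rw [← pow_add, ← pow_add]; congr 1; omega
      have a3 : X ^ 3 * X ^ (2 * m) = (X : ℚ⟦X⟧) ^ (2 * m + 3) := by
        rw [← pow_add]; congr 1; omega
      linear_combination (-1 : ℚ⟦X⟧) * a1 + a2 - a3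
    have e4 : X * ((1 - X ^ m) * (1 - X ^ (m - 1))) =
        (X - X ^ (m + 1) - X ^ m + X ^ (2 * m) : ℚ⟦X⟧) := by
      have a1 : X * X ^ m = (X : ℚ⟦X⟧) ^ (m + 1) := by rw [pow_succ, mul_comm]
      have a2 : X ^ m * X ^ m = (X : ℚ⟦X⟧) ^ (2 * m) := by rw [← pow_add]; congr 1; omega
      linear_combination (-1 : ℚ⟦X⟧) * a1 + (X ^ m - 1) * h2 + a2
    have e5 : (1 - X ^ (2 * m + 2)) * (1 - X ^ 4) =
        (1 - X ^ 4 - X ^ (2 * m + 2) + X ^ (2 * m + 6) : ℚ⟦X⟧) := by ring
    unfold Nm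
    rw [e3, e4, e5]
    ring
  rw [e]
  simp only [map_add, map_sub, coeff_shift]
  have key : (n + 2 - 1) / 2 + (n + 2 - 4) / 2 + (n + 2 - 2 * m) / 2 + (n + 2 - (2 * m + 1)) / 2 +
      (n + 2 - (2 * m + 2)) / 2 + (n + 2 - (2 * m + 3)) / 2 ≤
      (n + 2 - 0) / 2 + (n + 2 - 3) / 2 + (n + 2 - m) / 2 + (n + 2 - (m + 1)) / 2 +
      (n + 2 - (2 * m + 6)) / 2 + (n + 2 - (4 * m + 1)) / 2 := by
    omega
  have key' : (((n + 2 - 1) / 2 + (n + 2 - 4) / 2 + (n + 2 - 2 * m) / 2 +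
      (n + 2 - (2 * m + 1)) / 2 +
      (n + 2 - (2 * m + 2)) / 2 + (n + 2 - (2 * m + 3)) / 2 : ℕ) : ℚ) ≤
      (((n + 2 - 0) / 2 + (n + 2 - 3) / 2 + (n + 2 - m) / 2 + (n + 2 - (m + 1)) / 2 +
      (n + 2 - (2 * m + 6)) / 2 + (n + 2 - (4 * m + 1)) / 2 : ℕ) : ℚ) := by
    exact_mod_cast key
  push_cast at key' ⊢
  linarith


/-! ### Distinct parts against odd parts and `4` -/

/-- `∏_{i=3}^m (1 + q^i)` -/
noncomputable def D (m : ℕ) : ℚ⟦X⟧ := ∏ i ∈ Ico 3 (m + 1), (1 + X ^ i)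

/-- `∏_{j odd, 3 ≤ j ≤ m} 1/(1 - q^j)` -/
noncomputable def Op (m : ℕ) : ℚ⟦X⟧ := ∏ j ∈ (Ico 3 (m + 1)).filter (fun j => j % 2 = 1), u j

/-- `∏_{a < i ≤ b} (1 - q^{2i})` -/
noncomputable def E (a b : ℕ) : ℚ⟦X⟧ := ∏ i ∈ Ioc a b, (1 - X ^ (2 * i))

/-- `∏_{a < i ≤ b} 1/(1 - q^{2i})` -/
noncomputable def Ei (a b : ℕ) : ℚ⟦X⟧ := ∏ i ∈ Ioc a b, u (2 * i)

theorem E_mul_Ei (a b : ℕ) : E a b * Ei a b = 1 := by
  unfold E Ei
  rw [← prod_mul_distrib]
  apply prod_eq_one
  intro i hi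
  rw [mem_Ioc] at hi
  exact u_mul _ (by omega)

theorem E_split (a b c : ℕ) (h1 : a ≤ b) (h2 : b ≤ c) : E a c = E a b * E b c := by
  unfold E
  rw [← prod_union]
  · congr 1
    ext i
    simp only [mem_union, mem_Ioc]
    omega
  · rw [disjoint_left]
    intro i hi hi'
    simp only [mem_Ioc] at hi hi'
    omega

theorem D_succ (m : ℕ) (hm : 2 ≤ m) : D (m + 1) = D m * (1 + X ^ (m + 1)) := by
  unfold D
  rw [prod_Ico_succ_top (by omega)]

theorem Op_succ (m : ℕ) (hm : 2 ≤ m) : Op (m + 1) = Op m * if (m + 1) % 2 = 1 then u (m + 1) else 1 := by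
  unfold Op
  rw [prod_filter, prod_filter, prod_Ico_succ_top (by omega)]

theorem D_eq (m : ℕ) (hm : 2 ≤ m) : D m = Op m * u 4 * E (m / 2) m := by
  induction m, hm using Nat.le_induction with
  | base =>
    have h := u_mul 4 (by norm_num)
    have e1 : D 2 = 1 := by simp [D]
    have e2 : Op 2 = 1 := by simp [Op]
    have e3 : E (2 / 2) 2 = 1 - X ^ 4 := by
      unfold E
      rw [show Ioc (2 / 2) 2 = {2} by decide, prod_singleton]
    rw [e1, e2, e3]
    linear_combination -h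
  | succ m hm ih =>
    rw [D_succ m hm, Op_succ m hm, ih]
    have hs : E (m / 2) (m + 1) = E (m / 2) m * (1 - X ^ (2 * (m + 1))) := by
      rw [E_split (m / 2) m (m + 1) (by omega) (by omega)]
      congr 1
      unfold E
      rw [show Ioc m (m + 1) = {m + 1} by ext i; simp only [mem_Ioc, mem_singleton]; omega,
        prod_singleton]
    by_cases hpar : (m + 1) % 2 = 1
    · rw [if_pos hpar]
      have e1 : (m + 1) / 2 = m / 2 := by omega
      rw [e1, hs]
      have h := u_mul (m + 1) (by omega)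
      have h2 : (1 - X ^ (2 * (m + 1)) : ℚ⟦X⟧) = (1 - X ^ (m + 1)) * (1 + X ^ (m + 1)) := by
        rw [two_mul, pow_add]; ring
      rw [h2]
      linear_combination (-(Op m * u 4 * E (m / 2) m * (1 + X ^ (m + 1)))) * h
    · rw [if_neg hpar, mul_one]
      have e1 : (m + 1) / 2 = m / 2 + 1 := by omega
      have e2 : E (m / 2) (m + 1) = (1 - X ^ (m + 1)) * E ((m + 1) / 2) (m + 1) := by
        rw [E_split (m / 2) ((m + 1) / 2) (m + 1) (by omega) (by omega)]
        congr 1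
        unfold E
        rw [show Ioc (m / 2) ((m + 1) / 2) = {(m + 1) / 2} by
          ext i; simp only [mem_Ioc, mem_singleton]; omega, prod_singleton]
        congr 2
        omega
      rw [hs] at e2
      have h := u_mul (m + 1) (by omega)
      have h2 : (1 - X ^ (2 * (m + 1)) : ℚ⟦X⟧) = (1 - X ^ (m + 1)) * (1 + X ^ (m + 1)) := by
        rw [two_mul, pow_add]; ring
      rw [h2] at e2
      have e3 : E (m / 2) m * (1 + X ^ (m + 1)) = E ((m + 1) / 2) (m + 1) := by
        calc E (m / 2) m * (1 + X ^ (m + 1)) =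
            u (m + 1) * (E (m / 2) m * ((1 - X ^ (m + 1)) * (1 + X ^ (m + 1)))) := by
              linear_combination (-(E (m / 2) m * (1 + X ^ (m + 1)))) * h
          _ = E ((m + 1) / 2) (m + 1) := by
              rw [e2]
              linear_combination E ((m + 1) / 2) (m + 1) * h
      rw [← e3]
      ring

theorem Nn_D (m : ℕ) : Nn (D m) :=
  Nn.prod _ _ fun i _ => Nn.one.add (Nn.Xpow i)

theorem Nn_Op (m : ℕ) : Nn (Op m) :=
  Nn.prod _ _ fun j hj => Nn.u j (by rw [mem_filter, mem_Ico] at hj; omega)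

theorem Nn_Ei (a b : ℕ) : Nn (Ei a b) :=
  Nn.prod _ _ fun j hj => Nn.u _ (by rw [mem_Ioc] at hj; omega)

theorem Op_split (a b : ℕ) (h : 2 ≤ a) (hab : a ≤ b) :
    ∃ W, Nn W ∧ Op b = Op a * W := by
  refine ⟨∏ j ∈ (Ico (a + 1) (b + 1)).filter (fun j => j % 2 = 1), u j, ?_, ?_⟩
  · exact Nn.prod _ _ fun j hj => Nn.u j (by rw [mem_filter, mem_Ico] at hj; omega)
  · unfold Op
    rw [prod_filter, prod_filter, prod_filter, prod_Ico_consecutive _ (by omega) (by omega)]

/-- The distinct parts product is dominated. -/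
theorem D_le (m : ℕ) (hm : 2 ≤ m) : Nn (Op m * u 4 - D m) := by
  have key : ∀ m', m / 2 ≤ m' → m' ≤ m →
      Nn (Op m * u 4 * E (m / 2) m') ∧ Nn (Op m * u 4 - Op m * u 4 * E (m / 2) m') := by
    intro m' h
    induction m', h using Nat.le_induction with
    | base =>
      intro _
      have e : E (m / 2) (m / 2) = 1 := by simp [E]
      rw [e, mul_one, sub_self]
      exact ⟨(Nn_Op m).mul (Nn.u 4 (by norm_num)), Nn.zero⟩
    | succ m' h ih =>
      intro hle
      obtain ⟨ih1, ih2⟩ := ih (by omega)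
      have hs : E (m / 2) (m' + 1) = E (m / 2) m' * (1 - X ^ (2 * (m' + 1))) := by
        rw [E_split (m / 2) m' (m' + 1) (by omega) (by omega)]
        congr 1
        unfold E
        rw [show Ioc m' (m' + 1) = {m' + 1} by ext i; simp only [mem_Ioc, mem_singleton]; omega,
          prod_singleton]
      constructor
      · obtain ⟨W, hW, hWe⟩ := Op_split (m' + 1) m (by omega) hle
        have h1 := D_eq (m' + 1) (by omega)
        have h2 : E ((m' + 1) / 2) (m' + 1) = E ((m' + 1) / 2) (m / 2) * E (m / 2) (m' + 1) :=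
          E_split _ _ _ (by omega) (by omega)
        have h3 := E_mul_Ei ((m' + 1) / 2) (m / 2)
        have e : Op m * u 4 * E (m / 2) (m' + 1) = D (m' + 1) * W * Ei ((m' + 1) / 2) (m / 2) := by
          rw [h1, h2, hWe]
          linear_combination (-(Op (m' + 1) * W * u 4 * E (m / 2) (m' + 1))) * h3
        rw [e]
        exact ((Nn_D _).mul hW).mul (Nn_Ei _ _)
      · rw [hs]
        have e : Op m * u 4 - Op m * u 4 * (E (m / 2) m' * (1 - X ^ (2 * (m' + 1)))) =
            (Op m * u 4 - Op m * u 4 * E (m / 2) m') +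
            X ^ (2 * (m' + 1)) * (Op m * u 4 * E (m / 2) m') := by ring
        rw [e]
        exact ih2.add ((Nn.Xpow _).mul ih1)
  have := (key m (by omega) le_rfl).2
  rwa [← D_eq m hm] at this

/-! ### Gaussian binomials `[m, 2]` -/

/-- `[m,2]` in the variable `q^r` -/
noncomputable def G (r m : ℕ) : ℚ⟦X⟧ := (1 - X ^ (r * m)) * (1 - X ^ (r * (m - 1))) * (u r * u (2 * r))

theorem geom_eq (r m : ℕ) (hr : 1 ≤ r) :
    (1 - X ^ (r * m)) * u r = ∑ i ∈ range m, (X : ℚ⟦X⟧) ^ (r * i) := by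
  have h := u_mul r hr
  have h2 := mul_neg_geom_sum ((X : ℚ⟦X⟧) ^ r) m
  simp only [← pow_mul] at h2
  calc (1 - X ^ (r * m)) * u r = ((1 - X ^ r) * ∑ i ∈ range m, (X : ℚ⟦X⟧) ^ (r * i)) * u r := by
        rw [h2]
    _ = _ := by linear_combination (∑ i ∈ range m, (X : ℚ⟦X⟧) ^ (r * i)) * h

theorem Nn_geom (r m : ℕ) (hr : 1 ≤ r) : Nn ((1 - X ^ (r * m)) * u r) := by
  rw [geom_eq r m hr]
  exact Nn.sum _ _ fun i _ => Nn.Xpow _

theorem Nn_G (r m : ℕ) (hr : 1 ≤ r) (hm : 1 ≤ m) : Nn (G r m) := by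
  induction m, hm using Nat.le_induction with
  | base => simpa [G] using Nn.zero
  | succ m hm ih =>
    have e : G r (m + 1) = G r m + X ^ (r * (m - 1)) * ((1 - X ^ (r * m)) * u r) := by
      unfold G
      have h := u_mul (2 * r) (by omega)
      have h1 : (X : ℚ⟦X⟧) ^ (r * (m + 1)) = X ^ (r * (m - 1)) * X ^ (2 * r) := by
        rw [← pow_add]
        congr 1
        obtain ⟨t, rfl⟩ : ∃ t, m = t + 1 := ⟨m - 1, by omega⟩
        simp
        ring
      rw [h1, show m + 1 - 1 = m by omega]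
      linear_combination ((X : ℚ⟦X⟧) ^ (r * (m - 1)) * (1 - X ^ (r * m)) * u r) * h
    rw [e]
    exact ih.add ((Nn.Xpow _).mul (Nn_geom r m hr))

/-! ### The core inequality -/

/-- `1/(q;q^2)_L` -/
noncomputable def Q (L : ℕ) : ℚ⟦X⟧ := ∏ i ∈ range L, u (2 * i + 1)

theorem Q_split (m : ℕ) (hm : 2 ≤ m) : ∃ W, Nn W ∧ Nn (W - 1) ∧ Q (m + 2) = Op m * u 1 * W := by
  have h1 : ∀ t, 1 ≤ t → Q t = u 1 * ∏ j ∈ (Ico 3 (2 * t)).filter (fun j => j % 2 = 1), u j := by
    intro t ht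
    induction t, ht using Nat.le_induction with
    | base => simp [Q]
    | succ t ht ih =>
      unfold Q at ih ⊢
      rw [prod_range_succ, ih, prod_filter, prod_filter, show 2 * (t + 1) = 2 * t + 1 + 1 by ring,
        prod_Ico_succ_top (by omega)]
      rcases Nat.lt_or_ge 1 t with h | h
      · rw [prod_Ico_succ_top (by omega), if_neg (by omega), if_pos (by omega), mul_one]
        ring
      · have : t = 1 := by omega
        subst this
        simp
  refine ⟨∏ j ∈ (Ico (m + 1) (2 * (m + 2))).filter (fun j => j % 2 = 1), u j, ?_, ?_, ?_⟩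
  · exact Nn.prod _ _ fun j hj => Nn.u j (by rw [mem_filter, mem_Ico] at hj; omega)
  · have key : ∀ s : Finset ℕ, (∀ j ∈ s, 1 ≤ j) → Nn ((∏ j ∈ s, u j) - 1) := by
      intro s
      induction s using Finset.induction_on with
      | empty => intro _; simpa using Nn.zero
      | insert a s ha ih =>
        intro hs
        rw [prod_insert ha]
        have h2 := ih fun j hj => hs j (mem_insert_of_mem hj)
        have h3 : Nn (u a - 1) := by
          have h4 := u_mul a (hs a (mem_insert_self _ _))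
          have : u a - 1 = X ^ a * u a := by linear_combination h4
          rw [this]
          exact (Nn.Xpow a).mul (Nn.u a (hs a (mem_insert_self _ _)))
        have e : u a * ∏ j ∈ s, u j - 1 = u a * ((∏ j ∈ s, u j) - 1) + (u a - 1) := by ring
        rw [e]
        exact ((Nn.u a (hs a (mem_insert_self _ _))).mul h2).add h3
    apply key
    intro j hj
    rw [mem_filter, mem_Ico] at hj
    omega
  · rw [h1 _ (by omega)]
    unfold Op
    rw [prod_filter, prod_filter, prod_filter, mul_right_comm, prod_Ico_consecutive _ (by omega) (by omega)]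
    ring

/-- The core inequality, with `m = L - 2`. -/
theorem core (m : ℕ) (hm : 2 ≤ m) :
    Nn (Q (m + 2) * ((1 - X ^ (2 * m + 2)) * u 2 + X ^ 3 * G 2 m) - X * G 1 m * D m) := by
  obtain ⟨W, hW, hW1, hQ⟩ := Q_split m hm
  have hA : Nn ((1 - X ^ (2 * m + 2)) * u 2) := by
    have := Nn_geom 2 (m + 1) (by norm_num)
    rwa [show 2 * (m + 1) = 2 * m + 2 by ring] at this
  have hG2 := Nn_G 2 m (by norm_num) (by omega)
  have hG1 := Nn_G 1 m (by norm_num) (by omega)
  have hN := Nm_nonneg m hm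
  have hD := D_le m hm
  have e : Q (m + 2) * ((1 - X ^ (2 * m + 2)) * u 2 + X ^ 3 * G 2 m) - X * G 1 m * D m =
      (Op m * u 1) * (W - 1) * ((1 - X ^ (2 * m + 2)) * u 2 + X ^ 3 * G 2 m) +
      X ^ 1 * G 1 m * (Op m * u 4 - D m) + Op m * ((Nm m * (u 1 * u 2)) * u 4) := by
    rw [hQ]
    have h4 := u_mul 4 (by norm_num)
    unfold Nm G
    rw [show 2 * (m - 1) = 2 * m - 2 by omega]
    simp only [one_mul, mul_one, show 2 * 2 = 4 by norm_num]
    linear_combination (Op m * u 1 * (1 - X ^ (2 * m + 2)) * u 2) * (-h4)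
  rw [e]
  have hX1 : Nn (X ^ 1) := Nn.Xpow 1
  exact ((((Nn_Op m).mul (Nn.u 1 le_rfl)).mul hW1).mul (hA.add ((Nn.Xpow 3).mul hG2))).add
    ((hX1.mul hG1).mul hD) |>.add ((Nn_Op m).mul (hN.mul (Nn.u 4 (by norm_num))))

end Pool.Agent.V11176.QIneq
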