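import Mathlib

/-!
# Short vanishing sums of roots of unity of odd order
-/

namespace Pool.Agent.V11176.RootSums

open Finset

/-- the value of a function at a root of unity -/
noncomputable def S (c : ℕ) (f : ℕ → ℤ) (ζ : ℂ) : ℂ := ∑ k ∈ range c, (f k : ℂ) * ζ ^ k

/-- the `ℓ¹` norm -/
def nrm (c : ℕ) (f : ℕ → ℤ) : ℕ := ∑ k ∈ range c, (f k).natAbs

/-- vanishing at all primitive roots -/
def van (c : ℕ) (f : ℕ → ℤ) : Prop := ∀ ζ : ℂ, IsPrimitiveRoot ζ c → S c f ζ = 0

theorem van_of_one {c : ℕ} (hc : 0 < c) (f : ℕ → ℤ) {ζ₀ : ℂ} (h₀ : IsPrimitiveRoot ζ₀ c)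
    (h : S c f ζ₀ = 0) : van c f := by
  intro ζ hζ
  let F : Polynomial ℤ := ∑ k ∈ range c, Polynomial.C (f k) * Polynomial.X ^ k
  have hF : ∀ z : ℂ, Polynomial.aeval z F = S c f z := by
    intro z
    show Polynomial.aeval z (∑ k ∈ range c, Polynomial.C (f k) * Polynomial.X ^ k) = _
    rw [map_sum]
    unfold S
    apply sum_congr rfl
    intro k _
    rw [map_mul, map_pow, Polynomial.aeval_X, Polynomial.aeval_C]
    rfl
  have h1 : minpoly ℤ ζ₀ ∣ F := by
    apply minpoly.isIntegrallyClosed_dvd (h₀.isIntegral hc)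
    rw [hF, h]
  rw [← Polynomial.cyclotomic_eq_minpoly h₀ hc] at h1
  obtain ⟨G, hG⟩ := h1
  rw [← hF, hG, map_mul]
  have h2 : Polynomial.aeval ζ (Polynomial.cyclotomic c ℤ) = 0 := by
    rw [Polynomial.cyclotomic_eq_minpoly hζ hc]
    exact minpoly.aeval ℤ ζ
  rw [h2, zero_mul]

theorem nrm_eq_zero {c : ℕ} {f : ℕ → ℤ} : nrm c f = 0 ↔ ∀ k, k < c → f k = 0 := by
  unfold nrm
  rw [sum_eq_zero_iff]
  constructor
  · intro h k hk
    exact Int.natAbs_eq_zero.1 (h k (mem_range.2 hk))
  · intro h k hk
    rw [h k (mem_range.1 hk)]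
    rfl

/-! ### Rearrangements -/

theorem range_mul_sum {M : Type*} [AddCommMonoid M] (q c₁ : ℕ) (hq : 0 < q) (g : ℕ → M) :
    ∑ k ∈ range (q * c₁), g k = ∑ s ∈ range q, ∑ j ∈ range c₁, g (s + q * j) := by
  rw [← sum_product' (f := fun s j => g (s + q * j))]
  refine sum_nbij' (fun k => (k % q, k / q)) (fun p => p.1 + q * p.2) ?_ ?_ ?_ ?_ ?_
  · intro k hk
    rw [mem_range] at hk
    rw [mem_product, mem_range, mem_range]
    exact ⟨Nat.mod_lt _ hq, Nat.div_lt_of_lt_mul hk⟩
  · rintro ⟨s, j⟩ h
    rw [mem_product, mem_range, mem_range] at h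
    rw [mem_range]
    simp only at h ⊢
    calc s + q * j < q + q * j := by omega
      _ = q * (j + 1) := by ring
      _ ≤ q * c₁ := Nat.mul_le_mul_left q h.2
  · intro k _
    exact Nat.mod_add_div k q
  · rintro ⟨s, j⟩ h
    rw [mem_product, mem_range, mem_range] at h
    simp only at h ⊢
    rw [Nat.add_mul_mod_self_left, Nat.mod_eq_of_lt h.1, Nat.add_mul_div_left _ _ hq,
      Nat.div_eq_of_lt h.1, zero_add]
  · intro k _
    simp only
    rw [Nat.mod_add_div k q]

/-- the Chinese remainder -/
def crt {q c₁ : ℕ} (h : Nat.Coprime q c₁) (s i : ℕ) : ℕ := (Nat.chineseRemainder h s i : ℕ)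

theorem range_mul_sum' {M : Type*} [AddCommMonoid M] {q c₁ : ℕ} (hq : 0 < q) (hc : 0 < c₁)
    (h : Nat.Coprime q c₁) (g : ℕ → M) :
    ∑ k ∈ range (q * c₁), g k = ∑ s ∈ range q, ∑ i ∈ range c₁, g (crt h s i) := by
  rw [← sum_product' (f := fun s i => g (crt h s i))]
  have key : ∀ k, k < q * c₁ → crt h (k % q) (k % c₁) = k := by
    intro k hk
    unfold crt
    have h1 := (Nat.chineseRemainder h (k % q) (k % c₁)).2
    have h2 := Nat.chineseRemainder_lt_mul h (k % q) (k % c₁) hq.ne' hc.ne'
    have h3 : (Nat.chineseRemainder h (k % q) (k % c₁) : ℕ) ≡ k [MOD q * c₁] := by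
      rw [← Nat.modEq_and_modEq_iff_modEq_mul h]
      exact ⟨h1.1.trans (Nat.mod_modEq k q), h1.2.trans (Nat.mod_modEq k c₁)⟩
    exact Nat.ModEq.eq_of_lt_of_lt h3 h2 hk
  refine sum_nbij' (fun k => (k % q, k % c₁)) (fun p => crt h p.1 p.2) ?_ ?_ ?_ ?_ ?_
  · intro k hk
    rw [mem_product, mem_range, mem_range]
    exact ⟨Nat.mod_lt _ hq, Nat.mod_lt _ hc⟩
  · rintro ⟨s, i⟩ _
    rw [mem_range]
    exact Nat.chineseRemainder_lt_mul h s i hq.ne' hc.ne'
  · intro k hk
    exact key k (mem_range.1 hk)
  · rintro ⟨s, i⟩ hp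
    rw [mem_product, mem_range, mem_range] at hp
    simp only at hp ⊢
    have h1 := (Nat.chineseRemainder h s i).2
    have h2 : crt h s i % q = s := by
      have := h1.1
      unfold Nat.ModEq at this
      unfold crt
      rw [this, Nat.mod_eq_of_lt hp.1]
    have h3 : crt h s i % c₁ = i := by
      have := h1.2
      unfold Nat.ModEq at this
      unfold crt
      rw [this, Nat.mod_eq_of_lt hp.2]
    rw [h2, h3]
  · intro k hk
    simp only
    rw [key k (mem_range.1 hk)]

/-! ### Orthogonality -/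

theorem orth {q : ℕ} (hq : 0 < q) {η : ℂ} (hη : IsPrimitiveRoot η q) (t : ℕ) :
    ∑ i ∈ range q, η ^ (i * t) = if q ∣ t then (q : ℂ) else 0 := by
  have h1 : ∀ i, η ^ (i * t) = (η ^ t) ^ i := by
    intro i
    rw [mul_comm, pow_mul]
  rw [sum_congr rfl fun i _ => h1 i]
  split_ifs with h
  · rw [(hη.pow_eq_one_iff_dvd t).2 h]
    simp
  · have h2 : η ^ t ≠ 1 := fun h' => h ((hη.pow_eq_one_iff_dvd t).1 h')
    have h3 := mul_neg_geom_sum (η ^ t) q
    rw [← pow_mul, mul_comm t q, pow_mul, hη.pow_eq_one, one_pow, sub_self] at h3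
    exact (mul_eq_zero.1 h3).resolve_left (sub_ne_zero.2 h2.symm)

theorem dvd_iff_eq {q r s : ℕ} (hr : r < q) (hs : s < q) : q ∣ r + (q - s) ↔ r = s := by
  constructor
  · rintro ⟨k, hk⟩
    have h1 : 0 < r + (q - s) := by omega
    have h2 : r + (q - s) < 2 * q := by omega
    have h3 : k = 1 := by
      have a1 : k ≠ 0 := by
        rintro rfl
        omega
      have a2 : k < 2 := by
        by_contra h
        push Not at h
        have := Nat.mul_le_mul_left q h
        omega
      omega
    subst h3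
    omega
  · rintro rfl
    have : r + (q - r) = q := by omega
    rw [this]

/-- Fourier inversion: if all non-trivial Fourier coefficients vanish, the function is constant. -/
theorem const_of_fourier {q : ℕ} (hq : q.Prime) {η : ℂ} (hη : IsPrimitiveRoot η q) (G : ℕ → ℂ)
    (h : ∀ a, 1 ≤ a → a < q → ∑ r ∈ range q, G r * η ^ (a * r) = 0) (s : ℕ) (hs : s < q) :
    (q : ℂ) * G s = ∑ r ∈ range q, G r := by
  have h1 : ∑ a ∈ range q, η ^ (a * (q - s)) * ∑ r ∈ range q, G r * η ^ (a * r) =
      ∑ r ∈ range q, G r := by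
    rw [sum_eq_single_of_mem 0 (mem_range.2 hq.pos)]
    · simp
    · intro a ha ha0
      rw [h a (by omega) (mem_range.1 ha), mul_zero]
  rw [← h1]
  have h2 : ∀ a ∈ range q, η ^ (a * (q - s)) * ∑ r ∈ range q, G r * η ^ (a * r) =
      ∑ r ∈ range q, G r * η ^ (a * (r + (q - s))) := by
    intro a _
    rw [mul_sum]
    apply sum_congr rfl
    intro r _
    rw [mul_add, pow_add]
    ring
  rw [sum_congr rfl h2, sum_comm, sum_eq_single_of_mem s (mem_range.2 hs)]
  · rw [← mul_sum, orth hq.pos hη, if_pos ((dvd_iff_eq hs hs).2 rfl), mul_comm]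
  · intro r hr hrs
    rw [← mul_sum, orth hq.pos hη, if_neg (fun h => hrs ((dvd_iff_eq (mem_range.1 hr) hs).1 h)), mul_zero]

/-! ### Splitting off a prime: the ramified case -/

theorem split_dvd {q c₁ : ℕ} (hq : q.Prime) (hc : 0 < c₁) (hdvd : q ∣ c₁) {f : ℕ → ℤ}
    (hv : van (q * c₁) f) (s : ℕ) (hs : s < q) : van c₁ (fun j => f (s + q * j)) := by
  have hpos : 0 < q * c₁ := Nat.mul_pos hq.pos hc
  let ζ : ℂ := Complex.exp (2 * Real.pi * Complex.I / (q * c₁ : ℕ))
  have hζ : IsPrimitiveRoot ζ (q * c₁) := Complex.isPrimitiveRoot_exp _ hpos.ne'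
  have hη : IsPrimitiveRoot (ζ ^ c₁) q := hζ.pow hpos (mul_comm _ _)
  have hξ : IsPrimitiveRoot (ζ ^ q) c₁ := hζ.pow hpos rfl
  have h1 : ∀ i, ∑ k ∈ range (q * c₁), (f k : ℂ) * ζ ^ k * (ζ ^ c₁) ^ (i * k) = 0 := by
    intro i
    have hcop : Nat.Coprime (1 + c₁ * i) (q * c₁) := by
      have a1 : Nat.Coprime (1 + c₁ * i) c₁ := by
        rw [Nat.coprime_add_mul_left_left]
        exact Nat.coprime_one_left c₁
      exact Nat.Coprime.mul_right (Nat.Coprime.coprime_dvd_right hdvd a1) a1
    have h2 := hv _ (hζ.pow_of_coprime _ hcop)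
    unfold S at h2
    rw [← h2]
    apply sum_congr rfl
    intro k _
    rw [mul_assoc, ← pow_mul, ← pow_mul, ← pow_add]
    congr 2
    ring
  have h2 : ∑ i ∈ range q, (ζ ^ c₁) ^ (i * (q - s)) *
      ∑ k ∈ range (q * c₁), (f k : ℂ) * ζ ^ k * (ζ ^ c₁) ^ (i * k) = 0 := by
    apply sum_eq_zero
    intro i _
    rw [h1 i, mul_zero]
  have h3 : ∑ i ∈ range q, (ζ ^ c₁) ^ (i * (q - s)) *
      ∑ k ∈ range (q * c₁), (f k : ℂ) * ζ ^ k * (ζ ^ c₁) ^ (i * k) =
      ∑ k ∈ range (q * c₁), (f k : ℂ) * ζ ^ k * if q ∣ k + (q - s) then (q : ℂ) else 0 := by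
    simp only [mul_sum]
    rw [sum_comm]
    apply sum_congr rfl
    intro k _
    rw [← orth hq.pos hη, mul_sum]
    apply sum_congr rfl
    intro i _
    rw [mul_add, pow_add]
    ring
  rw [h3, range_mul_sum q c₁ hq.pos, sum_eq_single_of_mem s (mem_range.2 hs)] at h2
  · have h4 : ∑ j ∈ range c₁, ((f (s + q * j) : ℤ) : ℂ) * ζ ^ (s + q * j) *
        (if q ∣ s + q * j + (q - s) then (q : ℂ) else 0) =
        (q * ζ ^ s) * S c₁ (fun j => f (s + q * j)) (ζ ^ q) := by
      unfold S
      rw [mul_sum]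
      apply sum_congr rfl
      intro j _
      rw [if_pos (by
        have : s + q * j + (q - s) = q * (j + 1) := by
          have : q * (j + 1) = q * j + q := by ring
          omega
        rw [this]
        exact Nat.dvd_mul_right _ _), pow_add, ← pow_mul]
      ring
    rw [h4] at h2
    have h5 : (q * ζ ^ s : ℂ) ≠ 0 := by
      apply mul_ne_zero
      · exact_mod_cast hq.pos.ne'
      · exact pow_ne_zero _ (hζ.ne_zero hpos.ne')
    exact van_of_one hc _ hξ ((mul_eq_zero.1 h2).resolve_left h5)
  · intro r hr hrs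
    apply sum_eq_zero
    intro j _
    rw [if_neg, mul_zero]
    intro h
    apply hrs
    rw [mem_range] at hr
    have h4 : r + q * j + (q - s) = (r + (q - s)) + q * j := by omega
    rw [h4] at h
    exact (dvd_iff_eq hr hs).1 ((Nat.dvd_add_left (Nat.dvd_mul_right q j)).1 h)

/-! ### Splitting off a prime: the unramified case -/

theorem split_coprime {q c₁ : ℕ} (hq : q.Prime) (hc : 0 < c₁) (h : Nat.Coprime q c₁) {f : ℕ → ℤ}
    (hv : van (q * c₁) f) (s s' : ℕ) (hs : s < q) (hs' : s' < q) :
    van c₁ (fun i => f (crt h s i) - f (crt h s' i)) := by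
  intro ξ hξ
  let η : ℂ := Complex.exp (2 * Real.pi * Complex.I / (q : ℕ))
  have hη : IsPrimitiveRoot η q := Complex.isPrimitiveRoot_exp _ hq.pos.ne'
  let G : ℕ → ℂ := fun r => S c₁ (fun i => f (crt h r i)) ξ
  have h1 : ∀ a, 1 ≤ a → a < q → ∑ r ∈ range q, G r * η ^ (a * r) = 0 := by
    intro a ha1 ha2
    have hηa : IsPrimitiveRoot (η ^ a) q := by
      apply hη.pow_of_coprime
      rw [Nat.coprime_comm]
      exact (Nat.Prime.coprime_iff_not_dvd hq).2 fun hd => by
        have := Nat.le_of_dvd ha1 hd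
        omega
    have hprim : IsPrimitiveRoot (η ^ a * ξ) (q * c₁) := by
      have h2 : orderOf (η ^ a * ξ) = q * c₁ := by
        rw [(Commute.all (η ^ a) ξ).orderOf_mul_eq_mul_orderOf_of_coprime]
        · rw [← hηa.eq_orderOf, ← hξ.eq_orderOf]
        · rw [← hηa.eq_orderOf, ← hξ.eq_orderOf]
          exact h
      rw [← h2]
      exact IsPrimitiveRoot.orderOf _
    have h3 := hv _ hprim
    unfold S at h3
    rw [range_mul_sum' hq.pos hc h] at h3
    rw [← h3]
    apply sum_congr rfl
    intro r _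
    show S c₁ (fun i => f (crt h r i)) ξ * η ^ (a * r) = _
    unfold S
    rw [sum_mul]
    apply sum_congr rfl
    intro i _
    have h4 := (Nat.chineseRemainder h r i).2
    have e1 : ξ ^ (crt h r i) = ξ ^ i := by
      have : crt h r i % c₁ = i % c₁ := h4.2
      rw [← pow_mod_orderOf ξ (crt h r i), ← pow_mod_orderOf ξ i, ← hξ.eq_orderOf, this]
    have e2 : (η ^ a) ^ (crt h r i) = (η ^ a) ^ r := by
      have : crt h r i % q = r % q := h4.1
      rw [← pow_mod_orderOf (η ^ a) (crt h r i), ← pow_mod_orderOf (η ^ a) r, ← hηa.eq_orderOf, this]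
    rw [mul_pow, e1, e2, ← pow_mul]
    ring
  have h2 := const_of_fourier hq hη G h1 s hs
  have h3 := const_of_fourier hq hη G h1 s' hs'
  have h4 : (q : ℂ) ≠ 0 := by exact_mod_cast hq.pos.ne'
  have h5 : G s = G s' := mul_left_cancel₀ h4 (h2.trans h3.symm)
  have h6 : S c₁ (fun i => f (crt h s i) - f (crt h s' i)) ξ = G s - G s' := by
    show _ = S c₁ (fun i => f (crt h s i)) ξ - S c₁ (fun i => f (crt h s' i)) ξ
    unfold S
    rw [← sum_sub_distrib]
    apply sum_congr rfl
    intro i _
    push_cast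
    ring
  rw [h6, h5, sub_self]

/-! ### The main induction -/

theorem comb {P : ℕ} (q : ℕ) (N : ℕ → ℕ) (h : ∀ s, s < q → (N s = 0 ∨ P ≤ N s) ∧
    (N s < 2 * P → N s = 0 ∨ Odd (N s))) :
    ((∑ s ∈ range q, N s) = 0 ∨ P ≤ ∑ s ∈ range q, N s) ∧
    ((∑ s ∈ range q, N s) < 2 * P → (∑ s ∈ range q, N s) = 0 ∨ Odd (∑ s ∈ range q, N s)) := by
  induction q with
  | zero => simp
  | succ q ih =>
    obtain ⟨h1, h2⟩ := ih fun s hs => h s (by omega)
    obtain ⟨h3, h4⟩ := h q (by omega)
    rw [sum_range_succ]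
    rcases h3 with h3 | h3
    · rw [h3, add_zero]
      exact ⟨h1, h2⟩
    · rcases h1 with h1 | h1
      · rw [h1, zero_add]
        exact ⟨Or.inr h3, h4⟩
      · refine ⟨Or.inr (by omega), fun h5 => by omega⟩

theorem nrm_sub_le (c : ℕ) (f g : ℕ → ℤ) : nrm c (fun i => f i - g i) ≤ nrm c f + nrm c g := by
  unfold nrm
  rw [← sum_add_distrib]
  apply sum_le_sum
  intro i _
  exact Int.natAbs_sub_le _ _

theorem main (P : ℕ) (c : ℕ) : 0 < c → Odd c → (∀ q, q.Prime → q ∣ c → P ≤ q) →
    ∀ f : ℕ → ℤ, van c f → (nrm c f = 0 ∨ P ≤ nrm c f) ∧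
      (nrm c f < 2 * P → nrm c f = 0 ∨ Odd (nrm c f)) := by
  induction c using Nat.strong_induction_on with
  | _ c ih =>
    intro hc hodd hprime f hv
    rcases Nat.lt_or_ge 1 c with hc1 | hc1
    · -- choose the largest prime factor
      have hne : c.primeFactors.Nonempty := by
        rw [Nat.nonempty_primeFactors]
        exact hc1
      obtain ⟨q, hq, hmax⟩ := c.primeFactors.exists_max_image id hne
      have hqp : q.Prime := Nat.prime_of_mem_primeFactors hq
      obtain ⟨c₁, rfl⟩ := Nat.dvd_of_mem_primeFactors hq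
      have hc₁ : 0 < c₁ := Nat.pos_of_mul_pos_left hc
      have hlt : c₁ < q * c₁ := by
        have := hqp.two_le
        nlinarith
      have hodd₁ : Odd c₁ := (Nat.odd_mul.1 hodd).2
      have hprime₁ : ∀ r, r.Prime → r ∣ c₁ → P ≤ r := fun r h1 h2 =>
        hprime r h1 (Dvd.dvd.mul_left h2 q)
      have hPq : P ≤ q := hprime q hqp (Nat.dvd_mul_right q c₁)
      by_cases hdvd : q ∣ c₁
      · -- ramified
        have hn : nrm (q * c₁) f = ∑ s ∈ range q, nrm c₁ (fun j => f (s + q * j)) :=
          range_mul_sum q c₁ hqp.pos _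
        rw [hn]
        apply comb
        intro s hs
        exact ih c₁ hlt hc₁ hodd₁ hprime₁ _ (split_dvd hqp hc₁ hdvd hv s hs)
      · -- unramified
        have hcop : Nat.Coprime q c₁ := (Nat.Prime.coprime_iff_not_dvd hqp).2 hdvd
        have hn : nrm (q * c₁) f = ∑ s ∈ range q, nrm c₁ (fun i => f (crt hcop s i)) :=
          range_mul_sum' hqp.pos hc₁ hcop _
        have hdiff : ∀ s s', s < q → s' < q → _ := fun s s' hs hs' =>
          ih c₁ hlt hc₁ hodd₁ hprime₁ _ (split_coprime hqp hc₁ hcop hv s s' hs hs')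
        rw [hn]
        by_cases hz : ∃ r₀, r₀ < q ∧ nrm c₁ (fun i => f (crt hcop r₀ i)) = 0
        · obtain ⟨r₀, hr₀, hz⟩ := hz
          apply comb
          intro s hs
          have h1 := hdiff s r₀ hs hr₀
          have h2 : nrm c₁ (fun i => f (crt hcop s i) - f (crt hcop r₀ i)) =
              nrm c₁ (fun i => f (crt hcop s i)) := by
            unfold nrm
            apply sum_congr rfl
            intro i hi
            have := nrm_eq_zero.1 hz i (mem_range.1 hi)
            show (f (crt hcop s i) - f (crt hcop r₀ i)).natAbs = (f (crt hcop s i)).natAbs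
            rw [this, sub_zero]
          rw [h2] at h1
          exact h1
        · push Not at hz
          have hge : ∀ s ∈ range q, 1 ≤ nrm c₁ (fun i => f (crt hcop s i)) := by
            intro s hs
            have := hz s (mem_range.1 hs)
            omega
          have hsum : q ≤ ∑ s ∈ range q, nrm c₁ (fun i => f (crt hcop s i)) := by
            calc q = ∑ _s ∈ range q, 1 := by simp
              _ ≤ _ := sum_le_sum hge
          refine ⟨Or.inr (by omega), fun hlt2 => Or.inr ?_⟩
          have hex : ∃ r₀, r₀ < q ∧ nrm c₁ (fun i => f (crt hcop r₀ i)) = 1 := by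
            by_contra hcon
            push Not at hcon
            have : q * 2 ≤ ∑ s ∈ range q, nrm c₁ (fun i => f (crt hcop s i)) := by
              calc q * 2 = ∑ _s ∈ range q, 2 := by simp
                _ ≤ _ := by
                  apply sum_le_sum
                  intro s hs
                  have h1 := hge s hs
                  have h2 := hcon s (mem_range.1 hs)
                  omega
            omega
          obtain ⟨r₀, hr₀, h1⟩ := hex
          have hall : ∀ s, s < q → nrm c₁ (fun i => f (crt hcop s i) - f (crt hcop r₀ i)) = 0 := by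
            intro s hs
            by_contra hne0
            have h2 := (hdiff s r₀ hs hr₀).1.resolve_left hne0
            have h3 := nrm_sub_le c₁ (fun i => f (crt hcop s i)) (fun i => f (crt hcop r₀ i))
            -- `c₁ > 1`
            have hc₁1 : c₁ ≠ 1 := by
              rintro rfl
              have h4 := split_coprime hqp hc₁ hcop hv s r₀ hs hr₀ 1 IsPrimitiveRoot.one
              unfold S at h4
              rw [range_one, sum_singleton, pow_zero, mul_one] at h4
              apply hne0
              unfold nrm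
              rw [range_one, sum_singleton, Int.natAbs_eq_zero]
              exact_mod_cast h4
            obtain ⟨r, hr, hrd⟩ := Nat.exists_prime_and_dvd hc₁1
            have h5 : r ≤ q := hmax r (Nat.mem_primeFactors.2
              ⟨hr, Dvd.dvd.mul_left hrd q, hc.ne'⟩)
            have h6 : r ≠ q := by
              rintro rfl
              exact hdvd hrd
            have h7 : P ≤ r := hprime₁ r hr hrd
            have h8 : Odd r := Odd.of_dvd_nat hodd₁ hrd
            have h9 : Odd q := (Nat.odd_mul.1 hodd).1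
            have h10 : r + 2 ≤ q := by
              obtain ⟨a, ha⟩ := h8
              obtain ⟨b, hb⟩ := h9
              omega
            -- lower bound for the sum
            have h11 : (q - 1) + nrm c₁ (fun i => f (crt hcop s i)) ≤
                ∑ s ∈ range q, nrm c₁ (fun i => f (crt hcop s i)) := by
              rw [← add_sum_erase (range q) _ (mem_range.2 hs), add_comm]
              apply Nat.add_le_add_left
              calc q - 1 = ∑ _s ∈ (range q).erase s, 1 := by
                    rw [sum_const, card_erase_of_mem (mem_range.2 hs), card_range]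
                    simp
                _ ≤ _ := sum_le_sum fun s' hs' => hge s' (mem_of_mem_erase hs')
            omega
          have hall' : ∀ s ∈ range q, nrm c₁ (fun i => f (crt hcop s i)) = 1 := by
            intro s hs
            rw [← h1]
            unfold nrm
            apply sum_congr rfl
            intro i hi
            have := nrm_eq_zero.1 (hall s (mem_range.1 hs)) i (mem_range.1 hi)
            show (f (crt hcop s i)).natAbs = (f (crt hcop r₀ i)).natAbs
            rw [sub_eq_zero.1 this]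
          rw [sum_congr rfl hall']
          simp only [sum_const, card_range, smul_eq_mul, mul_one]
          exact (Nat.odd_mul.1 hodd).1
    · have : c = 1 := by omega
      subst this
      have h1 := hv 1 IsPrimitiveRoot.one
      unfold S at h1
      rw [range_one, sum_singleton, pow_zero, mul_one] at h1
      have h2 : nrm 1 f = 0 := by
        unfold nrm
        rw [range_one, sum_singleton, Int.natAbs_eq_zero]
        exact_mod_cast h1
      exact ⟨Or.inl h2, fun _ => Or.inl h2⟩

/-! ### Sums of cosines -/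

/-- `j/2` modulo `c` -/
def kap (c j : ℕ) : ℕ := if j % 2 = 0 then j / 2 else (j + c) / 2

/-- `(-1)^j` -/
def eps (j : ℕ) : ℤ := if j % 2 = 0 then 1 else -1

theorem kap_bd {c j : ℕ} (hc : c % 2 = 1) (h1 : 1 ≤ j) (h2 : j < c) : 0 < kap c j ∧ kap c j < c := by
  unfold kap
  split_ifs <;> omega

theorem kap_inj {c j j' : ℕ} (hc : c % 2 = 1) (h1 : 1 ≤ j) (h2 : j < c) (h1' : 1 ≤ j') (h2' : j' < c) :
    kap c j' = kap c j ↔ j' = j := by
  unfold kap
  split_ifs <;> omega

theorem kap_sum {c j j' : ℕ} (hc : c % 2 = 1) (h1 : 1 ≤ j) (h2 : j < c) (h1' : 1 ≤ j') (h2' : j' < c) :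
    c - kap c j' = kap c j ↔ j' = c - j := by
  unfold kap
  split_ifs <;> omega

theorem root_cos {c k : ℕ} (hc : 0 < c) (hk : k < c) :
    (Complex.exp (2 * Real.pi * Complex.I / (c : ℕ))) ^ k +
      (Complex.exp (2 * Real.pi * Complex.I / (c : ℕ))) ^ (c - k) =
      ((2 * Real.cos (2 * Real.pi * k / c) : ℝ) : ℂ) := by
  have hc' : (c : ℂ) ≠ 0 := by exact_mod_cast hc.ne'
  have h1 : (Complex.exp (2 * Real.pi * Complex.I / (c : ℕ))) ^ k =
      Complex.exp (((2 * Real.pi * k / c : ℝ) : ℂ) * Complex.I) := by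
    rw [← Complex.exp_nat_mul]
    congr 1
    push_cast
    field_simp
  have h2 : (Complex.exp (2 * Real.pi * Complex.I / (c : ℕ))) ^ (c - k) =
      Complex.exp (-((2 * Real.pi * k / c : ℝ) : ℂ) * Complex.I) := by
    rw [← Complex.exp_nat_mul, Nat.cast_sub hk.le]
    have : ((c : ℂ) - k) * (2 * Real.pi * Complex.I / c) =
        -((2 * Real.pi * k / c : ℝ) : ℂ) * Complex.I + 2 * Real.pi * Complex.I := by
      push_cast
      field_simp
      ring
    rw [this, Complex.exp_add, Complex.exp_two_pi_mul_I, mul_one]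
  rw [h1, h2]
  push_cast
  rw [Complex.cos]
  ring

theorem cos_kap {c j : ℕ} (hc : c % 2 = 1) :
    (eps j : ℝ) * Real.cos (2 * Real.pi * (kap c j : ℕ) / c) = Real.cos (Real.pi * j / c) := by
  have hc' : (c : ℝ) ≠ 0 := by
    have : c ≠ 0 := by omega
    exact_mod_cast this
  unfold eps kap
  split_ifs with h
  · have h1 : (2 * (j / 2) : ℕ) = j := by omega
    have h2 : (2 : ℝ) * ((j / 2 : ℕ) : ℝ) = j := by exact_mod_cast h1
    have h3 : 2 * Real.pi * ((j / 2 : ℕ) : ℝ) / c = Real.pi * j / c := by
      rw [← h2]; ring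
    rw [h3]
    norm_num
  · have h1 : (2 * ((j + c) / 2) : ℕ) = j + c := by omega
    have h2 : (2 : ℝ) * (((j + c) / 2 : ℕ) : ℝ) = j + c := by exact_mod_cast h1
    have h3 : 2 * Real.pi * (((j + c) / 2 : ℕ) : ℝ) / c = Real.pi * j / c + Real.pi := by
      have : 2 * Real.pi * (((j + c) / 2 : ℕ) : ℝ) = Real.pi * (j + c) := by
        rw [← h2]; ring
      rw [this]
      field_simp
    rw [h3, Real.cos_add_pi]
    norm_num

theorem cast_natAbs (a : ℤ) : ((a.natAbs : ℕ) : ZMod 2) = (a : ZMod 2) := by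
  rcases Int.natAbs_eq a with h | h
  · conv_rhs => rw [h, Int.cast_natCast]
  · conv_rhs => rw [h, Int.cast_neg, Int.cast_natCast, CharTwo.neg_eq]

/-- If `c` is odd, `m` is odd and all prime factors of `c` exceed `m`, then no `m` distinct
numbers `cos (π j / c)`, `1 ≤ j < c`, sum to zero. -/
theorem noSum {c m : ℕ} (hc : Odd c) (hm : Odd m) (hprime : ∀ q, q.Prime → q ∣ c → m < q)
    (T : Finset ℕ) (hT : ∀ j ∈ T, 1 ≤ j ∧ j < c) (hcard : #T = m) :
    ∑ j ∈ T, Real.cos (Real.pi * j / c) ≠ 0 := by
  intro hsum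
  have hc2 : c % 2 = 1 := Nat.odd_iff.1 hc
  have hc0 : 0 < c := by omega
  set ξ : ℂ := Complex.exp (2 * Real.pi * Complex.I / (c : ℕ)) with hξ
  have hprim : IsPrimitiveRoot ξ c := Complex.isPrimitiveRoot_exp _ hc0.ne'
  let f : ℕ → ℤ := fun k => ∑ j ∈ T, eps j * ((if kap c j = k then 1 else 0) +
    (if c - kap c j = k then 1 else 0))
  have hS : S c f ξ = 0 := by
    have h1 : S c f ξ = ∑ j ∈ T, (eps j : ℂ) * (ξ ^ kap c j + ξ ^ (c - kap c j)) := by
      unfold S
      have h2 : ∀ k ∈ range c, ((f k : ℤ) : ℂ) * ξ ^ k = ∑ j ∈ T, (eps j : ℂ) *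
          ((if kap c j = k then ξ ^ k else 0) + (if c - kap c j = k then ξ ^ k else 0)) := by
        intro k _
        show ((∑ j ∈ T, eps j * ((if kap c j = k then 1 else 0) +
          (if c - kap c j = k then 1 else 0)) : ℤ) : ℂ) * ξ ^ k = _
        push_cast
        rw [sum_mul]
        apply sum_congr rfl
        intro j _
        split_ifs <;> ring
      rw [sum_congr rfl h2, sum_comm]
      apply sum_congr rfl
      intro j hj
      have hb := kap_bd hc2 (hT j hj).1 (hT j hj).2
      rw [← mul_sum, sum_add_distrib, sum_ite_eq, sum_ite_eq,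
        if_pos (mem_range.2 hb.2), if_pos (mem_range.2 (by omega))]
    rw [h1]
    have h2 : ∀ j ∈ T, (eps j : ℂ) * (ξ ^ kap c j + ξ ^ (c - kap c j)) =
        ((2 * Real.cos (Real.pi * j / c) : ℝ) : ℂ) := by
      intro j hj
      have hb := kap_bd hc2 (hT j hj).1 (hT j hj).2
      rw [hξ, root_cos hc0 hb.2, ← cos_kap (c := c) (j := j) hc2]
      push_cast
      ring
    rw [sum_congr rfl h2, ← Complex.ofReal_sum, ← mul_sum, hsum]
    simp
  have hv : van c f := van_of_one hc0 f hprim hS
  have hle : nrm c f ≤ 2 * m := by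
    unfold nrm
    calc ∑ k ∈ range c, (f k).natAbs ≤ ∑ k ∈ range c, ∑ j ∈ T,
          ((if kap c j = k then 1 else 0) + (if c - kap c j = k then 1 else 0)) := by
          apply sum_le_sum
          intro k _
          refine (Int.natAbs_sum_le _ _).trans ?_
          apply sum_le_sum
          intro j _
          rw [Int.natAbs_mul]
          have : (eps j).natAbs = 1 := by
            unfold eps
            split_ifs <;> rfl
          rw [this, one_mul]
          split_ifs <;> simp
      _ = ∑ j ∈ T, 2 := by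
          rw [sum_comm]
          apply sum_congr rfl
          intro j hj
          have hb := kap_bd hc2 (hT j hj).1 (hT j hj).2
          rw [sum_add_distrib, sum_ite_eq, sum_ite_eq,
            if_pos (mem_range.2 hb.2), if_pos (mem_range.2 (by omega))]
      _ = 2 * m := by rw [sum_const, hcard, smul_eq_mul, mul_comm]
  have hpar : ¬ Odd (nrm c f) := by
    rw [Nat.not_odd_iff_even, ← ZMod.natCast_eq_zero_iff_even]
    have h1 : ((nrm c f : ℕ) : ZMod 2) = ∑ k ∈ range c, ((f k : ℤ) : ZMod 2) := by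
      unfold nrm
      rw [Nat.cast_sum]
      apply sum_congr rfl
      intro k _
      exact cast_natAbs (f k)
    rw [h1]
    show ∑ k ∈ range c, ((∑ j ∈ T, eps j * ((if kap c j = k then 1 else 0) +
          (if c - kap c j = k then 1 else 0)) : ℤ) : ZMod 2) = 0
    push_cast
    rw [sum_comm]
    apply sum_eq_zero
    intro j hj
    have hb := kap_bd hc2 (hT j hj).1 (hT j hj).2
    rw [← mul_sum, sum_add_distrib, sum_ite_eq, sum_ite_eq,
            if_pos (mem_range.2 hb.2), if_pos (mem_range.2 (by omega))]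
    have : (1 + 1 : ZMod 2) = 0 := by decide
    rw [this, mul_zero]
  have hzero : nrm c f = 0 := by
    have h1 := (main (m + 1) c hc0 hc (fun q hq hqc => hprime q hq hqc) f hv).2 (by omega)
    exact h1.resolve_right hpar
  rw [nrm_eq_zero] at hzero
  have hclosed : ∀ j ∈ T, c - j ∈ T := by
    intro j hj
    by_contra hnot
    have hj' := hT j hj
    have hb := kap_bd hc2 hj'.1 hj'.2
    have h1 := hzero (kap c j) hb.2
    have h2 : f (kap c j) = eps j := by
      show ∑ j' ∈ T, eps j' * ((if kap c j' = kap c j then 1 else 0) +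
          (if c - kap c j' = kap c j then 1 else 0)) = eps j
      rw [sum_eq_single_of_mem j hj]
      · have h3 : ¬ (c - kap c j = kap c j) := by
          rw [kap_sum hc2 hj'.1 hj'.2 hj'.1 hj'.2]
          omega
        rw [if_pos rfl, if_neg h3]
        ring
      · intro j' hj2 hne
        have hj2' := hT j' hj2
        have h3 : ¬ (kap c j' = kap c j) := by
          rw [kap_inj hc2 hj'.1 hj'.2 hj2'.1 hj2'.2]
          exact hne
        have h4 : ¬ (c - kap c j' = kap c j) := by
          rw [kap_sum hc2 hj'.1 hj'.2 hj2'.1 hj2'.2]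
          rintro rfl
          exact hnot hj2
        rw [if_neg h3, if_neg h4]
        ring
    rw [h2] at h1
    unfold eps at h1
    split_ifs at h1 <;> omega
  have heven : ((#T : ℕ) : ZMod 2) = 0 := by
    rw [card_eq_sum_ones]
    push_cast
    refine sum_involution (fun j _ => c - j) ?_ ?_ ?_ ?_
    · intro j _
      decide
    · intro j hj _
      have := hT j hj
      omega
    · intro j hj
      exact hclosed j hj
    · intro j hj
      have := hT j hj
      omega
  rw [ZMod.natCast_eq_zero_iff_even, hcard] at heven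
  exact (Nat.not_even_iff_odd.2 hm) heven

/-! ### Vanishing sums of cosines -/

theorem cos_compl {c j : ℕ} (hc : 0 < c) (hj : j ≤ c) :
    Real.cos (Real.pi * ((c - j : ℕ) : ℝ) / c) = - Real.cos (Real.pi * j / c) := by
  have hc' : (c : ℝ) ≠ 0 := by exact_mod_cast hc.ne'
  rw [Nat.cast_sub hj]
  have : Real.pi * ((c : ℝ) - j) / c = Real.pi - Real.pi * j / c := by field_simp
  rw [this, Real.cos_pi_sub]

theorem pair_sum {c : ℕ} (hc : 0 < c) (B : Finset ℕ) (hB : ∀ j ∈ B, 1 ≤ j ∧ j < c)
    (hd : Disjoint B (B.image fun j => c - j)) :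
    #(B ∪ B.image fun j => c - j) = 2 * #B ∧
    ∑ j ∈ B ∪ B.image (fun j => c - j), Real.cos (Real.pi * j / c) = 0 ∧
    ∀ j ∈ B ∪ B.image (fun j => c - j), 1 ≤ j ∧ j < c := by
  have hinj : Set.InjOn (fun j => c - j) (B : Set ℕ) := by
    intro j hj j' hj' h
    have h1 := hB j hj
    have h2 := hB j' hj'
    simp only at h
    omega
  refine ⟨?_, ?_, ?_⟩
  · rw [card_union_of_disjoint hd, card_image_of_injOn hinj, two_mul]
  · rw [sum_union hd, sum_image hinj, ← sum_add_distrib]
    apply sum_eq_zero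
    intro j hj
    rw [cos_compl hc (hB j hj).2.le]
    ring
  · intro j hj
    rcases mem_union.1 hj with hj | hj
    · exact hB j hj
    · obtain ⟨i, hi, rfl⟩ := mem_image.1 hj
      have := hB i hi
      omega

theorem cos_gon {p d : ℕ} (hp : 1 < p) (hd : 0 < d) :
    ∑ i ∈ range p, Real.cos (2 * Real.pi * ((1 + d * i : ℕ) : ℝ) / ((p * d : ℕ) : ℝ)) = 0 := by
  have hprim : IsPrimitiveRoot (Complex.exp (2 * Real.pi * Complex.I / (p : ℕ))) p :=
    Complex.isPrimitiveRoot_exp _ (by omega)
  have h1 := hprim.geom_sum_eq_zero hp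
  have hp' : (p : ℂ) ≠ 0 := by
    have : p ≠ 0 := by omega
    exact_mod_cast this
  have hd' : (d : ℂ) ≠ 0 := by exact_mod_cast hd.ne'
  have h2 : ∀ i ∈ range p, Complex.exp (((2 * Real.pi * ((1 + d * i : ℕ) : ℝ) / ((p * d : ℕ) : ℝ) : ℝ) : ℂ) *
      Complex.I) = Complex.exp (2 * Real.pi * Complex.I / ((p * d : ℕ) : ℂ)) *
      (Complex.exp (2 * Real.pi * Complex.I / (p : ℕ))) ^ i := by
    intro i _
    rw [← Complex.exp_nat_mul, ← Complex.exp_add]
    congr 1
    push_cast
    field_simp
  have h3 : (∑ i ∈ range p, Complex.exp (((2 * Real.pi * ((1 + d * i : ℕ) : ℝ) /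
      ((p * d : ℕ) : ℝ) : ℝ) : ℂ) * Complex.I)) = 0 := by
    rw [sum_congr rfl h2, ← mul_sum, h1, mul_zero]
  have h4 := congrArg Complex.re h3
  rw [Complex.re_sum, Complex.zero_re] at h4
  rw [← h4]
  apply sum_congr rfl
  intro i _
  rw [Complex.exp_ofReal_mul_I_re]

theorem exSum {m n : ℕ} (hm : 1 ≤ m) (hn : 1 ≤ n)
    (h : ¬ (Odd m ∧ Odd n ∧ ∀ q, q.Prime → q ∣ m + n + 1 → min m n < q)) :
    ∃ T : Finset ℕ, (∀ j ∈ T, 1 ≤ j ∧ j < m + n + 1) ∧ #T = m ∧
      ∑ j ∈ T, Real.cos (Real.pi * j / ((m + n + 1 : ℕ) : ℝ)) = 0 := by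
  set c := m + n + 1 with hc
  have hc0 : 0 < c := by omega
  -- the basic pairs
  have hbase : ∀ r, 2 * r < c → Disjoint (Icc 1 r) ((Icc 1 r).image fun j => c - j) ∧
      ∀ j ∈ Icc 1 r, 1 ≤ j ∧ j < c := by
    intro r hr
    constructor
    · rw [disjoint_left]
      intro j hj hj'
      obtain ⟨i, hi, rfl⟩ := mem_image.1 hj'
      rw [mem_Icc] at hi hj
      omega
    · intro j hj
      rw [mem_Icc] at hj
      omega
  rcases Nat.even_or_odd m with hme | hmo
  · -- `m` even
    obtain ⟨r, hr⟩ := hme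
    obtain ⟨h1, h2⟩ := hbase r (by omega)
    obtain ⟨a1, a2, a3⟩ := pair_sum hc0 _ h2 h1
    refine ⟨_, a3, ?_, a2⟩
    rw [a1, Nat.card_Icc]
    omega
  · rcases Nat.even_or_odd n with hne | hno
    · -- `m` odd, `n` even
      obtain ⟨r, hr⟩ := hmo
      obtain ⟨s, hs⟩ := hne
      obtain ⟨h1, h2⟩ := hbase r (by omega)
      obtain ⟨a1, a2, a3⟩ := pair_sum hc0 _ h2 h1
      have hnot : c / 2 ∉ Icc 1 r ∪ (Icc 1 r).image (fun j => c - j) := by
        intro hmem
        rcases mem_union.1 hmem with hmem | hmem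
        · rw [mem_Icc] at hmem
          omega
        · obtain ⟨i, hi, hi2⟩ := mem_image.1 hmem
          rw [mem_Icc] at hi
          omega
      refine ⟨insert (c / 2) (Icc 1 r ∪ (Icc 1 r).image (fun j => c - j)), ?_, ?_, ?_⟩
      · intro j hj
        rcases mem_insert.1 hj with rfl | hj
        · omega
        · exact a3 j hj
      · rw [card_insert_of_notMem hnot, a1, Nat.card_Icc]
        omega
      · rw [sum_insert hnot, a2, add_zero]
        have h3 : (c : ℝ) = 2 * ((c / 2 : ℕ) : ℝ) := by
          have : c = 2 * (c / 2) := by omega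
          exact_mod_cast this
        have h4 : ((c / 2 : ℕ) : ℝ) ≠ 0 := by
          have : c / 2 ≠ 0 := by omega
          exact_mod_cast this
        have h5 : Real.pi * ((c / 2 : ℕ) : ℝ) / (c : ℝ) = Real.pi / 2 := by
          rw [h3]
          field_simp
        rw [h5, Real.cos_pi_div_two]
    · -- both odd
      have hex : ∃ q, q.Prime ∧ q ∣ c ∧ q ≤ m ∧ q ≤ n := by
        by_contra hcon
        apply h
        refine ⟨hmo, hno, fun q hq hqc => ?_⟩
        by_contra hlt
        apply hcon
        exact ⟨q, hq, hqc, by omega, by omega⟩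
      obtain ⟨p, hp, ⟨d, hd⟩, hpm, hpn⟩ := hex
      have hco : c % 2 = 1 := by
        rw [Nat.odd_iff] at hmo hno
        omega
      have hcodd : Odd (p * d) := by
        rw [← hd]
        exact Nat.odd_iff.2 hco
      obtain ⟨hpo, hdo⟩ := Nat.odd_mul.1 hcodd
      have hd3 : 3 ≤ d := by
        rcases Nat.lt_or_ge d 3 with hlt | hge
        · exfalso
          rw [Nat.odd_iff] at hdo
          have : d = 1 := by omega
          rw [this, mul_one] at hd
          omega
        · exact hge
      let J : ℕ → ℕ := fun i => if 2 * (1 + d * i) < c then 2 * (1 + d * i) else 2 * c - 2 * (1 + d * i)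
      have hx : ∀ i, i < p → d * i + d ≤ c := by
        intro i hi
        calc d * i + d = d * (i + 1) := by ring
          _ ≤ d * p := Nat.mul_le_mul_left d hi
          _ = c := by rw [hd, mul_comm]
      have hJ : ∀ i, i < p → 1 ≤ J i ∧ J i < c ∧ J i % 2 = 0 := by
        intro i hi
        have := hx i hi
        show 1 ≤ (if 2 * (1 + d * i) < c then 2 * (1 + d * i) else 2 * c - 2 * (1 + d * i)) ∧ _ ∧ _
        simp only [J]
        split_ifs <;> omega
      have hJinj : Set.InjOn J (range p : Set ℕ) := by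
        intro i hi i' hi' heq
        rw [mem_coe, mem_range] at hi hi'
        have b1 := hx i hi
        have b2 := hx i' hi'
        simp only [J] at heq
        have h1 : d * i = d * i' ∨ 2 + d * i + d * i' = c := by
          split_ifs at heq <;> omega
        rcases h1 with h1 | h1
        · exact Nat.eq_of_mul_eq_mul_left (by omega) h1
        · exfalso
          have h2 : d ∣ 2 := by
            have h3 : d ∣ 2 + (d * i + d * i') := by
              rw [← add_assoc, h1, hd]
              exact Nat.dvd_mul_left d p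
            exact (Nat.dvd_add_left (Dvd.intro (i + i') (by ring))).1 h3
          have := Nat.le_of_dvd (by norm_num) h2
          omega
      let S₀ := (range p).image J
      have hS₀card : #S₀ = p := by
        rw [card_image_of_injOn hJinj, card_range]
      have hS₀sum : ∑ j ∈ S₀, Real.cos (Real.pi * j / (c : ℝ)) = 0 := by
        rw [sum_image hJinj, ← cos_gon hp.one_lt (by omega : 0 < d)]
        apply sum_congr rfl
        intro i hi
        rw [mem_range] at hi
        have b1 := hx i hi
        rw [← hd]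
        have hc' : (c : ℝ) ≠ 0 := by exact_mod_cast hc0.ne'
        simp only [J]
        split_ifs with h1
        · congr 1
          push_cast
          ring
        · rw [Nat.cast_sub (by omega)]
          have : Real.pi * (((2 * c : ℕ) : ℝ) - ((2 * (1 + d * i) : ℕ) : ℝ)) / c =
              2 * Real.pi - 2 * Real.pi * ((1 + d * i : ℕ) : ℝ) / c := by
            push_cast
            field_simp
          rw [this, Real.cos_two_pi_sub]
      let E' := (Icc 1 ((c - 1) / 2)).image (fun x => 2 * x)
      have hE'card : #E' = (c - 1) / 2 := by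
        rw [card_image_of_injective _ (fun a b (hab : 2 * a = 2 * b) => by omega), Nat.card_Icc]
        omega
      have hsub : S₀ ⊆ E' := by
        intro j hj
        obtain ⟨i, hi, rfl⟩ := mem_image.1 hj
        rw [mem_range] at hi
        have b := hJ i hi
        rw [mem_image]
        refine ⟨J i / 2, ?_, by omega⟩
        rw [mem_Icc]
        omega
      obtain ⟨B, hB, hBcard⟩ : ∃ B ⊆ E' \ S₀, #B = (m - p) / 2 := by
        apply exists_subset_card_eq
        rw [card_sdiff_of_subset hsub, hE'card, hS₀card]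
        omega
      have hBmem : ∀ j ∈ B, 1 ≤ j ∧ j < c ∧ j % 2 = 0 ∧ j ∉ S₀ := by
        intro j hj
        have h1 := hB hj
        rw [mem_sdiff] at h1
        obtain ⟨x, hx, rfl⟩ := mem_image.1 h1.1
        rw [mem_Icc] at hx
        exact ⟨by omega, by omega, by omega, h1.2⟩
      have hdis : Disjoint B (B.image fun j => c - j) := by
        rw [disjoint_left]
        intro j hj hj'
        obtain ⟨i, hi, rfl⟩ := mem_image.1 hj'
        have b1 := hBmem _ hj
        have b2 := hBmem _ hi
        omega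
      obtain ⟨a1, a2, a3⟩ := pair_sum hc0 B (fun j hj => ⟨(hBmem j hj).1, (hBmem j hj).2.1⟩) hdis
      have hdis2 : Disjoint S₀ (B ∪ B.image fun j => c - j) := by
        rw [disjoint_left]
        intro j hj hj'
        rcases mem_union.1 hj' with hj' | hj'
        · exact (hBmem j hj').2.2.2 hj
        · obtain ⟨i, hi, rfl⟩ := mem_image.1 hj'
          obtain ⟨i', hi', h5⟩ := mem_image.1 hj
          rw [mem_range] at hi'
          have b1 := hJ i' hi'
          have b2 := hBmem _ hi
          omega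
      refine ⟨S₀ ∪ (B ∪ B.image fun j => c - j), ?_, ?_, ?_⟩
      · intro j hj
        rcases mem_union.1 hj with hj | hj
        · obtain ⟨i, hi, rfl⟩ := mem_image.1 hj
          rw [mem_range] at hi
          have b := hJ i hi
          omega
        · exact a3 j hj
      · rw [card_union_of_disjoint hdis2, hS₀card, a1, hBcard]
        rw [Nat.odd_iff] at hmo hpo
        omega
      · rw [sum_union hdis2, hS₀sum, a2, add_zero]

theorem total_sum (c : ℕ) (hc : 0 < c) : ∑ j ∈ Icc 1 (c - 1), Real.cos (Real.pi * j / c) = 0 := by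
  have h1 : ∑ j ∈ Icc 1 (c - 1), Real.cos (Real.pi * j / c) =
      ∑ j ∈ Icc 1 (c - 1), - Real.cos (Real.pi * j / c) := by
    refine sum_nbij' (fun j => c - j) (fun j => c - j) ?_ ?_ ?_ ?_ ?_
    · intro j hj
      rw [mem_Icc] at hj ⊢
      omega
    · intro j hj
      rw [mem_Icc] at hj ⊢
      omega
    · intro j hj
      rw [mem_Icc] at hj
      omega
    · intro j hj
      rw [mem_Icc] at hj
      omega
    · intro j hj
      rw [mem_Icc] at hj
      rw [cos_compl hc (by omega), neg_neg]
  rw [sum_neg_distrib] at h1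
  linarith

/-- The complete criterion for sums of `m` distinct numbers `cos (π j / (m+n+1))`. -/
theorem criterion {m n : ℕ} (hm : 1 ≤ m) (hn : 1 ≤ n) :
    (∃ T : Finset ℕ, (∀ j ∈ T, 1 ≤ j ∧ j < m + n + 1) ∧ #T = m ∧
      ∑ j ∈ T, Real.cos (Real.pi * j / ((m + n + 1 : ℕ) : ℝ)) = 0) ↔
    ¬ (Odd m ∧ Odd n ∧ ∀ q, q.Prime → q ∣ m + n + 1 → min m n < q) := by
  constructor
  · rintro ⟨T, hT, hcard, hsum⟩ ⟨hmo, hno, hprime⟩
    have hc : Odd (m + n + 1) := by
      rw [Nat.odd_iff] at *
      omega
    rcases Nat.le_total m n with hmn | hmn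
    · rw [min_eq_left hmn] at hprime
      exact noSum hc hmo hprime T hT hcard hsum
    · rw [min_eq_right hmn] at hprime
      have hsub : T ⊆ Icc 1 (m + n + 1 - 1) := by
        intro j hj
        have := hT j hj
        rw [mem_Icc]
        omega
      refine noSum hc hno hprime (Icc 1 (m + n + 1 - 1) \ T) ?_ ?_ ?_
      · intro j hj
        rw [mem_sdiff, mem_Icc] at hj
        omega
      · rw [card_sdiff_of_subset hsub, hcard, Nat.card_Icc]
        omega
      · have h1 := sum_sdiff (f := fun j : ℕ => Real.cos (Real.pi * j / ((m + n + 1 : ℕ) : ℝ))) hsub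
        rw [total_sum (m + n + 1) (by omega), hsum, add_zero] at h1
        exact h1
  · exact exSum hm hn

end Pool.Agent.V11176.RootSums
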