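import Mathlib

/-!
Divided differences on `ℤ[x_0, x_1, …]`, elementary symmetric polynomials of initial
segments of the variables, and the braid relations.
-/

namespace V11176.Sem

open MvPolynomial

/-- Polynomials in `X 0, X 1, …` (so `X k` is the variable `x_{k+1}`). -/
abbrev Poly := MvPolynomial ℕ ℤ

/-- The substitution exchanging `X i` and `X (i+1)`. -/
noncomputable def sw (i : ℕ) : Poly →ₐ[ℤ] Poly := rename (Equiv.swap i (i + 1))

/-- `X i - X (i+1)`. -/
noncomputable def al (i : ℕ) : Poly := X i - X (i + 1)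

lemma sw_X (i k : ℕ) : sw i (X k) = X (Equiv.swap i (i + 1) k) := by
  simp [sw]

lemma sw_X_left (i : ℕ) : sw i (X i) = X (i + 1) := by simp [sw_X]

lemma sw_X_right (i : ℕ) : sw i (X (i + 1)) = X i := by simp [sw_X]

lemma sw_X_ne (i k : ℕ) (h1 : k ≠ i) (h2 : k ≠ i + 1) : sw i (X k) = X k := by
  rw [sw_X, Equiv.swap_apply_of_ne_of_ne h1 h2]

lemma al_ne (i : ℕ) : al i ≠ 0 := by
  intro h
  have := sub_eq_zero.mp h
  have := X_injective (R := ℤ) this
  omega

lemma sw_sw (i : ℕ) (f : Poly) : sw i (sw i f) = f := by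
  unfold sw
  rw [rename_rename]
  have : ((Equiv.swap i (i + 1) : ℕ → ℕ) ∘ (Equiv.swap i (i + 1) : ℕ → ℕ)) = id := by
    funext k; simp
  rw [this, rename_id]
  rfl

lemma sw_al (i : ℕ) : sw i (al i) = - al i := by
  unfold al
  rw [map_sub, sw_X_left, sw_X_right]; ring

/-- commuting exchanges -/
lemma sw_comm (i j : ℕ) (h : i + 1 < j) (f : Poly) : sw i (sw j f) = sw j (sw i f) := by
  unfold sw
  rw [rename_rename, rename_rename]
  congr 2
  funext k
  simp only [Function.comp]
  rw [← Equiv.Perm.mul_apply, ← Equiv.Perm.mul_apply]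
  congr 1
  apply Equiv.Perm.Disjoint.commute
  intro x
  by_cases hx : x = i ∨ x = i + 1
  · right
    apply Equiv.swap_apply_of_ne_of_ne <;> omega
  · left
    push Not at hx
    exact Equiv.swap_apply_of_ne_of_ne hx.1 hx.2

lemma sw_braid (i : ℕ) (f : Poly) :
    sw i (sw (i + 1) (sw i f)) = sw (i + 1) (sw i (sw (i + 1) f)) := by
  unfold sw
  rw [rename_rename, rename_rename, rename_rename, rename_rename]
  congr 2
  funext k
  simp only [Function.comp]
  simp only [Equiv.swap_apply_def]
  split_ifs <;> omega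

theorem exists_dd (i : ℕ) (f : Poly) : ∃ g : Poly, al i * g = f - sw i f := by
  induction f using MvPolynomial.induction_on with
  | C a => exact ⟨0, by simp [sw]⟩
  | add p q hp hq =>
    obtain ⟨g, hg⟩ := hp
    obtain ⟨h, hh⟩ := hq
    exact ⟨g + h, by rw [map_add, mul_add, hg, hh]; ring⟩
  | mul_X p k hp =>
    obtain ⟨g, hg⟩ := hp
    by_cases h1 : k = i
    · subst h1
      refine ⟨g * X k + sw k p, ?_⟩
      rw [map_mul, sw_X_left, mul_add, ← mul_assoc, hg]
      unfold al; ring
    · by_cases h2 : k = i + 1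
      · subst h2
        refine ⟨g * X (i + 1) - sw i p, ?_⟩
        rw [map_mul, sw_X_right, mul_sub, ← mul_assoc, hg]
        unfold al; ring
      · refine ⟨g * X k, ?_⟩
        rw [map_mul, sw_X_ne i k h1 h2, ← mul_assoc, hg]; ring

/-- The divided difference `∂_i f = (f - s_i f) / (X i - X (i+1))`. -/
noncomputable def dd (i : ℕ) (f : Poly) : Poly := (exists_dd i f).choose

lemma dd_spec (i : ℕ) (f : Poly) : al i * dd i f = f - sw i f := (exists_dd i f).choose_spec

lemma dd_unique (i : ℕ) (f g : Poly) (h : al i * g = f - sw i f) : dd i f = g :=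
  mul_left_cancel₀ (al_ne i) (by rw [dd_spec, h])

lemma dd_add (i : ℕ) (f g : Poly) : dd i (f + g) = dd i f + dd i g := by
  apply dd_unique
  rw [mul_add, dd_spec, dd_spec, map_add]; ring

lemma dd_zero (i : ℕ) : dd i 0 = 0 := by
  apply dd_unique; simp

lemma dd_mul (i : ℕ) (f g : Poly) : dd i (f * g) = dd i f * g + sw i f * dd i g := by
  apply dd_unique
  rw [map_mul, mul_add, ← mul_assoc, dd_spec]
  have := dd_spec i g
  linear_combination (sw i f) * this

lemma dd_of_sym (i : ℕ) (f : Poly) (h : sw i f = f) : dd i f = 0 := by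
  apply dd_unique; rw [h]; ring

lemma sym_of_dd (i : ℕ) (f : Poly) (h : dd i f = 0) : sw i f = f := by
  have := dd_spec i f
  rw [h, mul_zero] at this
  exact (sub_eq_zero.mp this.symm).symm

lemma dd_sym_mul (i : ℕ) (f g : Poly) (h : sw i f = f) : dd i (f * g) = f * dd i g := by
  rw [dd_mul, dd_of_sym i f h, h]; ring

lemma sw_dd (i : ℕ) (f : Poly) : sw i (dd i f) = dd i f := by
  apply mul_left_cancel₀ (al_ne i)
  rw [dd_spec]
  have h := congrArg (sw i) (dd_spec i f)
  rw [map_mul, sw_al, map_sub, sw_sw] at h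
  linear_combination -h

lemma dd_dd (i : ℕ) (f : Poly) : dd i (dd i f) = 0 := dd_of_sym _ _ (sw_dd i f)

lemma sw_al_far (i j : ℕ) (h : i + 1 < j) : sw i (al j) = al j := by
  unfold al
  rw [map_sub, sw_X_ne i j (by omega) (by omega), sw_X_ne i (j + 1) (by omega) (by omega)]

lemma sw_al_far' (i j : ℕ) (h : i + 1 < j) : sw j (al i) = al i := by
  unfold al
  rw [map_sub, sw_X_ne j i (by omega) (by omega), sw_X_ne j (i + 1) (by omega) (by omega)]

lemma dd_comm (i j : ℕ) (h : i + 1 < j) (f : Poly) : dd i (dd j f) = dd j (dd i f) := by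
  apply mul_left_cancel₀ (mul_ne_zero (al_ne i) (al_ne j))
  have h1 := dd_spec i (dd j f)
  have h2 := dd_spec j (dd i f)
  have h3 := dd_spec i f
  have h4 := dd_spec j f
  have h5 := congrArg (sw i) h4
  rw [map_mul, sw_al_far i j h, map_sub] at h5
  have h6 := congrArg (sw j) h3
  rw [map_mul, sw_al_far' i j h, map_sub] at h6
  have h7 := sw_comm i j h f
  linear_combination (al j) * h1 - (al i) * h2 - h5 + h6 + h4 - h3 + h7

lemma dd_braid (i : ℕ) (f : Poly) :
    dd i (dd (i + 1) (dd i f)) = dd (i + 1) (dd i (dd (i + 1) f)) := by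
  have hc : (X i - X (i + 1 + 1) : Poly) ≠ 0 := by
    intro h
    have := X_injective (R := ℤ) (sub_eq_zero.mp h)
    omega
  apply mul_left_cancel₀ (mul_ne_zero (mul_ne_zero (al_ne i) (al_ne (i + 1))) hc)
  have eb : sw i (al (i + 1)) = X i - X (i + 1 + 1) := by
    unfold al
    rw [map_sub, sw_X_right, sw_X_ne i (i + 1 + 1) (by omega) (by omega)]
  have ec : sw i (X i - X (i + 1 + 1)) = al (i + 1) := by
    unfold al
    rw [map_sub, sw_X_left, sw_X_ne i (i + 1 + 1) (by omega) (by omega)]
  have ea' : sw (i + 1) (al i) = X i - X (i + 1 + 1) := by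
    unfold al
    rw [map_sub, sw_X_left, sw_X_ne (i + 1) i (by omega) (by omega)]
  have ec' : sw (i + 1) (X i - X (i + 1 + 1)) = al i := by
    unfold al
    rw [map_sub, sw_X_right, sw_X_ne (i + 1) i (by omega) (by omega)]
  -- left side
  have l1 := dd_spec i f
  have l2 := dd_spec (i + 1) (dd i f)
  have l3 := dd_spec i (dd (i + 1) (dd i f))
  have l2' := congrArg (sw i) l2
  rw [map_mul, eb, map_sub, sw_dd] at l2'
  have l1' := congrArg (sw (i + 1)) l1
  rw [map_mul, ea', map_sub] at l1'
  have l1'' := congrArg (sw i) l1'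
  rw [map_mul, ec, map_sub] at l1''
  -- right side
  have r1 := dd_spec (i + 1) f
  have r2 := dd_spec i (dd (i + 1) f)
  have r3 := dd_spec (i + 1) (dd i (dd (i + 1) f))
  have r2' := congrArg (sw (i + 1)) r2
  rw [map_mul, ea', map_sub, sw_dd] at r2'
  have r1' := congrArg (sw i) r1
  rw [map_mul, eb, map_sub] at r1'
  have r1'' := congrArg (sw (i + 1)) r1'
  rw [map_mul, ec', map_sub] at r1''
  have hb := sw_braid i f
  have L : al i * al (i + 1) * (X i - X (i + 1 + 1)) * dd i (dd (i + 1) (dd i f)) =
      f - sw i f - sw (i + 1) f + sw (i + 1) (sw i f) + sw i (sw (i + 1) f)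
        - sw i (sw (i + 1) (sw i f)) := by
    unfold al at *
    linear_combination (X (i + 1) - X (i + 1 + 1)) * (X i - X (i + 1 + 1)) * l3 +
      (X i - X (i + 1 + 1)) * l2 - (X (i + 1) - X (i + 1 + 1)) * l2' + l1 - l1' + l1''
  have R : al i * al (i + 1) * (X i - X (i + 1 + 1)) * dd (i + 1) (dd i (dd (i + 1) f)) =
      f - sw i f - sw (i + 1) f + sw (i + 1) (sw i f) + sw i (sw (i + 1) f)
        - sw (i + 1) (sw i (sw (i + 1) f)) := by
    unfold al at *
    linear_combination (X i - X (i + 1)) * (X i - X (i + 1 + 1)) * r3 +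
      (X i - X (i + 1 + 1)) * r2 - (X i - X (i + 1)) * r2' + r1 - r1' + r1''
  rw [L, R, hb]

/-! ### Elementary symmetric polynomials -/

/-- `e^i_j`: the elementary symmetric polynomial of degree `j` in `X 0, …, X (i-1)`. -/
noncomputable def es (i j : ℕ) : Poly :=
  ∑ t ∈ (Finset.range i).powersetCard j, ∏ k ∈ t, X k

lemma es_zero (i : ℕ) : es i 0 = 1 := by simp [es]

lemma es_zero_succ (j : ℕ) : es 0 (j + 1) = 0 := by
  unfold es
  rw [Finset.powersetCard_eq_empty.mpr (by simp)]
  simp

lemma es_succ (i j : ℕ) : es (i + 1) (j + 1) = es i (j + 1) + X i * es i j := by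
  unfold es
  rw [Finset.range_add_one, Finset.powersetCard_succ_insert (by simp),
    Finset.sum_union, Finset.sum_image, Finset.mul_sum]
  · congr 1
    apply Finset.sum_congr rfl
    intro t ht
    rw [Finset.prod_insert]
    intro h
    have := (Finset.mem_powersetCard.mp ht).1 h
    simp at this
  · intro s hs t ht hst
    have hs' : i ∉ s := fun h => by
      have := (Finset.mem_powersetCard.mp hs).1 h
      simp at this
    have ht' : i ∉ t := fun h => by
      have := (Finset.mem_powersetCard.mp ht).1 h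
      simp at this
    have := congrArg (fun u => Finset.erase u i) hst
    simpa [Finset.erase_insert hs', Finset.erase_insert ht'] using this
  · rw [Finset.disjoint_left]
    intro s hs hs'
    obtain ⟨t, ht, rfl⟩ := Finset.mem_image.mp hs'
    have := (Finset.mem_powersetCard.mp hs).1 (Finset.mem_insert_self i t)
    simp at this

lemma sw_es_high (k : ℕ) : ∀ i, i ≤ k → ∀ j, sw k (es i j) = es i j := by
  intro i
  induction i with
  | zero =>
    intro _ j
    cases j with
    | zero => rw [es_zero, map_one]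
    | succ j => rw [es_zero_succ, map_zero]
  | succ i ih =>
    intro hi j
    cases j with
    | zero => rw [es_zero, map_one]
    | succ j =>
      rw [es_succ, map_add, map_mul, ih (by omega), ih (by omega),
        sw_X_ne k i (by omega) (by omega)]

lemma sw_es_low (k : ℕ) : ∀ i, k + 2 ≤ i → ∀ j, sw k (es i j) = es i j := by
  intro i hi
  induction i, hi using Nat.le_induction with
  | base =>
    intro j
    cases j with
    | zero => rw [es_zero, map_one]
    | succ j =>
      rw [es_succ]
      have h1 : ∀ j, es (k + 1) j = (if j = 0 then 1 else es k j + X k * es k (j - 1)) := by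
        intro j
        cases j with
        | zero => simp [es_zero]
        | succ j => simp [es_succ]
      cases j with
      | zero =>
        rw [h1 1, es_zero]
        simp only [one_ne_zero, if_false, Nat.sub_self, es_zero, mul_one, zero_add]
        rw [map_add, map_add, sw_es_high k k le_rfl, sw_X_left, sw_X_right]
        ring
      | succ j =>
        rw [h1 (j + 1 + 1), h1 (j + 1)]
        simp only [Nat.add_eq_zero_iff, one_ne_zero, and_false, if_false, Nat.add_sub_cancel]
        rw [map_add, map_add, map_mul, map_mul, map_add, map_mul, sw_es_high k k le_rfl,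
          sw_es_high k k le_rfl, sw_es_high k k le_rfl, sw_X_left, sw_X_right]
        ring
  | succ i hi ih =>
    intro j
    cases j with
    | zero => rw [es_zero, map_one]
    | succ j =>
      rw [es_succ, map_add, map_mul, ih, ih, sw_X_ne k i (by omega) (by omega)]

lemma sw_es_top (k j : ℕ) : sw k (es (k + 1) (j + 1)) = es k (j + 1) + X (k + 1) * es k j := by
  rw [es_succ, map_add, map_mul, sw_es_high k k le_rfl, sw_es_high k k le_rfl, sw_X_left]

lemma dd_es_top (k j : ℕ) : dd k (es (k + 1) (j + 1)) = es k j := by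
  apply dd_unique
  rw [sw_es_top, es_succ]
  unfold al; ring

end V11176.Sem
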