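import Pool.Agent.V11176.SemOp

/-!
Schubert polynomials as a family indexed by `Equiv.Perm (Fin n)`, and their
indecomposability in the cone of polynomials on which all words of divided differences are
nonnegative at the origin.
-/

namespace V11176.Sem

open MvPolynomial

/-- The adjacent transposition `s_i` (positions `i`, `i+1`, counted from `0`). -/
def tr {n : ℕ} (i : ℕ) (hi : i + 1 < n) : Equiv.Perm (Fin n) :=
  Equiv.swap ⟨i, Nat.lt_of_succ_lt hi⟩ ⟨i + 1, hi⟩

/-- The number of inversions. -/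
def len {n : ℕ} (w : Equiv.Perm (Fin n)) : ℕ :=
  (Finset.univ.filter (fun p : Fin n × Fin n => p.1 < p.2 ∧ w p.2 < w p.1)).card

lemma tr_mul_tr {n : ℕ} (w : Equiv.Perm (Fin n)) (i : ℕ) (hi : i + 1 < n) :
    w * tr i hi * tr i hi = w := by
  rw [mul_assoc]; unfold tr; rw [Equiv.swap_mul_self, mul_one]

lemma tr_left {n : ℕ} (w : Equiv.Perm (Fin n)) (i : ℕ) (hi : i + 1 < n) (h : i < n) :
    (w * tr i hi) ⟨i, h⟩ = w ⟨i + 1, hi⟩ := by
  rw [Equiv.Perm.mul_apply]; unfold tr; rw [Equiv.swap_apply_left]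

lemma tr_right {n : ℕ} (w : Equiv.Perm (Fin n)) (i : ℕ) (hi : i + 1 < n) (h : i + 1 < n) :
    (w * tr i hi) ⟨i + 1, h⟩ = w ⟨i, Nat.lt_of_succ_lt hi⟩ := by
  rw [Equiv.Perm.mul_apply]; unfold tr; rw [Equiv.swap_apply_right]

lemma tr_ne {n : ℕ} (w : Equiv.Perm (Fin n)) (i : ℕ) (hi : i + 1 < n) (k : ℕ) (h : k < n)
    (h1 : k ≠ i) (h2 : k ≠ i + 1) : (w * tr i hi) ⟨k, h⟩ = w ⟨k, h⟩ := by
  rw [Equiv.Perm.mul_apply]; unfold tr
  rw [Equiv.swap_apply_of_ne_of_ne]
  · intro h3; exact h1 (Fin.mk.inj_iff.mp h3)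
  · intro h3; exact h2 (Fin.mk.inj_iff.mp h3)

lemma tr_lt {n : ℕ} (i : ℕ) (hi : i + 1 < n) (x y : Fin n) (hxy : x < y)
    (hne : ¬ (x.val = i ∧ y.val = i + 1)) : tr i hi x < tr i hi y := by
  unfold tr
  simp only [Equiv.swap_apply_def, Fin.ext_iff]
  rw [Fin.lt_def] at hxy
  split_ifs <;> simp only [Fin.lt_def] <;> omega

lemma len_tr {n : ℕ} (w : Equiv.Perm (Fin n)) (i : ℕ) (hi : i + 1 < n)
    (h : w ⟨i + 1, hi⟩ < w ⟨i, Nat.lt_of_succ_lt hi⟩) : len (w * tr i hi) + 1 = len w := by
  set a : Fin n := ⟨i, Nat.lt_of_succ_lt hi⟩ with ha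
  set b : Fin n := ⟨i + 1, hi⟩ with hb
  have htt : ∀ x, tr i hi (tr i hi x) = x := fun x => by unfold tr; exact Equiv.swap_apply_self _ _ x
  have hmem : (a, b) ∈ Finset.univ.filter
      (fun p : Fin n × Fin n => p.1 < p.2 ∧ w p.2 < w p.1) := by
    rw [Finset.mem_filter]
    refine ⟨Finset.mem_univ _, ?_, h⟩
    rw [Fin.lt_def]; simp [ha, hb]
  unfold len
  rw [← Finset.card_erase_add_one hmem]
  congr 1
  apply Finset.card_nbij' (fun p => (tr i hi p.1, tr i hi p.2))
    (fun p => (tr i hi p.1, tr i hi p.2))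
  · intro p hp
    simp only [Finset.coe_filter, Finset.mem_univ, true_and, Set.mem_ofPred_eq,
      Equiv.Perm.mul_apply] at hp
    have hne : ¬ (p.1.val = i ∧ p.2.val = i + 1) := by
      rintro ⟨h1, h2⟩
      have e1 : p.1 = a := Fin.ext h1
      have e2 : p.2 = b := Fin.ext h2
      have h3 := hp.2
      rw [e1, e2] at h3
      have t1 : tr i hi a = b := by unfold tr; exact Equiv.swap_apply_left _ _
      have t2 : tr i hi b = a := by unfold tr; exact Equiv.swap_apply_right _ _
      rw [t1, t2] at h3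
      exact lt_asymm h h3
    simp only [Finset.coe_erase, Finset.coe_filter, Finset.mem_univ, true_and,
      Set.mem_sdiff, Set.mem_ofPred_eq, Set.mem_singleton_iff]
    refine ⟨⟨tr_lt i hi _ _ hp.1 hne, hp.2⟩, ?_⟩
    intro h4
    have h5 := congrArg Prod.fst h4
    have h6 := congrArg Prod.snd h4
    simp only at h5 h6
    have h7 := congrArg (tr i hi) h5
    have h8 := congrArg (tr i hi) h6
    have t1 : tr i hi a = b := by unfold tr; exact Equiv.swap_apply_left _ _
    have t2 : tr i hi b = a := by unfold tr; exact Equiv.swap_apply_right _ _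
    rw [htt, t1] at h7
    rw [htt, t2] at h8
    have h9 := hp.1
    rw [h7, h8, Fin.lt_def] at h9
    simp [ha, hb] at h9
  · intro p hp
    simp only [Finset.coe_erase, Finset.coe_filter, Finset.mem_univ, true_and,
      Set.mem_sdiff, Set.mem_ofPred_eq, Set.mem_singleton_iff] at hp
    simp only [Finset.coe_filter, Finset.mem_univ, true_and, Set.mem_ofPred_eq,
      Equiv.Perm.mul_apply, htt]
    refine ⟨tr_lt i hi _ _ hp.1.1 ?_, hp.1.2⟩
    rintro ⟨h1, h2⟩
    exact hp.2 (Prod.ext (Fin.ext h1) (Fin.ext h2))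
  · intro p _
    simp [htt]
  · intro p _
    simp [htt]

lemma exists_desc {n : ℕ} (w : Equiv.Perm (Fin n)) (hw : w ≠ 1) :
    ∃ (i : ℕ) (hi : i + 1 < n), w ⟨i + 1, hi⟩ < w ⟨i, Nat.lt_of_succ_lt hi⟩ := by
  by_contra hcon
  push Not at hcon
  apply hw
  cases n with
  | zero => exact Subsingleton.elim _ _
  | succ n =>
    have hm : StrictMono w := by
      rw [Fin.strictMono_iff_lt_succ]
      intro i
      have h1 := hcon i.val (by have := i.isLt; omega)
      rcases lt_or_eq_of_le h1 with h | h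
      · exact h
      · exfalso
        have := w.injective h
        rw [Fin.mk.injEq] at this
        omega
    have h2 : hm.orderIsoOfSurjective w w.surjective = OrderIso.refl _ := Subsingleton.elim _ _
    ext x
    have h3 := DFunLike.congr_fun h2 x
    simpa using congrArg Fin.val h3

lemma exists_asc {n : ℕ} (w : Equiv.Perm (Fin n)) (hw : w ≠ Fin.revPerm) :
    ∃ (i : ℕ) (hi : i + 1 < n), w ⟨i, Nat.lt_of_succ_lt hi⟩ < w ⟨i + 1, hi⟩ := by
  have h1 : w * Fin.revPerm ≠ 1 := by
    intro h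
    apply hw
    have h2 : (Fin.revPerm : Equiv.Perm (Fin n)) * Fin.revPerm = 1 := by
      ext x; simp
    calc w = w * (Fin.revPerm * Fin.revPerm) := by rw [h2, mul_one]
      _ = Fin.revPerm := by rw [← mul_assoc, h, one_mul]
  obtain ⟨i, hi, h⟩ := exists_desc _ h1
  refine ⟨n - 2 - i, by omega, ?_⟩
  rw [Equiv.Perm.mul_apply, Equiv.Perm.mul_apply] at h
  have e1 : Fin.revPerm (⟨i + 1, hi⟩ : Fin n) = ⟨n - 2 - i, by omega⟩ := by
    apply Fin.ext
    simp only [Fin.revPerm_apply, Fin.val_rev]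
    omega
  have e2 : Fin.revPerm (⟨i, Nat.lt_of_succ_lt hi⟩ : Fin n) = ⟨n - 2 - i + 1, by omega⟩ := by
    apply Fin.ext
    simp only [Fin.revPerm_apply, Fin.val_rev]
    omega
  rw [e1, e2] at h
  exact h

lemma len_le {n : ℕ} (w : Equiv.Perm (Fin n)) : len w ≤ n * n := by
  unfold len
  refine (Finset.card_filter_le _ _).trans ?_
  simp

lemma down_ind {n : ℕ} (P : Equiv.Perm (Fin n) → Prop) (h0 : P Fin.revPerm)
    (h1 : ∀ w i hi, w ⟨i + 1, hi⟩ < w ⟨i, Nat.lt_of_succ_lt hi⟩ → P w → P (w * tr i hi)) :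
    ∀ w, P w := by
  intro w
  induction hk : n * n - len w using Nat.strong_induction_on generalizing w with
  | _ k ih =>
    by_cases hw : w = Fin.revPerm
    · rw [hw]; exact h0
    · obtain ⟨i, hi, h⟩ := exists_asc w hw
      have h2 : (w * tr i hi) ⟨i + 1, hi⟩ < (w * tr i hi) ⟨i, Nat.lt_of_succ_lt hi⟩ := by
        rw [tr_left, tr_right]; exact h
      have h3 := len_tr _ i hi h2
      rw [tr_mul_tr] at h3
      have h4 := len_le (w * tr i hi)
      have h5 := h1 _ i hi h2 (ih _ (by omega) (w * tr i hi) rfl)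
      rwa [tr_mul_tr] at h5

lemma len_rev (n : ℕ) : len (Fin.revPerm : Equiv.Perm (Fin n)) =
    ∑ i ∈ Finset.range n, (n - 1 - i) := by
  unfold len
  rw [Finset.card_filter, Fintype.sum_prod_type, Finset.sum_range]
  apply Finset.sum_congr rfl
  intro i _
  rw [← Fin.card_Ioi i, ← Finset.filter_lt_eq_Ioi, Finset.card_filter]
  apply Finset.sum_congr rfl
  intro j _
  simp [Fin.rev_lt_rev]

/-! ### Homogeneity via scaling -/

/-- The scaling `X i ↦ 2 X i`. -/
noncomputable def sc : Poly →ₐ[ℤ] Poly := aeval (fun i => 2 * X i)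

lemma sc_X (i : ℕ) : sc (X i) = 2 * X i := by unfold sc; simp

lemma sc_sw (i : ℕ) (f : Poly) : sc (sw i f) = sw i (sc f) := by
  have : sc.comp (sw i) = (sw i).comp sc := by
    apply MvPolynomial.algHom_ext
    intro k
    simp only [AlgHom.comp_apply, sw_X, sc_X, map_mul, map_ofNat]
  exact DFunLike.congr_fun this f

lemma cc_sc (f : Poly) : constantCoeff (sc f) = constantCoeff f := by
  induction f using MvPolynomial.induction_on with
  | C a => unfold sc; simp
  | add p q hp hq => rw [map_add, map_add, hp, hq, map_add]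
  | mul_X p k hp => rw [map_mul, map_mul, map_mul, sc_X]; simp

/-- Homogeneity of degree `d`, tested by scaling. -/
def Hom (d : ℕ) (f : Poly) : Prop := sc f = 2 ^ d * f

lemma hom_dd {d i : ℕ} {f : Poly} (h : Hom (d + 1) f) : Hom d (dd i f) := by
  unfold Hom at *
  apply mul_left_cancel₀ (mul_ne_zero (show (2 : Poly) ≠ 0 by norm_num) (al_ne i))
  have h1 := congrArg sc (dd_spec i f)
  have h2 : sc (al i) = 2 * al i := by
    unfold al; rw [map_sub, sc_X, sc_X]; ring
  have h3 : sw i (sc f) = 2 ^ (d + 1) * sw i f := by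
    rw [h, map_mul, map_pow, map_ofNat]
  rw [map_mul, map_sub, sc_sw, h3, h, h2] at h1
  rw [h1]
  have h4 := dd_spec i f
  linear_combination (-2 ^ (d + 1)) * h4

lemma hom_cc {d : ℕ} {f : Poly} (h : Hom (d + 1) f) : constantCoeff f = 0 := by
  have h1 := congrArg constantCoeff h
  rw [cc_sc, map_mul, map_pow, map_ofNat] at h1
  have h2 : (1 : ℤ) < 2 ^ (d + 1) := one_lt_pow₀ (by norm_num) (by omega)
  have h3 : (2 ^ (d + 1) - 1 : ℤ) * constantCoeff f = 0 := by linarith
  rcases mul_eq_zero.mp h3 with h4 | h4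
  · omega
  · exact h4

/-! ### Schubert polynomials -/

/-- The family of Schubert polynomials of `S_n`. -/
structure IsSchubert (n : ℕ) (S : Equiv.Perm (Fin n) → Poly) : Prop where
  top : S Fin.revPerm = ∏ i ∈ Finset.range n, X i ^ (n - 1 - i)
  step : ∀ (w : Equiv.Perm (Fin n)) (i : ℕ) (hi : i + 1 < n),
    len (w * tr i hi) + 1 = len w →
      (X i - X (i + 1)) * S (w * tr i hi) = S w - rename (Equiv.swap i (i + 1)) (S w)

section
variable {n : ℕ} {S : Equiv.Perm (Fin n) → Poly} (hS : IsSchubert n S)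
include hS

lemma dd_desc (w : Equiv.Perm (Fin n)) (i : ℕ) (hi : i + 1 < n)
    (h : w ⟨i + 1, hi⟩ < w ⟨i, Nat.lt_of_succ_lt hi⟩) : dd i (S w) = S (w * tr i hi) := by
  apply dd_unique
  exact hS.step w i hi (len_tr w i hi h)

lemma dd_asc (w : Equiv.Perm (Fin n)) (i : ℕ) (hi : i + 1 < n)
    (h : w ⟨i, Nat.lt_of_succ_lt hi⟩ < w ⟨i + 1, hi⟩) : dd i (S w) = 0 := by
  have h2 : (w * tr i hi) ⟨i + 1, hi⟩ < (w * tr i hi) ⟨i, Nat.lt_of_succ_lt hi⟩ := by
    rw [tr_left, tr_right]; exact h
  have h3 := dd_desc hS _ i hi h2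
  rw [tr_mul_tr] at h3
  rw [← h3, dd_dd]

lemma S_hom : ∀ w, Hom (len w) (S w) := by
  apply down_ind
  · unfold Hom
    rw [len_rev, hS.top, map_prod]
    simp only [map_pow, sc_X, mul_pow]
    rw [Finset.prod_mul_distrib, Finset.prod_pow_eq_pow_sum]
  · intro w i hi h hw
    rw [← dd_desc hS w i hi h]
    apply hom_dd
    rw [len_tr w i hi h]
    exact hw

lemma S_op : ∀ w, S w = 0 ∨ ∃ D, Op (n - 1) D ∧ S w = D (FF (n - 1) (fun i => i)) := by
  apply down_ind
  · right
    refine ⟨id, op_id _, ?_⟩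
    rw [id, FF_rho, hS.top]
    cases n with
    | zero => simp
    | succ n => rfl
  · intro w i hi h hw
    rw [← dd_desc hS w i hi h]
    rcases hw with hw | ⟨D, hD, hw⟩
    · left; rw [hw, dd_zero]
    · rw [hw]
      rcases op_closure (n - 1) D hD i (by omega) with h1 | ⟨D', hD', h1⟩
      · left; rw [h1]
      · right; exact ⟨D', hD', h1 _⟩

lemma S_supp (w : Equiv.Perm (Fin n)) : Supp (n - 1) (S w) := by
  rcases S_op hS w with h | ⟨D, hD, h⟩
  · rw [h]; exact supp_zero _
  · rw [h]; exact op_supp hD _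

lemma dd_S (i : ℕ) (w : Equiv.Perm (Fin n)) :
    dd i (S w) = 0 ∨ ∃ hi : i + 1 < n, w ⟨i + 1, hi⟩ < w ⟨i, Nat.lt_of_succ_lt hi⟩ ∧
      dd i (S w) = S (w * tr i hi) := by
  by_cases hi : i + 1 < n
  · rcases lt_trichotomy (w ⟨i + 1, hi⟩) (w ⟨i, Nat.lt_of_succ_lt hi⟩) with h | h | h
    · exact Or.inr ⟨hi, h, dd_desc hS w i hi h⟩
    · exfalso
      have := w.injective h
      rw [Fin.mk.injEq] at this
      omega
    · exact Or.inl (dd_asc hS w i hi h)
  · left
    exact dd_of_sym _ _ ((S_supp hS w).sw_eq (by omega))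

lemma dd_S' (i : ℕ) (f : Poly) (hf : f = 0 ∨ ∃ v, f = S v) :
    dd i f = 0 ∨ ∃ v, dd i f = S v := by
  rcases hf with h | ⟨v, h⟩
  · left; rw [h, dd_zero]
  · rw [h]
    rcases dd_S hS i v with h1 | ⟨_, _, h1⟩
    · exact Or.inl h1
    · exact Or.inr ⟨_, h1⟩

lemma seg_S : ∀ k m f, (f = 0 ∨ ∃ v, f = S v) → (seg m k f = 0 ∨ ∃ v, seg m k f = S v) := by
  intro k
  induction k with
  | zero => intro m f hf; exact hf
  | succ k ih => intro m f hf; exact dd_S' hS m _ (ih (m + 1) f hf)

lemma LL_S : ∀ m f, (f = 0 ∨ ∃ v, f = S v) → (LL m f = 0 ∨ ∃ v, LL m f = S v) := by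
  intro m
  induction m with
  | zero => intro f hf; exact hf
  | succ m ih => intro f hf; exact seg_S hS _ _ _ (ih f hf)

lemma cc_S (w : Equiv.Perm (Fin n)) (hw : w ≠ 1) : constantCoeff (S w) = 0 := by
  obtain ⟨i, hi, h⟩ := exists_desc w hw
  have h1 := len_tr w i hi h
  have h2 := S_hom hS w
  rw [← h1] at h2
  exact hom_cc h2

lemma S_one : S 1 = 1 := by
  have h1 : LL (n - 1) (S Fin.revPerm) = 1 := by
    rw [hS.top]
    have : (∏ i ∈ Finset.range n, (X i : Poly) ^ (n - 1 - i)) = FF (n - 1) (fun i => i) := by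
      rw [FF_rho]
      cases n with
      | zero => simp
      | succ n => rfl
    rw [this, LL_FF]
  rcases LL_S hS (n - 1) _ (Or.inr ⟨Fin.revPerm, rfl⟩) with h | ⟨v, h⟩
  · rw [h] at h1
    exact absurd h1.symm one_ne_zero
  · rw [h1] at h
    by_cases hv : v = 1
    · rw [← hv, ← h]
    · have := cc_S hS v hv
      rw [← h] at this
      simp at this

lemma S_ne (w : Equiv.Perm (Fin n)) : S w ≠ 0 := by
  induction hk : len w using Nat.strong_induction_on generalizing w with
  | _ k ih =>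
    by_cases hw : w = 1
    · rw [hw, S_one hS]; exact one_ne_zero
    · obtain ⟨i, hi, h⟩ := exists_desc w hw
      intro h0
      have h1 := dd_desc hS w i hi h
      rw [h0, dd_zero] at h1
      exact ih _ (by have := len_tr w i hi h; omega) (w * tr i hi) rfl h1.symm

end

/-- The cone of polynomials on which every word of divided differences is nonnegative at `0`. -/
def InC (f : Poly) : Prop := ∀ w : List ℕ, 0 ≤ constantCoeff (ddw w f)

lemma InC.dd {f : Poly} (h : InC f) (i : ℕ) : InC (V11176.Sem.dd i f) := by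
  intro w
  rw [← ddw_snoc]
  exact h _

lemma InC.add {f g : Poly} (hf : InC f) (hg : InC g) : InC (f + g) := by
  intro w
  rw [ddw_add, map_add]
  exact add_nonneg (hf w) (hg w)

lemma inC_zero : InC 0 := by
  intro w
  rw [ddw_zero]; simp

lemma ddw_C_mul (k : ℤ) (w : List ℕ) (f : Poly) : ddw w (C k * f) = C k * ddw w f := by
  induction w with
  | nil => rfl
  | cons i w ih => rw [ddw_cons, ih, dd_sym_mul i (C k) _ (by simp [sw])]; rfl

lemma InC.smul {f : Poly} (hf : InC f) {k : ℤ} (hk : 0 ≤ k) : InC (C k * f) := by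
  intro w
  rw [ddw_C_mul, map_mul, constantCoeff_C]
  exact mul_nonneg hk (hf w)

lemma inC_sum {ι : Type*} (s : Finset ι) (f : ι → Poly) (h : ∀ i ∈ s, InC (f i)) :
    InC (∑ i ∈ s, f i) := by
  classical
  induction s using Finset.induction_on with
  | empty => rw [Finset.sum_empty]; exact inC_zero
  | insert a s ha ih =>
    rw [Finset.sum_insert ha]
    exact (h a (Finset.mem_insert_self _ _)).add
      (ih (fun i hi => h i (Finset.mem_insert_of_mem hi)))

lemma InC.zero_of_add {f g : Poly} (hf : InC f) (hg : InC g) (h : f + g = 0) :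
    f = 0 ∧ g = 0 := by
  have h1 : ∀ w, constantCoeff (ddw w f) = 0 ∧ constantCoeff (ddw w g) = 0 := by
    intro w
    have h2 := congrArg (fun x => constantCoeff (ddw w x)) h
    simp only [ddw_add, ddw_zero, map_add, map_zero] at h2
    have h3 := hf w
    have h4 := hg w
    constructor <;> omega
  exact ⟨nondeg f (fun w => (h1 w).1), nondeg g (fun w => (h1 w).2)⟩

/-- Schubert polynomials are indecomposable in the cone. -/
theorem indecomposable {n : ℕ} {S : Equiv.Perm (Fin n) → Poly} (hS : IsSchubert n S)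
    (w : Equiv.Perm (Fin n)) (P Q : Poly) (hP : InC P) (hQ : InC Q) (h : S w = P + Q) :
    P = 0 ∨ Q = 0 := by
  induction hk : len w using Nat.strong_induction_on generalizing w P Q with
  | _ k ih =>
    have hdd : ∀ i, dd i (S w) = dd i P + dd i Q := fun i => by rw [h, dd_add]
    by_cases hw : w = 1
    · subst hw
      rw [S_one hS] at h hdd
      have hz : ∀ i, dd i P = 0 ∧ dd i Q = 0 := by
        intro i
        apply (hP.dd i).zero_of_add (hQ.dd i)
        rw [← hdd i, dd_of_sym _ _ (map_one _)]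
      have h1 := const_of_sym P (fun i => sym_of_dd i P (hz i).1)
      have h2 := const_of_sym Q (fun i => sym_of_dd i Q (hz i).2)
      have h3 := hP []
      have h4 := hQ []
      rw [ddw_nil] at h3 h4
      have h5 := congrArg constantCoeff h
      rw [map_add, map_one] at h5
      have h6 : constantCoeff P = 0 ∨ constantCoeff Q = 0 := by omega
      rcases h6 with h6 | h6
      · left; rw [h1, h6, C_0]
      · right; rw [h2, h6, C_0]
    · have hcc := congrArg constantCoeff h
      rw [cc_S hS w hw, map_add] at hcc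
      have h3 := hP []
      have h4 := hQ []
      rw [ddw_nil] at h3 h4
      have hcP : constantCoeff P = 0 := by omega
      have hcQ : constantCoeff Q = 0 := by omega
      by_contra hcon
      push Not at hcon
      obtain ⟨hP0, hQ0⟩ := hcon
      have hi : ∃ i, dd i P ≠ 0 := by
        by_contra hc
        push Not at hc
        apply hP0
        rw [const_of_sym P (fun i => sym_of_dd i P (hc i)), hcP, C_0]
      have hj : ∃ j, dd j Q ≠ 0 := by
        by_contra hc
        push Not at hc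
        apply hQ0
        rw [const_of_sym Q (fun i => sym_of_dd i Q (hc i)), hcQ, C_0]
      obtain ⟨i, hi⟩ := hi
      obtain ⟨j, hj⟩ := hj
      have key : ∀ l, (dd l P = 0 ∧ dd l Q = 0) ∨
          ∃ hl : l + 1 < n, w ⟨l + 1, hl⟩ < w ⟨l, Nat.lt_of_succ_lt hl⟩ ∧
            dd l (S w) = S (w * tr l hl) ∧ (dd l P = 0 ∨ dd l Q = 0) := by
        intro l
        rcases dd_S hS l w with h1 | ⟨hl, h1, h2⟩
        · left
          apply (hP.dd l).zero_of_add (hQ.dd l)
          rw [← hdd l, h1]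
        · right
          refine ⟨hl, h1, h2, ?_⟩
          apply ih _ (by have := len_tr w l hl h1; omega) (w * tr l hl) (dd l P) (dd l Q)
            (hP.dd l) (hQ.dd l) (by rw [← h2, hdd l]) rfl
      obtain ⟨hil, hid, hie, hiQ⟩ : ∃ hl : i + 1 < n,
          w ⟨i + 1, hl⟩ < w ⟨i, Nat.lt_of_succ_lt hl⟩ ∧ dd i P = S (w * tr i hl) ∧
            dd i Q = 0 := by
        rcases key i with h1 | ⟨hl, h1, h2, h5⟩
        · exact absurd h1.1 hi
        · rcases h5 with h5 | h5
          · exact absurd h5 hi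
          · exact ⟨hl, h1, by rw [← h2, hdd i, h5, add_zero], h5⟩
      obtain ⟨hjl, hjd, hjP⟩ : ∃ hl : j + 1 < n,
          w ⟨j + 1, hl⟩ < w ⟨j, Nat.lt_of_succ_lt hl⟩ ∧ dd j P = 0 := by
        rcases key j with h1 | ⟨hl, h1, h2, h5⟩
        · exact absurd h1.2 hj
        · rcases h5 with h5 | h5
          · exact ⟨hl, h1, h5⟩
          · exact absurd h5 hj
      rcases lt_trichotomy i j with hij | hij | hij
      · by_cases h6 : i + 1 < j
        · -- far apart
          have e1 : dd j (dd i P) = 0 := by rw [← dd_comm i j h6, hjP, dd_zero]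
          rw [hie, dd_desc hS _ j hjl (by
            rw [tr_ne _ _ _ _ _ (by omega) (by omega), tr_ne _ _ _ _ _ (by omega) (by omega)]
            exact hjd)] at e1
          exact S_ne hS _ e1
        · obtain rfl : j = i + 1 := by omega
          have e1 : dd i (dd (i + 1) (dd i P)) = 0 := by
            rw [dd_braid, hjP, dd_zero, dd_zero]
          rw [hie, dd_desc hS _ (i + 1) hjl (by
            rw [tr_ne _ _ _ _ _ (by omega) (by omega), tr_right]
            exact hjd.trans hid), dd_desc hS _ i hil (by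
            rw [tr_left, tr_ne _ _ _ _ _ (by omega) (by omega),
              tr_ne _ _ _ _ _ (by omega) (by omega), tr_left]
            exact hjd)] at e1
          exact S_ne hS _ e1
      · subst hij
        exact hi hjP
      · by_cases h6 : j + 1 < i
        · have e1 : dd j (dd i P) = 0 := by rw [dd_comm j i h6, hjP, dd_zero]
          rw [hie, dd_desc hS _ j hjl (by
            rw [tr_ne _ _ _ _ _ (by omega) (by omega), tr_ne _ _ _ _ _ (by omega) (by omega)]
            exact hjd)] at e1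
          exact S_ne hS _ e1
        · obtain rfl : i = j + 1 := by omega
          have e1 : dd (j + 1) (dd j (dd (j + 1) P)) = 0 := by
            rw [← dd_braid, hjP, dd_zero, dd_zero]
          rw [hie, dd_desc hS _ j hjl (by
            rw [tr_left, tr_ne _ _ _ _ _ (by omega) (by omega)]
            exact hid.trans hjd), dd_desc hS _ (j + 1) hil (by
            rw [tr_ne _ _ _ _ _ (by omega) (by omega), tr_right, tr_right,
              tr_ne _ _ _ _ _ (by omega) (by omega)]
            exact hjd)] at e1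
          exact S_ne hS _ e1

end V11176.Sem
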