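import Pool.Agent.V11176.SemDD

/-!
Words of divided differences, canonical operators, and positivity of all words of divided
differences on products of elementary symmetric polynomials.
-/

namespace V11176.Sem

open MvPolynomial

/-- `seg m k = ∂_m ∘ ∂_{m+1} ∘ … ∘ ∂_{m+k-1}`. -/
noncomputable def seg : ℕ → ℕ → Poly → Poly
  | _, 0, f => f
  | m, k + 1, f => dd m (seg (m + 1) k f)

lemma seg_zero (m : ℕ) (f : Poly) : seg m 0 f = f := rfl

lemma seg_succ (m k : ℕ) (f : Poly) : seg m (k + 1) f = dd m (seg (m + 1) k f) := rfl

lemma seg_succ' : ∀ k m f, seg m (k + 1) f = seg m k (dd (m + k) f) := by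
  intro k
  induction k with
  | zero => intro m f; rfl
  | succ k ih =>
    intro m f
    rw [seg_succ, ih (m + 1) f, seg_succ m k]
    congr 3
    ring

lemma seg_zero_right : ∀ k m, seg m k 0 = 0 := by
  intro k
  induction k with
  | zero => intro m; rfl
  | succ k ih => intro m; rw [seg_succ, ih, dd_zero]

lemma seg_add : ∀ k m f g, seg m k (f + g) = seg m k f + seg m k g := by
  intro k
  induction k with
  | zero => intro m f g; rfl
  | succ k ih => intro m f g; rw [seg_succ, ih, dd_add]; rfl

lemma seg_sym_mul : ∀ k m f g, (∀ l, m ≤ l → l < m + k → sw l f = f) →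
    seg m k (f * g) = f * seg m k g := by
  intro k
  induction k with
  | zero => intro m f g _; rfl
  | succ k ih =>
    intro m f g h
    rw [seg_succ, ih (m + 1) f g (fun l h1 h2 => h l (by omega) (by omega)),
      dd_sym_mul m f _ (h m le_rfl (by omega))]
    rfl

lemma seg_comm_low : ∀ k m i f, i + 1 < m → dd i (seg m k f) = seg m k (dd i f) := by
  intro k
  induction k with
  | zero => intro m i f _; rfl
  | succ k ih =>
    intro m i f h
    rw [seg_succ, dd_comm i m h, ih (m + 1) i f (by omega)]
    rfl

lemma seg_comm_high : ∀ k m i f, m < i → i < m + k →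
    dd i (seg m k f) = seg m k (dd (i - 1) f) := by
  intro k
  induction k with
  | zero => intro m i f h1 h2; omega
  | succ k ih =>
    intro m i f h1 h2
    by_cases hi : i = m + 1
    · subst hi
      obtain ⟨k', rfl⟩ : ∃ k', k = k' + 1 := ⟨k - 1, by omega⟩
      rw [seg_succ, seg_succ, ← dd_braid, seg_comm_low k' (m + 1 + 1) m f (by omega)]
      rfl
    · rw [seg_succ, ← dd_comm m i (by omega), ih (m + 1) i f (by omega) (by omega)]
      rfl

/-- Canonical operators: one for each element of the symmetric group on `n + 1` letters. -/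
inductive Op : ℕ → (Poly → Poly) → Prop
  | zero : Op 0 id
  | succ (n m k : ℕ) (D : Poly → Poly) : m + k = n + 1 → Op n D → Op (n + 1) (seg m k ∘ D)

lemma Op.lift {n : ℕ} {D : Poly → Poly} (h : Op n D) : Op (n + 1) D := by
  have := Op.succ n (n + 1) 0 D (by omega) h
  exact this

lemma op_id : ∀ n, Op n id := by
  intro n
  induction n with
  | zero => exact Op.zero
  | succ n ih => exact ih.lift

lemma Op.map_zero {n : ℕ} {D : Poly → Poly} (h : Op n D) : D 0 = 0 := by
  induction h with
  | zero => rfl
  | succ n m k D _ _ ih => rw [Function.comp_apply, ih, seg_zero_right]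

lemma op_closure : ∀ n D, Op n D → ∀ i, i < n →
    (∀ f, dd i (D f) = 0) ∨ ∃ D', Op n D' ∧ ∀ f, dd i (D f) = D' f := by
  intro n
  induction n with
  | zero => intro D _ i hi; omega
  | succ n ih =>
    intro D hD i hi
    cases hD with
    | succ _ m k D hmk hD =>
      have key : ∀ j, j < n → (∀ f, dd i (seg m k (D f)) = seg m k (dd j (D f))) →
          (∀ f, dd i ((seg m k ∘ D) f) = 0) ∨
            ∃ D', Op (n + 1) D' ∧ ∀ f, dd i ((seg m k ∘ D) f) = D' f := by
        intro j hj hc
        rcases ih D hD j hj with h | ⟨D', hD', h⟩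
        · left
          intro f
          rw [Function.comp_apply, hc, h, seg_zero_right]
        · right
          refine ⟨seg m k ∘ D', Op.succ n m k D' hmk hD', ?_⟩
          intro f
          rw [Function.comp_apply, hc, h]
          rfl
      rcases lt_trichotomy (i + 1) m with h | h | h
      · exact key i (by omega) (fun f => seg_comm_low k m i (D f) h)
      · right
        subst h
        exact ⟨seg i (k + 1) ∘ D, Op.succ n i (k + 1) D (by omega) hD, fun f => rfl⟩
      · by_cases him : i = m
        · subst him
          left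
          intro f
          obtain ⟨k', rfl⟩ : ∃ k', k = k' + 1 := ⟨k - 1, by omega⟩
          rw [Function.comp_apply, seg_succ, dd_dd]
        · exact key (i - 1) (by omega)
            (fun f => seg_comm_high k m i (D f) (by omega) (by omega))

/-- A word of divided differences; the last letter acts first. -/
noncomputable def ddw (w : List ℕ) (f : Poly) : Poly := w.foldr dd f

lemma ddw_nil (f : Poly) : ddw [] f = f := rfl

lemma ddw_cons (i : ℕ) (w : List ℕ) (f : Poly) : ddw (i :: w) f = dd i (ddw w f) := rfl

lemma ddw_snoc (w : List ℕ) (i : ℕ) (f : Poly) : ddw (w ++ [i]) f = ddw w (dd i f) := by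
  unfold ddw
  rw [List.foldr_append]
  rfl

lemma ddw_add (w : List ℕ) (f g : Poly) : ddw w (f + g) = ddw w f + ddw w g := by
  induction w with
  | nil => rfl
  | cons i w ih => rw [ddw_cons, ddw_cons, ddw_cons, ih, dd_add]

lemma ddw_zero (w : List ℕ) : ddw w 0 = 0 := by
  induction w with
  | nil => rfl
  | cons i w ih => rw [ddw_cons, ih, dd_zero]

lemma word_closure (n : ℕ) (D : Poly → Poly) (hD : Op n D) (w : List ℕ)
    (hw : ∀ x ∈ w, x < n) :
    (∀ f, ddw w (D f) = 0) ∨ ∃ D', Op n D' ∧ ∀ f, ddw w (D f) = D' f := by
  induction w with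
  | nil => exact Or.inr ⟨D, hD, fun f => rfl⟩
  | cons i w ih =>
    rcases ih (fun x hx => hw x (List.mem_cons_of_mem _ hx)) with h | ⟨D', hD', h⟩
    · left
      intro f
      rw [ddw_cons, h, dd_zero]
    · rcases op_closure n D' hD' i (hw i List.mem_cons_self) with h2 | ⟨D'', hD'', h2⟩
      · left
        intro f
        rw [ddw_cons, h, h2]
      · right
        exact ⟨D'', hD'', fun f => by rw [ddw_cons, h, h2]⟩

/-! ### Polynomials in the first `N` variables -/

/-- `f` is a polynomial in `X 0, …, X (N-1)`. -/
def Supp (N : ℕ) (f : Poly) : Prop := f ∈ MvPolynomial.supported ℤ {x : ℕ | x < N}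

lemma Supp.mono {N M : ℕ} (h : N ≤ M) {f : Poly} (hf : Supp N f) : Supp M f :=
  MvPolynomial.supported_mono (fun x (hx : x < N) => lt_of_lt_of_le hx h) hf

lemma Supp.sw_eq {N k : ℕ} (h : N ≤ k) {f : Poly} (hf : Supp N f) : sw k f = f := by
  unfold Supp MvPolynomial.supported at hf
  induction hf using Algebra.adjoin_induction with
  | mem x hx =>
    obtain ⟨j, hj, rfl⟩ := hx
    have hj' : j < N := hj
    exact sw_X_ne k j (by omega) (by omega)
  | algebraMap r => exact AlgHom.commutes _ r
  | add x y _ _ hx hy => rw [map_add, hx, hy]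
  | mul x y _ _ hx hy => rw [map_mul, hx, hy]

lemma supp_X {N k : ℕ} (h : k < N) : Supp N (X k) :=
  Algebra.subset_adjoin ⟨k, h, rfl⟩

lemma Supp.add {N : ℕ} {f g : Poly} (hf : Supp N f) (hg : Supp N g) : Supp N (f + g) :=
  Subalgebra.add_mem _ hf hg

lemma Supp.mul {N : ℕ} {f g : Poly} (hf : Supp N f) (hg : Supp N g) : Supp N (f * g) :=
  Subalgebra.mul_mem _ hf hg

lemma supp_zero (N : ℕ) : Supp N 0 := Subalgebra.zero_mem _

lemma supp_one (N : ℕ) : Supp N 1 := Subalgebra.one_mem _

lemma Supp.sw {N k : ℕ} (h : k + 1 < N) {f : Poly} (hf : Supp N f) :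
    Supp N (V11176.Sem.sw k f) := by
  unfold Supp MvPolynomial.supported at hf
  induction hf using Algebra.adjoin_induction with
  | mem x hx =>
    obtain ⟨j, hj, rfl⟩ := hx
    have hj' : j < N := hj
    rw [sw_X]
    apply supp_X
    rw [Equiv.swap_apply_def]
    split_ifs <;> omega
  | algebraMap r => rw [AlgHom.commutes]; exact Subalgebra.algebraMap_mem _ r
  | add x y _ _ hx hy => rw [map_add]; exact hx.add hy
  | mul x y _ _ hx hy => rw [map_mul]; exact hx.mul hy

lemma Supp.dd {N k : ℕ} (h : k + 1 < N) {f : Poly} (hf : Supp N f) :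
    Supp N (V11176.Sem.dd k f) := by
  have hf' := hf
  unfold Supp MvPolynomial.supported at hf
  induction hf using Algebra.adjoin_induction with
  | mem x hx =>
    obtain ⟨j, hj, rfl⟩ := hx
    by_cases h1 : j = k
    · subst h1
      rw [dd_unique j (X j) 1 (by rw [sw_X_left]; unfold al; ring)]
      exact supp_one N
    · by_cases h2 : j = k + 1
      · subst h2
        rw [dd_unique k (X (k + 1)) (-1) (by rw [sw_X_right]; unfold al; ring)]
        exact Subalgebra.neg_mem _ (supp_one N)
      · rw [dd_of_sym _ _ (sw_X_ne k j h1 h2)]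
        exact supp_zero N
  | algebraMap r =>
    rw [dd_of_sym _ _ (AlgHom.commutes _ r)]
    exact supp_zero N
  | add x y hx0 hy0 hx hy =>
    rw [dd_add]; exact (hx hx0).add (hy hy0)
  | mul x y hx0 hy0 hx hy =>
    rw [dd_mul]
    exact ((hx hx0).mul hy0).add ((Supp.sw h hx0).mul (hy hy0))

lemma Supp.seg {N : ℕ} : ∀ k m f, m + k < N → Supp N f → Supp N (V11176.Sem.seg m k f) := by
  intro k
  induction k with
  | zero => intro m f _ hf; exact hf
  | succ k ih =>
    intro m f h hf
    exact Supp.dd (by omega) (ih (m + 1) f (by omega) hf)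

lemma supp_es : ∀ i j, Supp i (es i j) := by
  intro i
  induction i with
  | zero =>
    intro j
    cases j with
    | zero => rw [es_zero]; exact supp_one _
    | succ j => rw [es_zero_succ]; exact supp_zero _
  | succ i ih =>
    intro j
    cases j with
    | zero => rw [es_zero]; exact supp_one _
    | succ j =>
      rw [es_succ]
      exact ((ih _).mono (by omega)).add ((supp_X (by omega)).mul ((ih _).mono (by omega)))

/-! ### Products of elementary symmetric polynomials -/

/-- `e^0_{a_0} e^1_{a_1} ⋯ e^n_{a_n}`. -/
noncomputable def FF (n : ℕ) (a : ℕ → ℕ) : Poly := ∏ i ∈ Finset.range (n + 1), es i (a i)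

lemma FF_succ (n : ℕ) (a : ℕ → ℕ) : FF (n + 1) a = es (n + 1) (a (n + 1)) * FF n a := by
  unfold FF
  rw [Finset.prod_range_succ, mul_comm]

lemma Op.es_mul {n : ℕ} {D : Poly → Poly} (h : Op n D) :
    ∀ N j f, n < N → D (es N j * f) = es N j * D f := by
  induction h with
  | zero => intro N j f _; rfl
  | succ n m k D hmk _ ih =>
    intro N j f hN
    rw [Function.comp_apply, ih N j f (by omega), seg_sym_mul k m _ _
      (fun l _ h2 => sw_es_low l N (by omega) j)]
    rfl

lemma op_supp {n : ℕ} {D : Poly → Poly} (h : Op n D) : ∀ a, Supp n (D (FF n a)) := by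
  induction h with
  | zero =>
    intro a
    have : FF 0 a = es 0 (a 0) := by unfold FF; simp
    rw [this]
    exact supp_es 0 _
  | succ n m k D hmk hD ih =>
    intro a
    rw [FF_succ, Function.comp_apply, hD.es_mul (n + 1) _ _ (by omega)]
    have hG := ih a
    rcases Nat.eq_zero_or_pos k with hk | hk
    · subst hk
      rw [seg_zero]
      exact (supp_es _ _).mul (hG.mono (by omega))
    · obtain ⟨k', rfl⟩ : ∃ k', k = k' + 1 := ⟨k - 1, by omega⟩
      rw [seg_succ']
      have e1 : m + k' = n := by omega
      rw [e1, mul_comm, dd_sym_mul n _ _ (hG.sw_eq le_rfl)]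
      apply Supp.seg k' m _ (by omega)
      apply Supp.mono (show n ≤ n + 1 by omega)
      apply hG.mul
      cases h : a (n + 1) with
      | zero => rw [es_zero, dd_of_sym _ _ (map_one _)]; exact supp_zero _
      | succ j => rw [dd_es_top]; exact supp_es _ _

lemma cc_es_nonneg (i j : ℕ) : 0 ≤ constantCoeff (es i j) := by
  induction i generalizing j with
  | zero =>
    cases j with
    | zero => rw [es_zero]; simp
    | succ j => rw [es_zero_succ]; simp
  | succ i ih =>
    cases j with
    | zero => rw [es_zero]; simp
    | succ j => rw [es_succ]; simpa using ih (j + 1)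

lemma seg_pos : ∀ k m j P, (∀ T : List ℕ, (∀ x ∈ T, x < m + k) → 0 ≤ constantCoeff (ddw T P)) →
    0 ≤ constantCoeff (seg m k (es (m + k) j * P)) := by
  intro k
  induction k with
  | zero =>
    intro m j P h
    rw [seg_zero, map_mul]
    exact mul_nonneg (cc_es_nonneg _ _) (h [] (by simp))
  | succ k ih =>
    intro m j P h
    have h1 : ∀ T : List ℕ, (∀ x ∈ T, x < m + k) → 0 ≤ constantCoeff (ddw T P) :=
      fun T hT => h T (fun x hx => by have := hT x hx; omega)
    have h2 : ∀ T : List ℕ, (∀ x ∈ T, x < m + k) →
        0 ≤ constantCoeff (ddw T (dd (m + k) P)) := by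
      intro T hT
      rw [← ddw_snoc]
      apply h
      intro x hx
      rcases List.mem_append.mp hx with hx | hx
      · have := hT x hx; omega
      · rw [List.mem_singleton] at hx; omega
    rw [seg_succ']
    cases j with
    | zero =>
      rw [es_zero, one_mul]
      have := ih m 0 (dd (m + k) P) h2
      rwa [es_zero, one_mul] at this
    | succ j =>
      have e : dd (m + k) (es (m + (k + 1)) (j + 1) * P) =
          es (m + k) j * P + (es (m + k) (j + 1) * dd (m + k) P
            + X (m + k + 1) * (es (m + k) j * dd (m + k) P)) := by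
        rw [dd_mul, ← add_assoc m k 1, dd_es_top, sw_es_top]
        ring
      rw [e, seg_add, seg_add, seg_sym_mul k m (X (m + k + 1)) _
        (fun l h1 h2 => sw_X_ne l _ (by omega) (by omega)), map_add, map_add, map_mul,
        constantCoeff_X, zero_mul, add_zero]
      exact add_nonneg (ih m j P h1) (ih m (j + 1) _ h2)

theorem op_pos : ∀ n D, Op n D → ∀ a, 0 ≤ constantCoeff (D (FF n a)) := by
  intro n
  induction n with
  | zero =>
    intro D hD a
    cases hD
    have : FF 0 a = es 0 (a 0) := by unfold FF; simp
    rw [id, this]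
    exact cc_es_nonneg _ _
  | succ n ih =>
    intro D hD a
    cases hD with
    | succ _ m k D hmk hD =>
      rw [FF_succ, Function.comp_apply, hD.es_mul (n + 1) _ _ (by omega), ← hmk]
      apply seg_pos
      intro T hT
      rcases word_closure (n + 1) D hD.lift T (fun x hx => by have := hT x hx; omega) with
        h | ⟨D', hD', h⟩
      · rw [h]; simp
      · rw [h]
        cases hD' with
        | succ _ m' k' D' hmk' hD' =>
          rw [Function.comp_apply]
          rcases Nat.eq_zero_or_pos k' with hk | hk
          · subst hk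
            rw [seg_zero]
            exact ih D' hD' a
          · obtain ⟨k'', rfl⟩ : ∃ k'', k' = k'' + 1 := ⟨k' - 1, by omega⟩
            rw [seg_succ']
            have e1 : m' + k'' = n := by omega
            rw [e1, dd_of_sym _ _ ((op_supp hD' a).sw_eq le_rfl), seg_zero_right]
            simp

/-- All words of divided differences are nonnegative on products of elementary symmetric
polynomials of initial segments. -/
theorem word_pos (w : List ℕ) (n : ℕ) (hw : ∀ x ∈ w, x < n) (a : ℕ → ℕ) :
    0 ≤ constantCoeff (ddw w (FF n a)) := by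
  rcases word_closure n id (op_id n) w hw with h | ⟨D, hD, h⟩
  · have := h (FF n a)
    rw [id] at this
    rw [this]; simp
  · have := h (FF n a)
    rw [id] at this
    rw [this]
    exact op_pos n D hD a

/-! ### The longest operator -/

/-- The operator of the longest element. -/
noncomputable def LL : ℕ → Poly → Poly
  | 0, f => f
  | n + 1, f => seg 0 (n + 1) (LL n f)

lemma op_LL : ∀ n, Op n (LL n) := by
  intro n
  induction n with
  | zero => exact Op.zero
  | succ n ih => exact Op.succ n 0 (n + 1) (LL n) (by omega) ih

lemma seg_es : ∀ k, seg 0 k (es k k) = 1 := by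
  intro k
  induction k with
  | zero => rw [seg_zero, es_zero]
  | succ k ih => rw [seg_succ', zero_add, dd_es_top, ih]

lemma LL_FF : ∀ n, LL n (FF n (fun i => i)) = 1 := by
  intro n
  induction n with
  | zero => unfold FF; simp [LL, es_zero]
  | succ n ih =>
    rw [FF_succ]
    show seg 0 (n + 1) (LL n _) = 1
    rw [(op_LL n).es_mul (n + 1) _ _ (by omega), ih, mul_one, seg_es]

lemma es_gt : ∀ n j, n < j → es n j = 0 := by
  intro n
  induction n with
  | zero => intro j hj; cases j with
    | zero => omega
    | succ j => exact es_zero_succ j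
  | succ n ih =>
    intro j hj
    cases j with
    | zero => omega
    | succ j => rw [es_succ, ih _ (by omega), ih _ (by omega)]; ring

lemma es_self : ∀ n, es n n = ∏ k ∈ Finset.range n, X k := by
  intro n
  induction n with
  | zero => rw [es_zero]; simp
  | succ n ih => rw [es_succ, es_gt n (n + 1) (by omega), ih, Finset.prod_range_succ]; ring

lemma FF_rho : ∀ n, FF n (fun i => i) = ∏ i ∈ Finset.range (n + 1), (X i : Poly) ^ (n - i) := by
  intro n
  induction n with
  | zero => unfold FF; simp [es_zero]
  | succ n ih =>
    rw [FF_succ, ih, es_self, Finset.prod_range_succ _ (n + 1), Nat.sub_self, pow_zero, mul_one,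
      ← Finset.prod_mul_distrib]
    apply Finset.prod_congr rfl
    intro i hi
    have := Finset.mem_range.mp hi
    rw [show n + 1 - i = (n - i) + 1 by omega, pow_succ]
    ring

lemma es_ne_zero : ∀ i j, j ≤ i → es i j ≠ 0 := by
  intro i
  induction i with
  | zero => intro j hj; obtain rfl : j = 0 := by omega
            rw [es_zero]; exact one_ne_zero
  | succ i ih =>
    intro j hj
    cases j with
    | zero => rw [es_zero]; exact one_ne_zero
    | succ j =>
      intro h
      have h2 := dd_es_top i j
      rw [h, dd_zero] at h2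
      exact ih j (by omega) h2.symm

/-! ### Nondegeneracy -/

lemma const_of_sym (f : Poly) (h : ∀ i, sw i f = f) : f = C (constantCoeff f) := by
  have hv : f.vars = ∅ := by
    by_contra hne
    have hne' : f.vars.Nonempty := Finset.nonempty_iff_ne_empty.mpr hne
    set k := f.vars.max' hne' with hk
    have hkm : k ∈ f.vars := Finset.max'_mem _ _
    have h1 : k ∈ (sw k f).vars := by rw [h k]; exact hkm
    have h2 := MvPolynomial.vars_rename (Equiv.swap k (k + 1)) f
    have h3 := h2 h1
    obtain ⟨l, hl, hlk⟩ := Finset.mem_image.mp h3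
    have h4 : l = k + 1 := by
      have := congrArg (Equiv.swap k (k + 1)) hlk
      rwa [Equiv.swap_apply_self, Equiv.swap_apply_left] at this
    rw [h4] at hl
    have := Finset.le_max' _ _ hl
    omega
  exact MvPolynomial.vars_eq_empty_iff_eq_C.mp hv

lemma al_totalDegree (i : ℕ) : 1 ≤ (al i).totalDegree := by
  by_contra h
  have h0 : (al i).totalDegree = 0 := by omega
  rw [totalDegree_eq_zero_iff_eq_C] at h0
  have h1 : constantCoeff (al i) = 0 := by unfold al; simp
  rw [constantCoeff_eq] at h1
  rw [h1, C_0] at h0
  exact al_ne i h0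

/-- A polynomial killed (at the origin) by all words of divided differences is zero. -/
theorem nondeg (f : Poly) (h : ∀ w : List ℕ, constantCoeff (ddw w f) = 0) : f = 0 := by
  induction hn : f.totalDegree using Nat.strong_induction_on generalizing f with
  | _ n ih =>
    have hz : ∀ i, dd i f = 0 := by
      intro i
      by_contra hne
      have h1 : ∀ w : List ℕ, constantCoeff (ddw w (dd i f)) = 0 := by
        intro w
        rw [← ddw_snoc]
        exact h _
      have h2 : (al i * dd i f).totalDegree = (al i).totalDegree + (dd i f).totalDegree :=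
        totalDegree_mul_of_isDomain (al_ne i) hne
      have h3 : (f - sw i f).totalDegree ≤ f.totalDegree := by
        refine (totalDegree_sub _ _).trans (max_le le_rfl ?_)
        exact totalDegree_rename_le _ _
      rw [dd_spec] at h2
      have h4 := al_totalDegree i
      exact hne (ih _ (by omega) (dd i f) h1 rfl)
    have h1 := const_of_sym f (fun i => sym_of_dd i f (hz i))
    have h2 := h []
    rw [ddw_nil] at h2
    rw [h1, h2, C_0]

end V11176.Sem
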